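import Pool.Agent.StarkT.StmtsI
import Pool.Agent.Stark.RGT
import Pool.Agent.Stark.RTR
import Pool.Agent.Stark.TRD
import Pool.Agent.Stark.STB
import Pool.Agent.Stark.THC
import Pool.Agent.Stark.THB
import Pool.Agent.Stark.XRAT
import Pool.Agent.Stark.UNIT

/-!
# Changing `φ` multiplies the regulators of `χ` and `χ^σ` by conjugate numbers
-/

open NumberField IsDedekindDomain
open scoped TensorProduct Classical

namespace StarkC

namespace PHIR

/-! ### Linear algebra -/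

/-- If the power traces of `B'` are the conjugates of those of `B` then so is the determinant. -/
theorem det_conj (hTRD : Stmt_TRD) (σ : ℂ ≃+* ℂ) (W W' : Type) [AddCommGroup W] [Module ℂ W]
    [Module.Finite ℂ W] [AddCommGroup W'] [Module ℂ W'] [Module.Finite ℂ W']
    (B : W →ₗ[ℂ] W) (B' : W' →ₗ[ℂ] W') (hB : LinearMap.det B ≠ 0)
    (h : ∀ k : ℕ, LinearMap.trace ℂ W' (B' ^ k) = σ (LinearMap.trace ℂ W (B ^ k))) :
    LinearMap.det B' = σ (LinearMap.det B) := by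
  let b := Module.finBasis ℂ W
  set N : Matrix (Fin (Module.finrank ℂ W)) (Fin (Module.finrank ℂ W)) ℂ :=
    LinearMap.toMatrix b b B with hN
  set N' : Matrix (Fin (Module.finrank ℂ W)) (Fin (Module.finrank ℂ W)) ℂ :=
    N.map σ with hN'
  have hpow : ∀ k : ℕ, LinearMap.toMatrix b b (B ^ k) = N ^ k := by
    intro k
    rw [hN]
    have := map_pow (LinearMap.toMatrixAlgEquiv b) B k
    exact this
  have hmap : ∀ k : ℕ, N' ^ k = (N ^ k).map σ := by
    intro k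
    have := map_pow (σ : ℂ →+* ℂ).mapMatrix N k
    exact this.symm
  have hdetN : LinearMap.det B = N.det := (LinearMap.det_toMatrix b B).symm
  have hdetN' : N'.det = σ (LinearMap.det B) := by
    rw [hdetN]
    exact ((σ : ℂ →+* ℂ).map_det N).symm
  have htrN : ∀ k : ℕ, LinearMap.trace ℂ W (B ^ k) = (N ^ k).trace := by
    intro k
    rw [LinearMap.trace_eq_matrix_trace ℂ b, hpow]
  have hd0 : LinearMap.det (Matrix.toLin' N') ≠ 0 := by
    rw [LinearMap.det_toLin', hdetN']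
    exact (map_ne_zero_iff σ σ.injective).2 hB
  have key := hTRD 1 W' B' (fun _ => Fin (Module.finrank ℂ W) → ℂ)
    (fun _ => Matrix.toLin' N') (fun _ => 1) (fun _ => hd0) ?_
  · rw [Fin.prod_univ_one, zpow_one, LinearMap.det_toLin', hdetN'] at key
    exact key
  · intro k
    rw [Fin.sum_univ_one, Int.cast_one, one_mul, h k, htrN k, ← Matrix.toLin'_pow,
      Matrix.trace_toLin'_eq, hmap k, Matrix.trace, Matrix.trace, map_sum]
    rfl

variable {L : Type} [Field L] [NumberField L] {T : Set (HeightOneSpectrum (𝓞 L))}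

/-- `z` is the complexification of `x`. -/
def Cx (x : XQ L T) (z : XC L T) : Prop :=
  ∀ a, z.val a = ((((x : XQ L T) : (L → ℝ) →₀ ℚ) a : ℚ) : ℂ)

theorem Cx.unique {x : XQ L T} {z z' : XC L T} (h : Cx x z) (h' : Cx x z') : z = z' := by
  apply THB.val_inj
  ext a
  rw [h a, h' a]

theorem Cx.sum {n : ℕ} (q : Fin n → ℚ) (x : Fin n → XQ L T) (z : Fin n → XC L T)
    (h : ∀ i, Cx (x i) (z i)) : Cx (∑ i, q i • x i) (∑ i, ((q i : ℚ) : ℂ) • z i) := by
  intro a
  rw [Submodule.coe_sum, map_sum, Finsupp.finsetSum_apply, Finsupp.finsetSum_apply]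
  push_cast
  apply Finset.sum_congr rfl
  intro i _
  rw [map_smul, Finsupp.smul_apply, h i a, smul_eq_mul, Pi.smul_apply, smul_eq_mul]
  push_cast
  rfl

/-- An endomorphism of `XC` which respects the rational structure has a rational trace. -/
theorem trace_rat {n : ℕ} (b : Module.Basis (Fin n) ℚ (XQ L T)) (c : Module.Basis (Fin n) ℂ (XC L T))
    (hbc : ∀ i, Cx (b i) (c i)) (p : XQ L T → XQ L T) (P : XC L T →ₗ[ℂ] XC L T)
    (h : ∀ x z, Cx x z → Cx (p x) (P z)) : ∃ q : ℚ, LinearMap.trace ℂ (XC L T) P = (q : ℂ) := by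
  refine ⟨∑ i, b.repr (p (b i)) i, ?_⟩
  rw [LinearMap.trace_eq_matrix_trace ℂ c, Matrix.trace]
  push_cast
  apply Finset.sum_congr rfl
  intro i _
  rw [Matrix.diag_apply, LinearMap.toMatrix_apply]
  have h1 : P (c i) = ∑ j, ((b.repr (p (b i)) j : ℚ) : ℂ) • c j := by
    refine Cx.unique (h _ _ (hbc i)) ?_
    have := Cx.sum (fun j => b.repr (p (b i)) j) (fun j => b j) (fun j => c j) hbc
    rw [b.sum_repr] at this
    exact this
  rw [h1, map_sum, Finsupp.finsetSum_apply, Finset.sum_eq_single i]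
  · simp
  · intro j _ hj
    simp [Finsupp.single_eq_of_ne (Ne.symm hj)]
  · intro hi
    exact absurd (Finset.mem_univ i) hi

/-! ### Regulators -/

section Reg

variable {K : Type} [Field K] [NumberField K] [Algebra K L]

omit [NumberField K] in
theorem hom_stable (hT : StableT K T) {V : Type} [AddCommGroup V] [Module ℂ V]
    (ρ : Representation ℂ (L ≃ₐ[K] L) V) (Θ : XC L T →ₗ[ℂ] XC L T)
    (hc : ∀ g : L ≃ₐ[K] L, Θ ∘ₗ repX K T hT g = repX K T hT g ∘ₗ Θ) :
    ∀ f ∈ homG T ρ, LinearMap.compRight ℂ Θ f ∈ homG T ρ := by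
  intro f hf g α
  have h1 : f (ρ.dual g α) = repX K T hT g (f α) := THB.val_inj (hf g α)
  have h2 := LinearMap.congr_fun (hc g) (f α)
  rw [LinearMap.comp_apply, LinearMap.comp_apply] at h2
  rw [LinearMap.compRight_apply, LinearMap.comp_apply, h1, h2, LinearMap.comp_apply]
  rfl

omit [NumberField K] in
/-- The regulator is multiplicative. -/
theorem reg_mul (hT : StableT K T) {V : Type} [AddCommGroup V] [Module ℂ V]
    (ρ : Representation ℂ (L ≃ₐ[K] L) V) (Θ A : XC L T →ₗ[ℂ] XC L T)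
    (hc : ∀ g : L ≃ₐ[K] L, Θ ∘ₗ repX K T hT g = repX K T hT g ∘ₗ Θ)
    (hA : ∀ g : L ≃ₐ[K] L, A ∘ₗ repX K T hT g = repX K T hT g ∘ₗ A) :
    Reg T ρ (Θ ∘ₗ A) = Reg T ρ A * Reg T ρ Θ := by
  have hcA : ∀ g : L ≃ₐ[K] L, (Θ ∘ₗ A) ∘ₗ repX K T hT g = repX K T hT g ∘ₗ (Θ ∘ₗ A) := by
    intro g
    rw [LinearMap.comp_assoc, hA g, ← LinearMap.comp_assoc, hc g, LinearMap.comp_assoc]
  have h1 := hom_stable hT ρ Θ hc
  have h2 := hom_stable hT ρ A hA
  have h3 := hom_stable hT ρ (Θ ∘ₗ A) hcA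
  rw [Reg, Reg, Reg, dif_pos h1, dif_pos h2, dif_pos h3, mul_comm, ← LinearMap.det_comp]
  rfl

end Reg

section Main

variable {K : Type} [Field K] [NumberField K] [Algebra K L]

theorem main (hTf : T.Finite) (hT : StableT K T)
    (φ φ₂ : XQ L T ≃ₗ[ℚ] QU L T) (Θ Θ₂ : XC L T →ₗ[ℂ] XC L T)
    (V V' : Type) [AddCommGroup V] [Module ℂ V] [Module.Finite ℂ V]
    [AddCommGroup V'] [Module ℂ V'] [Module.Finite ℂ V']
    (ρ : Representation ℂ (L ≃ₐ[K] L) V) (ρ' : Representation ℂ (L ≃ₐ[K] L) V') (σ : ℂ ≃+* ℂ)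
    (hφ : IsPhiTheta K T φ Θ) (hφ₂ : IsPhiTheta K T φ₂ Θ₂)
    (hχ : ∀ g, ρ'.character g = σ (ρ.character g)) :
    ∃ x : ℂ, x ≠ 0 ∧ Reg T ρ Θ₂ = x * Reg T ρ Θ ∧ Reg T ρ' Θ₂ = σ x * Reg T ρ' Θ := by
  have hXRAT : Stmt_XRAT := XRAT_thm
  have hRGT : Stmt_RGT := RGT_thm RTR_thm
  have hTRD : Stmt_TRD := TRD_thm
  obtain ⟨n, b, c, hbc⟩ := hXRAT L T hTf
  have hbc' : ∀ i, Cx (b i) (c i) := hbc
  have : Module.Finite ℂ (XC L T) := Module.Finite.of_basis c
  -- the rational automorphism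
  let α : XQ L T → XQ L T := fun x => φ.symm (φ₂ x)
  have hα : ∀ x, φ (α x) = φ₂ x := fun x => LinearEquiv.apply_symm_apply _ _
  let A : XC L T →ₗ[ℂ] XC L T := c.constr ℂ fun i =>
    ∑ j, ((b.repr (α (b i)) j : ℚ) : ℂ) • c j
  have hA0 : ∀ i, Cx (α (b i)) (A (c i)) := by
    intro i
    have h1 : A (c i) = ∑ j, ((b.repr (α (b i)) j : ℚ) : ℂ) • c j := c.constr_basis ℂ _ i
    rw [h1]
    have := Cx.sum (fun j => b.repr (α (b i)) j) (fun j => b j) (fun j => c j) hbc'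
    rw [b.sum_repr] at this
    exact this
  have hA : ∀ x z, Cx x z → Cx (α x) (A z) := by
    intro x z hxz
    have h1 : z = ∑ j, ((b.repr x j : ℚ) : ℂ) • c j := by
      refine Cx.unique hxz ?_
      have := Cx.sum (fun j => b.repr x j) (fun j => b j) (fun j => c j) hbc'
      rw [b.sum_repr] at this
      exact this
    have h2 : α x = ∑ j, b.repr x j • α (b j) := by
      show φ.symm (φ₂ x) = ∑ j, b.repr x j • φ.symm (φ₂ (b j))
      conv_lhs => rw [← b.sum_repr x]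
      rw [map_sum, map_sum]
      simp only [map_smul]
    rw [h1, h2, map_sum]
    simp only [map_smul]
    exact Cx.sum _ _ _ hA0
  have hΘA : Θ ∘ₗ A = Θ₂ := by
    refine c.ext fun i => ?_
    apply THB.val_inj
    rw [LinearMap.comp_apply, hφ.2 (α (b i)) (A (c i)) (hA0 i), hα, hφ₂.2 (b i) (c i) (hbc i)]
  have hact : ∀ (g : L ≃ₐ[K] L) (x : XQ L T),
      α ⟨actQ (g : L ≃+* L) x, THC.actQ_mem hT g x.2⟩ =
        ⟨actQ (g : L ≃+* L) (α x), THC.actQ_mem hT g (α x).2⟩ := by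
    intro g x
    apply φ.injective
    apply Subtype.ext
    have e1 := hφ₂.1 g x ⟨actQ (g : L ≃+* L) x, THC.actQ_mem hT g x.2⟩ rfl
    have e2 := hφ.1 g (α x) ⟨actQ (g : L ≃+* L) (α x), THC.actQ_mem hT g (α x).2⟩ rfl
    rw [hα, e1, e2, hα]
  have hrep : ∀ (g : L ≃ₐ[K] L) (x : XQ L T) (z : XC L T), Cx x z →
      Cx ⟨actQ (g : L ≃+* L) x, THC.actQ_mem hT g x.2⟩ (repX K T hT g z) := by
    intro g x z hxz a
    rw [repX_val, THC.actC_apply, hxz]
    simp only [THC.actQ_apply]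
  have hAc : ∀ g : L ≃ₐ[K] L, A ∘ₗ repX K T hT g = repX K T hT g ∘ₗ A := by
    intro g
    refine c.ext fun i => ?_
    rw [LinearMap.comp_apply, LinearMap.comp_apply]
    have h1 := hA _ _ (hrep g (b i) (c i) (hbc' i))
    have h2 := hrep g _ _ (hA _ _ (hbc' i))
    rw [hact] at h1
    exact Cx.unique h1 h2
  have hΘc := THC_thm hXRAT K L T hT φ Θ hTf hφ
  have hΘb := THB_thm hXRAT UNIT_thm K L T φ Θ hTf hφ
  have hΘ₂b := THB_thm hXRAT UNIT_thm K L T φ₂ Θ₂ hTf hφ₂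
  have hAb : Function.Bijective A := by
    have h1 : Function.Injective A := by
      intro x y hxy
      apply hΘ₂b.1
      rw [← hΘA, LinearMap.comp_apply, LinearMap.comp_apply, hxy]
    exact ⟨h1, LinearMap.injective_iff_surjective.1 h1⟩
  obtain ⟨W, _, _, _, B, hB1, hB2, hB3⟩ := hRGT K L T hT A V ρ hTf hAc hAb
  obtain ⟨W', _, _, _, B', hB1', hB2', hB3'⟩ := hRGT K L T hT A V' ρ' hTf hAc hAb
  have hApow : ∀ (k : ℕ) (x : XQ L T) (z : XC L T), Cx x z → Cx (α^[k] x) ((A ^ k) z) := by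
    intro k
    induction k with
    | zero => intro x z h; exact h
    | succ k ih =>
      intro x z h
      rw [Function.iterate_succ_apply, pow_succ]
      exact ih _ _ (hA _ _ h)
  have htr : ∀ (g : L ≃ₐ[K] L) (k : ℕ), ∃ q : ℚ,
      LinearMap.trace ℂ (XC L T) (repX K T hT g ∘ₗ (A ^ k)) = (q : ℂ) := by
    intro g k
    exact trace_rat b c hbc' (fun x => ⟨actQ (g : L ≃+* L) (α^[k] x),
      THC.actQ_mem hT g (α^[k] x).2⟩) _ fun x z h => hrep g _ _ (hApow k _ _ h)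
  have hconj : LinearMap.det B' = σ (LinearMap.det B) := by
    refine det_conj hTRD σ W W' B B' hB2 fun k => ?_
    rw [hB3' k, hB3 k, map_div₀, map_sum, map_natCast]
    congr 1
    apply Finset.sum_congr rfl
    intro g _
    obtain ⟨q, hq⟩ := htr g k
    rw [map_mul, hq, map_ratCast, hχ g]
  refine ⟨Reg T ρ A, ?_, ?_, ?_⟩
  · rw [← hB1]; exact hB2
  · rw [← hΘA]
    exact reg_mul hT ρ Θ A hΘc hAc
  · rw [← hΘA, reg_mul hT ρ' Θ A hΘc hAc, ← hB1', hconj, hB1]

end Main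

end PHIR

/-- Changing `φ` multiplies the regulators of `χ` and `χ^σ` by conjugate numbers. -/
theorem PHIR_thm : Stmt_PHIR := by
  intro K L _ _ _ _ _ _ S φ φ₂ Θ Θ₂ V V' _ _ _ _ _ _ ρ ρ' σ hφ hφ₂ hχ
  have hTf : (aboveSet K L (S : Set (HeightOneSpectrum (𝓞 K)))).Finite := by
    have h1 : aboveSet K L (S : Set (HeightOneSpectrum (𝓞 K))) =
        ⋃ v ∈ (S : Set (HeightOneSpectrum (𝓞 K))), above K L v := by
      ext w
      simp [aboveSet, above]
    rw [h1]
    refine S.finite_toSet.biUnion fun v _ => ?_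
    have h2 : (v.asIdeal.primesOver (𝓞 L)).Finite :=
      IsDedekindDomain.primesOver_finite _ _
    refine Set.Finite.of_finite_image (f := fun w : HeightOneSpectrum (𝓞 L) => w.asIdeal)
      (h2.subset ?_) ?_
    · rintro _ ⟨w, hw, rfl⟩
      refine ⟨w.isPrime, ⟨?_⟩⟩
      have h3 : w.under (𝓞 K) = v := hw
      rw [← h3]
      rfl
    · intro a _ b _ hab
      exact HeightOneSpectrum.ext hab
  exact PHIR.main hTf (STB_thm K L _) φ φ₂ Θ Θ₂ V V' ρ ρ' σ hφ hφ₂ hχ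

end StarkC
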