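import Pool.Agent.StarkT.Stmts
import Pool.Agent.Stark.LA
import Pool.Agent.Stark.LB

/-!
# Module EUL: removing Euler factors from the Dedekind zeta function
-/

open NumberField IsDedekindDomain
open scoped TensorProduct Classical

namespace StarkC

namespace EUL

section

variable {K : Type} [Field K]

theorem above_self (v : HeightOneSpectrum (𝓞 K)) : above K K v = {v} := by
  have key : ∀ (u : HeightOneSpectrum (𝓞 K)) (I : Ideal (𝓞 K)),
      I = Ideal.comap (RingHom.id (𝓞 K)) u.asIdeal → I = u.asIdeal := by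
    intro u I h
    rw [h, Ideal.comap_id]
  ext w
  rw [Set.mem_singleton_iff]
  constructor
  · intro h
    have h1 : _ = v := h
    have h2 := congrArg HeightOneSpectrum.asIdeal h1
    apply HeightOneSpectrum.ext
    rw [← h2]
    exact (key w _ rfl).symm
  · rintro rfl
    show _ = w
    apply HeightOneSpectrum.ext
    exact key w _ rfl

theorem under_eq {v w : HeightOneSpectrum (𝓞 K)} (h : w ∈ above K K v) : w = v := by
  rw [above_self] at h
  exact h

variable [NumberField K]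

theorem io_eq (p : HeightOneSpectrum (𝓞 K) × ℕ) :
    LB.io K (N := K) p = (p.1, Ideal.absNorm p.1.asIdeal ^ (p.2 + 1)) := by
  refine Prod.ext rfl ?_
  exact congrArg (fun v : HeightOneSpectrum (𝓞 K) => Ideal.absNorm v.asIdeal ^ (p.2 + 1))
    (under_eq (rfl : p.1 ∈ above K K _)).symm

theorem pow_sub_mem (v : HeightOneSpectrum (𝓞 K)) (m : ℕ) (x : 𝓞 K) :
    x - x ^ (Ideal.absNorm v.asIdeal ^ m) ∈ v.asIdeal := by
  have hmax : v.asIdeal.IsMaximal := v.isPrime.isMaximal v.ne_bot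
  let _ : Field (𝓞 K ⧸ v.asIdeal) := Ideal.Quotient.field v.asIdeal
  have hfin : Finite (𝓞 K ⧸ v.asIdeal) := Ideal.finiteQuotientOfFreeOfNeBot v.asIdeal v.ne_bot
  have : Fintype (𝓞 K ⧸ v.asIdeal) := Fintype.ofFinite _
  rw [← Ideal.Quotient.eq, map_pow]
  have h1 : Ideal.absNorm v.asIdeal = Fintype.card (𝓞 K ⧸ v.asIdeal) := by
    rw [← LB.card_quot, Nat.card_eq_fintype_card]
  rw [h1, FiniteField.pow_card_pow]

theorem frobPow_all (v : HeightOneSpectrum (𝓞 K)) (m : ℕ) (g : K ≃ₐ[K] K) :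
    FrobPow K v (Ideal.absNorm v.asIdeal ^ m) g := by
  intro x y hxy
  have hg : g (x : K) = (x : K) := g.commutes (x : K)
  have : y = x := RingOfIntegers.ext (by rw [hxy, hg])
  rw [this]
  exact pow_sub_mem v m x

theorem artinCoef_one (v : HeightOneSpectrum (𝓞 K)) (m : ℕ) :
    artinCoef (K := K) (L := K) (fun _ => 1) v m = 1 := by
  rw [artinCoef, above_self, finsum_mem_singleton, Set.ncard_singleton, Nat.cast_one, div_one,
    localTrace]
  have h1 : (Finset.univ.filter (fun g : K ≃ₐ[K] K =>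
      FrobPow K v (Ideal.absNorm v.asIdeal ^ m) g)) = Finset.univ :=
    Finset.filter_true_of_mem fun g _ => frobPow_all v m g
  have h2 : (Finset.univ.filter (fun g : K ≃ₐ[K] K => FrobPow K v 1 g)) = Finset.univ :=
    Finset.filter_true_of_mem fun g _ => by
      have := frobPow_all v 0 g
      rwa [pow_zero] at this
  rw [h1, h2, Finset.sum_const, nsmul_eq_mul, mul_one]
  refine div_self ?_
  have : (Finset.univ : Finset (K ≃ₐ[K] K)).card ≠ 0 :=
    Finset.card_ne_zero.2 ⟨1, Finset.mem_univ _⟩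
  exact_mod_cast this

/-- The term of the logarithm of the zeta function. -/
noncomputable def tm (s : ℂ) (p : HeightOneSpectrum (𝓞 K) × ℕ) : ℂ :=
  1 / (((p.2 + 1 : ℕ) : ℂ) * (Ideal.absNorm p.1.asIdeal : ℂ) ^ (((p.2 + 1 : ℕ) : ℂ) * s))

/-- The terms outside `S`. -/
noncomputable def ft (S : Set (HeightOneSpectrum (𝓞 K))) (s : ℂ)
    (p : HeightOneSpectrum (𝓞 K) × ℕ) : ℂ := if p.1 ∈ S then 0 else tm s p

theorem ft_pos {S : Set (HeightOneSpectrum (𝓞 K))} {s : ℂ} {p : HeightOneSpectrum (𝓞 K) × ℕ}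
    (h : p.1 ∈ S) : ft S s p = 0 := if_pos h

theorem ft_neg {S : Set (HeightOneSpectrum (𝓞 K))} {s : ℂ} {p : HeightOneSpectrum (𝓞 K) × ℕ}
    (h : p.1 ∉ S) : ft S s p = tm s p := if_neg h

theorem logL_one (S : Set (HeightOneSpectrum (𝓞 K))) (s : ℂ) :
    logL (K := K) (L := K) (fun _ => 1) S s =
      ∑' p : HeightOneSpectrum (𝓞 K) × ℕ, ft S s p := by
  rw [logL]
  refine tsum_congr fun p => ?_
  rw [artinCoef_one]
  rfl

theorem cast_ne (v : HeightOneSpectrum (𝓞 K)) : (Ideal.absNorm v.asIdeal : ℂ) ≠ 0 := by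
  have := LB.one_lt_absNorm v
  exact_mod_cast (by omega : Ideal.absNorm v.asIdeal ≠ 0)

theorem tm_eq (s : ℂ) (v : HeightOneSpectrum (𝓞 K)) (m : ℕ) :
    tm s (v, m) = ((Ideal.absNorm v.asIdeal : ℂ) ^ (-s)) ^ (m + 1) / ((m : ℂ) + 1) := by
  rw [tm]
  simp only
  rw [Complex.cpow_nat_mul, Complex.cpow_neg, inv_pow]
  have h1 : ((m : ℂ) + 1) ≠ 0 := by exact_mod_cast Nat.succ_ne_zero m
  have h2 : ((Ideal.absNorm v.asIdeal : ℂ) ^ s) ≠ 0 := by
    rw [Ne, Complex.cpow_eq_zero_iff]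
    exact fun h => cast_ne v h.1
  push_cast
  field_simp

theorem norm_lt_one (s : ℂ) (hs : 1 < s.re) (v : HeightOneSpectrum (𝓞 K)) :
    ‖(Ideal.absNorm v.asIdeal : ℂ) ^ (-s)‖ < 1 := by
  have h1 := LB.one_lt_absNorm v
  rw [Complex.norm_natCast_cpow_of_pos (by omega)]
  apply Real.rpow_lt_one_of_one_lt_of_neg
  · exact_mod_cast h1
  · rw [Complex.neg_re]; linarith

theorem one_sub_ne (s : ℂ) (hs : 1 < s.re) (v : HeightOneSpectrum (𝓞 K)) :
    1 - (Ideal.absNorm v.asIdeal : ℂ) ^ (-s) ≠ 0 := by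
  intro h
  have h1 := norm_lt_one s hs v
  rw [← sub_eq_zero.1 h, norm_one] at h1
  exact lt_irrefl _ h1

theorem tsum_local (s : ℂ) (hs : 1 < s.re) (v : HeightOneSpectrum (𝓞 K)) :
    ∑' m : ℕ, tm s (v, m) = -Complex.log (1 - (Ideal.absNorm v.asIdeal : ℂ) ^ (-s)) := by
  rw [← (Complex.hasSum_taylorSeries_neg_log' (norm_lt_one s hs v)).tsum_eq]
  exact tsum_congr fun m => tm_eq s v m

theorem summable_tm (s : ℂ) (hs : 1 < s.re) :
    Summable (tm (K := K) s) := by
  have h1 := (LA_thm K ∅ s hs).comp_injective (LB.io_injective (K := K) (N := K))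
  refine Summable.of_norm ?_
  refine h1.congr fun p => ?_
  obtain ⟨v, m⟩ := p
  rw [Function.comp_apply, io_eq]
  simp only
  obtain ⟨n, hp, hn⟩ := LB.absNorm_eq_pow (K := K) v
  have hv : Ideal.absNorm v.asIdeal = rchar K v ^ (n + 1) := by
    rw [← hn]
    exact congrArg (fun v : HeightOneSpectrum (𝓞 K) => Ideal.absNorm v.asIdeal)
      (under_eq (rfl : v ∈ above K K _))
  have h2 : (v, Ideal.absNorm v.asIdeal ^ (m + 1)).1 ∉ (∅ : Set (HeightOneSpectrum (𝓞 K))) ∧
      ∃ j : ℕ, (v, Ideal.absNorm v.asIdeal ^ (m + 1)).2 = rchar K v ^ (j + 1) := by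
    refine ⟨fun h => h, (n + 1) * (m + 1) - 1, ?_⟩
    have h0 : 0 < (n + 1) * (m + 1) := by positivity
    simp only
    rw [Nat.sub_add_cancel h0, pow_mul, ← hv]
  rw [wt, if_pos h2]
  simp only
  congr 1
  have h3 := LB.one_lt_absNorm v
  have hlog : Real.log (Ideal.absNorm v.asIdeal : ℝ) ≠ 0 :=
    (Real.log_pos (by exact_mod_cast h3)).ne'
  rw [tm_eq]
  have h4 : Real.log (Ideal.absNorm v.asIdeal : ℝ) /
      Real.log ((Ideal.absNorm v.asIdeal ^ (m + 1) : ℕ) : ℝ) = 1 / ((m : ℝ) + 1) := by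
    rw [Nat.cast_pow, Real.log_pow]
    push_cast
    have h4 : ((m : ℝ) + 1) ≠ 0 := by positivity
    field_simp
  rw [h4]
  push_cast
  rw [← Complex.natCast_cpow_natCast_mul]
  rw [Complex.cpow_nat_mul, one_div, div_eq_inv_mul]

end

end EUL

theorem EUL_thm : Stmt_EUL := by
  intro K _ _ S S₂ hS s hs
  rw [EUL.logL_one, EUL.logL_one]
  have hsum := EUL.summable_tm (K := K) s hs
  have hsum2 : Summable (fun p : HeightOneSpectrum (𝓞 K) × ℕ =>
      EUL.ft (S₂ : Set (HeightOneSpectrum (𝓞 K))) s p) := by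
    refine Summable.of_norm_bounded hsum.norm fun p => ?_
    by_cases h : p.1 ∈ (S₂ : Set (HeightOneSpectrum (𝓞 K)))
    · rw [EUL.ft_pos h, norm_zero]
      exact norm_nonneg _
    · rw [EUL.ft_neg h]
  have hloc : ∀ v : HeightOneSpectrum (𝓞 K), Summable (fun p : HeightOneSpectrum (𝓞 K) × ℕ =>
      if p.1 = v then EUL.tm s p else 0) := by
    intro v
    refine Summable.of_norm_bounded hsum.norm fun p => ?_
    split_ifs
    · exact le_rfl
    · simp
  have hdec : ∀ p : HeightOneSpectrum (𝓞 K) × ℕ,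
      EUL.ft (S : Set (HeightOneSpectrum (𝓞 K))) s p =
      EUL.ft (S₂ : Set (HeightOneSpectrum (𝓞 K))) s p +
        ∑ v ∈ S₂ \ S, if p.1 = v then EUL.tm s p else 0 := by
    intro p
    rw [Finset.sum_ite_eq]
    by_cases h1 : p.1 ∈ S
    · rw [EUL.ft_pos (Finset.mem_coe.2 h1), EUL.ft_pos (Finset.mem_coe.2 (hS h1)), if_neg, add_zero]
      rw [Finset.mem_sdiff]
      exact fun h => h.2 h1
    · rw [EUL.ft_neg (fun h => h1 (Finset.mem_coe.1 h))]
      by_cases h2 : p.1 ∈ S₂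
      · rw [EUL.ft_pos (Finset.mem_coe.2 h2), if_pos (Finset.mem_sdiff.2 ⟨h2, h1⟩), zero_add]
      · rw [EUL.ft_neg (fun h => h2 (Finset.mem_coe.1 h)), if_neg, add_zero]
        rw [Finset.mem_sdiff]
        exact fun h => h2 h.1
  have hone : ∀ v : HeightOneSpectrum (𝓞 K),
      ∑' p : HeightOneSpectrum (𝓞 K) × ℕ, (if p.1 = v then EUL.tm s p else 0) =
        -Complex.log (1 - (Ideal.absNorm v.asIdeal : ℂ) ^ (-s)) := by
    intro v
    rw [← EUL.tsum_local s hs v]
    have hinj : Function.Injective (fun m : ℕ => (v, m)) := fun a b h => (Prod.mk.inj h).2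
    rw [← hinj.tsum_eq]
    · exact tsum_congr fun m => if_pos rfl
    · rintro ⟨w, m⟩ hp
      rw [Function.mem_support] at hp
      by_cases h : w = v
      · exact ⟨m, by rw [h]⟩
      · exact absurd (if_neg h) hp
  have hexp : ∀ v : HeightOneSpectrum (𝓞 K),
      Complex.exp (-Complex.log (1 - (Ideal.absNorm v.asIdeal : ℂ) ^ (-s))) =
        (1 - (Ideal.absNorm v.asIdeal : ℂ) ^ (-s))⁻¹ := by
    intro v
    rw [Complex.exp_neg, Complex.exp_log (EUL.one_sub_ne s hs v)]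
  rw [tsum_congr hdec, Summable.tsum_add hsum2 (summable_sum fun v _ => hloc v),
    Summable.tsum_finsetSum (fun v _ => hloc v), Complex.exp_add, Complex.exp_sum]
  simp only [hone, hexp]
  rw [mul_assoc, ← Finset.prod_mul_distrib, Finset.prod_eq_one, mul_one]
  intro v _
  exact inv_mul_cancel₀ (EUL.one_sub_ne s hs v)

end StarkC
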