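import Pool.Agent.StarkT.StmtsI
import Pool.Agent.StarkT.EUL
import Pool.Agent.Stark.LINF

/-!
# Module SLF: the Euler factor of a linear character and of its conjugate
-/

open NumberField IsDedekindDomain
open scoped Classical Pointwise

namespace StarkC

namespace SLF

section

variable {K L : Type} [Field K] [NumberField K] [Field L] [NumberField L] [Algebra K L]

omit [NumberField K] in
theorem frobPow_mul {w : HeightOneSpectrum (𝓞 L)} {q q' : ℕ} {g g' : L ≃ₐ[K] L}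
    (h : FrobPow L w q g) (h' : FrobPow L w q' g') :
    FrobPow L w (q' * q) (g * g' : L ≃ₐ[K] L) := by
  rw [LINF.frobPow_iff] at h h' ⊢
  intro x
  have e1 := h (g' • x)
  have e2 : (g' • x) ^ q - (x ^ q') ^ q ∈ w.asIdeal := by
    rw [← Ideal.Quotient.eq, map_pow, map_pow]
    have e3 := h' x
    rw [← Ideal.Quotient.eq] at e3
    rw [e3]
  have e4 := w.asIdeal.add_mem e1 e2
  rw [sub_add_sub_cancel] at e4
  rw [mul_smul, pow_mul]
  exact e4

omit [NumberField K] in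
theorem frobPow_one (w : HeightOneSpectrum (𝓞 L)) : FrobPow L w 1 (1 : L ≃ₐ[K] L) := by
  rw [LINF.frobPow_iff]
  intro x
  simp

omit [NumberField K] in
theorem frobPow_pow {w : HeightOneSpectrum (𝓞 L)} {q : ℕ} {g : L ≃ₐ[K] L}
    (h : FrobPow L w q g) (m : ℕ) : FrobPow L w (q ^ m) (g ^ m : L ≃ₐ[K] L) := by
  induction m with
  | zero => simpa using frobPow_one (K := K) w
  | succ m ih =>
    rw [pow_succ, pow_succ']
    exact frobPow_mul h ih

theorem frobPow_inv_mul {w : HeightOneSpectrum (𝓞 L)} {q : ℕ} (hq : q ≠ 0) {g b : L ≃ₐ[K] L}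
    (hg : FrobPow L w q g) (hb : FrobPow L w q b) : FrobPow L w 1 (g⁻¹ * b : L ≃ₐ[K] L) := by
  have hst := LINF.smul_ideal_eq hq hg
  rw [LINF.frobPow_iff] at hg hb ⊢
  intro x
  have e1 := w.asIdeal.sub_mem (hb x) (hg x)
  rw [sub_sub_sub_cancel_right] at e1
  have e2 : g⁻¹ • (b • x - g • x) ∈ w.asIdeal := by
    rw [← Ideal.mem_pointwise_smul_iff_inv_smul_mem, hst]
    exact e1
  rw [smul_sub, inv_smul_smul] at e2
  rw [pow_one, mul_smul]
  exact e2

/-- The elements with `FrobPow w q` are a coset of the inertia group. -/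
theorem sum_coset (χ : (L ≃ₐ[K] L) → ℂ) {w : HeightOneSpectrum (𝓞 L)} {q : ℕ} (hq : q ≠ 0)
    {g : L ≃ₐ[K] L} (hg : FrobPow L w q g) :
    ∑ b ∈ Finset.univ.filter (fun b : L ≃ₐ[K] L => FrobPow L w q b), χ b =
      ∑ k ∈ Finset.univ.filter (fun k : L ≃ₐ[K] L => FrobPow L w 1 k), χ (g * k) := by
  symm
  refine Finset.sum_bij (fun k _ => g * k) ?_ ?_ ?_ ?_
  · intro k hk
    rw [Finset.mem_filter] at hk ⊢
    refine ⟨Finset.mem_univ _, ?_⟩
    have := frobPow_mul hg hk.2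
    rwa [one_mul] at this
  · intro a _ b _ hab
    exact mul_left_cancel hab
  · intro b hb
    rw [Finset.mem_filter] at hb
    refine ⟨g⁻¹ * b, ?_, by group⟩
    rw [Finset.mem_filter]
    exact ⟨Finset.mem_univ _, frobPow_inv_mul hq hg hb.2⟩
  · intro k _
    rfl

/-- The eigenvalue of Frobenius on the inertia invariants. -/
noncomputable def zOf (χ : (L ≃ₐ[K] L) →* ℂ) (w : HeightOneSpectrum (𝓞 L)) (g : L ≃ₐ[K] L) : ℂ :=
  if ∀ k : L ≃ₐ[K] L, FrobPow L w 1 k → χ k = 1 then χ g else 0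

theorem sum_inertia (χ : (L ≃ₐ[K] L) →* ℂ) (w : HeightOneSpectrum (𝓞 L)) :
    (∑ k ∈ Finset.univ.filter (fun k : L ≃ₐ[K] L => FrobPow L w 1 k), χ k) /
      (Finset.univ.filter (fun k : L ≃ₐ[K] L => FrobPow L w 1 k)).card =
    if ∀ k : L ≃ₐ[K] L, FrobPow L w 1 k → χ k = 1 then 1 else 0 := by
  split_ifs with h
  · rw [Finset.sum_congr rfl (g := fun _ => (1 : ℂ))
      (fun k hk => h k (Finset.mem_filter.1 hk).2), Finset.sum_const, nsmul_eq_mul, mul_one]
    refine div_self ?_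
    have : (Finset.univ.filter (fun k : L ≃ₐ[K] L => FrobPow L w 1 k)).card ≠ 0 := by
      rw [Finset.card_ne_zero]
      exact ⟨1, Finset.mem_filter.2 ⟨Finset.mem_univ _, frobPow_one w⟩⟩
    exact_mod_cast this
  · push Not at h
    obtain ⟨k, hk, hne⟩ := h
    have h1 := sum_coset (fun b => χ b) one_ne_zero hk
    simp only [map_mul] at h1
    rw [← Finset.mul_sum] at h1
    have h2 : (∑ k ∈ Finset.univ.filter (fun k : L ≃ₐ[K] L => FrobPow L w 1 k), χ k) = 0 := by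
      by_contra h3
      apply hne
      have h4 : (1 - χ k) * (∑ k ∈ Finset.univ.filter
          (fun k : L ≃ₐ[K] L => FrobPow L w 1 k), χ k) = 0 := by
        rw [sub_mul, one_mul, ← h1, sub_self]
      rcases mul_eq_zero.1 h4 with h5 | h5
      · exact (sub_eq_zero.1 h5).symm
      · exact absurd h5 h3
    rw [h2, zero_div]

theorem localTrace_pow (χ : (L ≃ₐ[K] L) →* ℂ) {w : HeightOneSpectrum (𝓞 L)} {q : ℕ} (hq : q ≠ 0)
    {g : L ≃ₐ[K] L} (hg : FrobPow L w q g) (m : ℕ) :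
    localTrace χ w (q ^ (m + 1)) = zOf χ w g ^ (m + 1) := by
  unfold localTrace
  rw [sum_coset (fun b => χ b) (pow_ne_zero _ hq) (frobPow_pow hg (m + 1))]
  simp only [map_mul, map_pow]
  rw [← Finset.mul_sum, mul_div_assoc, sum_inertia, zOf]
  split_ifs
  · rw [mul_one]
  · rw [mul_zero, zero_pow (Nat.succ_ne_zero m)]

variable [IsGalois K L]

omit [IsGalois K L] in
theorem exists_above (v : HeightOneSpectrum (𝓞 K)) : ∃ w : HeightOneSpectrum (𝓞 L),
    w ∈ above K L v := by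
  have := v.isMaximal
  obtain ⟨P, hP, hlie⟩ := Ideal.exists_maximal_ideal_liesOver_of_isIntegral (S := 𝓞 L) v.asIdeal
  have hPb : P ≠ ⊥ := by
    rintro rfl
    have h1 := hlie.over
    rw [Ideal.under_bot] at h1
    exact v.ne_bot h1
  refine ⟨⟨P, hP.isPrime, hPb⟩, ?_⟩
  show HeightOneSpectrum.under (𝓞 K) _ = v
  apply HeightOneSpectrum.ext
  exact hlie.over.symm

theorem exists_frob {v : HeightOneSpectrum (𝓞 K)} {w : HeightOneSpectrum (𝓞 L)}
    (hw : w ∈ above K L v) :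
    ∃ g : L ≃ₐ[K] L, FrobPow L w (Ideal.absNorm v.asIdeal) g := by
  have hw' : w.under (𝓞 K) = v := hw
  have h1 := EUL.frobPow_all v 1 (1 : K ≃ₐ[K] K)
  have h2 := LINF.lift_frobPow (K := K) (L := K) (N := L) w 1 1 (by rw [hw']; exact h1)
  obtain ⟨g, -, hg⟩ := h2
  rw [hw', pow_one] at hg
  exact ⟨g, hg⟩

theorem absNorm_ne (v : HeightOneSpectrum (𝓞 K)) : Ideal.absNorm v.asIdeal ≠ 0 := by
  have := LB.one_lt_absNorm v
  omega

theorem artinCoef_pow (χ : (L ≃ₐ[K] L) →* ℂ) {v : HeightOneSpectrum (𝓞 K)}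
    {w : HeightOneSpectrum (𝓞 L)} (hw : w ∈ above K L v) {g : L ≃ₐ[K] L}
    (hg : FrobPow L w (Ideal.absNorm v.asIdeal) g) (m : ℕ) :
    artinCoef χ v (m + 1) = zOf χ w g ^ (m + 1) := by
  rw [LINF.artinCoef_eq (fun g => χ g) ?_ v (m + 1) w hw]
  · exact localTrace_pow χ (absNorm_ne v) hg m
  · intro a b
    rw [map_mul, map_mul, mul_comm, ← mul_assoc, ← map_mul, inv_mul_cancel, map_one, one_mul]

omit [IsGalois K L] in
theorem zOf_root (χ : (L ≃ₐ[K] L) →* ℂ) (w : HeightOneSpectrum (𝓞 L)) (g : L ≃ₐ[K] L) :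
    zOf χ w g = 0 ∨ ∃ k : ℕ, 0 < k ∧ zOf χ w g ^ k = 1 := by
  unfold zOf
  split_ifs
  · refine Or.inr ⟨orderOf g, orderOf_pos g, ?_⟩
    rw [← map_pow, pow_orderOf_eq_one, map_one]
  · exact Or.inl rfl

theorem norm_le_of_root {z : ℂ} (hz : z = 0 ∨ ∃ k : ℕ, 0 < k ∧ z ^ k = 1) : ‖z‖ ≤ 1 := by
  rcases hz with rfl | ⟨k, hk, h⟩
  · simp
  · exact (Complex.norm_eq_one_of_pow_eq_one h hk.ne').le

theorem norm_artinCoef_le (χ : (L ≃ₐ[K] L) →* ℂ) (v : HeightOneSpectrum (𝓞 K)) (m : ℕ) :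
    ‖artinCoef χ v (m + 1)‖ ≤ 1 := by
  obtain ⟨w, hw⟩ := exists_above (L := L) v
  obtain ⟨g, hg⟩ := exists_frob hw
  rw [artinCoef_pow χ hw hg m, norm_pow]
  exact pow_le_one₀ (norm_nonneg _) (norm_le_of_root (zOf_root χ w g))

/-- The terms of the logarithm of the `L`-series. -/
noncomputable def at' (χ : (L ≃ₐ[K] L) → ℂ) (s : ℂ) (p : HeightOneSpectrum (𝓞 K) × ℕ) : ℂ :=
  artinCoef χ p.1 (p.2 + 1) * EUL.tm s p

/-- The terms outside `S`. -/
noncomputable def ft (χ : (L ≃ₐ[K] L) → ℂ) (S : Set (HeightOneSpectrum (𝓞 K))) (s : ℂ)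
    (p : HeightOneSpectrum (𝓞 K) × ℕ) : ℂ := if p.1 ∈ S then 0 else at' χ s p

omit [IsGalois K L] in
theorem ft_pos {χ : (L ≃ₐ[K] L) → ℂ} {S : Set (HeightOneSpectrum (𝓞 K))} {s : ℂ}
    {p : HeightOneSpectrum (𝓞 K) × ℕ} (h : p.1 ∈ S) : ft χ S s p = 0 := if_pos h

omit [IsGalois K L] in
theorem ft_neg {χ : (L ≃ₐ[K] L) → ℂ} {S : Set (HeightOneSpectrum (𝓞 K))} {s : ℂ}
    {p : HeightOneSpectrum (𝓞 K) × ℕ} (h : p.1 ∉ S) : ft χ S s p = at' χ s p := if_neg h

omit [IsGalois K L] in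
theorem logL_eq (χ : (L ≃ₐ[K] L) → ℂ) (S : Set (HeightOneSpectrum (𝓞 K))) (s : ℂ) :
    logL χ S s = ∑' p : HeightOneSpectrum (𝓞 K) × ℕ, ft χ S s p := by
  rw [logL]
  refine tsum_congr fun p => ?_
  rw [ft, at', EUL.tm, mul_one_div]

theorem summable_at (χ : (L ≃ₐ[K] L) →* ℂ) (s : ℂ) (hs : 1 < s.re) :
    Summable (at' (K := K) χ s) := by
  refine Summable.of_norm_bounded (EUL.summable_tm (K := K) s hs).norm fun p => ?_
  rw [at', norm_mul]
  exact mul_le_of_le_one_left (norm_nonneg _) (norm_artinCoef_le χ p.1 p.2)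

omit [IsGalois K L] in
theorem one_sub_ne {z : ℂ} (hz : ‖z‖ ≤ 1) (s : ℂ) (hs : 1 < s.re) (v : HeightOneSpectrum (𝓞 K)) :
    ‖z * (Ideal.absNorm v.asIdeal : ℂ) ^ (-s)‖ < 1 := by
  rw [norm_mul]
  exact (mul_le_of_le_one_left (norm_nonneg _) hz).trans_lt (EUL.norm_lt_one s hs v)

/-- The Euler factor. -/
theorem euler (χ : (L ≃ₐ[K] L) →* ℂ) {v : HeightOneSpectrum (𝓞 K)}
    {w : HeightOneSpectrum (𝓞 L)} (hw : w ∈ above K L v) {g : L ≃ₐ[K] L}
    (hg : FrobPow L w (Ideal.absNorm v.asIdeal) g) (S : Finset (HeightOneSpectrum (𝓞 K)))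
    (hv : v ∉ S) (s : ℂ) (hs : 1 < s.re) :
    Complex.exp (logL χ ((insert v S : Finset (HeightOneSpectrum (𝓞 K))) :
        Set (HeightOneSpectrum (𝓞 K))) s) =
      Complex.exp (logL χ (S : Set (HeightOneSpectrum (𝓞 K))) s) *
        (1 - zOf χ w g * (Ideal.absNorm v.asIdeal : ℂ) ^ (-s)) := by
  have hsum := summable_at χ s hs
  have hz := norm_le_of_root (zOf_root χ w g)
  have hlt := one_sub_ne hz s hs v
  have hne : 1 - zOf χ w g * (Ideal.absNorm v.asIdeal : ℂ) ^ (-s) ≠ 0 := by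
    intro h
    rw [← sub_eq_zero.1 h, norm_one] at hlt
    exact lt_irrefl _ hlt
  set T : Set (HeightOneSpectrum (𝓞 K)) :=
    ((insert v S : Finset (HeightOneSpectrum (𝓞 K))) : Set (HeightOneSpectrum (𝓞 K))) with hT
  have hmT : ∀ u, u ∈ T ↔ u = v ∨ u ∈ S := by
    intro u
    rw [hT, Finset.mem_coe, Finset.mem_insert]
  have hsum2 : Summable (fun p : HeightOneSpectrum (𝓞 K) × ℕ => ft χ T s p) := by
    refine Summable.of_norm_bounded hsum.norm fun p => ?_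
    by_cases h : p.1 ∈ T
    · rw [ft_pos h, norm_zero]
      exact norm_nonneg _
    · rw [ft_neg h]
  have hloc : Summable (fun p : HeightOneSpectrum (𝓞 K) × ℕ =>
      if p.1 = v then at' χ s p else 0) := by
    refine Summable.of_norm_bounded hsum.norm fun p => ?_
    split_ifs
    · exact le_rfl
    · simp
  have hdec : ∀ p : HeightOneSpectrum (𝓞 K) × ℕ,
      ft χ (S : Set (HeightOneSpectrum (𝓞 K))) s p =
      ft χ T s p + (if p.1 = v then at' χ s p else 0) := by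
    intro p
    by_cases h2 : p.1 = v
    · rw [if_pos h2, ft_pos ((hmT _).2 (Or.inl h2)), ft_neg, zero_add]
      rw [h2]
      exact fun h => hv (Finset.mem_coe.1 h)
    · rw [if_neg h2, add_zero]
      by_cases h1 : p.1 ∈ S
      · rw [ft_pos (Finset.mem_coe.2 h1), ft_pos ((hmT _).2 (Or.inr h1))]
      · rw [ft_neg (fun h => h1 (Finset.mem_coe.1 h)), ft_neg]
        rw [hmT]
        tauto
  have hone : ∑' p : HeightOneSpectrum (𝓞 K) × ℕ, (if p.1 = v then at' χ s p else 0) =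
      -Complex.log (1 - zOf χ w g * (Ideal.absNorm v.asIdeal : ℂ) ^ (-s)) := by
    rw [← (Complex.hasSum_taylorSeries_neg_log' hlt).tsum_eq]
    have hinj : Function.Injective (fun m : ℕ => (v, m)) := fun a b h => (Prod.mk.inj h).2
    rw [← hinj.tsum_eq]
    · refine tsum_congr fun m => ?_
      rw [if_pos rfl, at', EUL.tm_eq]
      simp only
      rw [artinCoef_pow χ hw hg m, mul_pow, mul_div_assoc]
    · rintro ⟨u, m⟩ hp
      rw [Function.mem_support] at hp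
      by_cases h : u = v
      · exact ⟨m, by rw [h]⟩
      · exact absurd (if_neg h) hp
  rw [logL_eq, logL_eq, tsum_congr hdec, Summable.tsum_add hsum2 hloc, hone, Complex.exp_add,
    Complex.exp_neg, Complex.exp_log hne, mul_assoc, inv_mul_cancel₀ hne, mul_one]

end

end SLF

/-- MODULE SLF. -/
theorem SLF_thm : Stmt_SLF := by
  intro K L _ _ _ _ _ _ v ψ σ
  obtain ⟨w, hw⟩ := SLF.exists_above (L := L) v
  obtain ⟨g, hg⟩ := SLF.exists_frob hw
  set χ : (L ≃ₐ[K] L) →* ℂ := (Units.coeHom ℂ).comp ψ with hχ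
  set χ' : (L ≃ₐ[K] L) →* ℂ := (σ : ℂ →* ℂ).comp χ with hχ'
  have hzz : SLF.zOf χ' w g = σ (SLF.zOf χ w g) := by
    unfold SLF.zOf
    have h1 : (∀ k : L ≃ₐ[K] L, FrobPow L w 1 k → χ' k = 1) ↔
        (∀ k : L ≃ₐ[K] L, FrobPow L w 1 k → χ k = 1) := by
      refine forall_congr' fun k => imp_congr_right fun _ => ?_
      show σ (χ k) = 1 ↔ _
      rw [map_eq_one_iff σ σ.injective]
    simp only [h1]
    split_ifs
    · rfl
    · rw [map_zero]
  refine ⟨SLF.zOf χ w g, SLF.zOf_root χ w g, ⟨?_, ?_⟩, ?_⟩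
  · intro hz w' hw' m b hb
    obtain ⟨g', hg'⟩ := SLF.exists_frob hw'
    have e1 := SLF.artinCoef_pow χ hw hg 0
    have e2 := SLF.artinCoef_pow χ hw' hg' 0
    rw [e1, zero_add, pow_one, pow_one, hz] at e2
    have e3 : (∀ k : L ≃ₐ[K] L, FrobPow L w' 1 k → χ k = 1) ∧ χ g' = 1 := by
      unfold SLF.zOf at e2
      split_ifs at e2 with h
      · exact ⟨h, e2.symm⟩
      · exact absurd e2 one_ne_zero
    have h1 := SLF.frobPow_inv_mul (pow_ne_zero m (SLF.absNorm_ne v)) (SLF.frobPow_pow hg' m) hb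
    have h2 := e3.1 _ h1
    have h3 : χ b = 1 := by
      calc χ b = χ (g' ^ m * ((g' ^ m)⁻¹ * b)) := by rw [mul_inv_cancel_left]
        _ = 1 := by rw [map_mul, h2, mul_one, map_pow, e3.2, one_pow]
    exact Units.ext h3
  · intro ht
    unfold SLF.zOf
    rw [if_pos]
    · have h1 := ht w hw 1 g (by rw [pow_one]; exact hg)
      show ((ψ g : ℂˣ) : ℂ) = 1
      rw [h1, Units.val_one]
    · intro k hk
      have h1 := ht w hw 0 k (by rw [pow_zero]; exact hk)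
      show ((ψ k : ℂˣ) : ℂ) = 1
      rw [h1, Units.val_one]
  · intro S hv s hs
    refine ⟨SLF.euler χ hw hg S hv s hs, ?_⟩
    rw [← hzz]
    exact SLF.euler χ' hw hg S hv s hs

end StarkC
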