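import Pool.Agent.StarkT.Stmts
import Pool.Agent.Stark.UNIT

/-!
# The units when one prime is added to `T`
-/

open NumberField IsDedekindDomain Module
open scoped TensorProduct Classical

namespace StarkC

namespace REGSU

variable {L : Type} [Field L] [NumberField L]

theorem finAbs_piU (v : HeightOneSpectrum (𝓞 L)) :
    finAbs L v (UNIT.piU v : L) =
      ((Ideal.absNorm v.asIdeal : ℝ) ^ (Fintype.card (ClassGroup (𝓞 L))))⁻¹ := by
  have h1 : finAbs L v (UNIT.piU v : L) =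
    ((WithZeroMulInt.toNNReal (HeightOneSpectrum.absNorm_ne_zero v)
    (v.valuation L (UNIT.piU v : L)) : NNReal) : ℝ) := rfl
  have hne : (WithZero.exp (-(Fintype.card (ClassGroup (𝓞 L)) : ℤ)) :
      WithZero (Multiplicative ℤ)) ≠ 0 := WithZero.exp_ne_zero
  rw [h1, UNIT.valuation_piU_self, WithZeroMulInt.toNNReal_neg_apply _ hne]
  have h2 : (WithZero.unzero hne).toAdd = -(Fintype.card (ClassGroup (𝓞 L)) : ℤ) := rfl
  rw [h2, zpow_neg, zpow_natCast]
  push_cast
  rfl

/-- The coordinate of `λ(π_v)` at `v`. -/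
theorem lamHom_piU {T : Set (HeightOneSpectrum (𝓞 L))} (v : HeightOneSpectrum (𝓞 L)) (hv : v ∈ T) :
    lamHom L T (Additive.ofMul (UNIT.piU v)) (finAbs L v) =
      (Fintype.card (ClassGroup (𝓞 L)) : ℂ) *
        ((Real.log (Ideal.absNorm v.asIdeal) : ℝ) : ℂ) := by
  have h := UNIT.lamHom_fin T (UNIT.piU v) ⟨v, hv⟩
  rw [h, finAbs_piU, Real.log_inv, Real.log_pow]
  push_cast
  ring

theorem lam_piU {T : Set (HeightOneSpectrum (𝓞 L))} (v : HeightOneSpectrum (𝓞 L)) (hv : v ∈ T) :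
    lam L T (UNIT.tm (UNIT.piU v)) (finAbs L v) =
      (Fintype.card (ClassGroup (𝓞 L)) : ℂ) *
        ((Real.log (Ideal.absNorm v.asIdeal) : ℝ) : ℂ) := by
  rw [UNIT.lam_tm, lamHom_piU v hv]

theorem not_mem_placeSet {T : Set (HeightOneSpectrum (𝓞 L))} {v : HeightOneSpectrum (𝓞 L)}
    (hv : v ∉ T) : finAbs L v ∉ placeSet L T := by
  rintro (⟨w, h⟩ | ⟨v', hv', h⟩)
  · exact UNIT.infAbs_ne_finAbs L w v h
  · rw [UNIT.finAbs_injective L h] at hv'
    exact hv hv'

theorem placeSet_insert (T : Set (HeightOneSpectrum (𝓞 L))) (v : HeightOneSpectrum (𝓞 L)) :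
    placeSet L (insert v T) = insert (finAbs L v) (placeSet L T) := by
  rw [placeSet, placeSet, Set.image_insert_eq, Set.union_insert]

/-- On `T`-units the logarithm maps of `T` and `insert v T` agree. -/
theorem lamHom_insert {T : Set (HeightOneSpectrum (𝓞 L))} {v : HeightOneSpectrum (𝓞 L)}
    (hv : v ∉ T) {u : Lˣ} (hu : u ∈ T.unit L) :
    lamHom L (insert v T) (Additive.ofMul u) = lamHom L T (Additive.ofMul u) := by
  ext a
  rw [UNIT.lamHom_apply, UNIT.lamHom_apply, placeSet_insert]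
  by_cases ha : a ∈ placeSet L T
  · rw [if_pos ha, if_pos (Set.mem_insert_of_mem _ ha)]
  · rw [if_neg ha]
    by_cases ha2 : a = finAbs L v
    · rw [ha2, if_pos (Set.mem_insert _ _)]
      have h1 : finAbs L v (u : L) = 1 := by
        rw [UNIT.finAbs_eq_one_iff]
        exact (UNIT.mem_unit_iff.1 hu) v hv
      rw [h1]
      simp
    · rw [if_neg]
      intro h
      rcases h with h | h
      · exact ha2 h
      · exact ha h

theorem lam_insert {T : Set (HeightOneSpectrum (𝓞 L))} {v : HeightOneSpectrum (𝓞 L)}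
    (hv : v ∉ T) {x : ℚ ⊗[ℤ] Additive Lˣ} (hx : x ∈ QU L T) :
    lam L (insert v T) x = lam L T x := by
  have h : QU L T ≤ LinearMap.eqLocus (lam L (insert v T)) (lam L T) := by
    rw [QU, Submodule.span_le]
    rintro _ ⟨u, hu, rfl⟩
    have h1 := UNIT.lam_tm (insert v T) u
    have h2 := UNIT.lam_tm T u
    show lam L (insert v T) (UNIT.tm u) = lam L T (UNIT.tm u)
    rw [h1, h2, lamHom_insert hv hu]
  exact h hx

/-- The `v`-coordinate of the logarithm of a `T`-unit is `0` for `v ∉ T`. -/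
theorem lam_coord {T : Set (HeightOneSpectrum (𝓞 L))} {v : HeightOneSpectrum (𝓞 L)}
    (hv : v ∉ T) {x : ℚ ⊗[ℤ] Additive Lˣ} (hx : x ∈ QU L T) :
    lam L T x (finAbs L v) = 0 := by
  have h : QU L T ≤ LinearMap.ker
      ((Finsupp.lapply (R := ℚ) (M := ℂ) (finAbs L v)).comp (lam L T)) := by
    rw [QU, Submodule.span_le]
    rintro _ ⟨u, hu, rfl⟩
    have h2 := UNIT.lam_tm T u
    show lam L T (UNIT.tm u) (finAbs L v) = 0
    rw [h2, UNIT.lamHom_apply, if_neg (not_mem_placeSet hv)]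
  exact h hx

theorem QU_mono {T T' : Set (HeightOneSpectrum (𝓞 L))} (h : T ⊆ T') : QU L T ≤ QU L T' := by
  rw [QU, QU]
  apply Submodule.span_mono
  rintro _ ⟨u, hu, rfl⟩
  refine ⟨u, ?_, rfl⟩
  rw [UNIT.mem_unit_iff] at hu ⊢
  intro v hv
  exact hu v (fun h2 => hv (h h2))

theorem tm_piU_mem {T : Set (HeightOneSpectrum (𝓞 L))} {v : HeightOneSpectrum (𝓞 L)} (hv : v ∈ T) :
    UNIT.tm (UNIT.piU v) ∈ QU L T :=
  Submodule.subset_span ⟨UNIT.piU v, UNIT.piU_mem ⟨v, hv⟩, rfl⟩

theorem QU_insert {T : Set (HeightOneSpectrum (𝓞 L))} (hT : T.Finite)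
    (v : HeightOneSpectrum (𝓞 L)) :
    QU L (insert v T) = QU L T ⊔ Submodule.span ℚ {UNIT.tm (UNIT.piU v)} := by
  apply le_antisymm
  · rw [← UNIT.QU_eq (hT.insert v), Submodule.span_le]
    rintro _ ⟨i, rfl⟩
    rcases i with i | ⟨w, hw⟩
    · exact Submodule.mem_sup_left (Submodule.subset_span ⟨_, UNIT.fu_mem T i, rfl⟩)
    · rcases hw with rfl | hw
      · exact Submodule.mem_sup_right (Submodule.subset_span rfl)
      · exact Submodule.mem_sup_left (tm_piU_mem hw)
  · apply sup_le (QU_mono (Set.subset_insert v T))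
    rw [Submodule.span_le, Set.singleton_subset_iff]
    exact tm_piU_mem (Set.mem_insert v T)

/-- The elements of `QU L T` are those of `QU L (insert v T)` with `v`-coordinate `0`. -/
theorem mem_QU_iff {T : Set (HeightOneSpectrum (𝓞 L))} (hT : T.Finite)
    {v : HeightOneSpectrum (𝓞 L)} (hv : v ∉ T) {x : ℚ ⊗[ℤ] Additive Lˣ}
    (hx : x ∈ QU L (insert v T)) :
    x ∈ QU L T ↔ lam L (insert v T) x (finAbs L v) = 0 := by
  constructor
  · intro h
    rw [lam_insert hv h, lam_coord hv h]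
  · intro h
    rw [QU_insert hT, Submodule.mem_sup] at hx
    obtain ⟨y, hy, z, hz, rfl⟩ := hx
    rw [Submodule.mem_span_singleton] at hz
    obtain ⟨q, rfl⟩ := hz
    rw [map_add, map_smul, Finsupp.add_apply, Finsupp.smul_apply, lam_insert hv hy,
      lam_coord hv hy, zero_add, lam_piU v (Set.mem_insert v T)] at h
    have hN : (1 : ℝ) < (Ideal.absNorm v.asIdeal : ℝ) := by
      exact_mod_cast HeightOneSpectrum.one_lt_absNorm v
    have hlog : Real.log (Ideal.absNorm v.asIdeal) ≠ 0 := (Real.log_pos hN).ne'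
    have hh : (Fintype.card (ClassGroup (𝓞 L)) : ℂ) ≠ 0 := by
      exact_mod_cast Fintype.card_ne_zero
    have hne : (Fintype.card (ClassGroup (𝓞 L)) : ℂ) *
        ((Real.log (Ideal.absNorm v.asIdeal) : ℝ) : ℂ) ≠ 0 :=
      mul_ne_zero hh (by exact_mod_cast hlog)
    rcases smul_eq_zero.1 h with h1 | h1
    · rw [h1, zero_smul, add_zero]
      exact hy
    · exact absurd h1 hne

end REGSU

end StarkC
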