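import Pool.Agent.StarkT.StmtsI
import Pool.Agent.StarkT.REGSU
import Pool.Agent.Stark.INFL
import Pool.Agent.Stark.XRAT
import Pool.Agent.Stark.THE
import Pool.Agent.Stark.THC
import Pool.Agent.Stark.THB
import Pool.Agent.Stark.STB
import Pool.Agent.Stark.LINF
import Pool.Agent.Stark.LB

/-!
# The regulators of linear characters when a prime is added to `S`
-/

open NumberField IsDedekindDomain Module
open scoped TensorProduct Classical Pointwise

namespace StarkC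

namespace SREG

/-! ### Linear algebra -/

/-- Extension of an equivariant isomorphism of subspaces with prescribed effect on the
quotients. -/
theorem ext_equi {G : Type} [Group G] [Fintype G] {X₁ X Y₁ Y Q : Type}
    [AddCommGroup X₁] [Module ℚ X₁] [AddCommGroup X] [Module ℚ X]
    [AddCommGroup Y₁] [Module ℚ Y₁] [AddCommGroup Y] [Module ℚ Y]
    [AddCommGroup Q] [Module ℚ Q]
    (πX : Representation ℚ G X) (πY : Representation ℚ G Y)
    (i : X₁ →ₗ[ℚ] X) (hi : Function.Injective i) (j : Y₁ →ₗ[ℚ] Y) (hj : Function.Injective j)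
    (φ : X₁ ≃ₗ[ℚ] Y₁) (p : X →ₗ[ℚ] Q) (r : Y →ₗ[ℚ] Q)
    (hp : LinearMap.range i = LinearMap.ker p) (hr : LinearMap.range j = LinearMap.ker r)
    (hpr : LinearMap.range p = LinearMap.range r)
    (τ : G → Q →ₗ[ℚ] Q) (hpτ : ∀ g x, p (πX g x) = τ g (p x))
    (hrτ : ∀ g y, r (πY g y) = τ g (r y))
    (hφ : ∀ g x x', i x' = πX g (i x) → j (φ x') = πY g (j (φ x))) :
    ∃ φ₂ : X ≃ₗ[ℚ] Y, (∀ g x, φ₂ (πX g x) = πY g (φ₂ x)) ∧ (∀ x, φ₂ (i x) = j (φ x)) ∧
      ∀ x, r (φ₂ x) = p x := by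
  obtain ⟨i', hi'⟩ := LinearMap.exists_leftInverse_of_injective i (LinearMap.ker_eq_bot.2 hi)
  obtain ⟨s, hs⟩ := LinearMap.exists_rightInverse_of_surjective r.rangeRestrict
    (LinearMap.range_rangeRestrict r)
  have hd : ∀ x, p x ∈ LinearMap.range r := fun x => hpr ▸ LinearMap.mem_range_self p x
  have hpi : ∀ x, p (i x) = 0 := fun x => by
    have : i x ∈ LinearMap.ker p := hp ▸ LinearMap.mem_range_self i x
    exact this
  have hrj : ∀ x, r (j x) = 0 := fun x => by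
    have : j x ∈ LinearMap.ker r := hr ▸ LinearMap.mem_range_self j x
    exact this
  let f₀ : X →ₗ[ℚ] Y := j ∘ₗ φ.toLinearMap ∘ₗ i' + s ∘ₗ (LinearMap.codRestrict _ p hd)
  have hf₀i : ∀ x, f₀ (i x) = j (φ x) := by
    intro x
    have h1 : i' (i x) = x := LinearMap.congr_fun hi' x
    have h2 : LinearMap.codRestrict (LinearMap.range r) p hd (i x) = 0 := Subtype.ext (hpi x)
    show j (φ (i' (i x))) + s (LinearMap.codRestrict (LinearMap.range r) p hd (i x)) = j (φ x)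
    rw [h1, h2, map_zero, add_zero]
  have hf₀r : ∀ x, r (f₀ x) = p x := by
    intro x
    show r (j (φ (i' x)) + s (LinearMap.codRestrict (LinearMap.range r) p hd x)) = p x
    rw [map_add, hrj, zero_add]
    have h1 := LinearMap.congr_fun hs (LinearMap.codRestrict (LinearMap.range r) p hd x)
    exact congrArg Subtype.val h1
  have hcard : (Fintype.card G : ℚ) ≠ 0 := by exact_mod_cast Fintype.card_ne_zero
  let F : X →ₗ[ℚ] Y := (Fintype.card G : ℚ)⁻¹ • ∑ g : G, πY g ∘ₗ f₀ ∘ₗ πX g⁻¹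
  have hF : ∀ x, F x = (Fintype.card G : ℚ)⁻¹ • ∑ g : G, πY g (f₀ (πX g⁻¹ x)) := by
    intro x
    show ((Fintype.card G : ℚ)⁻¹ • ∑ g : G, πY g ∘ₗ f₀ ∘ₗ πX g⁻¹) x = _
    rw [LinearMap.smul_apply, LinearMap.sum_apply]
    rfl
  have hXg : ∀ (g : G) (x : X), πX g (πX g⁻¹ x) = x := by
    intro g x
    rw [← Module.End.mul_apply, ← map_mul, mul_inv_cancel, map_one, Module.End.one_apply]
  have hYg : ∀ (g : G) (x : Y), πY g (πY g⁻¹ x) = x := by
    intro g x
    rw [← Module.End.mul_apply, ← map_mul, mul_inv_cancel, map_one, Module.End.one_apply]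
  have hFi : ∀ x, F (i x) = j (φ x) := by
    intro x
    rw [hF]
    have h1 : ∀ g : G, πY g (f₀ (πX g⁻¹ (i x))) = j (φ x) := by
      intro g
      have h2 : πX g⁻¹ (i x) ∈ LinearMap.range i := by
        rw [hp, LinearMap.mem_ker, hpτ, hpi, map_zero]
      obtain ⟨x', hx'⟩ := h2
      rw [← hx', hf₀i, hφ g⁻¹ x x' hx', hYg]
    rw [Finset.sum_congr rfl fun g _ => h1 g, Finset.sum_const, Finset.card_univ,
      ← Nat.cast_smul_eq_nsmul ℚ, smul_smul, inv_mul_cancel₀ hcard, one_smul]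
  have hFr : ∀ x, r (F x) = p x := by
    intro x
    rw [hF, map_smul, map_sum]
    have h1 : ∀ g : G, r (πY g (f₀ (πX g⁻¹ x))) = p x := by
      intro g
      rw [hrτ, hf₀r, ← hpτ, hXg]
    rw [Finset.sum_congr rfl fun g _ => h1 g, Finset.sum_const, Finset.card_univ,
      ← Nat.cast_smul_eq_nsmul ℚ, smul_smul, inv_mul_cancel₀ hcard, one_smul]
  have hFG : ∀ g x, F (πX g x) = πY g (F x) := by
    intro h x
    rw [hF, hF, map_smul, map_sum]
    congr 1
    refine Fintype.sum_equiv (Equiv.mulLeft h⁻¹) _ _ ?_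
    intro g
    rw [Equiv.coe_mulLeft, mul_inv_rev, inv_inv, ← Module.End.mul_apply, ← map_mul,
      ← Module.End.mul_apply (πY h), ← map_mul, mul_inv_cancel_left]
  have hFb : Function.Bijective F := by
    constructor
    · rw [injective_iff_map_eq_zero]
      intro x hx
      have h1 : x ∈ LinearMap.range i := by
        rw [hp, LinearMap.mem_ker, ← hFr, hx, map_zero]
      obtain ⟨y, rfl⟩ := h1
      rw [hFi] at hx
      have h2 : φ y = 0 := hj (by rw [hx, map_zero])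
      have h3 : y = 0 := φ.injective (by rw [h2, map_zero])
      rw [h3, map_zero]
    · intro y
      obtain ⟨x, hx⟩ : r y ∈ LinearMap.range p := hpr ▸ LinearMap.mem_range_self r y
      have h1 : y - F x ∈ LinearMap.range j := by
        rw [hr, LinearMap.mem_ker, map_sub, hFr, hx, sub_self]
      obtain ⟨z, hz⟩ := h1
      refine ⟨x + i (φ.symm z), ?_⟩
      rw [map_add, hFi, LinearEquiv.apply_symm_apply, hz, add_sub_cancel]
  exact ⟨LinearEquiv.ofBijective F hFb, hFG, hFi, hFr⟩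

/-- A linear form which is an eigenvector of the transpose of `B`. -/
theorem det_form {W : Type} [AddCommGroup W] [Module ℂ W] [Module.Finite ℂ W]
    (B : W →ₗ[ℂ] W) (ev : W →ₗ[ℂ] ℂ) (c : ℂ) (h : ∀ x, ev (B x) = c * ev x)
    (hk : ∀ x ∈ LinearMap.ker ev, B x ∈ LinearMap.ker ev) :
    LinearMap.det B = LinearMap.det (B.restrict hk) * (if ev = 0 then 1 else c) := by
  have h1 := LinearMap.det_eq_det_mul_det (LinearMap.ker ev) B hk
  rw [h1]
  congr 1
  split_ifs with h0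
  · have : Subsingleton (W ⧸ LinearMap.ker ev) := by
      rw [h0, LinearMap.ker_zero]
      infer_instance
    rw [Subsingleton.elim ((LinearMap.ker ev).mapQ (LinearMap.ker ev) B hk) LinearMap.id]
    exact LinearMap.det_id
  · have hs : Function.Surjective ev := LinearMap.surjective h0
    let e : (W ⧸ LinearMap.ker ev) ≃ₗ[ℂ] ℂ := ev.quotKerEquivOfSurjective hs
    rw [← LinearMap.det_conj _ e]
    have h2 : (e : (W ⧸ LinearMap.ker ev) →ₗ[ℂ] ℂ) ∘ₗ
        (LinearMap.ker ev).mapQ (LinearMap.ker ev) B hk ∘ₗ (e.symm : ℂ →ₗ[ℂ] _) =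
        c • LinearMap.id := by
      refine LinearMap.ext fun z => ?_
      obtain ⟨y, rfl⟩ := e.surjective z
      obtain ⟨x, rfl⟩ := Submodule.mkQ_surjective _ y
      simp only [LinearMap.comp_apply, LinearEquiv.coe_coe, LinearEquiv.symm_apply_apply,
        LinearMap.smul_apply, LinearMap.id_apply]
      exact h x
    rw [h2, LinearMap.det_smul, LinearMap.det_id, Module.finrank_self, pow_one, mul_one]

/-! ### Primes -/

section Primes

variable {K L : Type} [Field K] [NumberField K] [Field L] [NumberField L] [Algebra K L]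

theorem mv_eq_iff (g : L ≃+* L) (w w' : HeightOneSpectrum (𝓞 L)) :
    STB.mv g w = w' ↔ ∀ x : 𝓞 L, x ∈ w.asIdeal → STB.oMap g x ∈ w'.asIdeal := by
  constructor
  · rintro rfl x hx
    rw [STB.mem_mv, RingEquiv.symm_apply_apply]
    exact hx
  · intro h
    have h1 : (STB.mv g w).asIdeal ≤ w'.asIdeal := by
      intro x hx
      rw [STB.mem_mv] at hx
      have := h _ hx
      rwa [RingEquiv.apply_symm_apply] at this
    have h2 : (STB.mv g w).asIdeal = w'.asIdeal :=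
      (STB.mv g w).isMaximal.eq_of_le w'.isPrime.ne_top h1
    exact HeightOneSpectrum.ext h2

theorem mv_symm_mv (g : L ≃+* L) (w : HeightOneSpectrum (𝓞 L)) :
    STB.mv g.symm (STB.mv g w) = w := by
  rw [mv_eq_iff]
  intro x hx
  rw [STB.mem_mv] at hx
  exact hx

theorem mv_mv_symm (g : L ≃+* L) (w : HeightOneSpectrum (𝓞 L)) :
    STB.mv g (STB.mv g.symm w) = w := mv_symm_mv g.symm w

theorem exists_mv [IsGalois K L] {w w' : HeightOneSpectrum (𝓞 L)}
    (h : w.under (𝓞 K) = w'.under (𝓞 K)) : ∃ g : L ≃ₐ[K] L, STB.mv (g : L ≃+* L) w = w' := by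
  have hu : w.asIdeal.under (𝓞 K) = w'.asIdeal.under (𝓞 K) := by
    have := congrArg HeightOneSpectrum.asIdeal h
    simpa using this
  have := w.isPrime
  have := w'.isPrime
  obtain ⟨σ, hσ⟩ := Algebra.IsInvariant.exists_smul_of_under_eq (𝓞 K) (𝓞 L) (L ≃ₐ[K] L)
    w.asIdeal w'.asIdeal hu
  refine ⟨σ, ?_⟩
  rw [mv_eq_iff]
  intro x hx
  have h1 : STB.oMap (σ : L ≃+* L) x = σ • x := rfl
  rw [h1, hσ]
  exact Ideal.smul_mem_pointwise_smul _ _ _ hx

omit [NumberField K] in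
theorem mv_of_frob {w : HeightOneSpectrum (𝓞 L)} {q : ℕ} (hq : q ≠ 0) {g : L ≃ₐ[K] L}
    (h : FrobPow L w q g) : STB.mv (g : L ≃+* L) w = w := by
  rw [mv_eq_iff]
  intro x hx
  have h1 := h x (STB.oMap (g : L ≃+* L) x) rfl
  have h2 := w.asIdeal.add_mem h1 (w.asIdeal.pow_mem_of_mem hx q (Nat.pos_of_ne_zero hq))
  rwa [sub_add_cancel] at h2

theorem frob_of_mv [IsGalois K L] {w : HeightOneSpectrum (𝓞 L)} {g : L ≃ₐ[K] L}
    (h : STB.mv (g : L ≃+* L) w = w) :
    ∃ m : ℕ, FrobPow L w (Ideal.absNorm (w.under (𝓞 K)).asIdeal ^ m) g := by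
  have hst : g • w.asIdeal = w.asIdeal := by
    have h1 := congrArg HeightOneSpectrum.asIdeal h
    rw [STB.mv_asIdeal'] at h1
    exact h1
  have hmL := w.isMaximal
  have hmK := (w.under (𝓞 K)).isMaximal
  have hlK : w.asIdeal.LiesOver (w.under (𝓞 K)).asIdeal := ⟨rfl⟩
  have hfin : Finite (𝓞 K ⧸ (w.under (𝓞 K)).asIdeal) := by
    rw [← Ideal.absNorm_ne_zero_iff, ne_eq, Ideal.absNorm_eq_zero_iff]
    exact (w.under (𝓞 K)).ne_bot
  have hfinL : Finite (𝓞 L ⧸ w.asIdeal) := by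
    rw [← Ideal.absNorm_ne_zero_iff, ne_eq, Ideal.absNorm_eq_zero_iff]
    exact w.ne_bot
  have hcard : Nat.card (𝓞 K ⧸ (w.under (𝓞 K)).asIdeal) =
      Ideal.absNorm (w.under (𝓞 K)).asIdeal := by
    rw [Ideal.absNorm_apply, Submodule.cardQuot_apply]
  let _ : Field (𝓞 K ⧸ (w.under (𝓞 K)).asIdeal) := Ideal.Quotient.field _
  let _ : Field (𝓞 L ⧸ w.asIdeal) := Ideal.Quotient.field _
  have : Fintype (𝓞 K ⧸ (w.under (𝓞 K)).asIdeal) := Fintype.ofFinite _
  let s : MulAction.stabilizer (L ≃ₐ[K] L) w.asIdeal := ⟨g, hst⟩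
  let G := Ideal.Quotient.stabilizerHom w.asIdeal (w.under (𝓞 K)).asIdeal (L ≃ₐ[K] L) s
  have hG : ∀ b : 𝓞 L, G (Ideal.Quotient.mk _ b) = Ideal.Quotient.mk _ (g • b) := by
    intro b
    exact Ideal.Quotient.stabilizerHom_apply _ _ _ _ _
  obtain ⟨n, hn⟩ := (FiniteField.bijective_frobeniusAlgEquivOfAlgebraic_pow
    (𝓞 K ⧸ (w.under (𝓞 K)).asIdeal) (𝓞 L ⧸ w.asIdeal)).2 G
  refine ⟨n, ?_⟩
  rw [LINF.frobPow_iff]
  intro x
  rw [← Ideal.Quotient.eq, ← hG x, ← hn]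
  have h1 := congrFun (FiniteField.coe_frobeniusAlgEquivOfAlgebraic_iterate
    (𝓞 K ⧸ (w.under (𝓞 K)).asIdeal) (𝓞 L ⧸ w.asIdeal) n) (Ideal.Quotient.mk _ x)
  rw [← AlgEquiv.coe_pow] at h1
  rw [← hcard, Nat.card_eq_fintype_card, map_pow]
  exact h1

/-- `ψ` is trivial on the decomposition group of `w`. -/
theorem trivD_iff [IsGalois K L] (v : HeightOneSpectrum (𝓞 K)) (ψ : (L ≃ₐ[K] L) →* ℂˣ) :
    TrivD v ψ ↔ ∀ w ∈ above K L v, ∀ g : L ≃ₐ[K] L, STB.mv (g : L ≃+* L) w = w → ψ g = 1 := by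
  constructor
  · intro h w hw g hg
    obtain ⟨m, hm⟩ := frob_of_mv hg
    have hw' : w.under (𝓞 K) = v := hw
    rw [hw'] at hm
    exact h w hw m g hm
  · intro h w hw m g hg
    refine h w hw g (mv_of_frob ?_ hg)
    apply pow_ne_zero
    rw [ne_eq, Ideal.absNorm_eq_zero_iff]
    exact v.ne_bot

theorem log_norm {v : HeightOneSpectrum (𝓞 K)} {w : HeightOneSpectrum (𝓞 L)}
    (hw : w ∈ above K L v) : ∃ q : ℚ, 0 < q ∧
      ((Real.log (Ideal.absNorm w.asIdeal) : ℝ) : ℂ) =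
        (q : ℂ) * ((Real.log (Ideal.absNorm v.asIdeal) : ℝ) : ℂ) := by
  have hw' : w.under (𝓞 K) = v := hw
  have h1 := LB.absNorm_under (K := K) w
  rw [hw'] at h1
  refine ⟨(w.asIdeal.inertiaDeg (𝓞 K) : ℚ), ?_, ?_⟩
  · have : w.asIdeal.inertiaDeg (𝓞 K) ≠ 0 := by
      intro h
      rw [h, pow_zero] at h1
      exact absurd h1 (LB.one_lt_absNorm w).ne
    exact_mod_cast Nat.pos_of_ne_zero this
  · rw [← h1, Nat.cast_pow, Real.log_pow]
    push_cast
    rfl

end Primes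

/-! ### Coordinates at the new places -/

/-- The elements of sum zero supported on a subset. -/
theorem SZ_mem_iff (k : Type) [Field k] {α D : Type} {A A₂ : Set α} (p : D → α)
    (hpA : ∀ d, p d ∉ A) (hA₂ : A₂ = A ∪ Set.range p) {x : α →₀ k} (hx : x ∈ XRAT.SZ k A₂) :
    x ∈ XRAT.SZ k A ↔ ∀ d, x (p d) = 0 := by
  constructor
  · intro h d
    by_contra h0
    exact hpA d (h.1 (Finsupp.mem_support_iff.2 h0))
  · intro h
    refine ⟨?_, hx.2⟩
    intro a ha
    have h1 := hx.1 ha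
    rw [hA₂] at h1
    rcases h1 with h1 | ⟨d, rfl⟩
    · exact h1
    · exact absurd (h d) (Finsupp.mem_support_iff.1 ha)

section Places

variable {L : Type} [Field L] [NumberField L]

/-- `T₂` is the disjoint union of `T` and `P`. -/
structure Split (T T₂ P : Set (HeightOneSpectrum (𝓞 L))) : Prop where
  union : T₂ = T ∪ P
  disj : ∀ w ∈ P, w ∉ T
  fin : T₂.Finite

variable {T T₂ P : Set (HeightOneSpectrum (𝓞 L))}

omit [NumberField L] in
theorem Split.le (h : Split T T₂ P) : T ⊆ T₂ := by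
  rw [h.union]
  exact Set.subset_union_left

omit [NumberField L] in
theorem Split.leP (h : Split T T₂ P) : P ⊆ T₂ := by
  rw [h.union]
  exact Set.subset_union_right

omit [NumberField L] in
theorem Split.finP (h : Split T T₂ P) : P.Finite := h.fin.subset h.leP

omit [NumberField L] in
theorem Split.finT (h : Split T T₂ P) : T.Finite := h.fin.subset h.le

/-- The new places. -/
noncomputable def pl (P : Set (HeightOneSpectrum (𝓞 L))) : P → (L → ℝ) := fun w => finAbs L w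

theorem pl_injective : Function.Injective (pl P) :=
  fun _ _ e => Subtype.ext (UNIT.finAbs_injective L e)

theorem Split.pl_not (h : Split T T₂ P) (w : P) : pl P w ∉ placeSet L T :=
  REGSU.not_mem_placeSet (h.disj w w.2)

theorem Split.places (h : Split T T₂ P) : placeSet L T₂ = placeSet L T ∪ Set.range (pl P) := by
  rw [h.union, placeSet, placeSet, Set.image_union, Set.union_assoc]
  congr 2
  ext a
  constructor
  · rintro ⟨w, hw, rfl⟩
    exact ⟨⟨w, hw⟩, rfl⟩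
  · rintro ⟨w, rfl⟩
    exact ⟨w, w.2, rfl⟩

theorem Split.XQ_iff (h : Split T T₂ P) {x : (L → ℝ) →₀ ℚ} (hx : x ∈ XQ L T₂) :
    x ∈ XQ L T ↔ ∀ w : P, x (finAbs L w) = 0 :=
  SZ_mem_iff ℚ (pl P) h.pl_not h.places hx

theorem Split.XC_iff (h : Split T T₂ P) {x : (L → ℝ) →₀ ℂ} (hx : x ∈ XCsub L T₂) :
    x ∈ XCsub L T ↔ ∀ w : P, x (finAbs L w) = 0 :=
  SZ_mem_iff ℂ (pl P) h.pl_not h.places hx

theorem Split.XQ_le (h : Split T T₂ P) : XQ L T ≤ XQ L T₂ := by
  refine inf_le_inf_right _ (Finsupp.supported_mono ?_)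
  rw [h.places]
  exact Set.subset_union_left

theorem Split.XC_le (h : Split T T₂ P) : XCsub L T ≤ XCsub L T₂ := by
  refine inf_le_inf_right _ (Finsupp.supported_mono ?_)
  rw [h.places]
  exact Set.subset_union_left

/-- On `T`-units the logarithm maps of `T` and `T₂` agree. -/
theorem Split.lam_eq (h : Split T T₂ P) {x : ℚ ⊗[ℤ] Additive Lˣ} (hx : x ∈ QU L T) :
    lam L T₂ x = lam L T x := by
  have hle : QU L T ≤ LinearMap.eqLocus (lam L T₂) (lam L T) := by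
    rw [QU, Submodule.span_le]
    rintro _ ⟨u, hu, rfl⟩
    have h1 := UNIT.lam_tm T₂ u
    have h2 := UNIT.lam_tm T u
    show lam L T₂ (UNIT.tm u) = lam L T (UNIT.tm u)
    rw [h1, h2]
    ext a
    rw [UNIT.lamHom_apply, UNIT.lamHom_apply, h.places]
    by_cases ha : a ∈ placeSet L T
    · rw [if_pos ha, if_pos (show a ∈ placeSet L T ∪ Set.range (pl P) from Or.inl ha)]
    · rw [if_neg ha]
      by_cases ha2 : a ∈ Set.range (pl P)
      · rw [if_pos (show a ∈ placeSet L T ∪ Set.range (pl P) from Or.inr ha2)]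
        obtain ⟨w, rfl⟩ := ha2
        have h1 : pl P w (u : L) = 1 := by
          rw [pl, UNIT.finAbs_eq_one_iff]
          exact (UNIT.mem_unit_iff.1 hu) w (h.disj w w.2)
        rw [h1]
        simp
      · rw [if_neg]
        rintro (h | h)
        · exact ha h
        · exact ha2 h
  exact hle hx

theorem Split.lam_zero (h : Split T T₂ P) {x : ℚ ⊗[ℤ] Additive Lˣ} (hx : x ∈ QU L T) (w : P) :
    lam L T₂ x (finAbs L w) = 0 := by
  rw [h.lam_eq hx]
  exact REGSU.lam_coord (h.disj w w.2) hx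

theorem Split.lam_self (h : Split T T₂ P) (w : P) :
    lam L T₂ (UNIT.tm (UNIT.piU (w : HeightOneSpectrum (𝓞 L)))) (finAbs L w) =
      (Fintype.card (ClassGroup (𝓞 L)) : ℂ) *
        ((Real.log (Ideal.absNorm (w : HeightOneSpectrum (𝓞 L)).asIdeal) : ℝ) : ℂ) :=
  REGSU.lam_piU _ (h.leP w.2)

theorem Split.lam_ne (h : Split T T₂ P) (w w' : P) (hw : w' ≠ w) :
    lam L T₂ (UNIT.tm (UNIT.piU (w' : HeightOneSpectrum (𝓞 L)))) (finAbs L w) = 0 := by
  rw [UNIT.lam_tm, UNIT.lamHom_fin T₂ _ ⟨w, h.leP w.2⟩]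
  have h1 : finAbs L (w : HeightOneSpectrum (𝓞 L))
      (UNIT.piU (w' : HeightOneSpectrum (𝓞 L)) : L) = 1 := by
    rw [UNIT.finAbs_eq_one_iff]
    exact UNIT.valuation_piU_ne _ _ (fun e => hw (Subtype.ext e.symm))
  rw [h1]
  simp

theorem Split.QU_eq (h : Split T T₂ P) : QU L T₂ = QU L T ⊔
    Submodule.span ℚ (Set.range fun w : P =>
      UNIT.tm (UNIT.piU (w : HeightOneSpectrum (𝓞 L)))) := by
  apply le_antisymm
  · rw [← UNIT.QU_eq h.fin, Submodule.span_le]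
    rintro _ ⟨i, rfl⟩
    rcases i with i | ⟨w, hw⟩
    · exact Submodule.mem_sup_left (Submodule.subset_span ⟨_, UNIT.fu_mem T i, rfl⟩)
    · rw [h.union] at hw
      rcases hw with hw | hw
      · exact Submodule.mem_sup_left (REGSU.tm_piU_mem hw)
      · exact Submodule.mem_sup_right (Submodule.subset_span ⟨⟨w, hw⟩, rfl⟩)
  · apply sup_le (REGSU.QU_mono h.le)
    rw [Submodule.span_le]
    rintro _ ⟨w, rfl⟩
    exact REGSU.tm_piU_mem (h.leP w.2)

/-- Decomposition of a `T₂`-unit. -/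
theorem Split.QU_dec (h : Split T T₂ P) [Fintype P] {y : ℚ ⊗[ℤ] Additive Lˣ}
    (hy : y ∈ QU L T₂) : ∃ y₀ ∈ QU L T, ∃ c : P → ℚ,
      y = y₀ + ∑ w, c w • UNIT.tm (UNIT.piU (w : HeightOneSpectrum (𝓞 L))) ∧
      ∀ w : P, lam L T₂ y (finAbs L w) = (c w : ℂ) * ((Fintype.card (ClassGroup (𝓞 L)) : ℂ) *
        ((Real.log (Ideal.absNorm (w : HeightOneSpectrum (𝓞 L)).asIdeal) : ℝ) : ℂ)) := by
  rw [h.QU_eq, Submodule.mem_sup] at hy
  obtain ⟨y₀, hy₀, z, hz, rfl⟩ := hy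
  rw [Submodule.mem_span_range_iff_exists_fun] at hz
  obtain ⟨c, rfl⟩ := hz
  refine ⟨y₀, hy₀, c, rfl, fun w => ?_⟩
  rw [map_add, Finsupp.add_apply, h.lam_zero hy₀, zero_add, map_sum, Finsupp.finsetSum_apply,
    Finset.sum_eq_single w]
  · rw [map_smul, Finsupp.smul_apply, h.lam_self, Rat.smul_def]
  · intro w' _ hw'
    rw [map_smul, Finsupp.smul_apply, h.lam_ne w w' hw', smul_zero]
  · intro hw
    exact absurd (Finset.mem_univ w) hw

theorem log_ne (w : HeightOneSpectrum (𝓞 L)) :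
    ((Real.log (Ideal.absNorm w.asIdeal) : ℝ) : ℂ) ≠ 0 := by
  have hN : (1 : ℝ) < (Ideal.absNorm w.asIdeal : ℝ) := by
    exact_mod_cast HeightOneSpectrum.one_lt_absNorm w
  exact_mod_cast (Real.log_pos hN).ne'

variable (L) in
theorem card_ne : (Fintype.card (ClassGroup (𝓞 L)) : ℂ) ≠ 0 := by
  exact_mod_cast Fintype.card_ne_zero

/-- The coordinates of `ℚ ⊗ X` at the new places, multiplied by `log N(w)`. -/
noncomputable def pMap (T₂ P : Set (HeightOneSpectrum (𝓞 L))) : XQ L T₂ →ₗ[ℚ] (P → ℂ) where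
  toFun x w := (((x : (L → ℝ) →₀ ℚ) (finAbs L w) : ℚ) : ℂ) *
    ((Real.log (Ideal.absNorm (w : HeightOneSpectrum (𝓞 L)).asIdeal) : ℝ) : ℂ)
  map_add' x y := by
    funext w
    simp only [Submodule.coe_add, Finsupp.add_apply, Pi.add_apply]
    push_cast
    ring
  map_smul' c x := by
    funext w
    simp only [Submodule.coe_smul, Finsupp.smul_apply, Pi.smul_apply, RingHom.id_apply,
      smul_eq_mul, Rat.smul_def]
    push_cast
    ring

/-- The coordinates of `λ` at the new places. -/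
noncomputable def rMap (T₂ P : Set (HeightOneSpectrum (𝓞 L))) : QU L T₂ →ₗ[ℚ] (P → ℂ) where
  toFun y w := lam L T₂ y (finAbs L w)
  map_add' x y := by
    funext w
    simp only [Submodule.coe_add, map_add, Finsupp.add_apply, Pi.add_apply]
  map_smul' c x := by
    funext w
    simp only [Submodule.coe_smul, map_smul, Finsupp.smul_apply, Pi.smul_apply, RingHom.id_apply]

theorem Split.ker_p (h : Split T T₂ P) :
    LinearMap.range (Submodule.inclusion h.XQ_le) = LinearMap.ker (pMap T₂ P) := by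
  rw [Submodule.range_inclusion]
  ext x
  rw [Submodule.mem_comap, LinearMap.mem_ker]
  have h1 := h.XQ_iff x.2
  rw [Submodule.subtype_apply, h1]
  constructor
  · intro h2
    funext w
    show (((x : (L → ℝ) →₀ ℚ) (finAbs L w) : ℚ) : ℂ) * _ = 0
    rw [h2 w, Rat.cast_zero, zero_mul]
  · intro h2 w
    have h3 : (((x : (L → ℝ) →₀ ℚ) (finAbs L w) : ℚ) : ℂ) * _ = 0 := congrFun h2 w
    have h4 := (mul_eq_zero.1 h3).resolve_right (log_ne _)
    exact_mod_cast h4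

theorem Split.ker_r (h : Split T T₂ P) :
    LinearMap.range (Submodule.inclusion (REGSU.QU_mono h.le)) = LinearMap.ker (rMap T₂ P) := by
  have : Fintype P := h.finP.fintype
  rw [Submodule.range_inclusion]
  ext x
  rw [Submodule.mem_comap, LinearMap.mem_ker, Submodule.subtype_apply]
  constructor
  · intro h2
    funext w
    exact h.lam_zero h2 w
  · intro h2
    obtain ⟨y₀, hy₀, c, hc, hc2⟩ := h.QU_dec x.2
    have h3 : ∀ w, c w = 0 := by
      intro w
      have h4 : lam L T₂ x (finAbs L w) = 0 := congrFun h2 w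
      rw [hc2 w] at h4
      have h5 := (mul_eq_zero.1 h4).resolve_right (mul_ne_zero (card_ne L) (log_ne _))
      exact_mod_cast h5
    rw [hc, Finset.sum_eq_zero, add_zero]
    · exact hy₀
    · intro w _
      rw [h3 w, zero_smul]

/-- The element of `ℚ ⊗ X` with given coordinates. -/
theorem Split.exists_x (h : Split T T₂ P) (k : Type) [Field k] (f : P → k) :
    ∃ x ∈ XRAT.SZ k (placeSet L T₂), ∀ w : P, x (finAbs L w) = f w := by
  have : Fintype P := h.finP.fintype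
  obtain ⟨w₁⟩ : Nonempty (InfinitePlace L) := inferInstance
  have ha₀ : infAbs L w₁ ∈ placeSet L T := Or.inl ⟨w₁, rfl⟩
  have hne : ∀ w : P, pl P w ≠ infAbs L w₁ := fun w e => h.pl_not w (e ▸ ha₀)
  refine ⟨∑ w, f w • (Finsupp.single (pl P w) (1 : k) - Finsupp.single (infAbs L w₁) 1), ?_, ?_⟩
  · refine Submodule.sum_mem _ fun w _ => Submodule.smul_mem _ _ ⟨?_, ?_⟩
    · refine Submodule.sub_mem _ (Finsupp.single_mem_supported k _ ?_)
        (Finsupp.single_mem_supported k _ ?_)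
      · rw [h.places]; exact Or.inr ⟨w, rfl⟩
      · rw [h.places]; exact Or.inl ha₀
    · rw [SetLike.mem_coe, LinearMap.mem_ker, map_sub, Finsupp.linearCombination_single,
        Finsupp.linearCombination_single, sub_self]
  · intro w
    rw [Finsupp.finsetSum_apply, Finset.sum_eq_single w]
    · rw [Finsupp.smul_apply, Finsupp.sub_apply]
      rw [show finAbs L (w : HeightOneSpectrum (𝓞 L)) = pl P w from rfl, Finsupp.single_eq_same,
        Finsupp.single_eq_of_ne (hne w), sub_zero, smul_eq_mul, mul_one]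
    · intro w' _ hw'
      have h' : pl P w ≠ pl P w' := fun e => hw' (pl_injective e).symm
      rw [Finsupp.smul_apply, Finsupp.sub_apply]
      rw [show finAbs L (w : HeightOneSpectrum (𝓞 L)) = pl P w from rfl,
        Finsupp.single_eq_of_ne h', Finsupp.single_eq_of_ne (hne w), sub_zero, smul_zero]
    · intro hw
      exact absurd (Finset.mem_univ w) hw

theorem Split.range_eq (h : Split T T₂ P) :
    LinearMap.range (pMap T₂ P) = LinearMap.range (rMap T₂ P) := by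
  have : Fintype P := h.finP.fintype
  apply le_antisymm
  · rintro _ ⟨x, rfl⟩
    let y : ℚ ⊗[ℤ] Additive Lˣ := ∑ w : P,
      (((x : (L → ℝ) →₀ ℚ) (finAbs L w) : ℚ) / (Fintype.card (ClassGroup (𝓞 L)) : ℚ)) •
        UNIT.tm (UNIT.piU (w : HeightOneSpectrum (𝓞 L)))
    have hy : y ∈ QU L T₂ := by
      rw [h.QU_eq]
      refine Submodule.mem_sup_right (Submodule.sum_mem _ fun w _ =>
        Submodule.smul_mem _ _ (Submodule.subset_span ⟨w, rfl⟩))
    refine ⟨⟨y, hy⟩, ?_⟩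
    funext w
    show lam L T₂ y (finAbs L w) = (((x : (L → ℝ) →₀ ℚ) (finAbs L w) : ℚ) : ℂ) * _
    rw [map_sum, Finsupp.finsetSum_apply, Finset.sum_eq_single w]
    · rw [map_smul, Finsupp.smul_apply, h.lam_self, Rat.smul_def]
      have h1 := card_ne L
      push_cast
      field_simp
    · intro w' _ hw'
      rw [map_smul, Finsupp.smul_apply, h.lam_ne w w' hw', smul_zero]
    · intro hw
      exact absurd (Finset.mem_univ w) hw
  · rintro _ ⟨y, rfl⟩
    obtain ⟨y₀, hy₀, c, hc, hc2⟩ := h.QU_dec y.2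
    obtain ⟨x, hx, hx2⟩ := h.exists_x ℚ
      (fun w => c w * (Fintype.card (ClassGroup (𝓞 L)) : ℚ))
    refine ⟨⟨x, hx⟩, ?_⟩
    funext w
    show ((x (finAbs L w) : ℚ) : ℂ) * _ = lam L T₂ y (finAbs L w)
    rw [hc2 w, hx2 w]
    push_cast
    ring

end Places

/-! ### The map `φ₂` -/

section Phi

variable {K L : Type} [Field K] [NumberField K] [Field L] [NumberField L] [Algebra K L]

theorem finAbs_comp (g : L ≃+* L) (w : HeightOneSpectrum (𝓞 L)) :
    finAbs L w ∘ g = finAbs L (STB.mv g.symm w) := STB.finAbs_comp_symm g.symm w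

theorem mv_mem_above (v : HeightOneSpectrum (𝓞 K)) (g : L ≃ₐ[K] L) {w : HeightOneSpectrum (𝓞 L)}
    (hw : w ∈ above K L v) : STB.mv (g : L ≃+* L) w ∈ above K L v := by
  have hw' : w.under (𝓞 K) = v := hw
  show (STB.mv (g : L ≃+* L) w).under (𝓞 K) = v
  rw [STB.under_mv, hw']

theorem mv_symm_mem_above (v : HeightOneSpectrum (𝓞 K)) (g : L ≃ₐ[K] L)
    {w : HeightOneSpectrum (𝓞 L)} (hw : w ∈ above K L v) :
    STB.mv (g : L ≃+* L).symm w ∈ above K L v := mv_mem_above v g.symm hw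

/-- The translation of functions on the new places. -/
noncomputable def tauMap (v : HeightOneSpectrum (𝓞 K)) (g : L ≃ₐ[K] L) :
    (above K L v → ℂ) →ₗ[ℚ] (above K L v → ℂ) :=
  LinearMap.funLeft ℚ ℂ (fun w : above K L v =>
    (⟨STB.mv (g : L ≃+* L).symm w, mv_symm_mem_above v g w.2⟩ : above K L v))

theorem split_insert (S : Finset (HeightOneSpectrum (𝓞 K))) (v : HeightOneSpectrum (𝓞 K))
    (hv : v ∉ S) : Split (aboveSet K L S)
      (aboveSet K L (insert v S : Finset (HeightOneSpectrum (𝓞 K)))) (above K L v) := by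
  refine ⟨?_, ?_, INFL.finite_aboveSet (Finset.finite_toSet _)⟩
  · ext w
    show w.under (𝓞 K) ∈ ((insert v S : Finset (HeightOneSpectrum (𝓞 K))) : Set _) ↔
      w.under (𝓞 K) ∈ (S : Set (HeightOneSpectrum (𝓞 K))) ∨ w.under (𝓞 K) = v
    rw [Finset.coe_insert, Set.mem_insert_iff, or_comm]
  · intro w hw hw2
    have hw' : w.under (𝓞 K) = v := hw
    have hw2' : w.under (𝓞 K) ∈ (S : Set (HeightOneSpectrum (𝓞 K))) := hw2
    rw [hw'] at hw2'
    exact hv hw2'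

theorem exists_phi (S S₂ : Finset (HeightOneSpectrum (𝓞 K))) (v : HeightOneSpectrum (𝓞 K))
    (h : Split (aboveSet K L S) (aboveSet K L S₂) (above K L v)) [IsGalois K L]
    (φ : XQ L (aboveSet K L S) ≃ₗ[ℚ] QU L (aboveSet K L S))
    (hφ : ∀ (g : L ≃ₐ[K] L) (x y : XQ L (aboveSet K L S)),
      (y : (L → ℝ) →₀ ℚ) = actQ (g : L ≃+* L) x →
      (φ y : ℚ ⊗[ℤ] Additive Lˣ) = actU (g : L ≃+* L) (φ x)) :
    ∃ φ₂ : XQ L (aboveSet K L S₂) ≃ₗ[ℚ] QU L (aboveSet K L S₂),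
      (∀ (g : L ≃ₐ[K] L) (x y : XQ L (aboveSet K L S₂)),
        (y : (L → ℝ) →₀ ℚ) = actQ (g : L ≃+* L) x →
        (φ₂ y : ℚ ⊗[ℤ] Additive Lˣ) = actU (g : L ≃+* L) (φ₂ x)) ∧
      (∀ x : XQ L (aboveSet K L S), (φ₂ (Submodule.inclusion h.XQ_le x) : ℚ ⊗[ℤ] Additive Lˣ) =
        φ x) ∧
      ∀ (x : XQ L (aboveSet K L S₂)) (w : above K L v),
        lam L (aboveSet K L S₂) (φ₂ x) (finAbs L w) =
          (((x : (L → ℝ) →₀ ℚ) (finAbs L w) : ℚ) : ℂ) *
            ((Real.log (Ideal.absNorm (w : HeightOneSpectrum (𝓞 L)).asIdeal) : ℝ) : ℂ) := by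
  have hst := STB_thm K L (S₂ : Set (HeightOneSpectrum (𝓞 K)))
  have e1 : ∀ (g : L ≃ₐ[K] L) (x : XQ L (aboveSet K L S₂)),
      pMap (aboveSet K L S₂) (above K L v) (INFL.repQ (aboveSet K L S₂) hst g x) =
        tauMap v g (pMap (aboveSet K L S₂) (above K L v) x) := by
    intro g x
    funext w
    show ((actQ (g : L ≃+* L) (x : (L → ℝ) →₀ ℚ) (finAbs L w) : ℚ) : ℂ) * _ =
      (((x : (L → ℝ) →₀ ℚ) (finAbs L (STB.mv (g : L ≃+* L).symm w)) : ℚ) : ℂ) *
        ((Real.log (Ideal.absNorm (STB.mv (g : L ≃+* L).symm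
          (w : HeightOneSpectrum (𝓞 L))).asIdeal) : ℝ) : ℂ)
    rw [THC.actQ_apply, finAbs_comp, STB.absNorm_mv]
  have e2 : ∀ (g : L ≃ₐ[K] L) (y : QU L (aboveSet K L S₂)),
      rMap (aboveSet K L S₂) (above K L v)
        (INFL.repU STB_thm (S₂ : Set (HeightOneSpectrum (𝓞 K))) g y) =
        tauMap v g (rMap (aboveSet K L S₂) (above K L v) y) := by
    intro g y
    funext w
    show lam L (aboveSet K L S₂) (actU (g : L ≃+* L) (y : ℚ ⊗[ℤ] Additive Lˣ)) (finAbs L w) =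
      lam L (aboveSet K L S₂) y (finAbs L (STB.mv (g : L ≃+* L).symm w))
    rw [INFL.lam_act hst, THC.actC_apply, finAbs_comp]
  have e3 : ∀ (g : L ≃ₐ[K] L) (x x' : XQ L (aboveSet K L S)),
      Submodule.inclusion h.XQ_le x' =
        INFL.repQ (aboveSet K L S₂) hst g (Submodule.inclusion h.XQ_le x) →
      Submodule.inclusion (REGSU.QU_mono h.le) (φ x') =
        INFL.repU STB_thm (S₂ : Set (HeightOneSpectrum (𝓞 K))) g
          (Submodule.inclusion (REGSU.QU_mono h.le) (φ x)) := by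
    intro g x x' hx
    apply Subtype.ext
    have hx' : (x' : (L → ℝ) →₀ ℚ) = actQ (g : L ≃+* L) x := congrArg Subtype.val hx
    exact hφ g x x' hx'
  obtain ⟨φ₂, h1, h2, h3⟩ := ext_equi (INFL.repQ (aboveSet K L S₂) hst)
    (INFL.repU STB_thm (S₂ : Set (HeightOneSpectrum (𝓞 K))))
    (Submodule.inclusion h.XQ_le) (Submodule.inclusion_injective _)
    (Submodule.inclusion (REGSU.QU_mono h.le)) (Submodule.inclusion_injective _) φ
    (pMap (aboveSet K L S₂) (above K L v)) (rMap (aboveSet K L S₂) (above K L v))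
    h.ker_p h.ker_r h.range_eq (tauMap v) e1 e2 e3
  refine ⟨φ₂, ?_, ?_, ?_⟩
  · intro g x y hxy
    have e : y = INFL.repQ (aboveSet K L S₂) hst g x := Subtype.ext hxy
    rw [e, h1]
    rfl
  · intro x
    rw [h2]
    rfl
  · intro x w
    exact congrFun (h3 x) w

end Phi

/-! ### The regulator -/

section Regulator

variable {K L : Type} [Field K] [NumberField K] [Field L] [NumberField L] [Algebra K L]

theorem val_injective {T : Set (HeightOneSpectrum (𝓞 L))} {x y : XC L T} (h : x.val = y.val) :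
    x = y := Subtype.ext h

/-- The inclusion `XC L T → XC L T₂`. -/
noncomputable def incC {T T₂ : Set (HeightOneSpectrum (𝓞 L))} (h : XCsub L T ≤ XCsub L T₂) :
    XC L T →ₗ[ℂ] XC L T₂ := (Submodule.inclusion h : XCsub L T →ₗ[ℂ] XCsub L T₂)

theorem incC_val {T T₂ : Set (HeightOneSpectrum (𝓞 L))} (h : XCsub L T ≤ XCsub L T₂)
    (x : XC L T) : (incC h x).val = x.val := rfl

theorem incC_injective {T T₂ : Set (HeightOneSpectrum (𝓞 L))} (h : XCsub L T ≤ XCsub L T₂) :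
    Function.Injective (incC h) := by
  intro x y hxy
  apply val_injective
  rw [← incC_val h, hxy, incC_val]

theorem theta_inc {T T₂ P : Set (HeightOneSpectrum (𝓞 L))} (h : Split T T₂ P)
    (φ : XQ L T ≃ₗ[ℚ] QU L T) (Θ : XC L T →ₗ[ℂ] XC L T)
    (φ₂ : XQ L T₂ ≃ₗ[ℚ] QU L T₂) (Θ₂ : XC L T₂ →ₗ[ℂ] XC L T₂)
    (hΘ : ∀ (x : XQ L T) (z : XC L T),
      (∀ a, z.val a = (((x : (L → ℝ) →₀ ℚ) a : ℚ) : ℂ)) → (Θ z).val = lam L T (φ x))
    (hΘ₂ : ∀ (x : XQ L T₂) (z : XC L T₂),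
      (∀ a, z.val a = (((x : (L → ℝ) →₀ ℚ) a : ℚ) : ℂ)) → (Θ₂ z).val = lam L T₂ (φ₂ x))
    (hφ₂ : ∀ x : XQ L T, (φ₂ (Submodule.inclusion h.XQ_le x) : ℚ ⊗[ℤ] Additive Lˣ) = φ x)
    (z : XC L T) : Θ₂ (incC h.XC_le z) = incC h.XC_le (Θ z) := by
  obtain ⟨n, b, c, hbc⟩ := XRAT_thm L T h.finT
  have h1 : Θ₂ ∘ₗ incC h.XC_le = incC h.XC_le ∘ₗ Θ := by
    refine c.ext fun k => ?_
    rw [LinearMap.comp_apply, LinearMap.comp_apply]
    apply val_injective
    rw [incC_val, hΘ (b k) (c k) (hbc k)]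
    rw [hΘ₂ (Submodule.inclusion h.XQ_le (b k)) (incC h.XC_le (c k)) (hbc k), hφ₂]
    exact h.lam_eq (φ (b k)).2
  exact LinearMap.congr_fun h1 z

theorem theta_coord {T T₂ P : Set (HeightOneSpectrum (𝓞 L))} (h : Split T T₂ P)
    (φ₂ : XQ L T₂ ≃ₗ[ℚ] QU L T₂) (Θ₂ : XC L T₂ →ₗ[ℂ] XC L T₂)
    (hΘ₂ : ∀ (x : XQ L T₂) (z : XC L T₂),
      (∀ a, z.val a = (((x : (L → ℝ) →₀ ℚ) a : ℚ) : ℂ)) → (Θ₂ z).val = lam L T₂ (φ₂ x))
    (hφ₂ : ∀ (x : XQ L T₂) (w : P), lam L T₂ (φ₂ x) (finAbs L w) =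
          (((x : (L → ℝ) →₀ ℚ) (finAbs L w) : ℚ) : ℂ) *
            ((Real.log (Ideal.absNorm (w : HeightOneSpectrum (𝓞 L)).asIdeal) : ℝ) : ℂ))
    (w : P) (z : XC L T₂) : (Θ₂ z).val (finAbs L w) =
      ((Real.log (Ideal.absNorm (w : HeightOneSpectrum (𝓞 L)).asIdeal) : ℝ) : ℂ) *
        z.val (finAbs L w) := by
  obtain ⟨n, b, c, hbc⟩ := XRAT_thm L T₂ h.fin
  let e : XC L T₂ →ₗ[ℂ] ℂ := Finsupp.lapply (finAbs L (w : HeightOneSpectrum (𝓞 L))) ∘ₗ XC.val
  have h1 : e ∘ₗ Θ₂ = ((Real.log (Ideal.absNorm (w : HeightOneSpectrum (𝓞 L)).asIdeal) : ℝ) : ℂ) •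
      e := by
    refine c.ext fun k => ?_
    rw [LinearMap.comp_apply, LinearMap.smul_apply]
    show (Θ₂ (c k)).val (finAbs L w) = _ * (c k).val (finAbs L w)
    rw [hΘ₂ (b k) (c k) (hbc k), hφ₂, hbc, mul_comm]
  exact LinearMap.congr_fun h1 z

/-- The identity functional. -/
noncomputable def idF : Module.Dual ℂ ℂ := LinearMap.id

theorem dual_eq (α : Module.Dual ℂ ℂ) : α = α 1 • idF := by
  refine LinearMap.ext fun z => ?_
  show α z = α 1 * z
  have h1 : α z = α (z • (1 : ℂ)) := by rw [smul_eq_mul, mul_one]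
  rw [h1, map_smul, smul_eq_mul, mul_comm]

omit [NumberField K] [NumberField L] in
theorem linRep_dual (ψ : (L ≃ₐ[K] L) →* ℂˣ) (g : L ≃ₐ[K] L) (α : Module.Dual ℂ ℂ) :
    (linRep ψ).dual g α = ((ψ g⁻¹ : ℂˣ) : ℂ) • α := by
  refine LinearMap.ext fun z => ?_
  show α (((ψ g⁻¹ : ℂˣ) : ℂ) • z) = ((ψ g⁻¹ : ℂˣ) : ℂ) • α z
  rw [map_smul]

omit [NumberField K] in
/-- `homG` for a linear character. -/
theorem mem_homG {T : Set (HeightOneSpectrum (𝓞 L))} (ψ : (L ≃ₐ[K] L) →* ℂˣ)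
    (f : Module.Dual ℂ ℂ →ₗ[ℂ] XC L T) :
    f ∈ homG T (linRep ψ) ↔ ∀ g : L ≃ₐ[K] L,
      actC (g : L ≃+* L) (f idF).val = ((ψ g⁻¹ : ℂˣ) : ℂ) • (f idF).val := by
  constructor
  · intro h g
    rw [← h g idF, linRep_dual, map_smul, map_smul]
  · intro h g α
    rw [linRep_dual, map_smul, map_smul]
    rw [dual_eq α, map_smul, map_smul, map_smul, h g, smul_comm]

omit [NumberField K] in
theorem stable_homG {T : Set (HeightOneSpectrum (𝓞 L))} (hT : StableT K T)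
    (Θ : XC L T →ₗ[ℂ] XC L T) (hΘ : ∀ g : L ≃ₐ[K] L, Θ ∘ₗ repX K T hT g = repX K T hT g ∘ₗ Θ)
    (ψ : (L ≃ₐ[K] L) →* ℂˣ) :
    ∀ f ∈ homG (K := K) T (linRep ψ), LinearMap.compRight ℂ Θ f ∈ homG (K := K) T (linRep ψ) := by
  intro f hf
  rw [mem_homG] at hf ⊢
  intro g
  have h1 : repX K T hT g (f idF) = ((ψ g⁻¹ : ℂˣ) : ℂ) • f idF := by
    apply val_injective
    rw [repX_val, hf g, map_smul]
  have h2 := LinearMap.congr_fun (hΘ g) (f idF)
  rw [LinearMap.comp_apply, LinearMap.comp_apply, h1, map_smul] at h2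
  show actC (g : L ≃+* L) (Θ (f idF)).val = ((ψ g⁻¹ : ℂˣ) : ℂ) • (Θ (f idF)).val
  rw [← repX_val T hT g, ← h2, map_smul]

omit [NumberField K] in
/-- The transport of the coordinates. -/
theorem coord_mv {x : (L → ℝ) →₀ ℂ} (ψ : (L ≃ₐ[K] L) →* ℂˣ)
    (hx : ∀ g : L ≃ₐ[K] L, actC (g : L ≃+* L) x = ((ψ g⁻¹ : ℂˣ) : ℂ) • x)
    (g : L ≃ₐ[K] L) (w : HeightOneSpectrum (𝓞 L)) :
    x (finAbs L (STB.mv (g : L ≃+* L) w)) = ((ψ g : ℂˣ) : ℂ) * x (finAbs L w) := by
  have h1 := DFunLike.congr_fun (hx g.symm) (finAbs L w)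
  rw [THC.actC_apply, finAbs_comp, Finsupp.smul_apply, smul_eq_mul] at h1
  have h2 : (g.symm : L ≃ₐ[K] L)⁻¹ = g := inv_inv g
  rw [h2] at h1
  exact h1

/-- Evaluation at a place. -/
noncomputable def evW (T : Set (HeightOneSpectrum (𝓞 L))) (ψ : (L ≃ₐ[K] L) →* ℂˣ)
    (w : HeightOneSpectrum (𝓞 L)) : homG (K := K) T (linRep ψ) →ₗ[ℂ] ℂ where
  toFun f := (f.1 idF).val (finAbs L w)
  map_add' f f' := by
    rw [Submodule.coe_add, LinearMap.add_apply, map_add, Finsupp.add_apply]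
  map_smul' c f := by
    rw [Submodule.coe_smul, LinearMap.smul_apply, map_smul, Finsupp.smul_apply]
    rfl

/-- The kernel of the evaluation is `homG` for the smaller set. -/
theorem mem_ker_evW [IsGalois K L] {T T₂ : Set (HeightOneSpectrum (𝓞 L))}
    {v : HeightOneSpectrum (𝓞 K)} (h : Split T T₂ (above K L v)) (ψ : (L ≃ₐ[K] L) →* ℂˣ)
    {w₀ : HeightOneSpectrum (𝓞 L)} (hw₀ : w₀ ∈ above K L v)
    (f : homG (K := K) T₂ (linRep ψ)) (hf : f ∈ LinearMap.ker (evW T₂ ψ w₀)) :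
    ∀ α, (f.1 α).val ∈ XCsub L T := by
  have h0 : (f.1 idF).val (finAbs L w₀) = 0 := hf
  have h1 := (mem_homG ψ f.1).1 f.2
  have hm : (f.1 idF).val ∈ XCsub L T₂ := (f.1 idF).2
  have h2 : (f.1 idF).val ∈ XCsub L T := by
    rw [h.XC_iff hm]
    intro w
    have hw : (w : HeightOneSpectrum (𝓞 L)).under (𝓞 K) = v := w.2
    have hw0 : w₀.under (𝓞 K) = v := hw₀
    obtain ⟨g, hg⟩ := exists_mv (K := K) (w := w₀) (w' := w) (by rw [hw, hw0])
    rw [← hg, coord_mv ψ h1, h0, mul_zero]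
  intro α
  rw [dual_eq α, map_smul, map_smul]
  exact Submodule.smul_mem _ _ h2

/-- `homG` for the smaller set is the kernel of the evaluation. -/
theorem exists_equiv [IsGalois K L] {T T₂ : Set (HeightOneSpectrum (𝓞 L))}
    {v : HeightOneSpectrum (𝓞 K)} (h : Split T T₂ (above K L v)) (ψ : (L ≃ₐ[K] L) →* ℂˣ)
    {w₀ : HeightOneSpectrum (𝓞 L)} (hw₀ : w₀ ∈ above K L v) :
    ∃ e : homG (K := K) T (linRep ψ) ≃ₗ[ℂ] LinearMap.ker (evW (K := K) T₂ ψ w₀),
      ∀ f, ((e f).1.1 : Module.Dual ℂ ℂ →ₗ[ℂ] XC L T₂) = incC h.XC_le ∘ₗ f.1 := by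
  have hmem : ∀ f : homG (K := K) T (linRep ψ), incC h.XC_le ∘ₗ f.1 ∈
      homG (K := K) T₂ (linRep ψ) := by
    intro f
    rw [mem_homG]
    intro g
    have h1 := (mem_homG ψ f.1).1 f.2 g
    exact h1
  have hker : ∀ f : homG (K := K) T (linRep ψ),
      (⟨_, hmem f⟩ : homG (K := K) T₂ (linRep ψ)) ∈ LinearMap.ker (evW (K := K) T₂ ψ w₀) := by
    intro f
    have hm : (f.1 idF).val ∈ XCsub L T := (f.1 idF).2
    exact (h.XC_iff (h.XC_le hm)).1 hm ⟨w₀, hw₀⟩
  let F : homG (K := K) T (linRep ψ) →ₗ[ℂ] LinearMap.ker (evW (K := K) T₂ ψ w₀) :=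
    { toFun := fun f => ⟨⟨_, hmem f⟩, hker f⟩
      map_add' := fun f f' => by
        apply Subtype.ext
        apply Subtype.ext
        show incC h.XC_le ∘ₗ (f.1 + f'.1) = incC h.XC_le ∘ₗ f.1 + incC h.XC_le ∘ₗ f'.1
        rw [LinearMap.comp_add]
      map_smul' := fun c f => by
        apply Subtype.ext
        apply Subtype.ext
        show incC h.XC_le ∘ₗ (c • f.1) = c • (incC h.XC_le ∘ₗ f.1)
        rw [LinearMap.comp_smul] }
  have hF : ∀ f, ((F f).1.1 : Module.Dual ℂ ℂ →ₗ[ℂ] XC L T₂) = incC h.XC_le ∘ₗ f.1 :=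
    fun f => rfl
  have hb : Function.Bijective F := by
    constructor
    · intro f f' hff
      apply Subtype.ext
      refine LinearMap.ext fun α => ?_
      apply incC_injective h.XC_le
      have h1 : (F f).1.1 = (F f').1.1 := by rw [hff]
      rw [hF, hF] at h1
      exact LinearMap.congr_fun h1 α
    · rintro ⟨f, hf⟩
      have h1 := mem_ker_evW h ψ hw₀ f hf
      let f' : Module.Dual ℂ ℂ →ₗ[ℂ] XC L T :=
        { toFun := fun α => (⟨(f.1 α).val, h1 α⟩ : XCsub L T)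
          map_add' := fun α β => by
            apply Subtype.ext
            show (f.1 (α + β)).val = (f.1 α).val + (f.1 β).val
            rw [map_add, map_add]
          map_smul' := fun c α => by
            apply Subtype.ext
            show (f.1 (c • α)).val = c • (f.1 α).val
            rw [map_smul, map_smul] }
      have hf' : f' ∈ homG (K := K) T (linRep ψ) := by
        rw [mem_homG]
        intro g
        exact (mem_homG ψ f.1).1 f.2 g
      refine ⟨⟨f', hf'⟩, ?_⟩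
      apply Subtype.ext
      apply Subtype.ext
      refine LinearMap.ext fun α => ?_
      exact val_injective rfl
  exact ⟨LinearEquiv.ofBijective F hb, hF⟩

/-- The evaluation vanishes if and only if `ψ` is not trivial on the decomposition groups. -/
theorem evW_eq_zero_iff [IsGalois K L] {T T₂ : Set (HeightOneSpectrum (𝓞 L))}
    {v : HeightOneSpectrum (𝓞 K)} (h : Split T T₂ (above K L v)) (hT₂ : StableT K T₂)
    (ψ : (L ≃ₐ[K] L) →* ℂˣ) {w₀ : HeightOneSpectrum (𝓞 L)} (hw₀ : w₀ ∈ above K L v) :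
    evW (K := K) T₂ ψ w₀ = 0 ↔ ¬ TrivD v ψ := by
  rw [trivD_iff]
  constructor
  · intro h0 htr
    -- the element `x₁`
    obtain ⟨x₁, hx₁, hx₁w⟩ := h.exists_x ℂ (fun w => if w = ⟨w₀, hw₀⟩ then 1 else 0)
    let y₁ : XC L T₂ := (⟨x₁, hx₁⟩ : XCsub L T₂)
    have hy₁ : y₁.val = x₁ := rfl
    let y₂ : XC L T₂ := ∑ g : L ≃ₐ[K] L, ((ψ g : ℂˣ) : ℂ) • repX K T₂ hT₂ g y₁
    have hy₂ : ∀ g : L ≃ₐ[K] L, repX K T₂ hT₂ g y₂ = ((ψ g⁻¹ : ℂˣ) : ℂ) • y₂ := by
      intro k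
      rw [map_sum, Finset.smul_sum]
      refine Fintype.sum_equiv (Equiv.mulLeft k) _ _ ?_
      intro g
      rw [Equiv.coe_mulLeft, map_smul, smul_smul, ← Module.End.mul_apply, ← map_mul]
      congr 1
      rw [← Units.val_mul, ← map_mul, inv_mul_cancel_left]
    let f : Module.Dual ℂ ℂ →ₗ[ℂ] XC L T₂ :=
      { toFun := fun α => α 1 • y₂
        map_add' := fun α β => by rw [LinearMap.add_apply, add_smul]
        map_smul' := fun c α => by
          rw [LinearMap.smul_apply, smul_eq_mul, mul_smul, RingHom.id_apply] }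
    have hfid : f idF = y₂ := by
      show idF 1 • y₂ = y₂
      show (1 : ℂ) • y₂ = y₂
      rw [one_smul]
    have hf : f ∈ homG (K := K) T₂ (linRep ψ) := by
      rw [mem_homG]
      intro g
      rw [hfid, ← repX_val T₂ hT₂ g, hy₂ g, map_smul]
    have h1 : evW (K := K) T₂ ψ w₀ ⟨f, hf⟩ = 0 := by rw [h0]; rfl
    have h2 : y₂.val (finAbs L w₀) = 0 := by
      rw [← hfid]
      exact h1
    have h3 : y₂.val (finAbs L w₀) = ∑ g : L ≃ₐ[K] L,
        if STB.mv (g : L ≃+* L).symm w₀ = w₀ then (1 : ℂ) else 0 := by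
      rw [map_sum, Finsupp.finsetSum_apply]
      refine Finset.sum_congr rfl fun g _ => ?_
      rw [map_smul, Finsupp.smul_apply, repX_val, THC.actC_apply, finAbs_comp, hy₁]
      have h4 := hx₁w ⟨STB.mv (g : L ≃+* L).symm w₀, mv_symm_mem_above v g hw₀⟩
      rw [show finAbs L (STB.mv (g : L ≃+* L).symm w₀) =
        finAbs L ((⟨STB.mv (g : L ≃+* L).symm w₀, mv_symm_mem_above v g hw₀⟩ :
          above K L v) : HeightOneSpectrum (𝓞 L)) from rfl, h4]
      by_cases hg : STB.mv (g : L ≃+* L).symm w₀ = w₀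
      · have h5 : (⟨STB.mv (g : L ≃+* L).symm w₀, mv_symm_mem_above v g hw₀⟩ : above K L v) =
          ⟨w₀, hw₀⟩ := Subtype.ext hg
        rw [if_pos h5, if_pos hg, smul_eq_mul, mul_one]
        have h6 : STB.mv (g : L ≃+* L) w₀ = w₀ := by
          conv_lhs => rw [← hg]
          exact mv_mv_symm _ _
        rw [htr w₀ hw₀ g h6]
        rfl
      · have h5 : (⟨STB.mv (g : L ≃+* L).symm w₀, mv_symm_mem_above v g hw₀⟩ : above K L v) ≠
          ⟨w₀, hw₀⟩ := fun e => hg (congrArg Subtype.val e)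
        rw [if_neg h5, if_neg hg, smul_zero]
    rw [h3, ← Finset.sum_filter, Finset.sum_const, nsmul_eq_mul, mul_one] at h2
    have h7 : (Finset.univ.filter (fun g : L ≃ₐ[K] L =>
        STB.mv (g : L ≃+* L).symm w₀ = w₀)).card = 0 := by exact_mod_cast h2
    rw [Finset.card_eq_zero, Finset.filter_eq_empty_iff] at h7
    apply h7 (Finset.mem_univ (1 : L ≃ₐ[K] L))
    rw [mv_eq_iff]
    intro x hx
    exact hx
  · intro hn
    push Not at hn
    obtain ⟨w, hw, g, hg, hψ⟩ := hn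
    refine LinearMap.ext fun f => ?_
    show (f.1 idF).val (finAbs L w₀) = 0
    have h1 := (mem_homG ψ f.1).1 f.2
    have h2 := coord_mv ψ h1 g w
    rw [hg] at h2
    have h3 : (f.1 idF).val (finAbs L w) = 0 := by
      have h4 : (((ψ g : ℂˣ) : ℂ) - 1) * (f.1 idF).val (finAbs L w) = 0 := by
        rw [sub_mul, one_mul, ← h2, sub_self]
      refine (mul_eq_zero.1 h4).resolve_left ?_
      intro h5
      apply hψ
      apply Units.ext
      rw [Units.val_one]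
      exact sub_eq_zero.1 h5
    have hw1 : w.under (𝓞 K) = v := hw
    have hw0 : w₀.under (𝓞 K) = v := hw₀
    obtain ⟨k, hk⟩ := exists_mv (K := K) (w := w) (w' := w₀) (by rw [hw1, hw0])
    rw [← hk, coord_mv ψ h1, h3, mul_zero]

theorem finite_XC {T : Set (HeightOneSpectrum (𝓞 L))} (hT : T.Finite) :
    Module.Finite ℂ (XC L T) := by
  obtain ⟨n, b, c, -⟩ := XRAT_thm L T hT
  exact Module.Finite.of_basis c

theorem reg_eq [IsGalois K L] {T T₂ : Set (HeightOneSpectrum (𝓞 L))}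
    {v : HeightOneSpectrum (𝓞 K)} (h : Split T T₂ (above K L v))
    (hT : StableT K T) (hT₂ : StableT K T₂)
    (Θ : XC L T →ₗ[ℂ] XC L T) (Θ₂ : XC L T₂ →ₗ[ℂ] XC L T₂)
    (hΘ : ∀ g : L ≃ₐ[K] L, Θ ∘ₗ repX K T hT g = repX K T hT g ∘ₗ Θ)
    (hΘ₂ : ∀ g : L ≃ₐ[K] L, Θ₂ ∘ₗ repX K T₂ hT₂ g = repX K T₂ hT₂ g ∘ₗ Θ₂)
    (hinc : ∀ z : XC L T, Θ₂ (incC h.XC_le z) = incC h.XC_le (Θ z))
    {w₀ : HeightOneSpectrum (𝓞 L)} (hw₀ : w₀ ∈ above K L v) (c : ℂ)
    (hc : ∀ z : XC L T₂, (Θ₂ z).val (finAbs L w₀) = c * z.val (finAbs L w₀))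
    (ψ : (L ≃ₐ[K] L) →* ℂˣ) :
    Reg T₂ (linRep ψ) Θ₂ = Reg T (linRep ψ) Θ * (if TrivD v ψ then c else 1) := by
  have h1 := stable_homG hT Θ hΘ ψ
  have h2 := stable_homG hT₂ Θ₂ hΘ₂ ψ
  unfold Reg
  rw [dif_pos h1, dif_pos h2]
  have : Module.Finite ℂ (XC L T₂) := finite_XC h.fin
  have hB : ∀ f : homG (K := K) T₂ (linRep ψ),
      evW (K := K) T₂ ψ w₀ ((LinearMap.compRight ℂ Θ₂).restrict h2 f) =
        c * evW (K := K) T₂ ψ w₀ f := fun f => hc (f.1 idF)
  have hk : ∀ f ∈ LinearMap.ker (evW (K := K) T₂ ψ w₀),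
      (LinearMap.compRight ℂ Θ₂).restrict h2 f ∈ LinearMap.ker (evW (K := K) T₂ ψ w₀) := by
    intro f hf
    rw [LinearMap.mem_ker] at hf ⊢
    rw [hB, hf, mul_zero]
  rw [det_form _ (evW (K := K) T₂ ψ w₀) c hB hk]
  obtain ⟨e, he⟩ := exists_equiv h ψ hw₀
  congr 1
  · rw [← LinearMap.det_conj (M := homG (K := K) T (linRep ψ))
      (N := LinearMap.ker (evW (K := K) T₂ ψ w₀)) ((LinearMap.compRight ℂ Θ).restrict h1) e]
    congr 1
    refine LinearMap.ext fun y => ?_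
    obtain ⟨f, rfl⟩ := e.surjective y
    simp only [LinearMap.comp_apply, LinearEquiv.coe_coe, LinearEquiv.symm_apply_apply]
    apply Subtype.ext
    apply Subtype.ext
    rw [he]
    refine LinearMap.ext fun α => ?_
    have h3 : (((((LinearMap.compRight ℂ Θ₂).restrict h2).restrict hk) (e f)).1.1 :
        Module.Dual ℂ ℂ →ₗ[ℂ] XC L T₂) α = Θ₂ (((e f).1.1 : Module.Dual ℂ ℂ →ₗ[ℂ] XC L T₂) α) :=
      rfl
    rw [h3, he]
    exact hinc (f.1 α)
  · have hz := evW_eq_zero_iff h hT₂ ψ hw₀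
    by_cases ht : TrivD v ψ
    · rw [if_pos ht, if_neg (fun e => hz.1 e ht)]
    · rw [if_neg ht, if_pos (hz.2 ht)]

end Regulator

end SREG

/-- SREG. -/
theorem SREG_thm : Stmt_SREG := by
  intro K L _ _ _ _ _ _ S v hv φ Θ hφΘ
  have h : SREG.Split (aboveSet K L S)
      (aboveSet K L (insert v S : Finset (HeightOneSpectrum (𝓞 K)))) (above K L v) :=
    SREG.split_insert S v hv
  obtain ⟨φ₂, h1, h2, h3⟩ := SREG.exists_phi S _ v h φ hφΘ.1
  obtain ⟨Θ₂, hΘ₂⟩ := THE_thm XRAT_thm UNIT_thm K L _ φ₂ h.fin h1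
  obtain ⟨w₀, hw₀⟩ : ∃ w : HeightOneSpectrum (𝓞 L), w ∈ above K L v := by
    have := v.isMaximal
    obtain ⟨P, hP, hlie⟩ := Ideal.exists_maximal_ideal_liesOver_of_isIntegral (S := 𝓞 L) v.asIdeal
    have hPb : P ≠ ⊥ := by
      rintro rfl
      have h1 := hlie.over
      rw [Ideal.under_bot] at h1
      exact v.ne_bot h1
    refine ⟨⟨P, hP.isPrime, hPb⟩, ?_⟩
    show HeightOneSpectrum.under (𝓞 K) _ = v
    apply HeightOneSpectrum.ext
    exact hlie.over.symm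
  obtain ⟨q, hq, hlog⟩ := SREG.log_norm hw₀
  refine ⟨φ₂, Θ₂, q, hq, hΘ₂, fun ψ => ?_⟩
  have hT := STB_thm K L (S : Set (HeightOneSpectrum (𝓞 K)))
  have hT₂ := STB_thm K L ((insert v S : Finset (HeightOneSpectrum (𝓞 K))) : Set _)
  refine SREG.reg_eq h hT hT₂ Θ Θ₂ (THC_thm XRAT_thm K L _ hT φ Θ h.finT hφΘ)
    (THC_thm XRAT_thm K L _ hT₂ φ₂ Θ₂ h.fin hΘ₂)
    (SREG.theta_inc h φ Θ φ₂ Θ₂ hφΘ.2 hΘ₂.2 h2) hw₀ _ ?_ ψ
  intro z
  rw [← hlog]
  exact SREG.theta_coord h φ₂ Θ₂ hΘ₂.2 h3 ⟨w₀, hw₀⟩ z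

end StarkC
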