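import Pool.Agent.StarkT.StmtsI
import Pool.Agent.Stark.IND
import Pool.Agent.Stark.MAIN

/-!
# BASEQ: Stark's conjecture over `ℚ` implies Stark's conjecture over all number fields
-/

open NumberField IsDedekindDomain
open scoped TensorProduct Classical

namespace StarkC

namespace BASEQ

set_option linter.unusedSectionVars false

section

variable {E F N : Type} [Field E] [NumberField E] [Field F] [NumberField F]
    [Field N] [NumberField N] [Algebra E F] [Algebra E N] [Algebra F N] [IsScalarTower E F N]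

theorem under_under (w : HeightOneSpectrum (𝓞 N)) :
    (w.under (𝓞 F)).under (𝓞 E) = w.under (𝓞 E) := by
  apply HeightOneSpectrum.ext
  simp only [HeightOneSpectrum.under_asIdeal]
  exact Ideal.under_under _

/-- The finite set of all primes of `F` above `S₀`. -/
theorem exists_S1 (S₀ : Finset (HeightOneSpectrum (𝓞 E))) :
    ∃ S₁ : Finset (HeightOneSpectrum (𝓞 F)),
      aboveSet F N (S₁ : Set (HeightOneSpectrum (𝓞 F))) =
        aboveSet E N (S₀ : Set (HeightOneSpectrum (𝓞 E))) := by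
  refine ⟨(IND.aboveSet_finite (K := E) (N := F) (S₀ : Set (HeightOneSpectrum (𝓞 E)))
    S₀.finite_toSet).toFinset, ?_⟩
  ext w
  rw [Set.Finite.coe_toFinset]
  show (w.under (𝓞 F)).under (𝓞 E) ∈ (S₀ : Set (HeightOneSpectrum (𝓞 E))) ↔
    w.under (𝓞 E) ∈ (S₀ : Set (HeightOneSpectrum (𝓞 E)))
  rw [under_under]

theorem isPhiTheta_res {T : Set (HeightOneSpectrum (𝓞 N))} {φ : XQ N T ≃ₗ[ℚ] QU N T}
    {Θ : XC N T →ₗ[ℂ] XC N T} (h : IsPhiTheta E T φ Θ) : IsPhiTheta F T φ Θ :=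
  ⟨fun g x y hxy => h.1 (g.restrictScalars E) x y hxy, h.2⟩

variable (E) in
/-- A linear character of `Gal(N/F)` as a character of the subgroup `fixK E F N`. -/
noncomputable def chr (ψ : (N ≃ₐ[F] N) →* ℂˣ) : fixK E F N →* ℂˣ where
  toFun h := ψ (toK h.1 h.2)
  map_one' := by
    have h1 : toK (E := E) (K := F) (N := N) (1 : fixK E F N).1 (1 : fixK E F N).2 = 1 := by
      ext x
      rfl
    rw [h1, map_one]
  map_mul' a b := by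
    have h1 : toK (E := E) (K := F) (N := N) (a * b).1 (a * b).2 = toK a.1 a.2 * toK b.1 b.2 := by
      ext x
      rfl
    rw [h1, map_mul]

theorem extZ_chr (ψ : (N ≃ₐ[F] N) →* ℂˣ) : extZ (chr E ψ) = extK E ψ := rfl

theorem twist_chr (σ : ℂ ≃+* ℂ) (ψ : (N ≃ₐ[F] N) →* ℂˣ) :
    twist σ (chr E ψ) = chr E (twist σ ψ) := rfl

end

/-- `SIND` for data given on a set `T` equal to `aboveSet F N S₁`. -/
theorem sind_cast (hS : Stmt_SINDP) {F N : Type} [Field F] [NumberField F] [Field N]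
    [NumberField N] [Algebra F N] [IsGalois F N] (ψ : (N ≃ₐ[F] N) →* ℂˣ) (σ : ℂ ≃+* ℂ) (M : ℕ)
    (S₁ S₂ : Finset (HeightOneSpectrum (𝓞 F))) (T : Set (HeightOneSpectrum (𝓞 N)))
    (hT : aboveSet F N (S₁ : Set (HeightOneSpectrum (𝓞 F))) = T)
    (φ : XQ N T ≃ₗ[ℚ] QU N T) (Θ : XC N T →ₗ[ℂ] XC N T)
    (φ₂ : XQ N (aboveSet F N S₂) ≃ₗ[ℚ] QU N (aboveSet F N S₂))
    (Θ₂ : XC N (aboveSet F N S₂) →ₗ[ℂ] XC N (aboveSet F N S₂))
    (h₁ : IsPhiTheta F T φ Θ) (h₂ : IsPhiTheta F (aboveSet F N S₂) φ₂ Θ₂)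
    (h : StarkMulAt M (S₁ : Set (HeightOneSpectrum (𝓞 F))) T Θ
      (linRep ψ) (linRep (twist σ ψ)) σ) :
    StarkMulAt M (S₂ : Set (HeightOneSpectrum (𝓞 F))) (aboveSet F N S₂) Θ₂
      (linRep ψ) (linRep (twist σ ψ)) σ := by
  subst hT
  exact hS F N ψ σ M S₁ S₂ φ Θ φ₂ Θ₂ h₁ h₂ h

/-- Data over `F`, `N` with `N/ℚ` Galois. -/
theorem linearN {P : ℕ → Prop} (hPQ : StarkPQ P) (hE : Stmt_EXPH)
    (hR : Stmt_INDREP) (hD : Stmt_DOWNL) (hS : Stmt_SINDP)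
    (F N : Type) [Field F] [NumberField F] [Field N] [NumberField N] [Algebra F N]
    [IsGalois F N] [IsGalois ℚ N] (ψ : (N ≃ₐ[F] N) →* ℂˣ) (σ : ℂ ≃+* ℂ)
    (S : Finset (HeightOneSpectrum (𝓞 F)))
    (φ : XQ N (aboveSet F N S) ≃ₗ[ℚ] QU N (aboveSet F N S))
    (Θ : XC N (aboveSet F N S) →ₗ[ℂ] XC N (aboveSet F N S))
    (hφ : IsPhiTheta F (aboveSet F N S) φ Θ) :
    ∃ M : ℕ, P M ∧ StarkMulAt M (S : Set (HeightOneSpectrum (𝓞 F))) (aboveSet F N S) Θ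
      (linRep ψ) (linRep (twist σ ψ)) σ := by
  obtain ⟨S₁, hS₁⟩ := exists_S1 (E := ℚ) (F := F) (N := N) ∅
  obtain ⟨φ₀, Θ₀, h₀⟩ := hE ℚ N ∅
  obtain ⟨V, _, _, _, ρ, hρ⟩ := hR (N ≃ₐ[ℚ] N) (fixK ℚ F N) (chr ℚ ψ)
  obtain ⟨V', _, _, _, ρ', hρ'⟩ := hR (N ≃ₐ[ℚ] N) (fixK ℚ F N) (twist σ (chr ℚ ψ))
  have hσ : ∀ g, ρ'.character g = σ (ρ.character g) := by
    intro g
    rw [hρ', hρ, IND.twist_indFun]
  obtain ⟨M, hM, hst⟩ := hPQ N ∅ φ₀ Θ₀ V V' ρ ρ' σ h₀ hσ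
  refine ⟨M, hM, ?_⟩
  have h1 := hD ℚ F N ∅ S₁ hS₁ φ₀ Θ₀ h₀ V V' ρ ρ' ψ σ (fun g => by
    rw [hρ, extZ_chr]) hσ M hst
  exact sind_cast hS ψ σ M S₁ S _ hS₁ φ₀ Θ₀ φ Θ (isPhiTheta_res h₀) hφ h1

theorem linRep_comp {G G' : Type} [Group G] [Group G'] (ψ : G →* ℂˣ) (r : G' →* G) :
    linRep (ψ.comp r) = (linRep ψ).comp r := rfl

/-- Data over `F`, `L`. -/
theorem linear {P : ℕ → Prop} (hPQ : StarkPQ P) (hG : Stmt_GALQ) (hI : Stmt_INFL)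
    (hE : Stmt_EXPH) (hR : Stmt_INDREP) (hD : Stmt_DOWNL) (hS : Stmt_SINDP) (hL : Stmt_LINF)
    (F L : Type) [Field F] [NumberField F] [Field L] [NumberField L] [Algebra F L]
    [IsGalois F L] (ψ : (L ≃ₐ[F] L) →* ℂˣ) (σ : ℂ ≃+* ℂ)
    (S : Finset (HeightOneSpectrum (𝓞 F)))
    (φ : XQ L (aboveSet F L S) ≃ₗ[ℚ] QU L (aboveSet F L S))
    (Θ : XC L (aboveSet F L S) →ₗ[ℂ] XC L (aboveSet F L S))
    (hφ : IsPhiTheta F (aboveSet F L S) φ Θ) :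
    ∃ M : ℕ, P M ∧ StarkMulAt M (S : Set (HeightOneSpectrum (𝓞 F))) (aboveSet F L S) Θ
      (linRep ψ) (linRep (twist σ ψ)) σ := by
  obtain ⟨N, _, _, _, _, _⟩ := hG L
  let alg : Algebra F N := ((algebraMap L N).comp (algebraMap F L)).toAlgebra
  have hst : IsScalarTower F L N := IsScalarTower.of_algebraMap_eq fun x => rfl
  have hgal : IsGalois F N := IsGalois.tower_top_of_isGalois ℚ F N
  obtain ⟨φ', Θ', hφ', hReg⟩ := hI F L N S φ Θ hφ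
  obtain ⟨M, hM, f, f', hf, hf', hEq⟩ := linearN hPQ hE hR hD hS F N
    (ψ.comp (AlgEquiv.restrictNormalHom L)) σ S φ' Θ' hφ'
  refine ⟨M, hM, f, f', ⟨hf.1, fun s hs => ?_⟩, ⟨hf'.1, fun s hs => ?_⟩, ?_⟩
  · rw [hf.2 s hs, linRep_comp, MAIN.logL_infl hL]
  · rw [hf'.2 s hs]
    have h1 := MAIN.logL_infl hL F L N ℂ (linRep (twist σ ψ))
      (S : Set (HeightOneSpectrum (𝓞 F))) s
    rw [← h1]
    rfl
  · have h1 := hReg ℂ (linRep ψ)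
    have h2 := hReg ℂ (linRep (twist σ ψ))
    rw [← h1, ← h2]
    exact hEq

/-- `linear` for data given on a set `T` equal to `aboveSet F L S`. -/
theorem linear_cast {P : ℕ → Prop} (hPQ : StarkPQ P) (hG : Stmt_GALQ) (hI : Stmt_INFL)
    (hE : Stmt_EXPH) (hR : Stmt_INDREP) (hD : Stmt_DOWNL) (hS : Stmt_SINDP) (hL : Stmt_LINF)
    (F L : Type) [Field F] [NumberField F] [Field L] [NumberField L] [Algebra F L]
    [IsGalois F L] (ψ : (L ≃ₐ[F] L) →* ℂˣ) (σ : ℂ ≃+* ℂ)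
    (S : Finset (HeightOneSpectrum (𝓞 F))) (T : Set (HeightOneSpectrum (𝓞 L)))
    (hT : aboveSet F L (S : Set (HeightOneSpectrum (𝓞 F))) = T)
    (φ : XQ L T ≃ₗ[ℚ] QU L T) (Θ : XC L T →ₗ[ℂ] XC L T) (hφ : IsPhiTheta F T φ Θ) :
    ∃ M : ℕ, P M ∧ StarkMulAt M (S : Set (HeightOneSpectrum (𝓞 F))) T Θ
      (linRep ψ) (linRep (twist σ ψ)) σ := by
  subst hT
  exact linear hPQ hG hI hE hR hD hS hL F L ψ σ S φ Θ hφ

end BASEQ

theorem BASEQ_thm (hB : Stmt_BRA) (hIP : Stmt_INDP) (hG : Stmt_GALQ) (hI : Stmt_INFL)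
    (hE : Stmt_EXPH) (hR : Stmt_INDREP) (hD : Stmt_DOWNL) (hS : Stmt_SINDP) (hL : Stmt_LINF) :
    Stmt_BASEQ := by
  intro P hP1 hPmul hPQ K L _ _ _ _ _ _ S φ Θ V V' _ _ _ _ _ _ ρ ρ' σ hφ hσ
  obtain ⟨m, H, ψ, n, hχ⟩ := hB (L ≃ₐ[K] L) V ρ
  refine hIP P hP1 hPmul K L S φ Θ V V' ρ ρ' σ 1 m H ψ n hP1 hφ hσ (fun g => ?_) fun i => ?_
  · rw [Nat.cast_one, one_mul]
    exact hχ g
  · obtain ⟨S', hS'⟩ := IND.exists_S' (IntermediateField.fixedField (H i))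
      (S : Set (HeightOneSpectrum (𝓞 K))) S.finite_toSet
    obtain ⟨M, hM, hst⟩ := BASEQ.linear_cast hPQ hG hI hE hR hD hS hL
      (IntermediateField.fixedField (H i)) L (liftChar (H i) (ψ i)) σ S' _ hS' φ Θ
      (IND.isPhiTheta_sub _ hφ)
    exact ⟨M, S', hM, hS', hst⟩

end StarkC
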