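import Pool.Agent.StarkT.Stmts
import Pool.Agent.Stark.SOL

/-!
# The permutation character on complex conjugations (module CCQ)
-/

open NumberField IsDedekindDomain
open scoped TensorProduct Classical

namespace StarkC.CCQ

theorem indFun_conj {G : Type} [Group G] [Fintype G] (H : Subgroup G) (f : G → ℂ) (x g : G) :
    indFun H f (x⁻¹ * g * x) = indFun H f g := by
  unfold indFun
  congr 1
  refine Fintype.sum_equiv (Equiv.mulLeft x) _ _ fun y => ?_
  have h : y⁻¹ * (x⁻¹ * g * x) * y = (x * y)⁻¹ * g * (x * y) := by group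
  rw [h]
  rfl

end StarkC.CCQ

namespace StarkC

theorem CCQ_thm : Stmt_CCQ := by
  intro L _ _ _ H
  by_cases h : ∃ c0 : L ≃ₐ[ℚ] L, IsCC c0
  · obtain ⟨c0, Φ0, h0⟩ := h
    refine ⟨(SOL.fxq H c0 : ℤ), ?_⟩
    rintro c ⟨Φ, hc⟩
    obtain ⟨ν, hν⟩ := NumberField.ComplexEmbedding.exists_comp_symm_eq_of_comp_eq (k := ℚ) Φ0 Φ
      (Subsingleton.elim _ _)
    have h1 : ComplexEmbedding.IsConj (Φ0.comp (ν.symm : L →+* L)) (ν.symm⁻¹ * c0 * ν.symm) :=
      ComplexEmbedding.IsConj.comp h0 ν.symm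
    rw [hν] at h1
    rw [hc.ext h1, CCQ.indFun_conj, SOL.indFun_eq]
    simp
  · exact ⟨0, fun c hc => absurd ⟨c, hc⟩ h⟩

end StarkC
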