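import Pool.Agent.StarkT.Stmts
import Pool.Agent.Stark.CMB

/-!
# Stark's conjecture up to 2-power roots of unity: modules CMBT and CMBQ
-/

open NumberField IsDedekindDomain
open scoped TensorProduct Classical

namespace StarkC
namespace CMBT

open CMB

section grp

variable {G : Type} [Group G] [Fintype G]

omit [Fintype G] in
/-- Transport of a linear character of a subgroup of a subgroup. -/
theorem extZ_map (H : Subgroup G) (J : Subgroup H) (ψ : J →* ℂˣ) :
    ∃ ψ' : J.map H.subtype →* ℂˣ, ∀ y : H, extZ ψ' (y : G) = extZ ψ y := by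
  let e := J.equivMapOfInjective H.subtype H.subtype_injective
  refine ⟨ψ.comp e.symm.toMonoidHom, fun y => ?_⟩
  unfold extZ
  by_cases hy : y ∈ J
  · have hy' : (y : G) ∈ J.map H.subtype := ⟨y, hy, rfl⟩
    rw [dif_pos hy', dif_pos hy]
    have h1 : (⟨(y : G), hy'⟩ : J.map H.subtype) = e ⟨y, hy⟩ := Subtype.ext rfl
    show ((ψ (e.symm ⟨(y : G), hy'⟩) : ℂˣ) : ℂ) = _
    rw [h1, MulEquiv.symm_apply_apply]
  · rw [dif_neg, dif_neg hy]
    rintro ⟨z, hz, hz2⟩
    have : z = y := Subtype.ext hz2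
    exact hy (this ▸ hz)

/-- Brauer's theorem for a subgroup, induced to the whole group. -/
theorem mem_GS_brauer (hBRA : Stmt_BRA) {P : ∀ H : Subgroup G, (H →* ℂˣ) → Prop}
    (H : Subgroup G) {V : Type} [AddCommGroup V] [Module ℂ V] [Module.Finite ℂ V]
    (ρ : Representation ℂ G V) (hP : ∀ (J : Subgroup G) (ψ : J →* ℂˣ), J ≤ H → P J ψ) :
    indFun H ρ.character ∈ GS P := by
  obtain ⟨m, J, ψ, n, h⟩ := hBRA H V (ρ.comp H.subtype)
  choose ψ' hψ' using fun i => extZ_map H (J i) (ψ i)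
  have e : indFun H ρ.character =
      ∑ i, n i • indFun ((J i).map H.subtype) (extZ (ψ' i)) := by
    funext g
    let F : Fin m → G → ℂ := fun i x =>
      if hx : x ∈ H then indFun (J i) (extZ (ψ i)) ⟨x, hx⟩ else 0
    have hF : ∀ i (y : H), F i (y : G) = indFun (J i) (fun y : H => extZ (ψ' i) (y : G)) y := by
      intro i y
      have h1 : (fun y : H => extZ (ψ' i) (y : G)) = extZ (ψ i) := funext (hψ' i)
      rw [h1]
      show (if hx : (y : G) ∈ H then indFun (J i) (extZ (ψ i)) ⟨(y : G), hx⟩ else 0) = _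
      rw [dif_pos y.2]
    have h1 : indFun H ρ.character = indFun H (fun x => ∑ i, (n i : ℂ) * F i x) := by
      apply indFun_congr
      intro x hx
      have h2 := h ⟨x, hx⟩
      have h3 : ρ.character x = (Representation.character (ρ.comp H.subtype)) (⟨x, hx⟩ : H) := rfl
      rw [h3, h2]
      refine Finset.sum_congr rfl fun i _ => ?_
      show _ = (n i : ℂ) * (if hx : x ∈ H then indFun (J i) (extZ (ψ i)) ⟨x, hx⟩ else 0)
      rw [dif_pos hx]
    rw [h1, indFun_sum, Finset.sum_apply]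
    refine Finset.sum_congr rfl fun i _ => ?_
    rw [Pi.smul_apply, zsmul_eq_mul, indFun_trans H (J i) (extZ (ψ' i)) (F i) (hF i)]
  rw [e]
  refine Submodule.sum_mem _ fun i _ => Submodule.smul_mem _ _ ?_
  exact mem_GS_of _ _ (hP _ _ (Subgroup.map_subtype_le _))

omit [Fintype G] in
/-- The value of a character at an involution. -/
theorem char_invol {V : Type} [AddCommGroup V] [Module ℂ V] [Module.Finite ℂ V]
    (ρ : Representation ℂ G V) (c : G) (hc : c * c = 1) :
    ∃ b : ℕ, ρ.character c = (Module.finrank ℂ V : ℂ) - 2 * b := by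
  set A : V →ₗ[ℂ] V := ρ c with hA
  have hAA : A * A = 1 := by
    rw [hA, ← map_mul, hc, map_one]
  set P : V →ₗ[ℂ] V := (1 / 2 : ℂ) • (1 - A) with hP
  have hPP : IsIdempotentElem P := by
    show P * P = P
    have h1 : (1 - A) * (1 - A) = (2 : ℂ) • (1 - A) := by
      rw [mul_sub, sub_mul, sub_mul, hAA, one_mul, one_mul, mul_one, two_smul]
      abel
    rw [hP, smul_mul_smul_comm, h1, smul_smul]
    norm_num
  have h2 := (LinearMap.IsIdempotentElem.isProj_range P hPP).trace
  refine ⟨Module.finrank ℂ (LinearMap.range P), ?_⟩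
  rw [← h2, hP, map_smul, map_sub]
  show LinearMap.trace ℂ V A = _
  rw [show LinearMap.trace ℂ V (1 : V →ₗ[ℂ] V) = (Module.finrank ℂ V : ℂ) from
    LinearMap.trace_one ℂ V]
  rw [smul_eq_mul]
  ring

omit [Fintype G] in
/-- The sign character of a subgroup with two values of `r`. -/
theorem exists_eps {Q : Type} [Group Q] (r : G →* Q) (H : Subgroup G) (c₀ : Q)
    (h : ∀ u : H, r u = 1 ∨ r u = c₀) (hc : c₀ ≠ 1) (hc2 : c₀ * c₀ = 1) :
    ∃ eps : H →* ℂˣ, (∀ u : H, r u = 1 → eps u = 1) ∧ (∀ u : H, r u = c₀ → eps u = -1) := by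
  refine ⟨{ toFun := fun u => if r u = 1 then 1 else -1
            map_one' := ?_
            map_mul' := ?_ }, ?_, ?_⟩
  · rw [if_pos]
    rw [OneMemClass.coe_one, map_one]
  · intro u v
    have e : r ((u * v : H) : G) = r u * r v := by
      rw [Subgroup.coe_mul, map_mul]
    rw [e]
    rcases h u with hu | hu <;> rcases h v with hv | hv
    · rw [hu, hv]; simp
    · rw [hu, hv, one_mul, if_neg hc, if_pos rfl, one_mul]
    · rw [hu, hv, mul_one, if_neg hc, if_pos rfl, mul_one]
    · rw [hu, hv, hc2, if_pos rfl, if_neg hc]; simp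
  · intro u hu
    exact if_pos hu
  · intro u hu
    show (if r u = 1 then (1 : ℂˣ) else -1) = -1
    rw [if_neg]
    rw [hu]
    exact hc

theorem indFun_const (H : Subgroup G) (b : ℂ) (f : G → ℂ) (g : G) :
    indFun H (fun x => b * f x) g = b * indFun H f g := by
  unfold indFun
  rw [mul_div_assoc', Finset.mul_sum]
  congr 1
  refine Finset.sum_congr rfl fun x _ => ?_
  split_ifs <;> simp

theorem indFun_add (H : Subgroup G) (f f' : G → ℂ) (g : G) :
    indFun H (fun x => f x + f' x) g = indFun H f g + indFun H f' g := by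
  unfold indFun
  rw [← add_div, ← Finset.sum_add_distrib]
  congr 1
  refine Finset.sum_congr rfl fun x _ => ?_
  split_ifs <;> simp

theorem indFun_one (H : Subgroup G) : indFun H (extZ (1 : H →* ℂˣ)) = indFun H (fun _ => 1) := by
  apply indFun_congr
  intro g hg
  have := extZ_apply (1 : H →* ℂˣ) ⟨g, hg⟩
  rw [MonoidHom.one_apply, Units.val_one] at this
  exact this

/-- The function with the value `d` on the kernel of `eps` and `s = d - 2 b` outside. -/
theorem indFun_two (H : Subgroup G) (eps : H →* ℂˣ) (h12 : ∀ u, eps u = 1 ∨ eps u = -1) (u₀ : H)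
    (hu₀ : eps u₀ ≠ 1) (f : G → ℂ) (b s : ℤ) (hf1 : ∀ u : H, eps u = 1 → f u = s + 2 * b)
    (hf2 : ∀ u : H, eps u = -1 → f u = s) :
    indFun H f - s • indFun H (extZ (1 : H →* ℂˣ)) =
      b • indFun (eps.ker.map H.subtype) (extZ (1 : eps.ker.map H.subtype →* ℂˣ)) := by
  funext g
  rw [indFun_one, indFun_one, Pi.sub_apply, Pi.smul_apply, Pi.smul_apply, zsmul_eq_mul,
    zsmul_eq_mul, ← indFun_const H (s : ℂ) (fun _ => 1), ← indFun_sub]
  have e1 := indFun_trans H eps.ker (fun _ => (1 : ℂ))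
    (fun x => if hx : x ∈ H then 1 + ((eps ⟨x, hx⟩ : ℂˣ) : ℂ) else 0) (by
      intro h
      rw [half eps h12 u₀ hu₀ h]
      simp) g
  rw [← e1, ← indFun_const]
  apply congrFun
  apply indFun_congr
  intro x hx
  simp only [dif_pos hx]
  rcases h12 ⟨x, hx⟩ with h | h
  · rw [h, hf1 ⟨x, hx⟩ h]
    push_cast
    ring
  · rw [h, hf2 ⟨x, hx⟩ h]
    push_cast
    ring

end grp

section arith

variable {K L N : Type} [Field K] [NumberField K] [Field L] [NumberField L] [Field N]
  [NumberField N] [Algebra K L] [Algebra K N] [Algebra L N] [IsScalarTower K L N] [IsGalois K L]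
  [IsGalois K N]

/-- No complex conjugations in the subgroup. -/
def NoCC (H : Subgroup (N ≃ₐ[K] N)) (_ : H →* ℂˣ) : Prop := ∀ c ∈ H, ¬ IsCC c

theorem step (hQET : Stmt_QET) (hBRA : Stmt_BRA) (H : Subgroup (N ≃ₐ[K] N)) (p : ℕ)
    (hp : p.Prime) (hodd : Odd p) (hH : IsQuasiElemP p H)
    (V : Type) [AddCommGroup V] [Module ℂ V] [Module.Finite ℂ V]
    (ρ : Representation ℂ (L ≃ₐ[K] L) V)
    (hART : ∀ (Φ : N →+* ℂ) (c u : N ≃ₐ[K] N), ComplexEmbedding.IsConj Φ c → u * c = c * u →
        AlgEquiv.restrictNormalHom L u = (1 : L ≃ₐ[K] L) ∨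
          AlgEquiv.restrictNormalHom L u = (AlgEquiv.restrictNormalHom L c : L ≃ₐ[K] L)) :
    ∃ t : ℤ, indFun H (fun g => ρ.character (AlgEquiv.restrictNormalHom L g)) -
        t • indFun H (extZ (1 : H →* ℂˣ)) ∈ GS (G := N ≃ₐ[K] N) (fun H ψ => NoCC H ψ) ∧
      ∀ c ∈ H, IsCC c → ρ.character (AlgEquiv.restrictNormalHom L c) = t := by
  set r : (N ≃ₐ[K] N) →* (L ≃ₐ[K] L) := AlgEquiv.restrictNormalHom L with hr
  by_cases hcc : ∃ c ∈ H, IsCC c
  · obtain ⟨c, hcH, hc⟩ := hcc
    have hcomm : ∀ c ∈ H, IsCC c → ∀ u ∈ H, u * c = c * u := by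
      intro c hcH hc u hu
      have h1 := hQET p H ⟨c, hcH⟩ hp hodd hH (Subtype.ext (isCC_sq hc)) ⟨u, hu⟩
      exact congrArg Subtype.val h1
    have hval : ∀ u ∈ H, r u = 1 ∨ r u = r c := by
      intro u hu
      obtain ⟨Φ, hΦ⟩ := hc
      exact hART Φ c u hΦ (hcomm c hcH ⟨Φ, hΦ⟩ u hu)
    by_cases h1 : r c = 1
    · have hall : ∀ u ∈ H, r u = 1 := fun u hu => by
        rcases hval u hu with h | h
        · exact h
        · rw [h, h1]
      have hd : ∀ u ∈ H, ρ.character (r u) = ((Module.finrank ℂ V : ℤ) : ℂ) := by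
        intro u hu
        rw [hall u hu, Int.cast_natCast]
        show LinearMap.trace ℂ V (ρ 1) = _
        rw [map_one]
        exact LinearMap.trace_one ℂ V
      refine ⟨(Module.finrank ℂ V : ℤ), ?_, fun c hc _ => hd c hc⟩
      have e : indFun H (fun g => ρ.character (r g)) -
          (Module.finrank ℂ V : ℤ) • indFun H (extZ (1 : H →* ℂˣ)) = 0 := by
        funext g
        rw [indFun_one, Pi.sub_apply, Pi.smul_apply, zsmul_eq_mul, ← indFun_const, ← indFun_sub]
        apply indFun_zero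
        intro u hu
        rw [hd u hu]
        ring
      rw [e]
      exact Submodule.zero_mem _
    · have hc2 : r c * r c = 1 := by rw [← map_mul, isCC_sq hc, map_one]
      obtain ⟨eps, he1, he2⟩ := exists_eps r H (r c) (fun u => hval u u.2) h1 hc2
      obtain ⟨b, hb⟩ := char_invol ρ (r c) hc2
      have hneu : (-1 : ℂˣ) ≠ 1 := by
        intro h
        have := congrArg (fun u : ℂˣ => (u : ℂ)) h
        norm_num at this
      have h12 : ∀ u, eps u = 1 ∨ eps u = -1 := by
        intro u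
        rcases hval u u.2 with h | h
        · exact Or.inl (he1 u h)
        · exact Or.inr (he2 u h)
      have hker : ∀ u : H, eps u = 1 → r u = 1 := by
        intro u hu
        rcases hval u u.2 with h | h
        · exact h
        · exact absurd ((he2 u h).symm.trans hu) hneu
      have hker2 : ∀ u : H, eps u = -1 → r u = r c := by
        intro u hu
        rcases hval u u.2 with h | h
        · exact absurd (hu.symm.trans (he1 u h)) hneu
        · exact h
      have hs : ρ.character (r c) = (((Module.finrank ℂ V : ℤ) - 2 * (b : ℤ) : ℤ) : ℂ) := by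
        rw [hb]
        push_cast
        ring
      have hno : ∀ c' ∈ H, IsCC c' → r c' = r c := by
        intro c' hc' hcc'
        have h3 := hcomm c hcH hc c' hc'
        obtain ⟨Φ, hΦ⟩ := hcc'
        rcases hART Φ c' c hΦ h3.symm with h4 | h4
        · exact absurd h4 h1
        · exact h4.symm
      refine ⟨(Module.finrank ℂ V : ℤ) - 2 * (b : ℤ), ?_, ?_⟩
      · have e := indFun_two H eps h12 ⟨c, hcH⟩ (by
            rw [he2 ⟨c, hcH⟩ rfl]
            exact hneu) (fun g => ρ.character (r g)) (b : ℤ)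
            ((Module.finrank ℂ V : ℤ) - 2 * (b : ℤ)) (by
              intro u hu
              show ρ.character (r u) = _
              rw [hker u hu]
              show LinearMap.trace ℂ V (ρ 1) = _
              rw [map_one, LinearMap.trace_one]
              push_cast
              ring) (by
              intro u hu
              show ρ.character (r u) = _
              rw [hker2 u hu, hs])
        rw [e]
        refine Submodule.smul_mem _ _ (mem_GS_of _ _ ?_)
        rintro c' ⟨u, hu, rfl⟩ hcc'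
        have h5 := hno _ u.2 hcc'
        have h6 := hker u hu
        apply h1
        rw [← h5]
        exact h6
      · intro c' hc' hcc'
        rw [hno c' hc' hcc', hs]
  · have hcc : ∀ c ∈ H, ¬ IsCC c := fun c hc h => hcc ⟨c, hc, h⟩
    refine ⟨0, ?_, fun c hc h => absurd h (hcc c hc)⟩
    rw [zero_smul, sub_zero]
    exact mem_GS_brauer hBRA H (ρ.comp r) (fun J ψ hJ c hc => hcc c (hJ hc))

end arith

theorem GS_mono {G : Type} [Group G] [Fintype G] {P Q : ∀ H : Subgroup G, (H →* ℂˣ) → Prop}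
    (h : ∀ H ψ, P H ψ → Q H ψ) : GS P ≤ GS Q := by
  apply Submodule.span_le.2
  rintro _ ⟨⟨⟨H, ψ⟩, hP⟩, rfl⟩
  exact mem_GS_of H ψ (h _ _ hP)

/-- The common part of the two statements. -/
theorem core (hSOLT : Stmt_SOLT) (hQET : Stmt_QET) (hART : Stmt_ART) (hBRA : Stmt_BRA)
    (hAR3 : Stmt_AR3) (K L : Type) [Field K] [NumberField K] [Field L] [NumberField L]
    [Algebra K L] [IsGalois K L] (V : Type) [AddCommGroup V] [Module ℂ V] [Module.Finite ℂ V]
    (ρ : Representation ℂ (L ≃ₐ[K] L) V) :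
    ∃ (N : Type) (_ : Field N) (_ : NumberField N) (_ : Algebra K N)
      (_ : Algebra L N) (_ : IsScalarTower K L N) (_ : IsGalois K N)
      (M m : ℕ) (H : Fin m → Subgroup (N ≃ₐ[K] N)) (n t : Fin m → ℤ),
      (∀ i, indFun (H i) (fun g => ρ.character (AlgEquiv.restrictNormalHom L g)) -
        t i • indFun (H i) (extZ (1 : H i →* ℂˣ)) ∈ GS (G := N ≃ₐ[K] N) (fun H ψ => NoCC H ψ)) ∧
      (∀ i, ∀ c ∈ H i, IsCC c → ρ.character (AlgEquiv.restrictNormalHom L c) = t i) ∧
      (∀ g : N ≃ₐ[K] N, (2 ^ M : ℂ) * ρ.character (AlgEquiv.restrictNormalHom L g) =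
        ∑ i, (n i : ℂ) * indFun (H i)
          (fun g => ρ.character (AlgEquiv.restrictNormalHom L g)) g) ∧
      (∀ g : N ≃ₐ[K] N, (2 ^ M : ℂ) =
        ∑ i, (n i : ℂ) * indFun (H i) (extZ (1 : H i →* ℂˣ)) g) := by
  obtain ⟨B, hB⟩ := hART K L
  obtain ⟨N, iF, iN, iA, iL, iT, iG, hN⟩ := hAR3 K L B
  obtain ⟨M, m, H, n, hH, h1⟩ := hSOLT (N ≃ₐ[K] N)
  choose p hp hodd hq using hH
  have hst := fun i => step (K := K) (L := L) (N := N) hQET hBRA (H i) (p i) (hp i) (hodd i)
    (hq i) V ρ (hB N hN)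
  choose t ht1 ht2 using hst
  refine ⟨N, iF, iN, iA, iL, iT, iG, M, m, H, n, t, ht1, ht2, ?_, ?_⟩
  · intro g
    rw [h1 g, Finset.sum_mul]
    refine Finset.sum_congr rfl fun i _ => ?_
    rw [indFun_class (H i) (fun g => ρ.character (AlgEquiv.restrictNormalHom L g))]
    · ring
    · intro x y
      rw [map_mul, map_mul, map_inv]
      have := Representation.char_conj ρ (AlgEquiv.restrictNormalHom L y)
        (AlgEquiv.restrictNormalHom L x)⁻¹
      rw [inv_inv] at this
      exact this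
  · intro g
    rw [h1 g]
    refine Finset.sum_congr rfl fun i _ => ?_
    rw [indFun_one]

end CMBT

theorem CMBT_thm (h1 : Stmt_SOLT) (h2 : Stmt_QET) (h3 : Stmt_ART) (h4 : Stmt_BRA)
    (h5 : Stmt_AR3) : Stmt_CMBT := by
  intro K L _ _ _ _ _ _ V _ _ _ ρ
  obtain ⟨N, iF, iN, iA, iL, iT, iG, M, m, H, n, t, ht1, ht2, e1, e2⟩ :=
    CMBT.core h1 h2 h3 h4 h5 K L V ρ
  have hmem : (fun g : N ≃ₐ[K] N => (2 ^ M : ℂ) * ρ.character (AlgEquiv.restrictNormalHom L g)) ∈
      CMB.GS (G := N ≃ₐ[K] N) (fun H ψ => (∀ c ∈ H, ¬ IsCC c) ∨ ψ = 1) := by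
    have e : (fun g : N ≃ₐ[K] N =>
        (2 ^ M : ℂ) * ρ.character (AlgEquiv.restrictNormalHom L g)) =
        ∑ i, n i • ((indFun (H i) (fun g => ρ.character (AlgEquiv.restrictNormalHom L g)) -
          t i • indFun (H i) (extZ (1 : H i →* ℂˣ))) +
          t i • indFun (H i) (extZ (1 : H i →* ℂˣ))) := by
      funext g
      rw [e1 g, Finset.sum_apply]
      refine Finset.sum_congr rfl fun i _ => ?_
      rw [sub_add_cancel, Pi.smul_apply, zsmul_eq_mul]
    rw [e]
    refine Submodule.sum_mem _ fun i _ => Submodule.smul_mem _ _ (Submodule.add_mem _ ?_ ?_)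
    · exact CMBT.GS_mono (fun _ _ h => Or.inl h) (ht1 i)
    · exact Submodule.smul_mem _ _ (CMB.mem_GS_of _ _ (Or.inr rfl))
  obtain ⟨m', H', ψ', n', hP, hg⟩ := CMB.of_mem_GS hmem
  exact ⟨N, iF, iN, iA, iL, iT, iG, M, m', H', ψ', n', hP, hg⟩

theorem CMBQ_thm (h1 : Stmt_SOLT) (h2 : Stmt_QET) (h3 : Stmt_ART) (h4 : Stmt_BRA)
    (h5 : Stmt_AR3) : Stmt_CMBQ := by
  intro K L _ _ _ _ _ _ V _ _ _ ρ r hr
  obtain ⟨N, iF, iN, iA, iL, iT, iG, M, m, H, n, t, ht1, ht2, e1, e2⟩ :=
    CMBT.core h1 h2 h3 h4 h5 K L V ρ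
  have hmem : (fun g : N ≃ₐ[K] N => (2 ^ M : ℂ) * ρ.character (AlgEquiv.restrictNormalHom L g) -
      (2 ^ M : ℂ) * (r : ℂ)) ∈
      CMB.GS (G := N ≃ₐ[K] N) (fun H ψ => CMBT.NoCC H ψ) := by
    have e : (fun g : N ≃ₐ[K] N =>
        (2 ^ M : ℂ) * ρ.character (AlgEquiv.restrictNormalHom L g) - (2 ^ M : ℂ) * (r : ℂ)) =
        ∑ i, n i • ((indFun (H i) (fun g => ρ.character (AlgEquiv.restrictNormalHom L g)) -
          t i • indFun (H i) (extZ (1 : H i →* ℂˣ))) +
          (t i - r) • indFun (H i) (extZ (1 : H i →* ℂˣ))) := by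
      funext g
      rw [e1 g, e2 g, Finset.sum_mul, Finset.sum_apply, ← Finset.sum_sub_distrib]
      refine Finset.sum_congr rfl fun i _ => ?_
      simp only [Pi.smul_apply, Pi.add_apply, Pi.sub_apply]
      simp only [zsmul_eq_mul]
      push_cast
      ring
    rw [e]
    refine Submodule.sum_mem _ fun i _ => Submodule.smul_mem _ _ (Submodule.add_mem _ (ht1 i) ?_)
    by_cases hcc : ∃ c ∈ H i, IsCC c
    · obtain ⟨c, hc, hcc⟩ := hcc
      have h6 := ht2 i c hc hcc
      rw [hr _ (CMB.isCC_restrict hcc)] at h6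
      have h7 : t i - r = 0 := by
        have : r = t i := by exact_mod_cast h6
        rw [this, sub_self]
      rw [h7, zero_smul]
      exact Submodule.zero_mem _
    · refine Submodule.smul_mem _ _ (CMB.mem_GS_of _ _ ?_)
      intro c hc h
      exact hcc ⟨c, hc, h⟩
  obtain ⟨m', H', ψ', n', hP, hg⟩ := CMB.of_mem_GS hmem
  refine ⟨N, iF, iN, iA, iL, iT, iG, M, m', H', ψ', n', hP, fun g => ?_⟩
  rw [← hg g, sub_add_cancel]

end StarkC
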