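import Pool.Agent.StarkT.Stmts
import Pool.Agent.Stark.INFL

/-!
# Stark's conjecture: the regulator of the trivial character descends to the base field

Module SB_DESC, written by helper36.
-/

open NumberField IsDedekindDomain
open scoped TensorProduct Classical

namespace StarkC.DESC

open StarkC.INFL

theorem under_eq {K L : Type} [Field K] [NumberField K] [Field L] [NumberField L] [Algebra K L]
    (w : HeightOneSpectrum (𝓞 L)) (v : HeightOneSpectrum (𝓞 K))
    (h : ∀ x : 𝓞 K, algebraMap (𝓞 K) (𝓞 L) x ∈ w.asIdeal ↔ x ∈ v.asIdeal) :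
    w.under (𝓞 K) = v := by
  apply HeightOneSpectrum.ext
  ext x
  exact h x

theorem aboveSet_self (K : Type) [Field K] [NumberField K] (S : Set (HeightOneSpectrum (𝓞 K))) :
    aboveSet K K S = S := by
  ext w
  rw [aboveSet, Set.mem_setOf_eq, under_eq (K := K) (L := K) w w]
  intro x
  have key : ∀ y : 𝓞 K, y = x → (y ∈ w.asIdeal ↔ x ∈ w.asIdeal) := by
    intro y hy
    rw [hy]
  apply key
  ext
  rfl

theorem aut_eq_one (K : Type) [Field K] (g : K ≃ₐ[K] K) : g = 1 := by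
  ext x
  exact g.commutes x

theorem linRep_comp {G H : Type} [Group G] [Group H] (f : G →* H) :
    (linRep (1 : H →* ℂˣ)).comp f = linRep (1 : G →* ℂˣ) := by
  ext g
  rfl

end StarkC.DESC

namespace StarkC

open StarkC.INFL StarkC.DESC

theorem DESC_aux (hX : StarkC.Stmt_XRAT) (hE : StarkC.Stmt_THE) (hI : StarkC.Stmt_IOT)
    (hD : StarkC.Stmt_UDE) (hS : StarkC.Stmt_STB)
    (K L : Type) [Field K] [NumberField K] [Field L] [NumberField L] [Algebra K L] [IsGalois K L]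
    (S : Finset (HeightOneSpectrum (𝓞 K)))
    (φ : XQ L (aboveSet K L S) ≃ₗ[ℚ] QU L (aboveSet K L S))
    (Θ : XC L (aboveSet K L S) →ₗ[ℂ] XC L (aboveSet K L S))
    (hφΘ : IsPhiTheta K (aboveSet K L S) φ Θ) :
    ∃ (φ' : XQ K (aboveSet K K (S : Set (HeightOneSpectrum (𝓞 K)))) ≃ₗ[ℚ]
        QU K (aboveSet K K (S : Set (HeightOneSpectrum (𝓞 K)))))
      (Θ' : XC K (aboveSet K K (S : Set (HeightOneSpectrum (𝓞 K)))) →ₗ[ℂ]
        XC K (aboveSet K K (S : Set (HeightOneSpectrum (𝓞 K))))),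
      IsPhiTheta K (aboveSet K K (S : Set (HeightOneSpectrum (𝓞 K)))) φ' Θ' ∧
      Reg (K := K) (aboveSet K K (S : Set (HeightOneSpectrum (𝓞 K))))
          (linRep (1 : (K ≃ₐ[K] K) →* ℂˣ)) Θ' =
        Reg (K := K) (aboveSet K L S) (linRep (1 : (L ≃ₐ[K] L) →* ℂˣ)) Θ := by
  have fTL : (aboveSet K K (S : Set (HeightOneSpectrum (𝓞 K)))).Finite :=
    finite_aboveSet S.finite_toSet
  have sTL : StableT K (aboveSet K K (S : Set (HeightOneSpectrum (𝓞 K)))) := hS K K S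
  have sTN : StableT K (aboveSet K L (S : Set (HeightOneSpectrum (𝓞 K)))) := hS K L S
  obtain ⟨ιQ, ιC, ιQinj, ιCinj, ιcompat, ιQequi, ιCequi, ιQsurj, ιCsurj, ιlam⟩ := hI K K L S
  obtain ⟨jmem, jinj, jequi, jsurj⟩ := hD K K L (S : Set (HeightOneSpectrum (𝓞 K)))
  let α := repQ (aboveSet K L (S : Set (HeightOneSpectrum (𝓞 K)))) sTN
  let β := repU (N := L) hS (S : Set (HeightOneSpectrum (𝓞 K)))
  have hφ : ∀ (g : L ≃ₐ[K] L) (x : XQ L (aboveSet K L (S : Set (HeightOneSpectrum (𝓞 K))))),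
      φ (α g x) = β g (φ x) := by
    intro g x
    apply Subtype.ext
    exact hφΘ.1 g x (α g x) rfl
  -- invariants
  let A₀ : Submodule ℚ (XQ L (aboveSet K L (S : Set (HeightOneSpectrum (𝓞 K))))) :=
    { carrier := {x | ∀ d : L ≃ₐ[K] L, α d x = x}
      add_mem' := by
        intro x y hx hy d
        rw [map_add, hx d, hy d]
      zero_mem' := by
        intro d
        rw [map_zero]
      smul_mem' := by
        intro c x hx d
        rw [map_smul, hx d] }
  let B₀ : Submodule ℚ (QU L (aboveSet K L (S : Set (HeightOneSpectrum (𝓞 K))))) :=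
    { carrier := {x | ∀ d : L ≃ₐ[K] L, β d x = x}
      add_mem' := by
        intro x y hx hy d
        rw [map_add, hx d, hy d]
      zero_mem' := by
        intro d
        rw [map_zero]
      smul_mem' := by
        intro c x hx d
        rw [map_smul, hx d] }
  -- the isomorphism `XQ K ≃ A₀`
  have ιQmem : ∀ x, ιQ x ∈ A₀ := by
    intro x d
    have h1 := ιQequi d x x (by
      rw [aut_eq_one K (AlgEquiv.restrictNormalHom K d)]
      exact (actQ_one (K := K) _).symm)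
    exact Subtype.ext h1.symm
  let ιA : XQ K (aboveSet K K (S : Set (HeightOneSpectrum (𝓞 K)))) ≃ₗ[ℚ] A₀ :=
    LinearEquiv.ofBijective (ιQ.codRestrict A₀ ιQmem) (by
    constructor
    · intro x y hxy
      exact ιQinj (congrArg Subtype.val hxy)
    · rintro ⟨x, hx⟩
      obtain ⟨y, hy⟩ := ιQsurj x (fun δ _ => congrArg Subtype.val (hx δ))
      exact ⟨y, Subtype.ext hy⟩)
  have ιA_val : ∀ x, ((ιA x : A₀) :
    XQ L (aboveSet K L (S : Set (HeightOneSpectrum (𝓞 K))))) = ιQ x := fun x => rfl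
  -- the isomorphism `QU K ≃ B₀`
  let jUr : QU K (aboveSet K K (S : Set (HeightOneSpectrum (𝓞 K)))) →ₗ[ℚ]
    QU L (aboveSet K L (S : Set (HeightOneSpectrum (𝓞 K)))) := (jU K L).restrict jmem
  have jUrmem : ∀ x, jUr x ∈ B₀ := by
    intro x d
    apply Subtype.ext
    show actU (d : L ≃+* L) (jU K L x) = jU K L x
    rw [jequi, aut_eq_one K (AlgEquiv.restrictNormalHom K d)]
    rw [actU_one (K := K)]
  let jB : QU K (aboveSet K K (S : Set (HeightOneSpectrum (𝓞 K)))) ≃ₗ[ℚ] B₀ :=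
    LinearEquiv.ofBijective (jUr.codRestrict B₀ jUrmem) (by
    constructor
    · refine (injective_iff_map_eq_zero (jUr.codRestrict B₀ jUrmem)).2 ?_
      intro x hx
      have h1 : jU K L x = 0 := congrArg (fun y : B₀ => ((y : QU L
        (aboveSet K L (S : Set (HeightOneSpectrum (𝓞 K))))) : ℚ ⊗[ℤ] Additive Lˣ)) hx
      exact Subtype.ext (jinj x x.2 h1)
    · rintro ⟨x, hx⟩
      obtain ⟨y, hy, hyx⟩ := jsurj x x.2
        (fun δ _ => congrArg Subtype.val (hx δ))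
      exact ⟨⟨y, hy⟩, Subtype.ext (Subtype.ext hyx)⟩)
  have jB_val : ∀ x : QU K (aboveSet K K (S : Set (HeightOneSpectrum (𝓞 K)))),
    (((jB x : B₀) : QU L (aboveSet K L (S : Set (HeightOneSpectrum (𝓞 K))))) :
      ℚ ⊗[ℤ] Additive Lˣ) = jU K L x := fun x => rfl
  have hmap : A₀.map (φ : XQ L (aboveSet K L (S : Set (HeightOneSpectrum (𝓞 K)))) →ₗ[ℚ]
      QU L (aboveSet K L (S : Set (HeightOneSpectrum (𝓞 K))))) = B₀ := by
    ext y
    rw [Submodule.mem_map]
    constructor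
    · rintro ⟨x, hx, rfl⟩ d
      show β d (φ x) = φ x
      rw [← hφ, hx d]
    · intro hy
      refine ⟨φ.symm y, ?_, φ.apply_symm_apply y⟩
      intro d
      apply φ.injective
      rw [hφ, φ.apply_symm_apply]
      exact hy d
  let e₀ : A₀ ≃ₗ[ℚ] B₀ := φ.ofSubmodules A₀ B₀ hmap
  have e₀_val : ∀ x : A₀, ((e₀ x : B₀) :
    QU L (aboveSet K L (S : Set (HeightOneSpectrum (𝓞 K))))) = φ x := fun x => rfl
  let φ' : XQ K (aboveSet K K (S : Set (HeightOneSpectrum (𝓞 K)))) ≃ₗ[ℚ]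
    QU K (aboveSet K K (S : Set (HeightOneSpectrum (𝓞 K)))) := (ιA.trans e₀).trans jB.symm
  have hφ' : ∀ x, jU K L (φ' x) = φ (ιQ x) := by
    intro x
    rw [← jB_val]
    have h1 : jB (φ' x) = e₀ (ιA x) := by
      simp only [φ', LinearEquiv.trans_apply, LinearEquiv.apply_symm_apply]
    rw [h1, e₀_val, ιA_val]
  have hequi' : ∀ (g : K ≃ₐ[K] K)
      (x y : XQ K (aboveSet K K (S : Set (HeightOneSpectrum (𝓞 K))))),
      (y : (K → ℝ) →₀ ℚ) = actQ (g : K ≃+* K) x →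
      (φ' y : ℚ ⊗[ℤ] Additive Kˣ) = actU (g : K ≃+* K) (φ' x) := by
    intro g x y hxy
    rw [aut_eq_one K g, actQ_one (K := K)] at hxy
    have h1 : y = x := Subtype.ext hxy
    rw [h1, aut_eq_one K g, actU_one (K := K)]
  obtain ⟨Θ', hΘ'⟩ := hE K K (aboveSet K K (S : Set (HeightOneSpectrum (𝓞 K)))) φ' fTL hequi'
  refine ⟨φ', Θ', hΘ', ?_⟩
  have hcomm : Θ ∘ₗ ιC = ιC ∘ₗ Θ' := by
    obtain ⟨r, c, c', hcc'⟩ := hX K (aboveSet K K (S : Set (HeightOneSpectrum (𝓞 K)))) fTL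
    refine c'.ext fun i => ?_
    rw [LinearMap.comp_apply, LinearMap.comp_apply]
    have h1 := hΘ'.2 (c i) (c' i) (hcc' i)
    have h2 := ιlam _ _ h1
    have h3 := ιcompat (c i) (c' i) (hcc' i)
    have h4 := hφΘ.2 (ιQ (c i)) (ιC (c' i)) h3
    apply Subtype.ext
    refine h4.trans (Eq.trans ?_ h2.symm)
    rw [hφ']
  have h := reg_eq (K := K) (L := K) (N := L) sTL ιC ιCinj ιCequi ιCsurj Θ' Θ hcomm
    (linRep (1 : (K ≃ₐ[K] K) →* ℂˣ))
  rw [← h, linRep_comp]

/-- The regulator of the trivial character descends to the base field. -/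
theorem DESC_thm (hX : StarkC.Stmt_XRAT) (hE : StarkC.Stmt_THE) (hI : StarkC.Stmt_IOT)
    (hD : StarkC.Stmt_UDE) (hS : StarkC.Stmt_STB) : StarkC.Stmt_DESC := by
  intro K L _ _ _ _ _ _ S φ Θ hφΘ
  have h := DESC_aux hX hE hI hD hS K L S φ Θ hφΘ
  rw [aboveSet_self K (S : Set (HeightOneSpectrum (𝓞 K)))] at h
  exact h

end StarkC
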