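import Pool.Agent.StarkT.Stmts
import Pool.Agent.Stark.IND

/-!
# DOWN: from the permutation character over `E` to the trivial character over `K`
-/

open NumberField IsDedekindDomain
open scoped TensorProduct Classical

namespace StarkC

namespace DOWN

section

variable {E K N : Type} [Field E] [NumberField E] [Field K] [NumberField K]
    [Field N] [NumberField N] [Algebra E K] [Algebra E N] [Algebra K N] [IsScalarTower E K N]

variable (E K N) in
/-- `Gal(N/K)` is the subgroup `fixK E K N` of `Gal(N/E)`. -/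
noncomputable def eqv : (N ≃ₐ[K] N) ≃* fixK E K N where
  toFun g := ⟨g.restrictScalars E, fun x => g.commutes x⟩
  invFun h := AlgEquiv.ofRingEquiv (f := (h.1 : N ≃+* N)) (fun x => h.2 x)
  left_inv g := by ext x; rfl
  right_inv h := by ext x; rfl
  map_mul' a b := by ext x; rfl

theorem eqv_coe (g : N ≃ₐ[K] N) :
    ((eqv E K N g : fixK E K N) : N ≃ₐ[E] N) = g.restrictScalars E := rfl

theorem inner [IsGalois E N] [IsGalois K N] (w : HeightOneSpectrum (𝓞 N)) (q : ℕ) :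
    (∑ g ∈ Finset.univ.filter (fun g : N ≃ₐ[E] N => g ∈ fixK E K N ∧ FrobPow N w q g),
      (1 : ℂ)) =
      ∑ g ∈ Finset.univ.filter (fun g : N ≃ₐ[K] N => FrobPow N w q g), (1 : ℂ) := by
  symm
  refine Finset.sum_bij (fun g _ => ((eqv E K N g : fixK E K N) : N ≃ₐ[E] N)) ?_ ?_ ?_ ?_
  · intro g hg
    rw [Finset.mem_filter] at hg ⊢
    exact ⟨Finset.mem_univ _, SetLike.coe_mem _, hg.2⟩
  · intro a _ b _ hab
    exact (eqv E K N).injective (Subtype.ext hab)
  · intro g hg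
    rw [Finset.mem_filter] at hg
    refine ⟨(eqv E K N).symm ⟨g, hg.2.1⟩, ?_, ?_⟩
    · rw [Finset.mem_filter]
      exact ⟨Finset.mem_univ _, hg.2.2⟩
    · rw [MulEquiv.apply_symm_apply]
  · intro g _
    rfl

theorem one_char (K N : Type) [Field K] [Field N] [Algebra K N] :
    (linRep (1 : (N ≃ₐ[K] N) →* ℂˣ)).character = fun _ => (1 : ℂ) := by
  rw [IND.linRep_character]
  funext g
  simp

theorem logL_eq (hLB : Stmt_LB) (hLC : Stmt_LC) [IsGalois E N] [IsGalois K N]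
    (S₀ : Set (HeightOneSpectrum (𝓞 E))) (S : Set (HeightOneSpectrum (𝓞 K)))
    (hS : aboveSet K N S = aboveSet E N S₀) (s : ℂ) (hs : 1 < s.re) :
    logL (K := K) (L := N) (fun _ => (1 : ℂ)) S s =
      logL (indFun (fixK E K N) (fun _ => 1)) S₀ s := by
  rw [hLB K N _ S s hs, hLB E N _ S₀ s hs, hLC E N (fixK E K N) (fun _ => 1) S₀ s hs, hS]
  unfold coreSum
  rw [Nat.card_congr (eqv E K N).toEquiv]
  congr 1
  refine tsum_congr fun p => ?_
  rw [inner (E := E)]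

theorem stableK {T : Set (HeightOneSpectrum (𝓞 N))} (hT : StableT E T) : StableT K T := by
  intro g a ha
  exact hT (g.restrictScalars E) a ha

theorem repX_K {T : Set (HeightOneSpectrum (𝓞 N))} (hT : StableT E T) (g : N ≃ₐ[K] N) :
    repX K T (stableK hT) g = repX E T hT (g.restrictScalars E) := by
  ext x
  rfl

theorem reg_eq (hTRD : Stmt_TRD) (hRGT : Stmt_RGT) [IsGalois E N] [IsGalois K N]
    {T : Set (HeightOneSpectrum (𝓞 N))} (hTf : T.Finite) (hT : StableT E T)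
    (Θ : XC N T →ₗ[ℂ] XC N T) (hb : Function.Bijective Θ)
    (hc : ∀ g : N ≃ₐ[E] N, Θ ∘ₗ repX E T hT g = repX E T hT g ∘ₗ Θ)
    (V : Type) [AddCommGroup V] [Module ℂ V] [Module.Finite ℂ V]
    (ρ : Representation ℂ (N ≃ₐ[E] N) V)
    (hρ : ∀ g, ρ.character g = indFun (fixK E K N) (fun _ => 1) g) :
    Reg T ρ Θ = Reg T (linRep (1 : (N ≃ₐ[K] N) →* ℂˣ)) Θ := by
  obtain ⟨W₀, _, _, _, B₀, hdet0, -, htr0⟩ := hRGT E N T hT Θ V ρ hTf hc hb
  have hcK : ∀ g : N ≃ₐ[K] N, Θ ∘ₗ repX K T (stableK hT) g = repX K T (stableK hT) g ∘ₗ Θ := by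
    intro g
    rw [repX_K hT]
    exact hc _
  obtain ⟨W, hW1, hW2, hW3, B, hdet, hne, htr⟩ := hRGT K N T (stableK hT) Θ ℂ
    (linRep (1 : (N ≃ₐ[K] N) →* ℂˣ)) hTf hcK hb
  have key := @hTRD 1 W₀ _ _ _ B₀ (fun _ => W) (fun _ => hW1) (fun _ => hW2) (fun _ => hW3)
    (fun _ => B) (fun _ => 1) (fun _ => hne) ?_
  · rw [hdet0] at key
    rw [key]
    simp only [Fin.prod_univ_one, zpow_one]
    exact hdet
  · intro k
    set t : (N ≃ₐ[E] N) → ℂ := fun g => LinearMap.trace ℂ (XC N T) (repX E T hT g ∘ₗ (Θ ^ k))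
      with ht
    have hck : ∀ g : N ≃ₐ[E] N, (Θ ^ k) ∘ₗ repX E T hT g = repX E T hT g ∘ₗ (Θ ^ k) := by
      intro g
      have h1 : Commute Θ (repX E T hT g) := hc g
      exact (h1.pow_left k).eq
    have hclass : ∀ x g, t (x * g * x⁻¹) = t g := by
      intro x g
      simp only [ht]
      have h1 : repX E T hT (x * g * x⁻¹) ∘ₗ (Θ ^ k) =
          (repX E T hT x) * ((repX E T hT g ∘ₗ (Θ ^ k)) * repX E T hT x⁻¹) := by
        rw [map_mul, map_mul]
        show (repX E T hT x * repX E T hT g * repX E T hT x⁻¹) * (Θ ^ k) = _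
        have h2 : (Θ ^ k) * repX E T hT x⁻¹ = repX E T hT x⁻¹ * (Θ ^ k) := hck x⁻¹
        rw [mul_assoc, ← h2]
        rfl
      rw [h1, LinearMap.trace_mul_comm, mul_assoc, ← map_mul]
      simp
    rw [htr0 k]
    have h3 : (∑ g : N ≃ₐ[E] N, ρ.character g * t g) =
        ∑ g, indFun (fixK E K N) (fun _ => 1) g * t g := by
      simp only [hρ]
    show (∑ g : N ≃ₐ[E] N, ρ.character g * t g) / _ = _
    rw [h3, IND.sum_indFun_mul (fixK E K N) (fun _ => 1) t hclass]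
    simp only [Fin.sum_univ_one, Int.cast_one, one_mul]
    rw [htr k, Nat.card_congr (eqv E K N).toEquiv]
    congr 1
    symm
    refine Fintype.sum_equiv (eqv E K N).toEquiv _ _ fun g => ?_
    rw [one_char, repX_K hT]
    show (1 : ℂ) * t (g.restrictScalars E) = t _
    rw [one_mul]
    rfl

end

end DOWN

theorem DOWN_thm (hLB : Stmt_LB) (hLC : Stmt_LC) (hTRD : Stmt_TRD)
    (hRGT : Stmt_RGT) (hSTB : Stmt_STB) (hTHC : Stmt_THC) (hTHB : Stmt_THB) : Stmt_DOWN := by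
  intro R E K N _ _ _ _ _ _ _ _ _ _ _ _ S₀ S hS φ Θ hφ V _ _ _ ρ hρ M hrel
  have hTf : (aboveSet E N (S₀ : Set (HeightOneSpectrum (𝓞 E)))).Finite :=
    IND.aboveSet_finite _ S₀.finite_toSet
  have hT := hSTB E N (S₀ : Set (HeightOneSpectrum (𝓞 E)))
  have hc := hTHC E N _ hT φ Θ hTf hφ
  have hb := hTHB E N _ φ Θ hTf hφ
  obtain ⟨f, f', hf, hf', hR⟩ := hrel
  have hχ : ρ.character = indFun (fixK E K N) (fun _ => 1) := funext hρ
  have hart : ∀ f : ℂ → ℂ,
      IsArtinLMul M ρ.character (S₀ : Set (HeightOneSpectrum (𝓞 E))) f →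
      IsArtinLMul M (linRep (1 : (N ≃ₐ[K] N) →* ℂˣ)).character
        (S : Set (HeightOneSpectrum (𝓞 K))) f := by
    intro f hf
    refine ⟨hf.1, fun s hs => ?_⟩
    have h1 := DOWN.logL_eq (E := E) (K := K) (N := N) hLB hLC
      (S₀ : Set (HeightOneSpectrum (𝓞 E))) (S : Set (HeightOneSpectrum (𝓞 K))) hS s hs
    rw [hf.2 s hs, hχ, DOWN.one_char, h1]
  refine ⟨f, f', hart f hf, hart f' hf', ?_⟩
  rw [← DOWN.reg_eq hTRD hRGT hTf hT Θ hb hc V ρ hρ]
  exact hR

end StarkC
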