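import Pool.Agent.StarkT.Stmts
import Pool.Agent.Stark.INFL

/-!
EXPH: existence of the data `φ`, `Θ`, by inflation from `K / K`.
-/

open NumberField IsDedekindDomain
open scoped TensorProduct Classical

namespace StarkC

theorem EXPH_thm (hI : Stmt_INFL) (hX : Stmt_XRAT) (hU : Stmt_UNIT) (hE : Stmt_THE) :
    Stmt_EXPH := by
  intro K L _ _ _ _ _ _ S
  have hfin : (aboveSet K K (S : Set (HeightOneSpectrum (𝓞 K)))).Finite :=
    INFL.finite_aboveSet S.finite_toSet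
  obtain ⟨n, b, c, -⟩ := hX K (aboveSet K K S) hfin
  obtain ⟨m, b', c', -⟩ := hU K (aboveSet K K S) hfin
  have hnm : n = m := by
    have h1 := Module.finrank_eq_card_basis c
    have h2 := Module.finrank_eq_card_basis c'
    simpa using h1.symm.trans h2
  subst hnm
  obtain ⟨φ₀, -⟩ : ∃ φ₀ : XQ K (aboveSet K K (S : Set (HeightOneSpectrum (𝓞 K)))) ≃ₗ[ℚ]
      QU K (aboveSet K K (S : Set (HeightOneSpectrum (𝓞 K)))), True :=
    ⟨b.equiv b' (Equiv.refl _), trivial⟩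
  have hφ₀ : ∀ (g : K ≃ₐ[K] K)
      (x y : XQ K (aboveSet K K (S : Set (HeightOneSpectrum (𝓞 K))))),
      (y : (K → ℝ) →₀ ℚ) = actQ (g : K ≃+* K) x →
      (φ₀ y : ℚ ⊗[ℤ] Additive Kˣ) = actU (g : K ≃+* K) (φ₀ x) := by
    intro g x y h
    have hg : g = 1 := AlgEquiv.ext fun z => g.commutes z
    subst hg
    rw [INFL.actQ_one] at h
    rw [INFL.actU_one, Subtype.ext h]
  obtain ⟨Θ₀, hΘ₀⟩ := hE K K _ φ₀ hfin hφ₀
  obtain ⟨φ', Θ', h, -⟩ := hI K K L S φ₀ Θ₀ hΘ₀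
  exact ⟨φ', Θ', h⟩

end StarkC
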