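import Pool.Agent.StarkT.Stmts

/-!
GALQ: a finite extension of `K` which is Galois over `ℚ` (helper74).
-/

open NumberField IsDedekindDomain
open scoped TensorProduct Classical

namespace StarkC

theorem GALQ_thm : StarkC.Stmt_GALQ := by
  intro K _ _
  let Ω := AlgebraicClosure K
  have hnorm : Normal ℚ Ω := by
    have : IsAlgClosure ℚ Ω := ⟨inferInstance, Algebra.IsAlgebraic.trans ℚ K Ω⟩
    exact IsAlgClosure.normal ℚ Ω
  let N : IntermediateField ℚ Ω := IntermediateField.normalClosure ℚ K Ω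
  have hfin : FiniteDimensional ℚ N := inferInstance
  have hnf : NumberField N := ⟨⟩
  have hn : Normal ℚ N := normalClosure.normal ℚ K Ω
  have hK : ∀ x : K, algebraMap K Ω x ∈ N := fun x =>
    (IsScalarTower.toAlgHom ℚ K Ω).fieldRange_le_normalClosure ⟨x, rfl⟩
  let ι : K →ₐ[ℚ] N := (IsScalarTower.toAlgHom ℚ K Ω).codRestrict N.toSubalgebra hK
  let algKN : Algebra K N := ι.toRingHom.toAlgebra
  have hst : IsScalarTower ℚ K N := IsScalarTower.of_algebraMap_eq fun x => (ι.commutes x).symm
  have hg : IsGalois ℚ N := ⟨⟩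
  exact ⟨N, inferInstance, hnf, algKN, hg, IsGalois.tower_top_of_isGalois ℚ K N⟩

end StarkC
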