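import Pool.Agent.StarkT.Stmts

/-!
# Module LEUL: the leading term of an Euler factor at `0`
-/

open Filter Topology

namespace StarkC

namespace LEUL

lemma analytic (n : ℕ) (hn : 1 < n) (z : ℂ) :
    AnalyticAt ℂ (fun s : ℂ => 1 - (n : ℂ) ^ (-s)) z := by
  have hn0 : (n : ℂ) ≠ 0 := by exact_mod_cast (by omega : n ≠ 0)
  have h : (fun s : ℂ => 1 - (n : ℂ) ^ (-s)) =
      fun s : ℂ => 1 - Complex.exp (Complex.log n * (-s)) := by
    funext s
    rw [Complex.cpow_def_of_ne_zero hn0]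
  rw [h]
  fun_prop

lemma hasDeriv (n : ℕ) (hn : 1 < n) :
    HasDerivAt (fun s : ℂ => 1 - (n : ℂ) ^ (-s)) ((Real.log n : ℝ) : ℂ) 0 := by
  have hn0 : (n : ℂ) ≠ 0 := by exact_mod_cast (by omega : n ≠ 0)
  have h : (fun s : ℂ => 1 - (n : ℂ) ^ (-s)) =
      fun s : ℂ => 1 - Complex.exp (Complex.log n * (-s)) := by
    funext s
    rw [Complex.cpow_def_of_ne_zero hn0]
  rw [h]
  have h1 : HasDerivAt (fun s : ℂ => Complex.log n * (-s)) (Complex.log n * (-1)) 0 :=
    (hasDerivAt_neg (0 : ℂ)).const_mul _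
  have h2 := (h1.cexp).const_sub 1
  have h3 : -(Complex.exp (Complex.log n * (-0)) * (Complex.log n * (-1)))
      = ((Real.log n : ℝ) : ℂ) := by
    rw [Complex.ofReal_log (Nat.cast_nonneg n)]
    simp
  rw [h3] at h2
  exact h2

end LEUL

/-- MODULE LEUL. -/
theorem LEUL_thm : Stmt_LEUL := by
  intro n hn
  refine ⟨fun z => (LEUL.analytic n hn z).meromorphicAt, ?_⟩
  set f : ℂ → ℂ := fun s : ℂ => 1 - (n : ℂ) ^ (-s) with hf
  have hd := LEUL.hasDeriv n hn
  have ha : AnalyticAt ℂ (dslope f 0) 0 := by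
    obtain ⟨p, hp⟩ := LEUL.analytic n hn 0
    exact ⟨_, hp.has_fpower_series_dslope_fslope⟩
  have h0 : dslope f 0 0 = ((Real.log n : ℝ) : ℂ) := by
    rw [dslope_same, hd.deriv]
  rw [← h0]
  refine ha.meromorphicTrailingCoeffAt_of_ne_zero_of_eq_nhdsNE (n := 1) ?_ ?_
  · rw [h0]
    have : 0 < Real.log n := Real.log_pos (by exact_mod_cast hn)
    exact_mod_cast this.ne'
  · refine Eventually.of_forall fun z => ?_
    have h1 := sub_smul_dslope f 0 z
    have h2 : f 0 = 0 := by simp [hf]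
    rw [h2] at h1
    simp only [sub_zero] at h1
    simp only [sub_zero, zpow_one]
    exact h1.symm

end StarkC
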