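import Pool.Agent.StarkT.Stmts

/-!
# The Riemann zeta function: meromorphy and the value at 0
-/

open NumberField IsDedekindDomain Filter Topology
open scoped TensorProduct Classical

namespace StarkC

namespace MZ

theorem analyticAt_zeta {z : ℂ} (hz : z ≠ 1) : AnalyticAt ℂ riemannZeta z := by
  apply Complex.analyticAt_iff_eventually_differentiableAt.2
  filter_upwards [isOpen_compl_singleton.mem_nhds (show z ∈ ({1} : Set ℂ)ᶜ from hz)] with s hs
  exact differentiableAt_riemannZeta hs

theorem meromorphicAt_one : MeromorphicAt riemannZeta 1 := by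
  have hg : AnalyticAt ℂ (Function.update (fun s : ℂ => (s - 1) * riemannZeta s) 1 1) 1 := by
    apply Complex.analyticAt_of_differentiable_on_punctured_nhds_of_continuousAt
    · filter_upwards [self_mem_nhdsWithin] with s hs
      have hs' : s ≠ 1 := hs
      have h1 : DifferentiableAt ℂ (fun s : ℂ => (s - 1) * riemannZeta s) s :=
        (differentiableAt_id.sub_const 1).mul (differentiableAt_riemannZeta hs')
      refine h1.congr_of_eventuallyEq ?_
      filter_upwards [isOpen_compl_singleton.mem_nhds (show s ∈ ({1} : Set ℂ)ᶜ from hs)] with t ht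
      exact Function.update_of_ne ht _ _
    · rw [continuousAt_update_same]
      exact riemannZeta_residue_one
  have h2 : MeromorphicAt (fun s : ℂ => (s - 1)⁻¹ *
      Function.update (fun s : ℂ => (s - 1) * riemannZeta s) 1 1 s) 1 := by
    apply MeromorphicAt.mul _ hg.meromorphicAt
    apply MeromorphicAt.inv
    exact (analyticAt_id.sub analyticAt_const).meromorphicAt
  refine h2.congr ?_
  filter_upwards [self_mem_nhdsWithin] with s hs
  have hs' : s ≠ 1 := hs
  rw [Function.update_of_ne hs', ← mul_assoc, inv_mul_cancel₀ (sub_ne_zero.2 hs'), one_mul]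

end MZ

theorem MZ_thm : Stmt_MZ := by
  constructor
  · intro z
    by_cases hz : z = 1
    · rw [hz]
      exact MZ.meromorphicAt_one
    · exact (MZ.analyticAt_zeta hz).meromorphicAt
  · rw [(MZ.analyticAt_zeta zero_ne_one).meromorphicTrailingCoeffAt_of_ne_zero]
    · exact riemannZeta_zero
    · rw [riemannZeta_zero]
      norm_num

end StarkC
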