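import Pool.Agent.StarkT.Stmts

set_option autoImplicit false

/-!
# PERM: permutation representations
-/

open NumberField IsDedekindDomain
open scoped TensorProduct Classical

namespace StarkC

namespace PERM

variable {G : Type} [Group G] [Fintype G] (H : Subgroup G)

/-- the permutation representation on functions on `G / H` -/
noncomputable def rep : Representation ℂ G (G ⧸ H → ℂ) where
  toFun g := LinearMap.funLeft ℂ ℂ (fun x : G ⧸ H => g⁻¹ • x)
  map_one' := by
    ext f x
    simp [LinearMap.funLeft_apply]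
  map_mul' g h := by
    ext f x
    simp [LinearMap.funLeft_apply, mul_smul]

theorem rep_apply (g : G) (f : G ⧸ H → ℂ) (x : G ⧸ H) : rep H g f x = f (g⁻¹ • x) := rfl

theorem char_rep (g : G) :
    (rep H).character g = ((Nat.card {x : G ⧸ H | g⁻¹ • x = x} : ℕ) : ℂ) := by
  have h1 : (rep H).character g = LinearMap.trace ℂ _ (rep H g) := rfl
  rw [h1, LinearMap.trace_eq_matrix_trace ℂ (Pi.basisFun ℂ (G ⧸ H)), Matrix.trace]
  have h2 : ∀ x : G ⧸ H, Matrix.diag
      (LinearMap.toMatrix (Pi.basisFun ℂ (G ⧸ H)) (Pi.basisFun ℂ (G ⧸ H)) (rep H g)) x =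
      if g⁻¹ • x = x then 1 else 0 := by
    intro x
    rw [Matrix.diag_apply, LinearMap.toMatrix_apply]
    simp only [Pi.basisFun_apply, Pi.basisFun_repr]
    rw [rep_apply, Pi.single_apply]
  rw [Finset.sum_congr rfl fun x _ => h2 x, Finset.sum_boole]
  congr 1
  rw [Nat.card_eq_fintype_card, Fintype.card_subtype]
  rfl

theorem card_conj (g : G) : Nat.card {x : G | x⁻¹ * g * x ∈ H} =
    Nat.card H * Nat.card {x : G ⧸ H | g⁻¹ • x = x} := by
  rw [← QuotientGroup.card_preimage_mk]
  congr 1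
  congr 1
  ext x
  simp only [Set.mem_setOf_eq, Set.mem_preimage]
  have h1 : g⁻¹ • (QuotientGroup.mk x : G ⧸ H) = QuotientGroup.mk (g⁻¹ * x) := rfl
  rw [h1, QuotientGroup.eq]
  have h2 : (g⁻¹ * x)⁻¹ * x = x⁻¹ * g * x := by group
  rw [h2]

theorem indFun_one (g : G) :
    indFun H (fun _ => 1) g = ((Nat.card {x : G ⧸ H | g⁻¹ • x = x} : ℕ) : ℂ) := by
  unfold indFun
  rw [Finset.sum_boole]
  have h1 : ((Finset.univ.filter fun x : G => x⁻¹ * g * x ∈ H).card : ℕ) =
      Nat.card {x : G | x⁻¹ * g * x ∈ H} := by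
    rw [Nat.card_eq_fintype_card, Fintype.card_subtype]
    rfl
  rw [h1, card_conj]
  have h2 : (Nat.card H : ℂ) ≠ 0 := by
    exact_mod_cast Nat.card_pos.ne'
  push_cast
  field_simp

end PERM

theorem PERM_thm : Stmt_PERM := by
  intro G _ _ H
  refine ⟨G ⧸ H → ℂ, inferInstance, inferInstance, inferInstance, PERM.rep H, fun g => ?_⟩
  rw [PERM.char_rep, PERM.indFun_one]

end StarkC
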