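import Pool.Agent.StarkT.Stmts

/-!
# Module SB_QC: the trivial character over a field of degree 1
-/

open NumberField IsDedekindDomain
open scoped TensorProduct Classical

namespace StarkC

namespace QC

theorem twist_one {G : Type} [Group G] (σ : ℂ ≃+* ℂ) : twist σ (1 : G →* ℂˣ) = 1 := by
  ext g
  simp [twist]

theorem char_one {G : Type} [Group G] [Fintype G] :
    (linRep (1 : G →* ℂˣ)).character = fun _ => 1 := by
  funext g
  unfold Representation.character
  have h : linRep (1 : G →* ℂˣ) g = LinearMap.id := by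
    apply LinearMap.ext
    intro x
    show LinearMap.lsmul ℂ ℂ (((1 : G →* ℂˣ) g : ℂˣ) : ℂ) x = x
    rw [MonoidHom.one_apply, Units.val_one, LinearMap.lsmul_apply, one_smul]
  rw [h, LinearMap.trace_id, Module.finrank_self, Nat.cast_one]

theorem aboveSet_self (K : Type) [Field K] [NumberField K] (S : Set (HeightOneSpectrum (𝓞 K))) :
    aboveSet K K S = S := by
  ext w
  unfold aboveSet
  rw [Set.mem_ofPred_eq]
  refine iff_of_eq (congrArg (fun x => x ∈ S) ?_)
  apply HeightOneSpectrum.ext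
  rw [HeightOneSpectrum.under_asIdeal]
  ext x
  rw [Ideal.under_def, Ideal.mem_comap]
  refine iff_of_eq (congrArg (fun y => y ∈ w.asIdeal) ?_)
  apply RingOfIntegers.ext
  rfl

theorem absNorm_gt (K : Type) [Field K] [NumberField K] (v : HeightOneSpectrum (𝓞 K)) :
    1 < Ideal.absNorm v.asIdeal := by
  have h1 : Ideal.absNorm v.asIdeal ≠ 1 := by
    rw [Ne, Ideal.absNorm_eq_one_iff]
    exact v.isPrime.ne_top
  have h0 : Ideal.absNorm v.asIdeal ≠ 0 := by
    rw [Ne, Ideal.absNorm_eq_zero_iff]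
    exact v.ne_bot
  omega

theorem card_infinite (K : Type) [Field K] [NumberField K] (h : Module.finrank ℚ K = 1) :
    Fintype.card (InfinitePlace K) = 1 := by
  have h1 := InfinitePlace.card_add_two_mul_card_eq_rank K
  have h2 := InfinitePlace.card_eq_nrRealPlaces_add_nrComplexPlaces K
  omega

theorem subs (K : Type) [Field K] [NumberField K] (h : Module.finrank ℚ K = 1) :
    Subsingleton (XC K (∅ : Set (HeightOneSpectrum (𝓞 K)))) := by
  obtain ⟨w, hw⟩ := Fintype.card_eq_one_iff.1 (card_infinite K h)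
  have key : ∀ x ∈ XCsub K (∅ : Set (HeightOneSpectrum (𝓞 K))), x = 0 := by
    intro x hx
    obtain ⟨h1, h2⟩ := hx
    have h3 : x.support ⊆ {infAbs K w} := by
      intro a ha
      have h4 := (Finsupp.mem_supported ℂ x).1 h1 ha
      rcases h4 with ⟨w', rfl⟩ | ⟨v, hv, _⟩
      · rw [hw w', Finset.mem_singleton]
      · exact absurd hv (Set.notMem_empty v)
    rw [Finsupp.support_subset_singleton] at h3
    rw [h3] at h2 ⊢
    have h5 : Finsupp.linearCombination ℂ (fun _ : K → ℝ => (1 : ℂ))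
        (Finsupp.single (infAbs K w) (x (infAbs K w))) = 0 := h2
    rw [Finsupp.linearCombination_single, smul_eq_mul, mul_one] at h5
    rw [h5, Finsupp.single_zero]
  refine ⟨fun a b => ?_⟩
  have ha : (a : XCsub K ∅) = 0 := Subtype.ext (key _ (Subtype.property _))
  have hb : (b : XCsub K ∅) = 0 := Subtype.ext (key _ (Subtype.property _))
  exact (ha.trans hb.symm : (a : XCsub K ∅) = b)

theorem logL_eq (hLINF : Stmt_LINF) (K L : Type) [Field K] [NumberField K] [Field L] [NumberField L]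
    [Algebra K L] [IsGalois K L] (S : Set (HeightOneSpectrum (𝓞 K))) (s : ℂ) :
    logL (K := K) (L := L) (fun _ => 1) S s = logL (K := K) (L := K) (fun _ => 1) S s := by
  unfold logL
  refine tsum_congr fun p => ?_
  have h := hLINF K K L (fun _ => 1) (fun _ _ => rfl) p.1 (p.2 + 1)
  rw [h]

end QC

open QC in
/-- MODULE SB_QC -/
theorem QC_thm (hDESC : Stmt_DESC) (hREG1 : Stmt_REG1) (hREGS : Stmt_REGS) (hEUL : Stmt_EUL)
    (hZETA : Stmt_ZETA) (hMZ : Stmt_MZ) (hLEUL : Stmt_LEUL) (hLINF : Stmt_LINF)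
    (hEXPH : Stmt_EXPH) : Stmt_QC := by
  intro R hR σ K L _ _ _ _ _ _ hK S φ Θ hΦ
  refine ⟨0, ?_⟩
  rw [twist_one, pow_zero]
  obtain ⟨φ', Θ', hΦ', hReg⟩ := hDESC K L S φ Θ hΦ
  have h0 := hEXPH K K ∅
  rw [aboveSet_self] at h0
  obtain ⟨φ₀, Θ₀, hΦ₀⟩ := h0
  obtain ⟨q, hq, hdet⟩ := hREGS K ∅ S (Finset.empty_subset S) φ₀ Θ₀ φ' Θ' hΦ₀ hΦ'
  have hdet0 : LinearMap.det Θ₀ = 1 := by
    have hs : Subsingleton (XC K ((∅ : Finset (HeightOneSpectrum (𝓞 K))) :
        Set (HeightOneSpectrum (𝓞 K)))) := by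
      rw [Finset.coe_empty]
      exact subs K hK
    have h1 : Θ₀ = LinearMap.id := Subsingleton.elim _ _
    rw [h1, LinearMap.det_id]
  rw [hREG1 K _ Θ' S.finite_toSet] at hReg
  rw [hdet0, mul_one, Finset.sdiff_empty] at hdet
  set P : ℂ := ∏ v ∈ S, ((Real.log (Ideal.absNorm v.asIdeal) : ℝ) : ℂ) with hP
  have hP0 : P ≠ 0 := by
    rw [hP, Finset.prod_ne_zero_iff]
    intro v _
    rw [Ne, Complex.ofReal_eq_zero]
    have h2 : (1 : ℝ) < Ideal.absNorm v.asIdeal := by exact_mod_cast absNorm_gt K v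
    exact (Real.log_pos h2).ne'
  -- the function
  set F : HeightOneSpectrum (𝓞 K) → ℂ → ℂ :=
    fun v s => 1 - ((Ideal.absNorm v.asIdeal : ℕ) : ℂ) ^ (-s) with hF
  set f : ℂ → ℂ := fun s => riemannZeta s * ∏ v ∈ S, F v s with hf
  have hFm : ∀ z, MeromorphicAt (fun s => ∏ v ∈ S, F v s) z := fun z =>
    MeromorphicAt.fun_prod fun v _ => (hLEUL _ (absNorm_gt K v)).1 z
  have hfL : IsArtinLMul 1 (linRep (1 : (L ≃ₐ[K] L) →* ℂˣ)).character
      (S : Set (HeightOneSpectrum (𝓞 K))) f := by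
    refine ⟨fun z => (hMZ.1 z).mul (hFm z), fun s hs => ?_⟩
    rw [char_one, Nat.cast_one, one_mul, logL_eq hLINF]
    have h1 := hEUL K ∅ S (Finset.empty_subset S) s hs
    rw [h1, Finset.coe_empty, hZETA K hK s hs, Finset.sdiff_empty]
  have hlead : meromorphicTrailingCoeffAt f 0 = (-1 / 2) * P := by
    have h1 : meromorphicTrailingCoeffAt f 0 = meromorphicTrailingCoeffAt riemannZeta 0 *
        meromorphicTrailingCoeffAt (fun s => ∏ v ∈ S, F v s) 0 :=
      (hMZ.1 0).meromorphicTrailingCoeffAt_mul (hFm 0)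
    rw [h1, hMZ.2, meromorphicTrailingCoeffAt_fun_prod
      (fun v _ => (hLEUL _ (absNorm_gt K v)).1 0)]
    congr 1
    exact Finset.prod_congr rfl fun v _ => (hLEUL _ (absNorm_gt K v)).2
  refine ⟨f, f, hfL, hfL, ?_⟩
  rw [pow_one, ← hReg, hdet, hlead]
  have h1 : (q : ℂ) * P / (-1 / 2 * P) = ((-2 * q : ℚ) : ℂ) := by
    push_cast
    field_simp
  rw [h1]
  exact hR.rat _

end StarkC
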