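import Pool.Agent.StarkT.Stmts
import Pool.Agent.Stark.QE

/-!
# Quasi-elementary groups for an odd prime: a complex conjugation is central
-/

namespace StarkC

theorem QET_thm : StarkC.Stmt_QET := by
  intro p G _ _ c hp hodd hG hcc
  obtain ⟨C, hCn, hCc, hpC, n, hn⟩ := hG
  have := hCn
  have := hCc
  have hcC : c ∈ C := by
    have h1 : c ^ C.index ∈ C := Subgroup.pow_index_mem C c
    rw [hn] at h1
    have h2 : Odd (p ^ n) := hodd.pow
    obtain ⟨k, hk⟩ := h2
    rw [hk, pow_succ, pow_mul, pow_two, hcc, one_pow, one_mul] at h1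
    exact h1
  intro u
  by_cases hc1 : c = 1
  · rw [hc1]; simp
  · have hconj : u * c * u⁻¹ ∈ C := hCn.conj_mem c hcC u
    have h1 : (⟨u * c * u⁻¹, hconj⟩ : C) = ⟨c, hcC⟩ := by
      apply QE.unique_two
      · apply Subtype.ext
        change (u * c * u⁻¹) ^ 2 = 1
        rw [pow_two]
        calc u * c * u⁻¹ * (u * c * u⁻¹) = u * (c * c) * u⁻¹ := by group
          _ = 1 := by rw [hcc]; group
      · apply Subtype.ext
        change c ^ 2 = 1
        rw [pow_two, hcc]
      · intro h
        have h' : u * c * u⁻¹ = 1 := congrArg Subtype.val h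
        apply hc1
        have h3 : u * c = u := by
          calc u * c = u * c * u⁻¹ * u := by group
            _ = u := by rw [h', one_mul]
        simpa using h3
      · intro h
        exact hc1 (congrArg Subtype.val h)
    have h2 : u * c * u⁻¹ = c := congrArg Subtype.val h1
    calc u * c = u * c * u⁻¹ * u := by group
      _ = c * u := by rw [h2]

end StarkC
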