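import Pool.Agent.StarkT.Stmts

/-!
# The regulator of the trivial character over the base field is the determinant
-/

open NumberField IsDedekindDomain
open scoped TensorProduct Classical

namespace StarkC

namespace REG1

variable {K : Type} [Field K] [NumberField K]

theorem homG_eq_top (T : Set (HeightOneSpectrum (𝓞 K))) :
    homG (K := K) T (linRep (1 : (K ≃ₐ[K] K) →* ℂˣ)) = ⊤ := by
  refine eq_top_iff.2 fun f _ => ?_
  intro g α
  have hg : g = 1 := by
    ext x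
    exact g.commutes x
  subst hg
  have h1 : (linRep (1 : (K ≃ₐ[K] K) →* ℂˣ)).dual (1 : K ≃ₐ[K] K) α = α := by
    rw [map_one]
    rfl
  rw [h1]
  have h2 : actC ((1 : K ≃ₐ[K] K) : K ≃+* K) = LinearMap.id := by
    unfold actC
    have : (fun a : K → ℝ => a ∘ (((1 : K ≃ₐ[K] K) : K ≃+* K)).symm) = _root_.id := by
      funext a
      rfl
    rw [this, Finsupp.lmapDomain_id]
  rw [h2]
  rfl

/-- Evaluation at the identity of `ℂ`. -/
noncomputable def ev (T : Set (HeightOneSpectrum (𝓞 K))) :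
    ↥(homG (K := K) T (linRep (1 : (K ≃ₐ[K] K) →* ℂˣ))) ≃ₗ[ℂ] XC K T :=
  (LinearEquiv.ofTop _ (homG_eq_top T)).trans
    ((LinearEquiv.congrLeft (XC K T) ℂ (LinearMap.ringLmapEquivSelf ℂ ℂ ℂ)).trans
      (LinearMap.ringLmapEquivSelf ℂ ℂ (XC K T)))

theorem ev_apply (T : Set (HeightOneSpectrum (𝓞 K)))
    (f : ↥(homG (K := K) T (linRep (1 : (K ≃ₐ[K] K) →* ℂˣ)))) :
    ev T f = f.1 ((LinearMap.ringLmapEquivSelf ℂ ℂ ℂ).symm 1) := rfl

end REG1

theorem REG1_thm : Stmt_REG1 := by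
  intro K _ _ T Θ _
  have h : ∀ f ∈ homG (K := K) T (linRep (1 : (K ≃ₐ[K] K) →* ℂˣ)),
      LinearMap.compRight ℂ Θ f ∈ homG (K := K) T (linRep (1 : (K ≃ₐ[K] K) →* ℂˣ)) := by
    intro f _
    rw [REG1.homG_eq_top]
    trivial
  unfold Reg
  rw [dif_pos h, ← LinearMap.det_conj _ (REG1.ev T)]
  congr 1
  refine LinearMap.ext fun x => ?_
  obtain ⟨f, rfl⟩ := (REG1.ev T).surjective x
  simp only [LinearMap.comp_apply, LinearEquiv.coe_coe, LinearEquiv.symm_apply_apply]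
  rw [REG1.ev_apply, REG1.ev_apply]
  rfl

end StarkC
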