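import Pool.Agent.StarkT.Stmts
import Pool.Agent.Stark.UNIT
import Pool.Agent.Stark.XRAT
import Pool.Agent.Stark.THE

set_option autoImplicit false

/-! # Enlarging `S` multiplies the regulator by a rational number and the `log N(v)` -/

open NumberField IsDedekindDomain Module
open scoped TensorProduct Classical

namespace StarkC

namespace REGS

/-! ### Linear algebra -/

/-- Extending a basis by elements detected by functionals. -/
theorem glue {k M E : Type} [Field k] [AddCommGroup M] [Module k M] [AddCommGroup E] [Module k E]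
    {W W₂ : Submodule k M} (hW : W ≤ W₂) {n : ℕ} (b : Basis (Fin n) k W) {D : Type} [Fintype D]
    (m : D → M) (hm : ∀ d, m d ∈ W₂) (ε : D → M →ₗ[k] E) (h1 : ∀ d, ∀ x ∈ W, ε d x = 0)
    (h2 : ∀ d d', d' ≠ d → ε d (m d') = 0) (h3 : ∀ d, ε d (m d) ≠ 0)
    (hsp : ∀ x ∈ W₂, x ∈ W ⊔ Submodule.span k (Set.range m)) :
    ∃ b₂ : Basis (Fin n ⊕ D) k W₂, (∀ i, (b₂ (Sum.inl i) : M) = b i) ∧
      ∀ d, (b₂ (Sum.inr d) : M) = m d := by
  let v : Fin n ⊕ D → W₂ := Sum.elim (fun i => ⟨b i, hW (b i).2⟩) (fun d => ⟨m d, hm d⟩)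
  have hli : LinearIndependent k v := by
    rw [Fintype.linearIndependent_iff]
    intro g hg
    have hg1 : ∑ i, g (Sum.inl i) • (b i : M) + ∑ d, g (Sum.inr d) • m d = 0 := by
      have := congrArg Subtype.val hg
      rw [Fintype.sum_sum_type, Submodule.coe_add, Submodule.coe_sum, Submodule.coe_sum] at this
      exact this
    have hd : ∀ d, g (Sum.inr d) = 0 := by
      intro d
      have h := congrArg (ε d) hg1
      rw [map_add, map_sum, map_sum, map_zero, Finset.sum_eq_zero, zero_add,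
        Finset.sum_eq_single d, map_smul] at h
      · exact (smul_eq_zero.1 h).resolve_right (h3 d)
      · intro d' _ hd'
        rw [map_smul, h2 d d' hd', smul_zero]
      · intro h'
        exact absurd (Finset.mem_univ d) h'
      · intro i _
        rw [map_smul, h1 d _ (b i).2, smul_zero]
    have hi : ∀ i, g (Sum.inl i) = 0 := by
      have hb := b.linearIndependent
      rw [Fintype.linearIndependent_iff] at hb
      refine hb (fun i => g (Sum.inl i)) ?_
      apply Subtype.ext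
      rw [Submodule.coe_sum, Submodule.coe_zero]
      have h0 : ∑ d, g (Sum.inr d) • m d = 0 := by
        apply Finset.sum_eq_zero
        intro d _
        rw [hd d, zero_smul]
      rw [h0, add_zero] at hg1
      exact hg1
    rintro (i | d)
    · exact hi i
    · exact hd d
  have hsp' : ⊤ ≤ Submodule.span k (Set.range v) := by
    rintro ⟨x, hx⟩ -
    obtain ⟨y, hy, z, hz, hyz⟩ := Submodule.mem_sup.1 (hsp x hx)
    rw [Submodule.mem_span_range_iff_exists_fun] at hz ⊢
    obtain ⟨c, hc⟩ := hz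
    refine ⟨Sum.elim (fun i => b.repr ⟨y, hy⟩ i) c, ?_⟩
    apply Subtype.ext
    rw [Fintype.sum_sum_type, Submodule.coe_add, Submodule.coe_sum, Submodule.coe_sum]
    have e1 : y = ∑ i, b.repr ⟨y, hy⟩ i • (b i : M) := by
      have := congrArg Subtype.val (b.sum_repr ⟨y, hy⟩).symm
      rw [Submodule.coe_sum] at this
      exact this
    have e2 : ∑ i, ((Sum.elim (fun i => b.repr ⟨y, hy⟩ i) c (Sum.inl i) • v (Sum.inl i) : W₂) : M) =
        y := by
      conv_rhs => rw [e1]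
      rfl
    have e3 : ∑ d, ((Sum.elim (fun i => b.repr ⟨y, hy⟩ i) c (Sum.inr d) • v (Sum.inr d) : W₂) : M) =
        z := hc
    rw [e2, e3, hyz]
  refine ⟨Basis.mk hli hsp', fun i => ?_, fun d => ?_⟩
  · rw [Basis.mk_apply]; rfl
  · rw [Basis.mk_apply]; rfl

/-- The sum zero combinations on a larger set. -/
theorem glueX (k : Type) [Field k] {α : Type} (P P₂ : Set α) (a₀ : α) (ha₀ : a₀ ∈ P)
    {D : Type} [Fintype D] (p : D → α) (hp : Function.Injective p) (hpP : ∀ d, p d ∉ P)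
    (hP₂ : P₂ = P ∪ Set.range p) {n : ℕ} (b : Basis (Fin n) k (XRAT.SZ k P)) :
    ∃ b₂ : Basis (Fin n ⊕ D) k (XRAT.SZ k P₂), (∀ i, (b₂ (Sum.inl i) : α →₀ k) = b i) ∧
      ∀ d, (b₂ (Sum.inr d) : α →₀ k) = Finsupp.single (p d) 1 - Finsupp.single a₀ 1 := by
  have hPP : P ⊆ P₂ := by rw [hP₂]; exact Set.subset_union_left
  have hne : ∀ d, p d ≠ a₀ := by
    intro d h
    exact hpP d (h ▸ ha₀)
  refine glue (E := k) ?_ b _ ?_ (fun d => Finsupp.lapply (p d)) ?_ ?_ ?_ ?_
  · exact inf_le_inf_right _ (Finsupp.supported_mono hPP)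
  · intro d
    refine ⟨?_, ?_⟩
    · refine Submodule.sub_mem _ (Finsupp.single_mem_supported k _ ?_)
        (Finsupp.single_mem_supported k _ (hPP ha₀))
      rw [hP₂]; exact Or.inr ⟨d, rfl⟩
    · rw [SetLike.mem_coe, LinearMap.mem_ker, map_sub, Finsupp.linearCombination_single,
        Finsupp.linearCombination_single, sub_self]
  · intro d x hx
    rw [Finsupp.lapply_apply]
    by_contra h
    exact hpP d (hx.1 (Finsupp.mem_support_iff.2 h))
  · intro d d' h
    have h' : p d ≠ p d' := fun e => h (hp e).symm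
    rw [Finsupp.lapply_apply, Finsupp.sub_apply, Finsupp.single_eq_of_ne h',
      Finsupp.single_eq_of_ne (hne d), sub_zero]
  · intro d
    rw [Finsupp.lapply_apply, Finsupp.sub_apply, Finsupp.single_eq_same,
      Finsupp.single_eq_of_ne (hne d), sub_zero]
    exact one_ne_zero
  · intro x hx
    set z : α →₀ k := ∑ d, x (p d) • (Finsupp.single (p d) (1 : k) - Finsupp.single a₀ 1) with hz
    have hzs : z ∈ Submodule.span k (Set.range fun d =>
        (Finsupp.single (p d) (1 : k) - Finsupp.single a₀ 1 : α →₀ k)) := by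
      refine Submodule.sum_mem _ fun d _ => Submodule.smul_mem _ _ (Submodule.subset_span ⟨d, rfl⟩)
    have hzv : ∀ d, z (p d) = x (p d) := by
      intro d
      rw [hz, Finsupp.finsetSum_apply, Finset.sum_eq_single d]
      · rw [Finsupp.smul_apply, Finsupp.sub_apply, Finsupp.single_eq_same,
          Finsupp.single_eq_of_ne (hne d), sub_zero, smul_eq_mul, mul_one]
      · intro d' _ hd'
        have h' : p d ≠ p d' := fun e => hd' (hp e).symm
        rw [Finsupp.smul_apply, Finsupp.sub_apply, Finsupp.single_eq_of_ne h',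
          Finsupp.single_eq_of_ne (hne d), sub_zero, smul_zero]
      · intro h
        exact absurd (Finset.mem_univ d) h
    have hz0 : ∀ a, a ∉ P₂ → z a = 0 := by
      intro a ha
      rw [hz, Finsupp.finsetSum_apply]
      apply Finset.sum_eq_zero
      intro d _
      have e1 : a ≠ p d := by
        rintro rfl
        apply ha; rw [hP₂]; exact Or.inr ⟨d, rfl⟩
      have e2 : a ≠ a₀ := by
        rintro rfl
        exact ha (hPP ha₀)
      rw [Finsupp.smul_apply, Finsupp.sub_apply, Finsupp.single_eq_of_ne e1,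
        Finsupp.single_eq_of_ne e2, sub_zero, smul_zero]
    have hy : x - z ∈ XRAT.SZ k P := by
      refine ⟨?_, ?_⟩
      · intro a ha
        by_contra haP
        have h0 : (x - z) a ≠ 0 := Finsupp.mem_support_iff.1 ha
        apply h0
        rw [Finsupp.sub_apply]
        by_cases haP₂ : a ∈ P₂
        · rw [hP₂] at haP₂
          rcases haP₂ with h | ⟨d, rfl⟩
          · exact absurd h haP
          · rw [hzv, sub_self]
        · rw [hz0 a haP₂]
          have : x a = 0 := by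
            by_contra h
            exact haP₂ (hx.1 (Finsupp.mem_support_iff.2 h))
          rw [this, sub_zero]
      · have h1 := hx.2
        rw [SetLike.mem_coe, LinearMap.mem_ker] at h1 ⊢
        rw [map_sub, h1, hz, map_sum, zero_sub, neg_eq_zero]
        apply Finset.sum_eq_zero
        intro d _
        rw [map_smul, map_sub, Finsupp.linearCombination_single,
          Finsupp.linearCombination_single, sub_self, smul_zero]
    rw [Submodule.mem_sup]
    exact ⟨x - z, hy, z, hzs, sub_add_cancel x z⟩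

section

variable {K : Type} [Field K] [NumberField K]

theorem val_injective {T : Set (HeightOneSpectrum (𝓞 K))} :
    Function.Injective (XC.val : XC K T →ₗ[ℂ] ((K → ℝ) →₀ ℂ)) := Subtype.val_injective

/-- The determinant of `Θ` is the determinant of a matrix of logarithms times the determinant of
a rational matrix. -/
theorem det_eq {T : Set (HeightOneSpectrum (𝓞 K))} {ι : Type} [Fintype ι] [DecidableEq ι]
    (b : Basis ι ℚ (XQ K T)) (c : Basis ι ℂ (XC K T))
    (hbc : ∀ i a, (c i).val a = ((((b i : XQ K T) : (K → ℝ) →₀ ℚ) a : ℚ) : ℂ))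
    (u : Basis ι ℚ (QU K T)) (d : ι → XC K T) (hd : ∀ i, (d i).val = lam K T (u i))
    (φ : XQ K T ≃ₗ[ℚ] QU K T) (Θ : XC K T →ₗ[ℂ] XC K T) (h : IsPhiTheta K T φ Θ) :
    LinearMap.det Θ = (c.toMatrix d).det *
      (((LinearMap.toMatrix b u (φ : XQ K T →ₗ[ℚ] QU K T)).det : ℚ) : ℂ) := by
  set F := LinearMap.toMatrix b u (φ : XQ K T →ₗ[ℚ] QU K T) with hF
  have h1 : ∀ j, Θ (c j) = ∑ i, ((F i j : ℚ) : ℂ) • d i := by
    intro j
    apply val_injective
    rw [h.2 (b j) (c j) (hbc j), map_sum]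
    have e1 : ((φ (b j) : QU K T) : ℚ ⊗[ℤ] Additive Kˣ) =
        ∑ i, F i j • ((u i : QU K T) : ℚ ⊗[ℤ] Additive Kˣ) := by
      have := congrArg Subtype.val (u.sum_repr (φ (b j))).symm
      rw [Submodule.coe_sum] at this
      rw [this]
      refine Finset.sum_congr rfl fun i _ => ?_
      rw [hF, LinearMap.toMatrix_apply]
      rfl
    rw [e1, map_sum]
    refine Finset.sum_congr rfl fun i _ => ?_
    rw [map_smul, THE.smul_eq, map_smul, hd i]
  have h2 : LinearMap.toMatrix c c Θ = c.toMatrix d * F.map (algebraMap ℚ ℂ) := by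
    ext i j
    rw [LinearMap.toMatrix_apply, h1 j, map_sum, Finsupp.finsetSum_apply, Matrix.mul_apply]
    refine Finset.sum_congr rfl fun k _ => ?_
    rw [map_smul, Finsupp.smul_apply, smul_eq_mul, Basis.toMatrix_apply, Matrix.map_apply, mul_comm]
    rfl
  have h3 := congrArg Matrix.det h2
  rw [LinearMap.det_toMatrix, Matrix.det_mul] at h3
  rw [h3]
  congr 1
  have h4 := (algebraMap ℚ ℂ).map_det F
  rw [RingHom.mapMatrix_apply] at h4
  rw [← h4]
  rfl

/-- The value of the logarithm map at a finite place. -/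
theorem lam_tm_fin (T : Set (HeightOneSpectrum (𝓞 K))) (u : Kˣ) (v : HeightOneSpectrum (𝓞 K))
    (hv : v ∈ T) :
    lam K T (UNIT.tm u) (finAbs K v) = -((Real.log (finAbs K v (u : K)) : ℝ) : ℂ) := by
  rw [UNIT.lam_tm]
  exact UNIT.lamHom_fin T u ⟨v, hv⟩

theorem finAbs_piU (v : HeightOneSpectrum (𝓞 K)) :
    Real.log (finAbs K v (UNIT.piU v : K)) =
      -((Fintype.card (ClassGroup (𝓞 K)) : ℝ) * Real.log (Ideal.absNorm v.asIdeal)) := by
  have h := HeightOneSpectrum.adicAbv_def (K := K) v (x := (UNIT.piU v : K))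
  have h1 : finAbs K v (UNIT.piU v : K) =
    ((WithZeroMulInt.toNNReal (HeightOneSpectrum.absNorm_ne_zero v)
    (v.valuation K (UNIT.piU v : K)) : NNReal) : ℝ) := h
  have hne : v.valuation K (UNIT.piU v : K) ≠ 0 := by
    rw [UNIT.valuation_piU_self]
    exact WithZero.exp_ne_zero
  rw [h1, WithZeroMulInt.toNNReal_neg_apply _ hne]
  have h2 : (WithZero.unzero hne).toAdd = -(Fintype.card (ClassGroup (𝓞 K)) : ℤ) := by
    have h3 : ((WithZero.unzero hne : Multiplicative ℤ) : WithZero (Multiplicative ℤ)) =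
        WithZero.exp (-(Fintype.card (ClassGroup (𝓞 K)) : ℤ)) := by
      rw [WithZero.coe_unzero, UNIT.valuation_piU_self]
    have h4 := WithZero.coe_inj.1 h3
    rw [h4]
    rfl
  rw [h2]
  push_cast
  rw [Real.log_zpow]
  push_cast
  ring

end

end REGS

open REGS in
/-- REGS. -/
theorem REGS_thm : Stmt_REGS := by
  intro K _ _ S S₂ hS φ Θ φ₂ Θ₂ h h₂
  have hTfin : (S : Set (HeightOneSpectrum (𝓞 K))).Finite := S.finite_toSet
  have hT₂fin : (S₂ : Set (HeightOneSpectrum (𝓞 K))).Finite := S₂.finite_toSet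
  have hsub : (S : Set (HeightOneSpectrum (𝓞 K))) ⊆ S₂ := by exact_mod_cast hS
  obtain ⟨n, b, c, hbc⟩ := XRAT_thm K S hTfin
  obtain ⟨n', u, c', huc⟩ := UNIT_thm K S hTfin
  have hn : n = n' := by
    have e1 := Module.finrank_eq_card_basis c
    have e2 := Module.finrank_eq_card_basis c'
    rw [Fintype.card_fin] at e1 e2
    omega
  subst hn
  -- the new primes
  let D : Type := {v // v ∈ S₂ \ S}
  have hDmem : ∀ d : D, (d : HeightOneSpectrum (𝓞 K)) ∈ S₂ := fun d => (Finset.mem_sdiff.1 d.2).1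
  have hDnot : ∀ d : D, (d : HeightOneSpectrum (𝓞 K)) ∉ S := fun d => (Finset.mem_sdiff.1 d.2).2
  obtain ⟨w⟩ : Nonempty (InfinitePlace K) := inferInstance
  let p : D → (K → ℝ) := fun d => finAbs K (d : HeightOneSpectrum (𝓞 K))
  have hp : Function.Injective p := fun a a' e => Subtype.ext (UNIT.finAbs_injective K e)
  have hpP : ∀ d, p d ∉ placeSet K (S : Set (HeightOneSpectrum (𝓞 K))) := by
    rintro d (⟨w', hw'⟩ | ⟨v, hv, hv'⟩)
    · exact UNIT.infAbs_ne_finAbs K _ _ hw'
    · have := UNIT.finAbs_injective K hv'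
      rw [this] at hv
      exact hDnot d hv
  have hP₂ : placeSet K (S₂ : Set (HeightOneSpectrum (𝓞 K))) =
      placeSet K (S : Set (HeightOneSpectrum (𝓞 K))) ∪ Set.range p := by
    apply Set.Subset.antisymm
    · rintro a (ha | ⟨v, hv, rfl⟩)
      · exact Or.inl (Or.inl ha)
      · by_cases hvS : v ∈ S
        · exact Or.inl (Or.inr ⟨v, hvS, rfl⟩)
        · exact Or.inr ⟨⟨v, Finset.mem_sdiff.2 ⟨hv, hvS⟩⟩, rfl⟩
    · rintro a ((ha | ⟨v, hv, rfl⟩) | ⟨d, rfl⟩)
      · exact Or.inl ha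
      · exact Or.inr ⟨v, hsub hv, rfl⟩
      · exact Or.inr ⟨d, hDmem d, rfl⟩
  have ha₀ : infAbs K w ∈ placeSet K (S : Set (HeightOneSpectrum (𝓞 K))) := Or.inl ⟨w, rfl⟩
  obtain ⟨b₂', hb₂l, hb₂r⟩ := glueX ℚ _ _ _ ha₀ p hp hpP hP₂ (n := n) b
  let b₂ : Basis (Fin n ⊕ D) ℚ (XQ K (S₂ : Set (HeightOneSpectrum (𝓞 K)))) := b₂'
  obtain ⟨c₂', hc₂l, hc₂r⟩ := glueX ℂ _ _ _ ha₀ p hp hpP hP₂ (n := n) c
  let c₂ : Basis (Fin n ⊕ D) ℂ (XC K (S₂ : Set (HeightOneSpectrum (𝓞 K)))) := c₂'
  have hc₂l' : ∀ i, (c₂ (Sum.inl i)).val = (c i).val := hc₂l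
  have hc₂r' : ∀ d, (c₂ (Sum.inr d)).val = Finsupp.single (p d) 1 - Finsupp.single (infAbs K w) 1 :=
    hc₂r
  have hne : ∀ d, p d ≠ infAbs K w := fun d e => hpP d (e ▸ ha₀)
  have hbc₂ : ∀ i a, (c₂ i).val a =
      ((((b₂ i : XQ K (S₂ : Set (HeightOneSpectrum (𝓞 K)))) : (K → ℝ) →₀ ℚ) a : ℚ) : ℂ) := by
    rintro (i | d) a
    · rw [hc₂l' i, hbc i a]
      have := hb₂l i
      rw [show ((b₂ (Sum.inl i) : XQ K (S₂ : Set (HeightOneSpectrum (𝓞 K)))) : (K → ℝ) →₀ ℚ) =
        ((b i : XQ K (S : Set (HeightOneSpectrum (𝓞 K)))) : (K → ℝ) →₀ ℚ) from this]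
    · rw [hc₂r' d]
      rw [show ((b₂ (Sum.inr d) : XQ K (S₂ : Set (HeightOneSpectrum (𝓞 K)))) : (K → ℝ) →₀ ℚ) =
        Finsupp.single (p d) 1 - Finsupp.single (infAbs K w) 1 from hb₂r d]
      rw [Finsupp.sub_apply, Finsupp.sub_apply, Finsupp.single_apply, Finsupp.single_apply,
        Finsupp.single_apply, Finsupp.single_apply]
      split_ifs <;> simp
  -- units
  have hQ : QU K (S : Set (HeightOneSpectrum (𝓞 K))) ≤
      QU K (S₂ : Set (HeightOneSpectrum (𝓞 K))) := by
    apply Submodule.span_mono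
    rintro x ⟨u, hu, rfl⟩
    refine ⟨u, ?_, rfl⟩
    rw [UNIT.mem_unit_iff] at hu ⊢
    intro v hv
    exact hu v (fun h => hv (hsub h))
  let ε : D → (ℚ ⊗[ℤ] Additive Kˣ) →ₗ[ℚ] ℂ := fun d =>
    (Finsupp.lapply (R := ℚ) (M := ℂ) (p d)).comp (lam K (S₂ : Set (HeightOneSpectrum (𝓞 K))))
  have hε : ∀ d x, ε d x = lam K (S₂ : Set (HeightOneSpectrum (𝓞 K))) x (p d) := fun d x => rfl
  have hone : ∀ (d : D) (u : Kˣ), u ∈ (S : Set (HeightOneSpectrum (𝓞 K))).unit K →
      finAbs K (d : HeightOneSpectrum (𝓞 K)) (u : K) = 1 := by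
    intro d u hu
    rw [UNIT.finAbs_eq_one_iff]
    exact UNIT.mem_unit_iff.1 hu _ (fun h => hDnot d h)
  have hε1 : ∀ d, ∀ x ∈ QU K (S : Set (HeightOneSpectrum (𝓞 K))), ε d x = 0 := by
    intro d x hx
    have hle : QU K (S : Set (HeightOneSpectrum (𝓞 K))) ≤ LinearMap.ker (ε d) := by
      rw [QU, Submodule.span_le]
      rintro _ ⟨u, hu, rfl⟩
      rw [SetLike.mem_coe, LinearMap.mem_ker, hε]
      have := lam_tm_fin (S₂ : Set (HeightOneSpectrum (𝓞 K))) u d (hDmem d)
      rw [hone d u hu, Real.log_one] at this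
      rw [show p d = finAbs K (d : HeightOneSpectrum (𝓞 K)) from rfl]
      simpa [UNIT.tm] using this
    exact hle hx
  have hε2 : ∀ d d', d' ≠ d → ε d (UNIT.tm (UNIT.piU (d' : HeightOneSpectrum (𝓞 K)))) = 0 := by
    intro d d' hdd
    rw [hε, lam_tm_fin _ _ _ (hDmem d), (UNIT.finAbs_eq_one_iff K _ _).2
      (UNIT.valuation_piU_ne _ _ (fun e => hdd (Subtype.ext e).symm))]
    simp
  have hε3' : ∀ d, ε d (UNIT.tm (UNIT.piU (d : HeightOneSpectrum (𝓞 K)))) =
      (Fintype.card (ClassGroup (𝓞 K)) : ℂ) *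
        ((Real.log (Ideal.absNorm (d : HeightOneSpectrum (𝓞 K)).asIdeal) : ℝ) : ℂ) := by
    intro d
    rw [hε, lam_tm_fin _ _ _ (hDmem d), finAbs_piU]
    push_cast
    ring
  have hcard : (Fintype.card (ClassGroup (𝓞 K)) : ℂ) ≠ 0 := by
    exact_mod_cast (Fintype.card_pos (α := ClassGroup (𝓞 K))).ne'
  have hε3 : ∀ d, ε d (UNIT.tm (UNIT.piU (d : HeightOneSpectrum (𝓞 K)))) ≠ 0 := by
    intro d
    rw [hε3' d]
    refine mul_ne_zero hcard ?_
    have h1 : (1 : ℝ) < Ideal.absNorm (d : HeightOneSpectrum (𝓞 K)).asIdeal := by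
      exact_mod_cast HeightOneSpectrum.one_lt_absNorm (d : HeightOneSpectrum (𝓞 K))
    exact_mod_cast (Real.log_pos h1).ne'
  obtain ⟨u₂, hu₂l, hu₂r⟩ := glue (k := ℚ) (E := ℂ) hQ u
    (fun d : D => UNIT.tm (UNIT.piU (d : HeightOneSpectrum (𝓞 K))))
    (fun d => Submodule.subset_span ⟨_, UNIT.piU_mem (T := (S₂ : Set (HeightOneSpectrum (𝓞 K))))
      ⟨d, hDmem d⟩, rfl⟩) ε hε1 hε2 hε3 (by
      intro x hx
      rw [← UNIT.QU_eq hT₂fin] at hx
      refine (Submodule.span_le.2 ?_) hx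
      rintro _ ⟨i | v, rfl⟩
      · exact Submodule.mem_sup_left (Submodule.subset_span ⟨_, UNIT.fu_mem _ i, rfl⟩)
      · by_cases hv : (v : HeightOneSpectrum (𝓞 K)) ∈ S
        · exact Submodule.mem_sup_left (Submodule.subset_span
            ⟨_, UNIT.piU_mem (T := (S : Set (HeightOneSpectrum (𝓞 K)))) ⟨v, hv⟩, rfl⟩)
        · exact Submodule.mem_sup_right (Submodule.subset_span
            ⟨⟨v, Finset.mem_sdiff.2 ⟨v.2, hv⟩⟩, rfl⟩))
  have hlam : ∀ x ∈ QU K (S : Set (HeightOneSpectrum (𝓞 K))),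
      lam K (S₂ : Set (HeightOneSpectrum (𝓞 K))) x =
        lam K (S : Set (HeightOneSpectrum (𝓞 K))) x := by
    intro x hx
    have hle : QU K (S : Set (HeightOneSpectrum (𝓞 K))) ≤ LinearMap.eqLocus
        (lam K (S₂ : Set (HeightOneSpectrum (𝓞 K)))) (lam K (S : Set (HeightOneSpectrum (𝓞 K)))) := by
      rw [QU, Submodule.span_le]
      rintro _ ⟨u, hu, rfl⟩
      rw [SetLike.mem_coe, LinearMap.mem_eqLocus]
      have e1 := UNIT.lam_tm (S₂ : Set (HeightOneSpectrum (𝓞 K))) u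
      have e2 := UNIT.lam_tm (S : Set (HeightOneSpectrum (𝓞 K))) u
      rw [UNIT.tm] at e1 e2
      rw [e1, e2]
      ext a
      rw [UNIT.lamHom_apply, UNIT.lamHom_apply]
      by_cases ha : a ∈ placeSet K (S : Set (HeightOneSpectrum (𝓞 K)))
      · rw [if_pos ha, if_pos]
        rw [hP₂]; exact Or.inl ha
      · rw [if_neg ha]
        by_cases ha₂ : a ∈ placeSet K (S₂ : Set (HeightOneSpectrum (𝓞 K)))
        · rw [if_pos ha₂]
          rw [hP₂] at ha₂
          rcases ha₂ with h | ⟨d, rfl⟩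
          · exact absurd h ha
          · rw [show p d = finAbs K (d : HeightOneSpectrum (𝓞 K)) from rfl, hone d u hu]
            simp
        · rw [if_neg ha₂]
    exact hle hx
  let d₂ : Fin n ⊕ D → XC K (S₂ : Set (HeightOneSpectrum (𝓞 K))) := fun i =>
    THE.mk (lam K (S₂ : Set (HeightOneSpectrum (𝓞 K))) (u₂ i)) (THE.lam_mem UNIT_thm hT₂fin (u₂ i))
  have hd₂ : ∀ i, (d₂ i).val = lam K (S₂ : Set (HeightOneSpectrum (𝓞 K))) (u₂ i) := fun i => rfl
  have hrepr : ∀ (x : XC K (S₂ : Set (HeightOneSpectrum (𝓞 K)))) (d : D),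
      c₂.repr x (Sum.inr d) = x.val (p d) := by
    intro x d
    have h1 : x.val = ∑ i, c₂.repr x i • (c₂ i).val := by
      conv_lhs => rw [← c₂.sum_repr x]
      rw [map_sum]
      refine Finset.sum_congr rfl fun i _ => ?_
      rw [map_smul]
    rw [h1, Finsupp.finsetSum_apply, Fintype.sum_sum_type, Finset.sum_eq_zero, zero_add,
      Finset.sum_eq_single d]
    · rw [Finsupp.smul_apply, hc₂r', Finsupp.sub_apply, Finsupp.single_eq_same,
        Finsupp.single_eq_of_ne (hne d), sub_zero, smul_eq_mul, mul_one]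
    · intro d' _ hd'
      have h' : p d ≠ p d' := fun e => hd' (hp e).symm
      rw [Finsupp.smul_apply, hc₂r', Finsupp.sub_apply, Finsupp.single_eq_of_ne h',
        Finsupp.single_eq_of_ne (hne d), sub_zero, smul_zero]
    · intro h
      exact absurd (Finset.mem_univ d) h
    · intro i _
      rw [Finsupp.smul_apply, hc₂l' i]
      have h0 : (c i).val (p d) = 0 := by
        by_contra h
        exact hpP d ((c i).2.1 (Finsupp.mem_support_iff.2 h))
      rw [h0, smul_zero]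
  have hmat : c₂.toMatrix d₂ = Matrix.fromBlocks (c.toMatrix c') (c₂.toMatrix d₂).toBlocks₁₂ 0
      (Matrix.diagonal fun d : D => (Fintype.card (ClassGroup (𝓞 K)) : ℂ) *
        ((Real.log (Ideal.absNorm (d : HeightOneSpectrum (𝓞 K)).asIdeal) : ℝ) : ℂ)) := by
    have hinl : ∀ j, d₂ (Sum.inl j) = ∑ i, c.repr (c' j) i • c₂ (Sum.inl i) := by
      intro j
      apply val_injective
      rw [hd₂, hu₂l j, hlam _ (u j).2, ← huc j, map_sum]
      conv_lhs => rw [← c.sum_repr (c' j)]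
      rw [map_sum]
      refine Finset.sum_congr rfl fun i _ => ?_
      rw [map_smul, map_smul, hc₂l' i]
    ext i j
    rcases i with i | d <;> rcases j with j | d'
    · rw [Matrix.fromBlocks_apply₁₁, Basis.toMatrix_apply, Basis.toMatrix_apply, hinl j, map_sum,
        Finsupp.finsetSum_apply, Finset.sum_eq_single i]
      · rw [map_smul, Finsupp.smul_apply, Basis.repr_self, Finsupp.single_eq_same, smul_eq_mul,
          mul_one]
      · intro i' _ hi'
        rw [map_smul, Finsupp.smul_apply, Basis.repr_self, Finsupp.single_eq_of_ne, smul_zero]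
        intro e
        exact hi' (Sum.inl_injective e).symm
      · intro h
        exact absurd (Finset.mem_univ i) h
    · rfl
    · rw [Matrix.fromBlocks_apply₂₁, Basis.toMatrix_apply, hrepr, hd₂, hu₂l j, Matrix.zero_apply]
      exact hε1 d _ (u j).2
    · rw [Matrix.fromBlocks_apply₂₂, Basis.toMatrix_apply, hrepr, hd₂, hu₂r d', Matrix.diagonal_apply]
      by_cases hdd : d = d'
      · subst hdd
        rw [if_pos rfl]
        exact hε3' d
      · rw [if_neg hdd]
        exact hε2 d d' (fun e => hdd e.symm)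
  have hdet : (c₂.toMatrix d₂).det = (c.toMatrix c').det *
      ((Fintype.card (ClassGroup (𝓞 K)) : ℂ) ^ (S₂ \ S).card *
        ∏ v ∈ S₂ \ S, ((Real.log (Ideal.absNorm v.asIdeal) : ℝ) : ℂ)) := by
    rw [hmat, Matrix.det_fromBlocks_zero₂₁, Matrix.det_diagonal, Finset.prod_mul_distrib,
      Finset.prod_const]
    congr 2
    · rw [Finset.card_univ, Fintype.card_coe]
    · exact Finset.prod_coe_sort (S₂ \ S)
        (fun v => ((Real.log (Ideal.absNorm v.asIdeal) : ℝ) : ℂ))
  have hΘ := det_eq b c hbc u c' huc φ Θ h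
  have hΘ₂ := det_eq b₂ c₂ hbc₂ u₂ d₂ hd₂ φ₂ Θ₂ h₂
  set f := (LinearMap.toMatrix b u (φ : XQ K (S : Set (HeightOneSpectrum (𝓞 K))) →ₗ[ℚ]
    QU K (S : Set (HeightOneSpectrum (𝓞 K))))).det with hf
  set f₂ := (LinearMap.toMatrix b₂ u₂ (φ₂ : XQ K (S₂ : Set (HeightOneSpectrum (𝓞 K))) →ₗ[ℚ]
    QU K (S₂ : Set (HeightOneSpectrum (𝓞 K))))).det with hf₂
  have hfne : f ≠ 0 := (LinearEquiv.isUnit_det φ b u).ne_zero
  have hf₂ne : f₂ ≠ 0 := (LinearEquiv.isUnit_det φ₂ b₂ u₂).ne_zero
  refine ⟨f₂ * (Fintype.card (ClassGroup (𝓞 K)) : ℚ) ^ (S₂ \ S).card / f, ?_, ?_⟩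
  · refine div_ne_zero (mul_ne_zero hf₂ne (pow_ne_zero _ ?_)) hfne
    exact_mod_cast (Fintype.card_pos (α := ClassGroup (𝓞 K))).ne'
  · rw [hΘ₂, hΘ, hdet]
    have hfC : ((f : ℚ) : ℂ) ≠ 0 := by exact_mod_cast hfne
    push_cast
    field_simp

end StarkC
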