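import Pool.Agent.StarkT.Stmts
import Pool.Agent.Stark.MAIN
import Pool.Agent.Stark.GOOD

/-!
# The reduction to totally complex base fields, for a general relation
-/

open NumberField IsDedekindDomain
open scoped TensorProduct Classical

namespace StarkC

namespace RMAIN

theorem liftChar_one {K N : Type} [Field K] [Field N] [Algebra K N] [FiniteDimensional K N]
    (H : Subgroup (N ≃ₐ[K] N)) : liftChar H (1 : H →* ℂˣ) = 1 := by
  ext g
  rfl

end RMAIN

theorem RMAIN_thm (hC : Stmt_CMBT) (hT : Stmt_TRIVT) (hD : Stmt_INDT) (hI : Stmt_INFL)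
    (hL : Stmt_LINF) : Stmt_RMAIN := by
  intro R hR σ hTC K L _ _ _ _ _ _ S φ Θ V V' _ _ _ _ _ _ ρ ρ' hφ hσ
  obtain ⟨N, _, _, _, _, _, _, M, m, H, ψ, n, hgood, hchar⟩ := hC K L V ρ
  obtain ⟨φ', Θ', hφ', hReg⟩ := hI K L N S φ Θ hφ
  have hlin : ∀ i, RelLinear R σ (IntermediateField.fixedField (H i)) N
      (liftChar (H i) (ψ i)) := by
    intro i
    rcases hgood i with h | h
    · exact hTC (IntermediateField.fixedField (H i)) N (liftChar (H i) (ψ i))
        (GOOD.totallyComplex (H i) h)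
    · rw [h, RMAIN.liftChar_one]
      exact hT R hR σ hTC (IntermediateField.fixedField (H i)) N
  obtain ⟨k, f, f', hf, hf', hE⟩ := hD R hR σ K N S φ' Θ' V V'
    (ρ.comp (AlgEquiv.restrictNormalHom L)) (ρ'.comp (AlgEquiv.restrictNormalHom L)) M m H ψ n
    hφ' (fun g => hσ _) hchar hlin
  refine ⟨k, f, f', ⟨hf.1, fun s hs => ?_⟩, ⟨hf'.1, fun s hs => ?_⟩, ?_⟩
  · rw [hf.2 s hs, MAIN.logL_infl hL]
  · rw [hf'.2 s hs, MAIN.logL_infl hL]
  · rw [hReg V ρ, hReg V' ρ'] at hE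
    exact hE

end StarkC
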