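import Pool.Agent.StarkT.Stmts
import Pool.Agent.Lib_helper91.Stark.Ind

/-!
# Solomon's induction theorem at odd primes
-/

open MulAction StarkSolomon

namespace StarkC

namespace SOLT

/-- `p`-hyperelementary for an odd prime `p`. -/
def IsHypO (H : Type*) [Group H] : Prop := ∃ p : ℕ, p.Prime ∧ Odd p ∧ IsHypP p H

theorem IsHypO.of_injective {H K : Type*} [Group H] [Group K]
    (f : K →* H) (hf : Function.Injective f) (h : IsHypO H) : IsHypO K := by
  obtain ⟨p, hp, ho, h⟩ := h
  exact ⟨p, hp, ho, h.of_injective hp f hf⟩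

theorem banaschewski2 {S : Type*} [Finite S] (R : NonUnitalSubring (S → ℤ))
    (h : ∀ (x : S) (p : ℕ), p.Prime → Odd p → ∃ f ∈ R, ¬ (p : ℤ) ∣ f x) :
    ∃ M : ℕ, (fun _ => (2 : ℤ) ^ M : S → ℤ) ∈ R := by
  classical
  have : Fintype S := Fintype.ofFinite S
  have h1 : ∀ x : S, ∃ a : ℕ, ∃ f ∈ R, f x = 2 ^ a := by
    intro x
    let I : AddSubgroup ℤ := R.toAddSubgroup.map (Pi.evalAddMonoidHom (fun _ => ℤ) x)
    obtain ⟨n, hn⟩ := Int.subgroup_cyclic I
    have hI : ∀ z, z ∈ I ↔ ∃ f ∈ R, f x = z := by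
      intro z
      simp only [I, AddSubgroup.mem_map]
      rfl
    have hn' : ∀ z, z ∈ I ↔ n ∣ z := by
      intro z
      rw [hn, AddSubgroup.mem_closure_singleton]
      constructor
      · rintro ⟨k, rfl⟩
        exact ⟨k, by simp [mul_comm]⟩
      · rintro ⟨k, rfl⟩
        exact ⟨k, by simp [mul_comm]⟩
    have hdvd : ∀ f ∈ R, n ∣ f x := fun f hf => (hn' _).1 ((hI _).2 ⟨f, hf, rfl⟩)
    have hn0 : n.natAbs ≠ 0 := by
      intro h0
      obtain ⟨f, hf, h3⟩ := h x 3 Nat.prime_three (by decide)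
      apply h3
      have := hdvd f hf
      rw [Int.natAbs_eq_zero.1 h0, zero_dvd_iff] at this
      rw [this]
      exact dvd_zero _
    have hpow : n.natAbs = 2 ^ n.natAbs.factorization 2 := by
      apply Nat.eq_pow_of_factorization_eq_single hn0
      ext q
      rw [Finsupp.single_apply]
      split_ifs with h2
      · rw [← h2]
      · by_contra hq
        have hqp : q.Prime := by
          by_contra hqp
          exact hq (Nat.factorization_eq_zero_of_not_prime _ hqp)
        have hqd : q ∣ n.natAbs := Nat.dvd_of_factorization_pos hq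
        obtain ⟨f, hf, h3⟩ := h x q hqp (hqp.odd_of_ne_two (fun h => h2 h.symm))
        apply h3
        exact (Int.natCast_dvd.2 hqd).trans (hdvd f hf)
    refine ⟨n.natAbs.factorization 2, (hI _).1 ((hn' _).2 ?_)⟩
    have : ((2 : ℤ) ^ n.natAbs.factorization 2) = (n.natAbs : ℤ) := by
      conv_rhs => rw [hpow]
      push_cast
      rfl
    rw [this]
    exact Int.dvd_natAbs_self
  choose a f hf hf1 using h1
  have h2 : ∀ s : Finset S, (∏ x ∈ s, (fun _ => (2 : ℤ) ^ a x : S → ℤ)) -
      ∏ x ∈ s, ((fun _ => (2 : ℤ) ^ a x : S → ℤ) - f x) ∈ R := by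
    intro s
    induction s using Finset.induction_on with
    | empty => simp only [Finset.prod_empty, sub_self]; exact R.zero_mem
    | insert b s hb ih =>
      rw [Finset.prod_insert hb, Finset.prod_insert hb]
      set A := ∏ x ∈ s, (fun _ => (2 : ℤ) ^ a x : S → ℤ)
      set B := ∏ x ∈ s, ((fun _ => (2 : ℤ) ^ a x : S → ℤ) - f x)
      set e : S → ℤ := fun _ => (2 : ℤ) ^ a b with he
      have h4 : e * A - (e - f b) * B = (2 ^ a b : ℤ) • (A - B) + f b * B := by
        have : (2 ^ a b : ℤ) • (A - B) = e * (A - B) := by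
          funext y
          simp [he]
        rw [this]
        ring
      have h5 : f b * B = f b * A - f b * (A - B) := by ring
      rw [h4]
      refine R.add_mem (zsmul_mem ih _) ?_
      rw [h5]
      refine R.sub_mem ?_ (R.mul_mem (hf b) ih)
      have h6 : f b * A = (∏ x ∈ s, (2 : ℤ) ^ a x) • f b := by
        funext y
        simp only [A, Pi.mul_apply, Finset.prod_apply, Pi.smul_apply, smul_eq_mul]
        ring
      rw [h6]
      exact zsmul_mem (hf b) _
  have h3 : ∏ x : S, ((fun _ => (2 : ℤ) ^ a x : S → ℤ) - f x) = 0 := by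
    funext y
    rw [Finset.prod_apply]
    apply Finset.prod_eq_zero (Finset.mem_univ y)
    simp [hf1]
  have h4 := h2 Finset.univ
  rw [h3, sub_zero] at h4
  refine ⟨∑ x, a x, ?_⟩
  have h5 : (fun _ => (2 : ℤ) ^ ∑ x, a x : S → ℤ) = ∏ x : S, (fun _ => (2 : ℤ) ^ a x : S → ℤ) := by
    funext y
    rw [Finset.prod_apply, Finset.prod_pow_eq_pow_sum]
  rw [h5]
  exact h4

section
variable (G : Type*) [Group G] [Finite G]

/-- The set of permutation characters `fix G (G ⧸ H)`, `H` hyperelementary at an odd prime. -/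
def hypSetO : Set (G → ℤ) := {f | ∃ H : Subgroup G, IsHypO H ∧ f = fix G (G ⧸ H)}

theorem fix_mem_closureO (X : Type*) [MulAction G X] [Finite X]
    (hX : ∀ x : X, IsHypO (stabilizer G x)) : fix G X ∈ AddSubgroup.closure (hypSetO G) := by
  classical
  have : Fintype (orbitRel.Quotient G X) := Fintype.ofFinite _
  rw [fix_orbits, finsum_eq_sum_of_fintype]
  refine AddSubgroup.sum_mem _ fun ω _ => AddSubgroup.subset_closure ⟨_, hX _, rfl⟩

/-- The ring of these permutation characters. -/
def hypRingO : NonUnitalSubring (G → ℤ) where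
  carrier := AddSubgroup.closure (hypSetO G)
  add_mem' := fun h1 h2 => AddSubgroup.add_mem _ h1 h2
  zero_mem' := AddSubgroup.zero_mem _
  neg_mem' := fun h => AddSubgroup.neg_mem _ h
  mul_mem' := by
    intro a b ha hb
    refine AddSubgroup.closure_induction₂ (p := fun a b _ _ =>
      a * b ∈ AddSubgroup.closure (hypSetO G)) ?_ ?_ ?_ ?_ ?_ ?_ ?_ ha hb
    · rintro _ _ ⟨H, hH, rfl⟩ ⟨K, hK, rfl⟩
      rw [← fix_prod]
      apply fix_mem_closureO
      rintro ⟨x, y⟩
      obtain ⟨g, rfl⟩ := QuotientGroup.mk_surjective x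
      have h1 : ∀ z : stabilizer G ((QuotientGroup.mk g : G ⧸ H), y),
          g⁻¹ * z.1 * g ∈ H := by
        intro z
        have hz : z.1 • (QuotientGroup.mk g : G ⧸ H) = QuotientGroup.mk g :=
          congrArg Prod.fst (mem_stabilizer_iff.1 z.2)
        have : (QuotientGroup.mk (z.1 * g) : G ⧸ H) = QuotientGroup.mk g := hz
        rw [eq_comm, QuotientGroup.eq] at this
        rwa [mul_assoc]
      let F : stabilizer G ((QuotientGroup.mk g : G ⧸ H), y) →* H :=
        ((MulAut.conj g⁻¹).toMonoidHom.comp (Subgroup.subtype _)).codRestrict H (by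
          intro z
          simpa using h1 z)
      refine hH.of_injective F ?_
      intro z w hzw
      have : (MulAut.conj g⁻¹) z.1 = (MulAut.conj g⁻¹) w.1 := congrArg Subtype.val hzw
      exact Subtype.ext ((MulAut.conj g⁻¹).injective this)
    · intro x _
      rw [zero_mul]
      exact AddSubgroup.zero_mem _
    · intro x _
      rw [mul_zero]
      exact AddSubgroup.zero_mem _
    · intro x y z _ _ _ h1 h2
      rw [add_mul]
      exact AddSubgroup.add_mem _ h1 h2
    · intro x y z _ _ _ h1 h2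
      rw [mul_add]
      exact AddSubgroup.add_mem _ h1 h2
    · intro x y _ _ h
      rw [neg_mul]
      exact AddSubgroup.neg_mem _ h
    · intro x y _ _ h
      rw [mul_neg]
      exact AddSubgroup.neg_mem _ h

theorem exists_of_mem_closureO {f : G → ℤ}
    (hf : f ∈ AddSubgroup.closure (hypSetO G)) :
    ∃ n : Subgroup G → ℤ, (∀ H, n H ≠ 0 → IsHypO H) ∧
      ∀ g : G, ∑ᶠ H : Subgroup G, n H * fix G (G ⧸ H) g = f g := by
  classical
  have : Fintype (Subgroup G) := Fintype.ofFinite _
  simp only [finsum_eq_sum_of_fintype]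
  induction hf using AddSubgroup.closure_induction with
  | mem f hf =>
    obtain ⟨H, hH, rfl⟩ := hf
    refine ⟨fun K => if K = H then 1 else 0, ?_, ?_⟩
    · intro K hK
      have : K = H := by
        by_contra h
        simp [h] at hK
      rw [this]
      exact hH
    · intro g
      simp
  | zero => exact ⟨0, by simp, by simp⟩
  | add f₁ f₂ _ _ h₁ h₂ =>
    obtain ⟨n₁, h1, h1'⟩ := h₁
    obtain ⟨n₂, h2, h2'⟩ := h₂
    refine ⟨n₁ + n₂, ?_, ?_⟩
    · intro H hH
      by_cases h : n₁ H = 0
      · apply h2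
        intro h'
        exact hH (by simp [h, h'])
      · exact h1 H h
    · intro g
      simp only [Pi.add_apply, add_mul, Finset.sum_add_distrib, h1', h2']
  | neg f _ h =>
    obtain ⟨n, h1, h1'⟩ := h
    refine ⟨-n, ?_, ?_⟩
    · intro H hH
      exact h1 H (by simpa using hH)
    · intro g
      simp only [Pi.neg_apply, neg_mul, Finset.sum_neg_distrib, h1']

end

end SOLT

open SOLT in
theorem SOLT_thm : Stmt_SOLT := by
  classical
  intro G _ _
  have hM := banaschewski2 (hypRingO G) (by
    intro x p hp ho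
    obtain ⟨H, hH, hpx⟩ := exists_hyp x p hp
    exact ⟨_, AddSubgroup.subset_closure ⟨H, ⟨p, hp, ho, hH⟩, rfl⟩, hpx⟩)
  obtain ⟨M, hM⟩ := hM
  obtain ⟨n, hn, hsum⟩ := exists_of_mem_closureO G hM
  have hfin : Fintype (Subgroup G) := Fintype.ofFinite _
  let s : Finset (Subgroup G) := Finset.univ.filter (fun H => n H ≠ 0)
  have e := s.equivFin
  refine ⟨M, s.card, fun i => (e.symm i).1, fun i => n (e.symm i).1, ?_, ?_⟩
  · intro i
    obtain ⟨p, hp, ho, C, h1, h2, h3, h4⟩ := hn _ (Finset.mem_filter.1 (e.symm i).2).2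
    exact ⟨p, hp, ho, C, h1, h2, (hp.coprime_iff_not_dvd.1 h3.symm), h4⟩
  · intro g
    have h1 := hsum g
    rw [finsum_eq_sum_of_fintype] at h1
    have h2 : ∀ H : Subgroup G, ((fix G (G ⧸ H) g : ℤ) : ℂ) = indFun H (fun _ => 1) g := by
      intro H
      rw [fix_eq_indF, indF, indFun, finsum_eq_sum_of_fintype, div_eq_inv_mul]
      congr 1
    have h3 : (2 ^ M : ℂ) = ∑ H : Subgroup G, (n H : ℂ) * indFun H (fun _ => 1) g := by
      have h4 := congrArg (Int.cast : ℤ → ℂ) h1
      push_cast at h4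
      rw [← h4]
      exact Finset.sum_congr rfl fun H _ => by rw [h2]
    rw [h3]
    have h5 : ∑ H : Subgroup G, (n H : ℂ) * indFun H (fun _ => 1) g =
        ∑ H ∈ s, (n H : ℂ) * indFun H (fun _ => 1) g := by
      symm
      apply Finset.sum_subset (Finset.subset_univ s)
      intro H _ hH
      have : n H = 0 := by
        by_contra h
        exact hH (Finset.mem_filter.2 ⟨Finset.mem_univ _, h⟩)
      rw [this, Int.cast_zero, zero_mul]
    rw [h5, ← Finset.sum_coe_sort]
    exact Fintype.sum_equiv e _ _ (fun H => by simp only [Equiv.symm_apply_apply])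

end StarkC
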