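import Pool.Agent.StarkT.Stmts

/-!
# Changing the set of primes for the trivial character over the base field
-/

open NumberField IsDedekindDomain
open scoped TensorProduct Classical

namespace StarkC

namespace STEP

theorem one_lt_absNorm {K : Type} [Field K] [NumberField K] (v : HeightOneSpectrum (𝓞 K)) :
    1 < Ideal.absNorm v.asIdeal := by
  have h1 : Ideal.absNorm v.asIdeal ≠ 0 := Ideal.absNorm_ne_zero_iff_mem_nonZeroDivisors.2
    (mem_nonZeroDivisors_of_ne_zero v.ne_bot)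
  have h2 : Ideal.absNorm v.asIdeal ≠ 1 := by
    rw [Ne, Ideal.absNorm_eq_one_iff]
    exact v.isPrime.ne_top
  omega

theorem character_one {G : Type} [Group G] :
    (linRep (1 : G →* ℂˣ)).character = fun _ => (1 : ℂ) := by
  funext g
  have h : linRep (1 : G →* ℂˣ) g = (1 : ℂ →ₗ[ℂ] ℂ) := by
    ext
    simp [linRep]
  show LinearMap.trace ℂ ℂ (linRep (1 : G →* ℂˣ) g) = 1
  rw [h, LinearMap.trace_one]
  simp

end STEP

theorem STEP_thm (h1 : Stmt_REG1) (hR : Stmt_REGS) (hE : Stmt_EUL) (hL : Stmt_LEUL) :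
    Stmt_STEP := by
  intro R hRel K _ _ S S₂ hS φ Θ φ₂ Θ₂ hφ hφ₂ M hrel
  obtain ⟨f, f', hf, hf', hmem⟩ := hrel
  have hSf : (S : Set (HeightOneSpectrum (𝓞 K))).Finite := S.finite_toSet
  have hS₂f : (S₂ : Set (HeightOneSpectrum (𝓞 K))).Finite := S₂.finite_toSet
  obtain ⟨q, hq, hdet⟩ := hR K S S₂ hS φ Θ φ₂ Θ₂ hφ hφ₂
  rw [h1 K _ Θ₂ hS₂f] at hmem
  unfold RelAt
  rw [h1 K _ Θ hSf]
  rw [STEP.character_one] at hf hf' ⊢
  set P : ℂ → ℂ := fun s => ∏ v ∈ S₂ \ S, (1 - (Ideal.absNorm v.asIdeal : ℂ) ^ (-s)) with hP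
  set Λ : ℂ := ∏ v ∈ S₂ \ S, ((Real.log (Ideal.absNorm v.asIdeal) : ℝ) : ℂ) with hΛ
  have hfac : ∀ v ∈ S₂ \ S, ∀ z, MeromorphicAt
      (fun s : ℂ => 1 - (Ideal.absNorm v.asIdeal : ℂ) ^ (-s)) z := fun v _ z =>
    (hL _ (STEP.one_lt_absNorm v)).1 z
  have hPm : ∀ z, MeromorphicAt P z := by
    intro z
    exact MeromorphicAt.fun_prod fun v hv => hfac v hv z
  have hPt : meromorphicTrailingCoeffAt P 0 = Λ := by
    rw [hP, meromorphicTrailingCoeffAt_fun_prod fun v hv => hfac v hv 0]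
    exact Finset.prod_congr rfl fun v hv => (hL _ (STEP.one_lt_absNorm v)).2
  have hΛ0 : Λ ≠ 0 := by
    rw [hΛ]
    refine Finset.prod_ne_zero_iff.2 fun v hv => ?_
    have : 0 < Real.log (Ideal.absNorm v.asIdeal) :=
      Real.log_pos (by exact_mod_cast STEP.one_lt_absNorm v)
    exact_mod_cast this.ne'
  have key : ∀ g : ℂ → ℂ, IsArtinLMul (K := K) (L := K) M (fun _ => 1)
      (S₂ : Set (HeightOneSpectrum (𝓞 K))) g →
      IsArtinLMul (K := K) (L := K) M (fun _ => 1) (S : Set (HeightOneSpectrum (𝓞 K)))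
        (fun s => g s * (P s ^ M)⁻¹) ∧
      meromorphicTrailingCoeffAt (fun s => g s * (P s ^ M)⁻¹) 0 =
        meromorphicTrailingCoeffAt g 0 * (Λ ^ M)⁻¹ := by
    intro g hg
    refine ⟨⟨fun z => (hg.1 z).fun_mul ((hPm z).fun_pow M).fun_inv, ?_⟩, ?_⟩
    · intro s hs
      have e := hE K S S₂ hS s hs
      have hPs : P s ≠ 0 := by
        intro h0
        have : Complex.exp (logL (K := K) (L := K) (fun _ => 1)
            (S₂ : Set (HeightOneSpectrum (𝓞 K))) s) = 0 := by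
          rw [e]
          show _ * P s = 0
          rw [h0, mul_zero]
        exact Complex.exp_ne_zero _ this
      show g s * (P s ^ M)⁻¹ = _
      rw [hg.2 s hs, Complex.exp_nat_mul, Complex.exp_nat_mul, e]
      show (_ * P s) ^ M * (P s ^ M)⁻¹ = _
      rw [mul_pow, mul_assoc, mul_inv_cancel₀ (pow_ne_zero M hPs), mul_one]
    · rw [MeromorphicAt.meromorphicTrailingCoeffAt_fun_mul (hg.1 0) ((hPm 0).fun_pow M).fun_inv,
        meromorphicTrailingCoeffAt_fun_inv,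
        MeromorphicAt.meromorphicTrailingCoeffAt_fun_pow (hPm 0), hPt]
  refine ⟨_, _, (key f hf).1, (key f' hf').1, ?_⟩
  rw [(key f hf).2, (key f' hf').2]
  have hq' : (((q⁻¹) ^ M : ℚ) : ℂ) = ((q : ℂ) ^ M)⁻¹ := by push_cast; rw [inv_pow]
  have hqc : (q : ℂ) ≠ 0 := by exact_mod_cast hq
  have hid : ∀ t : ℂ, LinearMap.det Θ ^ M / (t * (Λ ^ M)⁻¹) =
      (((q⁻¹) ^ M : ℚ) : ℂ) * (LinearMap.det Θ₂ ^ M / t) := by
    intro t
    rw [hq', hdet]
    have hqM : (q : ℂ) ^ M ≠ 0 := pow_ne_zero _ hqc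
    have hΛM : Λ ^ M ≠ 0 := pow_ne_zero _ hΛ0
    rw [mul_pow, mul_pow]
    by_cases ht : t = 0
    · simp [ht]
    · field_simp
  rw [hid, hid]
  exact hRel.mul _ (hRel.rat _) _ hmem

end StarkC
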