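import Pool.Agent.StarkT.Stmts
import Pool.Agent.Stark.MAIN

/-!
# Stark's conjecture up to 2-power roots of unity: the final theorem
-/

open NumberField IsDedekindDomain
open scoped TensorProduct Classical

namespace StarkC

namespace TMAIN

/-- The relation `x' = σ x`. -/
def relS (σ : ℂ ≃+* ℂ) : Set (ℂ × ℂ) := {p | σ p.1 = p.2}

theorem isRel_relS (σ : ℂ ≃+* ℂ) : IsRel (relS σ) where
  mul := by
    intro x hx y hy
    show σ (x.1 * y.1) = x.2 * y.2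
    rw [map_mul, show σ x.1 = x.2 from hx, show σ y.1 = y.2 from hy]
  inv := by
    intro x hx
    show σ (x.1)⁻¹ = (x.2)⁻¹
    rw [map_inv₀, show σ x.1 = x.2 from hx]
  rat := by
    intro q
    show σ (q : ℂ) = (q : ℂ)
    exact map_ratCast σ q

/-- Both numbers are algebraic. -/
def relA : Set (ℂ × ℂ) := {p | IsAlgebraic ℚ p.1 ∧ IsAlgebraic ℚ p.2}

theorem isRel_relA : IsRel relA where
  mul := by
    intro x hx y hy
    exact ⟨hx.1.mul hy.1, hx.2.mul hy.2⟩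
  inv := by
    intro x hx
    exact ⟨hx.1.inv, hx.2.inv⟩
  rat := by
    intro q
    have h : IsAlgebraic ℚ (q : ℂ) := isAlgebraic_algebraMap (R := ℚ) (A := ℂ) q
    exact ⟨h, h⟩

section

variable {K L : Type} [Field K] [NumberField K] [Field L] [NumberField L] [Algebra K L]

theorem relAt_relS (σ : ℂ ≃+* ℂ) (M : ℕ) (S : Set (HeightOneSpectrum (𝓞 K)))
    (T : Set (HeightOneSpectrum (𝓞 L))) (Θ : XC L T →ₗ[ℂ] XC L T)
    {V V' : Type} [AddCommGroup V] [Module ℂ V] [AddCommGroup V'] [Module ℂ V']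
    (ρ : Representation ℂ (L ≃ₐ[K] L) V) (ρ' : Representation ℂ (L ≃ₐ[K] L) V') :
    RelAt (relS σ) M S T Θ ρ ρ' ↔ StarkMulAt M S T Θ ρ ρ' σ := Iff.rfl

theorem algMulAt_of_relAt (M : ℕ) (S : Set (HeightOneSpectrum (𝓞 K)))
    (T : Set (HeightOneSpectrum (𝓞 L))) (Θ : XC L T →ₗ[ℂ] XC L T)
    {V V' : Type} [AddCommGroup V] [Module ℂ V] [AddCommGroup V'] [Module ℂ V']
    (ρ : Representation ℂ (L ≃ₐ[K] L) V) (ρ' : Representation ℂ (L ≃ₐ[K] L) V')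
    (h : RelAt relA M S T Θ ρ ρ') : AlgMulAt M S T Θ ρ := by
  obtain ⟨f, f', hf, hf', h1, h2⟩ := h
  exact ⟨f, hf, h1⟩

theorem relAt_of_algMulAt (M : ℕ) (S : Set (HeightOneSpectrum (𝓞 K)))
    (T : Set (HeightOneSpectrum (𝓞 L))) (Θ : XC L T →ₗ[ℂ] XC L T)
    {V : Type} [AddCommGroup V] [Module ℂ V]
    (ρ : Representation ℂ (L ≃ₐ[K] L) V)
    (h : AlgMulAt M S T Θ ρ) : RelAt relA M S T Θ ρ ρ := by
  obtain ⟨f, hf, h1⟩ := h
  exact ⟨f, f, hf, hf, h1, h1⟩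

theorem starkMulAt_one (S : Set (HeightOneSpectrum (𝓞 K)))
    (T : Set (HeightOneSpectrum (𝓞 L))) (Θ : XC L T →ₗ[ℂ] XC L T)
    {V V' : Type} [AddCommGroup V] [Module ℂ V] [AddCommGroup V'] [Module ℂ V']
    (ρ : Representation ℂ (L ≃ₐ[K] L) V) (ρ' : Representation ℂ (L ≃ₐ[K] L) V')
    (σ : ℂ ≃+* ℂ) (h : StarkAt S T Θ ρ ρ' σ) : StarkMulAt (2 ^ 0) S T Θ ρ ρ' σ := by
  obtain ⟨f, f', hf, hf', h1⟩ := h
  refine ⟨f, f', ⟨hf.1, fun s hs => ?_⟩, ⟨hf'.1, fun s hs => ?_⟩, ?_⟩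
  · rw [hf.2 s hs, pow_zero, Nat.cast_one, one_mul]
  · rw [hf'.2 s hs, pow_zero, Nat.cast_one, one_mul]
  · rw [pow_zero, pow_one, pow_one]
    exact h1

end

theorem twist_refl {G : Type} [Group G] (ψ : G →* ℂˣ) : twist (RingEquiv.refl ℂ) ψ = ψ := by
  ext g
  rfl

theorem upToTwo (hR : Stmt_RMAIN) (h : StarkUpToTwoTotallyComplex) : StarkUpToTwo := by
  intro K L _ _ _ _ _ _ S φ Θ V V' _ _ _ _ _ _ ρ ρ' σ hφ hσ
  have hTC : RelTC (relS σ) σ := by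
    intro K L _ _ _ _ _ _ ψ hK S φ Θ hφ
    exact h K L ψ hK S φ Θ σ hφ
  exact hR (relS σ) (isRel_relS σ) σ hTC K L S φ Θ V V' ρ ρ' hφ hσ

theorem algebraic (hR : Stmt_RMAIN) (h : StarkAlgebraicTotallyComplex) : StarkAlgebraic := by
  intro K L _ _ _ _ _ _ S φ Θ V _ _ _ ρ hφ
  have hTC : RelTC relA (RingEquiv.refl ℂ) := by
    intro K L _ _ _ _ _ _ ψ hK S φ Θ hφ
    obtain ⟨m, hm⟩ := h K L ψ hK S φ Θ hφ
    refine ⟨m, ?_⟩
    rw [twist_refl]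
    exact relAt_of_algMulAt _ _ _ _ _ hm
  obtain ⟨m, hm⟩ := hR relA isRel_relA (RingEquiv.refl ℂ) hTC K L S φ Θ V V ρ ρ hφ
    (fun g => rfl)
  exact ⟨m, algMulAt_of_relAt _ _ _ _ _ _ hm⟩

end TMAIN

open TMAIN in
theorem TMAIN_thm (hR : Stmt_RMAIN) : Stmt_TMAIN := by
  refine ⟨⟨?_, upToTwo hR⟩, ?_, ?_, algebraic hR⟩
  · intro h K L _ _ _ _ _ _ ψ _ S φ Θ σ hφ
    refine h K L S φ Θ ℂ ℂ (linRep ψ) (linRep (twist σ ψ)) σ hφ ?_
    intro g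
    rw [MAIN.linRep_character, MAIN.linRep_character]
    rfl
  · intro h
    refine upToTwo hR ?_
    intro K L _ _ _ _ _ _ ψ hK S φ Θ σ hφ
    exact ⟨0, starkMulAt_one _ _ _ _ _ _ (h K L ψ hK S φ Θ σ hφ)⟩
  · intro h K L _ _ _ _ _ _ ψ _ S φ Θ hφ
    exact h K L S φ Θ ℂ (linRep ψ) hφ

end StarkC
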