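import Pool.Agent.StarkT.Stmts
import Pool.Agent.Stark.GOOD
import Pool.Agent.Stark.IND

/-!
# Stark's conjecture up to 2-power roots of unity: the trivial character over all number fields
-/

open NumberField IsDedekindDomain
open scoped TensorProduct Classical

namespace StarkC

namespace TRIVT

theorem logL_infl_one (hL : Stmt_LINF) (K N : Type) [Field K] [NumberField K]
    [Field N] [NumberField N] [Algebra K N] [IsGalois K N]
    (S : Set (HeightOneSpectrum (𝓞 K))) (s : ℂ) :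
    logL (K := K) (L := N) (linRep (1 : (N ≃ₐ[K] N) →* ℂˣ)).character S s =
      logL (K := K) (L := K) (linRep (1 : (K ≃ₐ[K] K) →* ℂˣ)).character S s := by
  unfold logL
  refine tsum_congr fun p => ?_
  have := hL K K N (linRep (1 : (K ≃ₐ[K] K) →* ℂˣ)).character
    (fun g h => by rw [IND.linRep_character]; rfl) p.1 (p.2 + 1)
  have h2 : (linRep (1 : (N ≃ₐ[K] N) →* ℂˣ)).character =
    fun g : N ≃ₐ[K] N => (linRep (1 : (K ≃ₐ[K] K) →* ℂˣ)).character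
      (AlgEquiv.restrictNormalHom K g) := by
    funext g
    rw [IND.linRep_character, IND.linRep_character]
    rfl
  rw [h2, this]

/-- descent of the relation to the trivial extension -/
theorem desc_cast (hD : Stmt_DESC) (hL : Stmt_LINF) {K N : Type} [Field K] [NumberField K]
    [Field N] [NumberField N] [Algebra K N] [IsGalois K N] (S : Finset (HeightOneSpectrum (𝓞 K)))
    (T : Set (HeightOneSpectrum (𝓞 N))) (hT : aboveSet K N S = T)
    (φ : XQ N T ≃ₗ[ℚ] QU N T) (Θ : XC N T →ₗ[ℂ] XC N T) (hφ : IsPhiTheta K T φ Θ)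
    (R : Set (ℂ × ℂ)) (M : ℕ)
    (h : RelAt R M (S : Set (HeightOneSpectrum (𝓞 K))) T Θ
      (linRep (1 : (N ≃ₐ[K] N) →* ℂˣ)) (linRep (1 : (N ≃ₐ[K] N) →* ℂˣ))) :
    ∃ (φ' : XQ K (S : Set (HeightOneSpectrum (𝓞 K))) ≃ₗ[ℚ] QU K S) (Θ' : XC K S →ₗ[ℂ] XC K S),
      IsPhiTheta K (S : Set (HeightOneSpectrum (𝓞 K))) φ' Θ' ∧
      RelAt (K := K) R M (S : Set (HeightOneSpectrum (𝓞 K)))
          (S : Set (HeightOneSpectrum (𝓞 K))) Θ'
          (linRep (1 : (K ≃ₐ[K] K) →* ℂˣ)) (linRep (1 : (K ≃ₐ[K] K) →* ℂˣ)) := by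
  subst hT
  obtain ⟨φ', Θ', h1, h2⟩ := hD K N S φ Θ hφ
  refine ⟨φ', Θ', h1, ?_⟩
  obtain ⟨f, f', hf, hf', hR⟩ := h
  refine ⟨f, f', ⟨hf.1, fun s hs => ?_⟩, ⟨hf'.1, fun s hs => ?_⟩, ?_⟩
  · rw [hf.2 s hs, logL_infl_one hL]
  · rw [hf'.2 s hs, logL_infl_one hL]
  · rw [h2]
    exact hR

theorem under_under (E K N : Type) [Field E] [NumberField E] [Field K] [NumberField K]
    [Field N] [NumberField N] [Algebra E K] [Algebra E N] [Algebra K N] [IsScalarTower E K N]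
    (w : HeightOneSpectrum (𝓞 N)) :
    (w.under (𝓞 K)).under (𝓞 E) = w.under (𝓞 E) := by
  apply HeightOneSpectrum.ext
  simp only [HeightOneSpectrum.under_asIdeal]
  exact Ideal.under_under _

theorem indFun_top {G : Type} [Group G] [Fintype G] (g : G) :
    indFun (⊤ : Subgroup G) (extZ (1 : (⊤ : Subgroup G) →* ℂˣ)) g = 1 := by
  unfold indFun extZ
  have h : ∀ x : G, (if x⁻¹ * g * x ∈ (⊤ : Subgroup G) then
      (if h : x⁻¹ * g * x ∈ (⊤ : Subgroup G) then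
        (((1 : (⊤ : Subgroup G) →* ℂˣ) ⟨x⁻¹ * g * x, h⟩ : ℂˣ) : ℂ) else 0) else 0) = 1 := by
    intro x
    rw [if_pos (Subgroup.mem_top _), dif_pos (Subgroup.mem_top _)]
    rfl
  rw [Finset.sum_congr rfl fun x _ => h x]
  simp

theorem indFun_one_fix {G : Type} [Group G] [Fintype G] (σ : ℂ ≃+* ℂ) (H : Subgroup G) (g : G) :
    indFun H (fun _ => 1) g = σ (indFun H (fun _ => 1) g) := by
  unfold indFun
  rw [map_div₀, map_sum, map_natCast]
  congr 1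
  refine Finset.sum_congr rfl fun x _ => ?_
  split_ifs with h
  · exact (map_one σ).symm
  · exact (map_zero σ).symm

theorem core (hEXPH : Stmt_EXPH) (hINDT : Stmt_INDT) (hQC : Stmt_QC) (hDOWN : Stmt_DOWN)
    (hDESC : Stmt_DESC) (hLINF : Stmt_LINF)
    (R : Set (ℂ × ℂ)) (hR : IsRel R) (σ : ℂ ≃+* ℂ) (hTC : RelTC R σ)
    (E K N : Type) [Field E] [NumberField E] [Field K] [NumberField K]
    [Field N] [NumberField N] [Algebra E K] [Algebra E N] [Algebra K N] [IsScalarTower E K N]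
    [IsGalois E N] [IsGalois K N] (hE : Module.finrank ℚ E = 1)
    (V : Type) [AddCommGroup V] [Module ℂ V] [Module.Finite ℂ V]
    (ρ : Representation ℂ (N ≃ₐ[E] N) V)
    (hρ : ∀ g, ρ.character g = indFun (fixK E K N) (fun _ => 1) g)
    (M m : ℕ) (H : Fin m → Subgroup (N ≃ₐ[E] N)) (ψ : ∀ i, H i →* ℂˣ) (n : Fin m → ℤ) (r : ℤ)
    (hH : ∀ i, ∀ c ∈ H i, ¬ IsCC c)
    (hχ : ∀ g : N ≃ₐ[E] N, (2 ^ M : ℂ) * ρ.character g =
      ∑ i, (n i : ℂ) * indFun (H i) (extZ (ψ i)) g + (2 ^ M : ℂ) * (r : ℂ))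
    (S : Finset (HeightOneSpectrum (𝓞 K))) :
    ∃ (S₂ : Finset (HeightOneSpectrum (𝓞 K)))
      (φ' : XQ K (S₂ : Set (HeightOneSpectrum (𝓞 K))) ≃ₗ[ℚ] QU K S₂)
      (Θ' : XC K S₂ →ₗ[ℂ] XC K S₂) (k : ℕ), S ⊆ S₂ ∧
      IsPhiTheta K (S₂ : Set (HeightOneSpectrum (𝓞 K))) φ' Θ' ∧
      RelAt (K := K) R (2 ^ k) (S₂ : Set (HeightOneSpectrum (𝓞 K)))
          (S₂ : Set (HeightOneSpectrum (𝓞 K))) Θ'
          (linRep (1 : (K ≃ₐ[K] K) →* ℂˣ)) (linRep (1 : (K ≃ₐ[K] K) →* ℂˣ)) := by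
  set S₀ : Finset (HeightOneSpectrum (𝓞 E)) := S.image fun v => v.under (𝓞 E) with hS₀
  have hfin : (aboveSet E K (S₀ : Set (HeightOneSpectrum (𝓞 E)))).Finite :=
    IND.aboveSet_finite _ S₀.finite_toSet
  set S₂ : Finset (HeightOneSpectrum (𝓞 K)) := hfin.toFinset with hS₂
  have hab : aboveSet K N (S₂ : Set (HeightOneSpectrum (𝓞 K))) =
      aboveSet E N (S₀ : Set (HeightOneSpectrum (𝓞 E))) := by
    ext w
    simp only [aboveSet, Set.mem_ofPred_eq, hS₂, Set.Finite.coe_toFinset]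
    rw [under_under E K N w]
  have hsub : S ⊆ S₂ := by
    intro v hv
    rw [hS₂, Set.Finite.mem_toFinset]
    show v.under (𝓞 E) ∈ (S₀ : Set (HeightOneSpectrum (𝓞 E)))
    rw [hS₀, Finset.mem_coe]
    exact Finset.mem_image_of_mem _ hv
  obtain ⟨φ₀, Θ₀, hφ₀⟩ := hEXPH E N S₀
  -- the combination including the trivial character
  set H' : Fin (m + 1) → Subgroup (N ≃ₐ[E] N) := Fin.cons ⊤ H with hH'
  set ψ' : ∀ i : Fin (m + 1), H' i →* ℂˣ :=
    Fin.cons (α := fun i : Fin (m + 1) => H' i →* ℂˣ) (1 : (⊤ : Subgroup (N ≃ₐ[E] N)) →* ℂˣ) ψ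
    with hψ'
  set n' : Fin (m + 1) → ℤ := Fin.cons (2 ^ M * r) n with hn'
  have hind : ∃ k : ℕ, RelAt R (2 ^ k) (S₀ : Set (HeightOneSpectrum (𝓞 E)))
      (aboveSet E N S₀) Θ₀ ρ ρ := by
    refine hINDT R hR σ E N S₀ φ₀ Θ₀ V V ρ ρ M (m + 1) H' ψ' n' hφ₀ ?_ ?_ ?_
    · intro g
      rw [hρ g]
      exact indFun_one_fix σ _ g
    · intro g
      rw [hχ g, Fin.sum_univ_succ]
      have h0 : ((n' 0 : ℤ) : ℂ) * indFun (H' 0) (extZ (ψ' 0)) g = (2 ^ M : ℂ) * (r : ℂ) := by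
        have h1 : indFun (H' 0) (extZ (ψ' 0)) g = 1 := indFun_top g
        rw [h1, hn', Fin.cons_zero]
        push_cast
        ring
      rw [h0, add_comm]
      rfl
    · intro i
      refine Fin.cases ?_ ?_ i
      · have h1 : Module.finrank ℚ (IntermediateField.fixedField
            (⊤ : Subgroup (N ≃ₐ[E] N))) = 1 := by
          rw [← Module.finrank_mul_finrank ℚ E (IntermediateField.fixedField
            (⊤ : Subgroup (N ≃ₐ[E] N))), hE, one_mul, IsGalois.fixedField_top,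
            IntermediateField.finrank_bot]
        exact hQC R hR σ (IntermediateField.fixedField (⊤ : Subgroup (N ≃ₐ[E] N))) N h1
      · intro i
        exact hTC (IntermediateField.fixedField (H i)) N (liftChar (H i) (ψ i))
          (GOOD.totallyComplex (H i) (hH i))
  obtain ⟨k, hk⟩ := hind
  have hdown := hDOWN R E K N S₀ S₂ hab φ₀ Θ₀ hφ₀ V ρ hρ (2 ^ k) hk
  have hφK : IsPhiTheta K (aboveSet E N (S₀ : Set (HeightOneSpectrum (𝓞 E)))) φ₀ Θ₀ := by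
    refine ⟨fun g x y hxy => ?_, hφ₀.2⟩
    exact hφ₀.1 (g.restrictScalars E) x y hxy
  obtain ⟨φ', Θ', h1, h2⟩ := desc_cast hDESC hLINF S₂ _ hab φ₀ Θ₀ hφK R (2 ^ k) hdown
  exact ⟨S₂, φ', Θ', k, hsub, h1, h2⟩

end TRIVT

theorem TRIVT_thm (hGALQ : Stmt_GALQ) (hPERM : Stmt_PERM) (hCCQ : Stmt_CCQ) (hCMBQ : Stmt_CMBQ)
    (hRES : Stmt_RES) (hEXPH : Stmt_EXPH) (hINDT : Stmt_INDT) (hQC : Stmt_QC)
    (hDOWN : Stmt_DOWN) (hDESC : Stmt_DESC) (hSTEP : Stmt_STEP) (hLINF : Stmt_LINF) :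
    Stmt_TRIVT := by
  intro R hR σ hTC K L _ _ _ _ _ _ S φ Θ hφ
  obtain ⟨P, _, _, _, hP1, hP2⟩ := hGALQ K
  obtain ⟨V, _, _, _, ρ, hρ⟩ := hPERM (P ≃ₐ[ℚ] P) (fixK ℚ K P)
  obtain ⟨r, hr⟩ := hCCQ P (fixK ℚ K P)
  obtain ⟨N, _, _, iA, _, _, _, M, m, H, ψ, n, hH, hχ⟩ := hCMBQ ℚ P V ρ r
    (fun c hc => by rw [hρ, hr c hc])
  let _ : Algebra K N := ((algebraMap P N).comp (algebraMap K P)).toAlgebra
  have : IsScalarTower K P N := IsScalarTower.of_algebraMap_eq (fun _ => rfl)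
  have : IsScalarTower ℚ K N := IsScalarTower.of_algebraMap_eq' (Subsingleton.elim _ _)
  have : IsGalois K N := IsGalois.tower_top_of_isGalois ℚ K N
  obtain ⟨S₂, φ', Θ', k, hS, hφ', hrel⟩ := TRIVT.core hEXPH hINDT hQC hDOWN hDESC hLINF R hR σ hTC
    ℚ K N (Module.finrank_self ℚ) V (ρ.comp (AlgEquiv.restrictNormalHom P))
    (fun g => by
      have h1 : Representation.character (k := ℂ) (G := N ≃ₐ[ℚ] N) (V := V)
        (ρ.comp (AlgEquiv.restrictNormalHom P)) g =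
          ρ.character (AlgEquiv.restrictNormalHom P g) := rfl
      rw [h1, hρ, hRES ℚ K P N g]) M m H ψ n r hH hχ S
  obtain ⟨φ'', Θ'', h1, h2⟩ := hDESC K L S φ Θ hφ
  have h3 := hSTEP R hR K S S₂ hS φ'' Θ'' φ' Θ' h1 hφ' (2 ^ k) hrel
  refine ⟨k, ?_⟩
  have ht : twist σ (1 : (L ≃ₐ[K] L) →* ℂˣ) = 1 := by
    ext g
    simp [twist]
  rw [ht]
  obtain ⟨f, f', hf, hf', hE⟩ := h3
  refine ⟨f, f', ⟨hf.1, fun s hs => ?_⟩, ⟨hf'.1, fun s hs => ?_⟩, ?_⟩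
  · rw [hf.2 s hs, TRIVT.logL_infl_one hLINF K L]
  · rw [hf'.2 s hs, TRIVT.logL_infl_one hLINF K L]
  · rw [h2] at hE
    exact hE

end StarkC
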