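import Pool.Agent.StarkT.ART
import Pool.Agent.StarkT.CCQ
import Pool.Agent.StarkT.CMBT
import Pool.Agent.StarkT.DESC
import Pool.Agent.StarkT.DOWN
import Pool.Agent.StarkT.EUL
import Pool.Agent.StarkT.EXPH
import Pool.Agent.StarkT.GALQ
import Pool.Agent.StarkT.INDT
import Pool.Agent.StarkT.LEUL
import Pool.Agent.StarkT.MZ
import Pool.Agent.StarkT.PERM
import Pool.Agent.StarkT.QC
import Pool.Agent.StarkT.QET
import Pool.Agent.StarkT.REG1
import Pool.Agent.StarkT.REGS
import Pool.Agent.StarkT.RES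
import Pool.Agent.StarkT.RMAIN
import Pool.Agent.StarkT.SOLT
import Pool.Agent.StarkT.STEP
import Pool.Agent.StarkT.TMAIN
import Pool.Agent.StarkT.TRIVT
import Pool.Agent.Stark.SOL
import Pool.Agent.Stark.MON
import Pool.Agent.Stark.BRA
import Pool.Agent.Stark.AR3
import Pool.Agent.Stark.LA
import Pool.Agent.Stark.LB
import Pool.Agent.Stark.LC
import Pool.Agent.Stark.LIND
import Pool.Agent.Stark.TRD
import Pool.Agent.Stark.RTR
import Pool.Agent.Stark.RGT
import Pool.Agent.Stark.STB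
import Pool.Agent.Stark.XRAT
import Pool.Agent.Stark.UNIT
import Pool.Agent.Stark.THC
import Pool.Agent.Stark.THB
import Pool.Agent.Stark.THE
import Pool.Agent.Stark.IOT
import Pool.Agent.Stark.UDE
import Pool.Agent.Stark.ND
import Pool.Agent.Stark.INFL
import Pool.Agent.Stark.LINF

/-!
# Theorem B: assembly of all modules
-/

open NumberField IsDedekindDomain
open scoped TensorProduct Classical

namespace StarkC

namespace ALLT

theorem bra : Stmt_BRA := BRA_thm SOL_thm MON_thm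
theorem lb : Stmt_LB := LB_thm LA_thm
theorem lc : Stmt_LC := LC_thm LA_thm
theorem lind : Stmt_LIND := LIND_thm LA_thm lb lc
theorem rgt : Stmt_RGT := RGT_thm RTR_thm
theorem thc : Stmt_THC := THC_thm XRAT_thm
theorem thb : Stmt_THB := THB_thm XRAT_thm UNIT_thm
theorem the : Stmt_THE := THE_thm XRAT_thm UNIT_thm
theorem infl : Stmt_INFL := INFL_thm ND_thm XRAT_thm UNIT_thm the IOT_thm UDE_thm STB_thm
theorem cmbt : Stmt_CMBT := CMBT_thm SOLT_thm QET_thm ART_thm bra AR3_thm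
theorem cmbq : Stmt_CMBQ := CMBQ_thm SOLT_thm QET_thm ART_thm bra AR3_thm
theorem indt : Stmt_INDT := INDT_thm LA_thm lb lind TRD_thm rgt STB_thm thc thb
theorem desc : Stmt_DESC := DESC_thm XRAT_thm the IOT_thm UDE_thm STB_thm
theorem exph : Stmt_EXPH := EXPH_thm infl XRAT_thm UNIT_thm the
theorem step : Stmt_STEP := STEP_thm REG1_thm REGS_thm EUL_thm LEUL_thm
theorem down : Stmt_DOWN := DOWN_thm lb lc TRD_thm rgt STB_thm thc thb

theorem qc (hZ : Stmt_ZETA) : Stmt_QC :=
  QC_thm desc REG1_thm REGS_thm EUL_thm hZ MZ_thm LEUL_thm LINF_thm exph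

theorem trivt (hZ : Stmt_ZETA) : Stmt_TRIVT :=
  TRIVT_thm GALQ_thm PERM_thm CCQ_thm cmbq RES_thm exph indt (qc hZ) down desc step LINF_thm

theorem rmain (hZ : Stmt_ZETA) : Stmt_RMAIN := RMAIN_thm cmbt (trivt hZ) indt infl LINF_thm

theorem tmain (hZ : Stmt_ZETA) : Stmt_TMAIN := TMAIN_thm (rmain hZ)

end ALLT

end StarkC
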