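import Pool.Agent.StarkT.PDefsT
import Pool.Agent.StarkT.ALLZ

/-!
# Multiples of representations
-/

open NumberField IsDedekindDomain
open scoped TensorProduct Classical

namespace StarkC

namespace MULR

theorem mulRep_character {G V : Type} [Group G] [AddCommGroup V] [Module ℂ V] [Module.Finite ℂ V]
    (M : ℕ) (ρ : Representation ℂ G V) (g : G) :
    (StarkP.mulRep M ρ).character g = (M : ℂ) * ρ.character g := by
  show LinearMap.trace ℂ (Fin M → V) ((ρ g).compLeft (Fin M)) = (M : ℂ) *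
    LinearMap.trace ℂ V (ρ g)
  set b := Module.finBasis ℂ V with hb
  rw [LinearMap.trace_eq_matrix_trace ℂ b, LinearMap.trace_eq_matrix_trace ℂ
    (Pi.basis (fun _ : Fin M => b))]
  simp only [Matrix.trace, Matrix.diag_apply, LinearMap.toMatrix_apply]
  rw [Fintype.sum_sigma]
  have h : ∀ (i : Fin M) (j : Fin (Module.finrank ℂ V)),
      ((Pi.basis (fun _ : Fin M => b)).repr
        (((ρ g).compLeft (Fin M)) ((Pi.basis (fun _ : Fin M => b)) ⟨i, j⟩))) ⟨i, j⟩ =
      (b.repr ((ρ g) (b j))) j := by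
    intro i j
    rw [Pi.basis_repr, Pi.basis_apply]
    simp
  simp only [h]
  simp

theorem reg_mulRep (K L : Type) [Field K] [NumberField K] [Field L] [NumberField L] [Algebra K L]
    (S : Finset (HeightOneSpectrum (𝓞 K)))
    (φ : XQ L (aboveSet K L S) ≃ₗ[ℚ] QU L (aboveSet K L S))
    (Θ : XC L (aboveSet K L S) →ₗ[ℂ] XC L (aboveSet K L S))
    (V : Type) [AddCommGroup V] [Module ℂ V] [Module.Finite ℂ V]
    (ρ : Representation ℂ (L ≃ₐ[K] L) V) (M : ℕ)
    (hφ : IsPhiTheta K (aboveSet K L S) φ Θ) :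
    Reg (aboveSet K L S) (StarkP.mulRep M ρ) Θ = Reg (aboveSet K L S) ρ Θ ^ M := by
  have hTf : (aboveSet K L (S : Set (HeightOneSpectrum (𝓞 K)))).Finite :=
    IND.aboveSet_finite _ S.finite_toSet
  have hT := STB_thm K L (S : Set (HeightOneSpectrum (𝓞 K)))
  have hc := ALLT.thc K L _ hT φ Θ hTf hφ
  have hb := ALLT.thb K L _ φ Θ hTf hφ
  obtain ⟨W, _, _, _, B, hB1, hB2, hB3⟩ := ALLT.rgt K L _ hT Θ V ρ hTf hc hb
  obtain ⟨W', _, _, _, B', hB1', hB2', hB3'⟩ :=
    ALLT.rgt K L _ hT Θ (Fin M → V) (StarkP.mulRep M ρ) hTf hc hb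
  have key := TRD_thm 1 W' B' (fun _ => W) (fun _ => B) (fun _ => (M : ℤ)) (fun _ => hB2) ?_
  · rw [← hB1', key, Fin.prod_univ_one, hB1, zpow_natCast]
  · intro k
    rw [Fin.sum_univ_one, hB3', hB3, ← mul_div_assoc, Finset.mul_sum]
    congr 1
    refine Finset.sum_congr rfl fun g _ => ?_
    rw [mulRep_character]
    push_cast
    ring

theorem isArtinL_mulRep {K L : Type} [Field K] [NumberField K] [Field L] [NumberField L]
    [Algebra K L] [IsGalois K L] {V : Type} [AddCommGroup V] [Module ℂ V] [Module.Finite ℂ V]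
    (ρ : Representation ℂ (L ≃ₐ[K] L) V) (M : ℕ) (S : Set (HeightOneSpectrum (𝓞 K)))
    (f : ℂ → ℂ) :
    IsArtinL (StarkP.mulRep M ρ).character S f ↔ IsArtinLMul M ρ.character S f := by
  have h1 : (StarkP.mulRep M ρ).character = fun g => (M : ℂ) * ρ.character g :=
    funext fun g => mulRep_character M ρ g
  unfold IsArtinL IsArtinLMul
  rw [h1]
  refine and_congr_right fun _ => ?_
  refine forall₂_congr fun s hs => ?_
  rw [INDT.logL_mul LA_thm ALLT.lb S s hs]

theorem starkAt_mulRep {K L : Type} [Field K] [NumberField K] [Field L] [NumberField L]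
    [Algebra K L] [IsGalois K L] (S : Finset (HeightOneSpectrum (𝓞 K)))
    (φ : XQ L (aboveSet K L S) ≃ₗ[ℚ] QU L (aboveSet K L S))
    (Θ : XC L (aboveSet K L S) →ₗ[ℂ] XC L (aboveSet K L S))
    (V V' : Type) [AddCommGroup V] [Module ℂ V] [Module.Finite ℂ V]
    [AddCommGroup V'] [Module ℂ V'] [Module.Finite ℂ V']
    (ρ : Representation ℂ (L ≃ₐ[K] L) V) (ρ' : Representation ℂ (L ≃ₐ[K] L) V') (σ : ℂ ≃+* ℂ)
    (M : ℕ) (hφ : IsPhiTheta K (aboveSet K L S) φ Θ) :
    StarkAt (S : Set (HeightOneSpectrum (𝓞 K))) (aboveSet K L S) Θ (StarkP.mulRep M ρ)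
      (StarkP.mulRep M ρ') σ ↔
    StarkMulAt M (S : Set (HeightOneSpectrum (𝓞 K))) (aboveSet K L S) Θ ρ ρ' σ := by
  unfold StarkAt StarkMulAt
  rw [reg_mulRep K L S φ Θ V ρ M hφ, reg_mulRep K L S φ Θ V' ρ' M hφ]
  refine exists_congr fun f => exists_congr fun f' => ?_
  rw [isArtinL_mulRep, isArtinL_mulRep]

end MULR

end StarkC
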