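import Pool.Agent.StarkT.StmtsI

/-!
# Monomial representations
-/

open scoped Classical

namespace StarkC

namespace INDREP

variable {G : Type} [Group G] [Fintype G] (H : Subgroup G) (ψ : H →* ℂˣ)

/-- left translation -/
noncomputable def tr (g : G) : (G → ℂ) →ₗ[ℂ] (G → ℂ) where
  toFun f := fun x => f (g⁻¹ * x)
  map_add' _ _ := rfl
  map_smul' _ _ := rfl

/-- the functions transforming by `ψ⁻¹` under right translation by `H` -/
noncomputable def VV : Submodule ℂ (G → ℂ) where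
  carrier := {f | ∀ (x : G) (h : H), f (x * h) = ((ψ h⁻¹ : ℂˣ) : ℂ) * f x}
  add_mem' := by
    intro a b ha hb x h
    rw [Pi.add_apply, Pi.add_apply, ha, hb, mul_add]
  zero_mem' := by
    intro x h
    simp
  smul_mem' := by
    intro c a ha x h
    rw [Pi.smul_apply, Pi.smul_apply, ha, smul_eq_mul, smul_eq_mul]
    ring

theorem tr_mem (g : G) {f : G → ℂ} (hf : f ∈ VV H ψ) : tr g f ∈ VV H ψ := by
  intro x h
  show f (g⁻¹ * (x * h)) = _ * f (g⁻¹ * x)
  rw [← mul_assoc]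
  exact hf _ h

/-- the monomial representation -/
noncomputable def rep : Representation ℂ G (VV H ψ) where
  toFun g := (tr g).restrict (fun _ hf => tr_mem H ψ g hf)
  map_one' := by
    ext f x
    show (f : G → ℂ) ((1 : G)⁻¹ * x) = (f : G → ℂ) x
    rw [inv_one, one_mul]
  map_mul' a b := by
    ext f x
    show (f : G → ℂ) ((a * b)⁻¹ * x) = (f : G → ℂ) (b⁻¹ * (a⁻¹ * x))
    rw [mul_inv_rev, mul_assoc]

/-- the projection onto `VV` -/
noncomputable def PP : (G → ℂ) →ₗ[ℂ] (G → ℂ) where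
  toFun f := fun x => (∑ h : H, ((ψ h : ℂˣ) : ℂ) * f (x * h)) / (Nat.card H : ℂ)
  map_add' a b := by
    funext x
    simp only [Pi.add_apply, mul_add, Finset.sum_add_distrib, add_div]
  map_smul' c a := by
    funext x
    simp only [Pi.smul_apply, smul_eq_mul, RingHom.id_apply]
    rw [← mul_div_assoc, Finset.mul_sum]
    congr 1
    exact Finset.sum_congr rfl fun h _ => by ring

theorem PP_mem (f : G → ℂ) : PP H ψ f ∈ VV H ψ := by
  intro x h'
  show (∑ h : H, ((ψ h : ℂˣ) : ℂ) * f (x * h' * h)) / (Nat.card H : ℂ) =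
    ((ψ h'⁻¹ : ℂˣ) : ℂ) * ((∑ h : H, ((ψ h : ℂˣ) : ℂ) * f (x * h)) / (Nat.card H : ℂ))
  rw [← mul_div_assoc, Finset.mul_sum]
  congr 1
  refine Fintype.sum_equiv (Equiv.mulLeft h') _ _ (fun h => ?_)
  rw [Equiv.coe_mulLeft, map_mul, Units.val_mul, ← mul_assoc, ← mul_assoc, ← Units.val_mul,
    ← map_mul, inv_mul_cancel, map_one, Units.val_one, one_mul, Subgroup.coe_mul, mul_assoc]

theorem PP_eq {f : G → ℂ} (hf : f ∈ VV H ψ) : PP H ψ f = f := by
  funext x
  show (∑ h : H, ((ψ h : ℂˣ) : ℂ) * f (x * h)) / (Nat.card H : ℂ) = f x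
  have h1 : ∀ h : H, ((ψ h : ℂˣ) : ℂ) * f (x * h) = f x := by
    intro h
    rw [hf x h, ← mul_assoc, ← Units.val_mul, ← map_mul, mul_inv_cancel, map_one, Units.val_one,
      one_mul]
  rw [Finset.sum_congr rfl (fun h _ => h1 h), Finset.sum_const, Finset.card_univ, nsmul_eq_mul,
    ← Nat.card_eq_fintype_card, mul_div_cancel_left₀]
  exact_mod_cast Nat.card_pos.ne'

theorem rep_character (g : G) : (rep H ψ).character g = indFun H (extZ ψ) g := by
  have h1 : (rep H ψ).character g = LinearMap.trace ℂ (G → ℂ) (tr g ∘ₗ PP H ψ) := by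
    have hmem : ∀ f, (tr g ∘ₗ PP H ψ) f ∈ VV H ψ := fun f => tr_mem H ψ g (PP_mem H ψ f)
    rw [← LinearMap.trace_restrict_eq_of_forall_mem (VV H ψ) (tr g ∘ₗ PP H ψ) hmem]
    show LinearMap.trace ℂ (VV H ψ) (rep H ψ g) = _
    congr 1
    ext f x
    show tr g (f : G → ℂ) x = tr g (PP H ψ (f : G → ℂ)) x
    rw [PP_eq H ψ f.2]
  rw [h1, LinearMap.trace_eq_matrix_trace ℂ (Pi.basisFun ℂ G), Matrix.trace, indFun,
    Finset.sum_div]
  refine Finset.sum_congr rfl fun y _ => ?_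
  rw [Matrix.diag_apply, LinearMap.toMatrix_apply, Pi.basisFun_repr, Pi.basisFun_apply]
  show (∑ h : H, ((ψ h : ℂˣ) : ℂ) * (Pi.single y 1 : G → ℂ) (g⁻¹ * y * h)) / (Nat.card H : ℂ) = _
  congr 1
  by_cases hy : y⁻¹ * g * y ∈ H
  · rw [if_pos hy, extZ, dif_pos hy]
    rw [Finset.sum_eq_single (⟨y⁻¹ * g * y, hy⟩ : H)]
    · have h2 : g⁻¹ * y * ((⟨y⁻¹ * g * y, hy⟩ : H) : G) = y := by
        show g⁻¹ * y * (y⁻¹ * g * y) = y
        group
      rw [h2, Pi.single_eq_same, mul_one]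
    · intro h _ hne
      rw [Pi.single_eq_of_ne, mul_zero]
      intro h2
      apply hne
      apply Subtype.ext
      show (h : G) = y⁻¹ * g * y
      have h4 : (h : G) = y⁻¹ * g * (g⁻¹ * y * h) := by group
      rw [h2] at h4
      exact h4
    · intro h
      exact absurd (Finset.mem_univ _) h
  · rw [if_neg hy]
    refine Finset.sum_eq_zero fun h _ => ?_
    rw [Pi.single_eq_of_ne, mul_zero]
    intro h2
    apply hy
    have h3 : y⁻¹ * g * y = (h : G) := by
      have h4 : (h : G) = y⁻¹ * g * (g⁻¹ * y * h) := by group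
      rw [h2] at h4
      exact h4.symm
    rw [h3]
    exact h.2

end INDREP

theorem INDREP_thm : Stmt_INDREP := by
  intro G _ _ H ψ
  exact ⟨INDREP.VV H ψ, inferInstance, inferInstance, inferInstance, INDREP.rep H ψ,
    INDREP.rep_character H ψ⟩

end StarkC
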