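import Pool.Agent.StarkT.StmtsI
import Pool.Agent.StarkT.DOWN

/-!
# DOWNL: from the induced character over `E` to the linear character over `K`
-/

open NumberField IsDedekindDomain
open scoped TensorProduct Classical

namespace StarkC

namespace DOWNL

section

variable {E K N : Type} [Field E] [NumberField E] [Field K] [NumberField K]
    [Field N] [NumberField N] [Algebra E K] [Algebra E N] [Algebra K N] [IsScalarTower E K N]

theorem extK_eqv (ψ : (N ≃ₐ[K] N) →* ℂˣ) (g : N ≃ₐ[K] N) :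
    extK E ψ (g.restrictScalars E) = ((ψ g : ℂˣ) : ℂ) := by
  have h : g.restrictScalars E ∈ fixK E K N := fun x => g.commutes x
  rw [extK, dif_pos h]
  congr 2

theorem inner [IsGalois E N] [IsGalois K N] (ψ : (N ≃ₐ[K] N) →* ℂˣ)
    (w : HeightOneSpectrum (𝓞 N)) (q : ℕ) :
    (∑ g ∈ Finset.univ.filter (fun g : N ≃ₐ[E] N => g ∈ fixK E K N ∧ FrobPow N w q g),
      extK E ψ g) =
      ∑ g ∈ Finset.univ.filter (fun g : N ≃ₐ[K] N => FrobPow N w q g), ((ψ g : ℂˣ) : ℂ) := by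
  symm
  refine Finset.sum_bij (fun g _ => ((DOWN.eqv E K N g : fixK E K N) : N ≃ₐ[E] N)) ?_ ?_ ?_ ?_
  · intro g hg
    rw [Finset.mem_filter] at hg ⊢
    exact ⟨Finset.mem_univ _, SetLike.coe_mem _, hg.2⟩
  · intro a _ b _ hab
    exact (DOWN.eqv E K N).injective (Subtype.ext hab)
  · intro g hg
    rw [Finset.mem_filter] at hg
    refine ⟨(DOWN.eqv E K N).symm ⟨g, hg.2.1⟩, ?_, ?_⟩
    · rw [Finset.mem_filter]
      exact ⟨Finset.mem_univ _, hg.2.2⟩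
    · rw [MulEquiv.apply_symm_apply]
  · intro g _
    exact (extK_eqv ψ g).symm

theorem logL_eq (hLB : Stmt_LB) (hLC : Stmt_LC) [IsGalois E N] [IsGalois K N]
    (ψ : (N ≃ₐ[K] N) →* ℂˣ)
    (S₀ : Set (HeightOneSpectrum (𝓞 E))) (S : Set (HeightOneSpectrum (𝓞 K)))
    (hS : aboveSet K N S = aboveSet E N S₀) (s : ℂ) (hs : 1 < s.re) :
    logL (K := K) (L := N) (fun g => ((ψ g : ℂˣ) : ℂ)) S s =
      logL (indFun (fixK E K N) (extK E ψ)) S₀ s := by
  rw [hLB K N _ S s hs, hLB E N _ S₀ s hs, hLC E N (fixK E K N) (extK E ψ) S₀ s hs, hS]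
  unfold coreSum
  rw [Nat.card_congr (DOWN.eqv E K N).toEquiv]
  congr 1
  refine tsum_congr fun p => ?_
  rw [inner (E := E)]

theorem twist_ind [IsGalois E N] (σ : ℂ ≃+* ℂ) (ψ : (N ≃ₐ[K] N) →* ℂˣ) (g : N ≃ₐ[E] N) :
    σ (indFun (fixK E K N) (extK E ψ) g) =
      indFun (fixK E K N) (extK E (twist σ ψ)) g := by
  unfold indFun
  rw [map_div₀, map_sum, map_natCast]
  congr 1
  refine Finset.sum_congr rfl fun x _ => ?_
  split_ifs with h
  · unfold extK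
    rw [dif_pos h, dif_pos h]
    rfl
  · simp

theorem reg_eq (hTRD : Stmt_TRD) (hRGT : Stmt_RGT) [IsGalois E N] [IsGalois K N]
    {T : Set (HeightOneSpectrum (𝓞 N))} (hTf : T.Finite) (hT : StableT E T)
    (Θ : XC N T →ₗ[ℂ] XC N T) (hb : Function.Bijective Θ)
    (hc : ∀ g : N ≃ₐ[E] N, Θ ∘ₗ repX E T hT g = repX E T hT g ∘ₗ Θ)
    (V : Type) [AddCommGroup V] [Module ℂ V] [Module.Finite ℂ V]
    (ρ : Representation ℂ (N ≃ₐ[E] N) V) (ψ : (N ≃ₐ[K] N) →* ℂˣ)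
    (hρ : ∀ g, ρ.character g = indFun (fixK E K N) (extK E ψ) g) :
    Reg T ρ Θ = Reg T (linRep ψ) Θ := by
  obtain ⟨W₀, _, _, _, B₀, hdet0, -, htr0⟩ := hRGT E N T hT Θ V ρ hTf hc hb
  have hcK : ∀ g : N ≃ₐ[K] N, Θ ∘ₗ repX K T (DOWN.stableK hT) g =
      repX K T (DOWN.stableK hT) g ∘ₗ Θ := by
    intro g
    rw [DOWN.repX_K hT]
    exact hc _
  obtain ⟨W, hW1, hW2, hW3, B, hdet, hne, htr⟩ := hRGT K N T (DOWN.stableK hT) Θ ℂ
    (linRep ψ) hTf hcK hb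
  have key := @hTRD 1 W₀ _ _ _ B₀ (fun _ => W) (fun _ => hW1) (fun _ => hW2) (fun _ => hW3)
    (fun _ => B) (fun _ => 1) (fun _ => hne) ?_
  · rw [hdet0] at key
    rw [key]
    simp only [Fin.prod_univ_one, zpow_one]
    exact hdet
  · intro k
    set t : (N ≃ₐ[E] N) → ℂ := fun g => LinearMap.trace ℂ (XC N T) (repX E T hT g ∘ₗ (Θ ^ k))
      with ht
    have hck : ∀ g : N ≃ₐ[E] N, (Θ ^ k) ∘ₗ repX E T hT g = repX E T hT g ∘ₗ (Θ ^ k) := by
      intro g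
      have h1 : Commute Θ (repX E T hT g) := hc g
      exact (h1.pow_left k).eq
    have hclass : ∀ x g, t (x * g * x⁻¹) = t g := by
      intro x g
      simp only [ht]
      have h1 : repX E T hT (x * g * x⁻¹) ∘ₗ (Θ ^ k) =
          (repX E T hT x) * ((repX E T hT g ∘ₗ (Θ ^ k)) * repX E T hT x⁻¹) := by
        rw [map_mul, map_mul]
        show (repX E T hT x * repX E T hT g * repX E T hT x⁻¹) * (Θ ^ k) = _
        have h2 : (Θ ^ k) * repX E T hT x⁻¹ = repX E T hT x⁻¹ * (Θ ^ k) := hck x⁻¹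
        rw [mul_assoc, ← h2]
        rfl
      rw [h1, LinearMap.trace_mul_comm, mul_assoc, ← map_mul]
      simp
    rw [htr0 k]
    have h3 : (∑ g : N ≃ₐ[E] N, ρ.character g * t g) =
        ∑ g, indFun (fixK E K N) (extK E ψ) g * t g := by
      simp only [hρ]
    show (∑ g : N ≃ₐ[E] N, ρ.character g * t g) / _ = _
    rw [h3, IND.sum_indFun_mul (fixK E K N) (extK E ψ) t hclass]
    simp only [Fin.sum_univ_one, Int.cast_one, one_mul]
    rw [htr k, Nat.card_congr (DOWN.eqv E K N).toEquiv]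
    congr 1
    symm
    refine Fintype.sum_equiv (DOWN.eqv E K N).toEquiv _ _ fun g => ?_
    rw [IND.linRep_character, DOWN.repX_K hT]
    show ((ψ g : ℂˣ) : ℂ) * t (g.restrictScalars E) =
      extK E ψ (g.restrictScalars E) * t (g.restrictScalars E)
    rw [extK_eqv]

end

end DOWNL

theorem DOWNL_thm (hLB : Stmt_LB) (hLC : Stmt_LC) (hTRD : Stmt_TRD)
    (hRGT : Stmt_RGT) (hSTB : Stmt_STB) (hTHC : Stmt_THC) (hTHB : Stmt_THB) : Stmt_DOWNL := by
  intro E K N _ _ _ _ _ _ _ _ _ _ _ _ S₀ S hS φ Θ hφ V V' _ _ _ _ _ _ ρ ρ' ψ σ hρ hσ M hst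
  have hTf : (aboveSet E N (S₀ : Set (HeightOneSpectrum (𝓞 E)))).Finite :=
    IND.aboveSet_finite _ S₀.finite_toSet
  have hT := hSTB E N (S₀ : Set (HeightOneSpectrum (𝓞 E)))
  have hc := hTHC E N _ hT φ Θ hTf hφ
  have hb := hTHB E N _ φ Θ hTf hφ
  obtain ⟨f, f', hf, hf', hR⟩ := hst
  have hρ' : ∀ g, ρ'.character g = indFun (fixK E K N) (extK E (twist σ ψ)) g := by
    intro g
    rw [hσ, hρ, DOWNL.twist_ind]
  have hart : ∀ (W : Type) [AddCommGroup W] [Module ℂ W] (η : Representation ℂ (N ≃ₐ[E] N) W)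
      (χ : (N ≃ₐ[K] N) →* ℂˣ), (∀ g, η.character g = indFun (fixK E K N) (extK E χ) g) →
      ∀ f : ℂ → ℂ,
      IsArtinLMul M η.character (S₀ : Set (HeightOneSpectrum (𝓞 E))) f →
      IsArtinLMul M (linRep χ).character (S : Set (HeightOneSpectrum (𝓞 K))) f := by
    intro W _ _ η χ hη f hf
    refine ⟨hf.1, fun s hs => ?_⟩
    have h1 := DOWNL.logL_eq (E := E) (K := K) (N := N) hLB hLC χ
      (S₀ : Set (HeightOneSpectrum (𝓞 E))) (S : Set (HeightOneSpectrum (𝓞 K))) hS s hs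
    rw [hf.2 s hs, show η.character = indFun (fixK E K N) (extK E χ) from funext hη,
      IND.linRep_character, h1]
  refine ⟨f, f', hart V ρ ψ hρ f hf, hart V' ρ' (twist σ ψ) hρ' f' hf', ?_⟩
  rw [← DOWNL.reg_eq hTRD hRGT hTf hT Θ hb hc V ρ ψ hρ,
    ← DOWNL.reg_eq hTRD hRGT hTf hT Θ hb hc V' ρ' (twist σ ψ) hρ']
  exact hR

end StarkC
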