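import Pool.Agent.StarkT.StmtsI
import Pool.Agent.StarkT.INDT

/-!
# INDP: induction from subfields for `M χ`, general multipliers
-/

open NumberField IsDedekindDomain
open scoped TensorProduct Classical

namespace StarkC

namespace INDP

set_option linter.unusedSectionVars false

section

variable {K N : Type} [Field K] [NumberField K] [Field N] [NumberField N] [Algebra K N]
  [IsGalois K N]

theorem artin_comb (hLA : Stmt_LA) (hLB : Stmt_LB) (hLI : Stmt_LIND)
    (S : Set (HeightOneSpectrum (𝓞 K))) (χ : (N ≃ₐ[K] N) → ℂ)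
    (M m : ℕ) (H : Fin m → Subgroup (N ≃ₐ[K] N)) (ψ : ∀ i, H i →* ℂˣ) (n : Fin m → ℤ)
    (hχ : ∀ g, (M : ℂ) * χ g = ∑ i, (n i : ℂ) * indFun (H i) (extZ (ψ i)) g)
    (S' : ∀ i, Set (HeightOneSpectrum (𝓞 (IntermediateField.fixedField (H i)))))
    (hS' : ∀ i, aboveSet (IntermediateField.fixedField (H i)) N (S' i) = aboveSet K N S)
    (k q : Fin m → ℕ) (Q : ℕ) (hk : ∀ i, Q = q i * k i)
    (f : Fin m → ℂ → ℂ)
    (hf : ∀ i, IsArtinLMul (k i) (fun g => ((liftChar (H i) (ψ i) g : ℂˣ) : ℂ)) (S' i)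
      (f i)) :
    IsArtinLMul (Q * M) χ S (fun z => ∏ i, f i z ^ (n i * q i)) := by
  constructor
  · intro z
    exact MeromorphicAt.fun_prod fun i _ => ((hf i).1 z).fun_zpow _
  · intro s hs
    have h1 : (M : ℂ) * logL χ S s =
        ∑ i, (n i : ℂ) * logL (indFun (H i) (extZ (ψ i))) S s := by
      rw [← INDT.logL_mul hLA hLB S s hs]
      have h2 : (fun g => (M : ℂ) * χ g) =
        fun g => ∑ i, (n i : ℂ) * indFun (H i) (extZ (ψ i)) g := funext hχ
      rw [h2, IND.logL_sum hLA hLB S s hs]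
    have h3 : (((Q * M : ℕ) : ℂ)) * logL χ S s =
        ∑ i, (Q : ℂ) * ((n i : ℂ) * logL (indFun (H i) (extZ (ψ i))) S s) := by
      rw [← Finset.mul_sum, ← h1]
      push_cast
      ring
    rw [h3, Complex.exp_sum]
    refine Finset.prod_congr rfl fun i _ => ?_
    rw [(hf i).2 s hs, ← Complex.exp_int_mul, hLI K N (H i) (ψ i) S (S' i) s (hS' i) hs]
    congr 1
    rw [hk i]
    push_cast
    ring

/-! ### Regulators -/

theorem pair_comb
    {T : Set (HeightOneSpectrum (𝓞 N))} (hT : StableT K T)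
    (Θ : XC N T →ₗ[ℂ] XC N T)
    (hc : ∀ g : N ≃ₐ[K] N, Θ ∘ₗ repX K T hT g = repX K T hT g ∘ₗ Θ)
    (χ : (N ≃ₐ[K] N) → ℂ) (M : ℕ)
    (m : ℕ) (H : Fin m → Subgroup (N ≃ₐ[K] N)) (ψ : ∀ i, H i →* ℂˣ) (n : Fin m → ℤ)
    (hχ : ∀ g, (M : ℂ) * χ g = ∑ i, (n i : ℂ) * indFun (H i) (extZ (ψ i)) g) (k : ℕ) :
    (M : ℂ) * INDT.pair hT Θ χ k = ∑ i, (n i : ℂ) *
      INDT.pair (K := IntermediateField.fixedField (H i)) (IND.stable_sub _ hT) Θ
        (linRep (liftChar (H i) (ψ i))).character k := by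
  set t : (N ≃ₐ[K] N) → ℂ := fun g => LinearMap.trace ℂ (XC N T) (repX K T hT g ∘ₗ (Θ ^ k))
    with ht
  have hck : ∀ g : N ≃ₐ[K] N, (Θ ^ k) ∘ₗ repX K T hT g = repX K T hT g ∘ₗ (Θ ^ k) := by
    intro g
    have h1 : Commute Θ (repX K T hT g) := hc g
    exact (h1.pow_left k).eq
  have hclass : ∀ x g, t (x * g * x⁻¹) = t g := by
    intro x g
    simp only [ht]
    have h1 : repX K T hT (x * g * x⁻¹) ∘ₗ (Θ ^ k) =
        (repX K T hT x) * ((repX K T hT g ∘ₗ (Θ ^ k)) * repX K T hT x⁻¹) := by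
      rw [map_mul, map_mul]
      show (repX K T hT x * repX K T hT g * repX K T hT x⁻¹) * (Θ ^ k) = _
      have h2 : (Θ ^ k) * repX K T hT x⁻¹ = repX K T hT x⁻¹ * (Θ ^ k) := hck x⁻¹
      rw [mul_assoc, ← h2]
      rfl
    rw [h1, LinearMap.trace_mul_comm, mul_assoc, ← map_mul]
    simp
  have h3 : (M : ℂ) * (∑ g : N ≃ₐ[K] N, χ g * t g) =
      ∑ i, (n i : ℂ) * ∑ g, indFun (H i) (extZ (ψ i)) g * t g := by
    have h31 : (M : ℂ) * (∑ g : N ≃ₐ[K] N, χ g * t g) =
        ∑ g : N ≃ₐ[K] N, ((M : ℂ) * χ g) * t g := by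
      rw [Finset.mul_sum]
      exact Finset.sum_congr rfl fun g _ => by ring
    rw [h31]
    simp only [hχ, Finset.sum_mul, Finset.mul_sum]
    rw [Finset.sum_comm]
    exact Finset.sum_congr rfl fun i _ => Finset.sum_congr rfl fun g _ => by ring
  show (M : ℂ) * ((∑ g : N ≃ₐ[K] N, χ g * t g) / _) = _
  rw [← mul_div_assoc, h3, Finset.sum_div]
  refine Finset.sum_congr rfl fun i _ => ?_
  rw [mul_div_assoc, IND.sum_indFun_mul (H i) (extZ (ψ i)) t hclass]
  congr 1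
  have h4 : (Nat.card (H i) : ℂ) =
      (Nat.card (N ≃ₐ[IntermediateField.fixedField (H i)] N) : ℂ) := by
    rw [Nat.card_congr (IntermediateField.subgroupEquivAlgEquiv (H i)).toEquiv]
  rw [h4, INDT.pair]
  congr 1
  refine Fintype.sum_equiv (IntermediateField.subgroupEquivAlgEquiv (H i)).toEquiv _ _
    fun h => ?_
  have h5 : (linRep (liftChar (H i) (ψ i))).character
      ((IntermediateField.subgroupEquivAlgEquiv (H i)) h) = extZ (ψ i) (h : N ≃ₐ[K] N) := by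
    rw [IND.linRep_character]
    simp [liftChar, extZ]
  have h7 : repX (IntermediateField.fixedField (H i)) T (IND.stable_sub _ hT)
      ((IntermediateField.subgroupEquivAlgEquiv (H i)) h) = repX K T hT (h : N ≃ₐ[K] N) := by
    rw [IND.repX_sub, MulEquiv.symm_apply_apply]
  show extZ (ψ i) (h : N ≃ₐ[K] N) * t h = (linRep (liftChar (H i) (ψ i))).character
      ((IntermediateField.subgroupEquivAlgEquiv (H i)) h) *
      LinearMap.trace ℂ (XC N T) (repX (IntermediateField.fixedField (H i)) T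
        (IND.stable_sub _ hT)
      ((IntermediateField.subgroupEquivAlgEquiv (H i)) h) ∘ₗ (Θ ^ k))
  rw [h5, h7]

theorem reg_comb (hTRD : Stmt_TRD) (hRGT : Stmt_RGT)
    {T : Set (HeightOneSpectrum (𝓞 N))} (hTf : T.Finite) (hT : StableT K T)
    (Θ : XC N T →ₗ[ℂ] XC N T) (hb : Function.Bijective Θ)
    (hc : ∀ g : N ≃ₐ[K] N, Θ ∘ₗ repX K T hT g = repX K T hT g ∘ₗ Θ)
    (V : Type) [AddCommGroup V] [Module ℂ V] [Module.Finite ℂ V]
    (ρ : Representation ℂ (N ≃ₐ[K] N) V) (M : ℕ)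
    (m : ℕ) (H : Fin m → Subgroup (N ≃ₐ[K] N)) (ψ : ∀ i, H i →* ℂˣ) (n : Fin m → ℤ)
    (hχ : ∀ g, (M : ℂ) * ρ.character g = ∑ i, (n i : ℂ) * indFun (H i) (extZ (ψ i)) g) :
    Reg T ρ Θ ^ M = ∏ i, Reg T (linRep (liftChar (H i) (ψ i))) Θ ^ n i := by
  have hci : ∀ i, ∀ g : N ≃ₐ[IntermediateField.fixedField (H i)] N,
      Θ ∘ₗ repX (IntermediateField.fixedField (H i)) T (IND.stable_sub _ hT) g =
        repX (IntermediateField.fixedField (H i)) T (IND.stable_sub _ hT) g ∘ₗ Θ := by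
    intro i g
    rw [IND.repX_sub]
    exact hc _
  set r : Fin (m + 1) → ℂ := Fin.cons (Reg T ρ Θ)
    (fun i => Reg T (linRep (liftChar (H i) (ψ i))) Θ) with hr
  set t : Fin (m + 1) → ℕ → ℂ := Fin.cons (INDT.pair hT Θ ρ.character)
    (fun i => INDT.pair (K := IntermediateField.fixedField (H i)) (IND.stable_sub _ hT) Θ
        (linRep (liftChar (H i) (ψ i))).character) with ht
  set e : Fin (m + 1) → ℤ := Fin.cons (-(M : ℤ)) n with he
  have hex : ∀ j : Fin (m + 1), ∃ (W : Type) (_ : AddCommGroup W) (_ : Module ℂ W)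
      (_ : Module.Finite ℂ W) (B : W →ₗ[ℂ] W), LinearMap.det B = r j ∧ LinearMap.det B ≠ 0 ∧
        ∀ k : ℕ, LinearMap.trace ℂ W (B ^ k) = t j k := by
    intro j
    refine Fin.cases ?_ (fun i => ?_) j
    · exact hRGT K N T hT Θ V ρ hTf hc hb
    · exact hRGT (IntermediateField.fixedField (H i)) N T (IND.stable_sub _ hT) Θ ℂ
        (linRep (liftChar (H i) (ψ i))) hTf (hci i) hb
  choose W hW1 hW2 hW3 B hdet hne htr using hex
  have key := @hTRD (m + 1) PUnit.{1} _ _ _ 0 W hW1 hW2 hW3 B e hne ?_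
  · have h0 : LinearMap.det (0 : PUnit.{1} →ₗ[ℂ] PUnit.{1}) = 1 :=
      LinearMap.det_eq_one_of_subsingleton _
    rw [h0, Fin.prod_univ_succ] at key
    simp only [hdet, hr, he, Fin.cons_zero, Fin.cons_succ] at key
    have hne0 : Reg T ρ Θ ≠ 0 := by
      have := hne 0
      rw [hdet 0] at this
      simpa [hr] using this
    have h1 : Reg T ρ Θ ^ (-(M : ℤ)) = (Reg T ρ Θ ^ M)⁻¹ := by
      rw [zpow_neg, zpow_natCast]
    rw [h1] at key
    have h2 : Reg T ρ Θ ^ M ≠ 0 := pow_ne_zero _ hne0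
    field_simp at key
    exact key
  · intro k
    rw [Fin.sum_univ_succ]
    simp only [htr, ht, he, Fin.cons_zero, Fin.cons_succ]
    have h1 : LinearMap.trace ℂ PUnit.{1} ((0 : PUnit.{1} →ₗ[ℂ] PUnit.{1}) ^ k) = 0 := by
      have : ((0 : PUnit.{1} →ₗ[ℂ] PUnit.{1}) ^ k) = 0 := Subsingleton.elim _ _
      rw [this, map_zero]
    rw [h1, ← pair_comb hT Θ hc ρ.character M m H ψ n hχ k]
    push_cast
    ring

end

end INDP

theorem INDP_thm (hLA : Stmt_LA) (hLB : Stmt_LB) (hLI : Stmt_LIND) (hTRD : Stmt_TRD)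
    (hRGT : Stmt_RGT) (hSTB : Stmt_STB) (hTHC : Stmt_THC) (hTHB : Stmt_THB) : Stmt_INDP := by
  intro P hP1 hPm K N _ _ _ _ _ _ S φ Θ V V' _ _ _ _ _ _ ρ ρ' σ M m H ψ n hM hφ hσ hχ hlin
  by_cases hP0 : P 0
  · refine ⟨0, hP0, fun _ => 1, fun _ => 1, ⟨fun z => MeromorphicAt.const 1 z, fun s _ => ?_⟩,
      ⟨fun z => MeromorphicAt.const 1 z, fun s _ => ?_⟩, ?_⟩
    · simp
    · simp
    · simp
  have hTf : (aboveSet K N (S : Set (HeightOneSpectrum (𝓞 K)))).Finite :=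
    IND.aboveSet_finite _ S.finite_toSet
  have hT := hSTB K N (S : Set (HeightOneSpectrum (𝓞 K)))
  have hc := hTHC K N _ hT φ Θ hTf hφ
  have hb := hTHB K N _ φ Θ hTf hφ
  choose k S' hPk hS' f f' hf hf' hE using hlin
  have hχ' : ∀ g, (M : ℂ) * ρ'.character g =
      ∑ i, (n i : ℂ) * indFun (H i) (extZ (twist σ (ψ i))) g := by
    intro g
    have h1 : (M : ℂ) * ρ'.character g = σ ((M : ℂ) * ρ.character g) := by
      rw [hσ g, map_mul, map_natCast]
    rw [h1, hχ g, map_sum]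
    refine Finset.sum_congr rfl fun i _ => ?_
    rw [map_mul, map_intCast, IND.twist_indFun]
  have hlift : ∀ i, twist σ (liftChar (H i) (ψ i)) = liftChar (H i) (twist σ (ψ i)) :=
    fun i => rfl
  set Q : ℕ := ∏ i, k i with hQ
  set q : Fin m → ℕ := fun i => ∏ j ∈ Finset.univ.erase i, k j with hq
  have hk : ∀ i, Q = q i * k i := fun i => by
    rw [hQ, hq, mul_comm]
    exact (Finset.mul_prod_erase _ _ (Finset.mem_univ i)).symm
  have hPprod : ∀ s : Finset (Fin m), P (∏ i ∈ s, k i) := by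
    intro s
    induction s using Finset.induction_on with
    | empty => rwa [Finset.prod_empty]
    | insert i s hi ih =>
      rw [Finset.prod_insert hi]
      exact hPm _ _ (hPk i) ih
  refine ⟨Q * M, hPm _ _ (hPprod _) hM, fun z => ∏ i, f i z ^ (n i * q i),
    fun z => ∏ i, f' i z ^ (n i * q i), ?_, ?_, ?_⟩
  · refine INDP.artin_comb hLA hLB hLI _ _ M m H ψ n hχ (fun i => S' i) hS' k q Q hk f
      fun i => ?_
    have := hf i
    rwa [IND.linRep_character] at this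
  · refine INDP.artin_comb hLA hLB hLI _ _ M m H (fun i => twist σ (ψ i)) n hχ'
      (fun i => S' i) hS' k q Q hk f' fun i => ?_
    have := hf' i
    rwa [IND.linRep_character, hlift] at this
  · have hreg : ∀ (V : Type) [AddCommGroup V] [Module ℂ V] [Module.Finite ℂ V]
        (ρ : Representation ℂ (N ≃ₐ[K] N) V) (ψ : ∀ i, H i →* ℂˣ),
        (∀ g, (M : ℂ) * ρ.character g = ∑ i, (n i : ℂ) * indFun (H i) (extZ (ψ i)) g) →
        Reg (aboveSet K N (S : Set (HeightOneSpectrum (𝓞 K)))) ρ Θ ^ (Q * M) =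
          ∏ i, (Reg (aboveSet K N (S : Set (HeightOneSpectrum (𝓞 K))))
            (linRep (liftChar (H i) (ψ i))) Θ ^ k i) ^ (n i * q i) := by
      intro V _ _ _ ρ ψ hχ
      rw [mul_comm Q M, pow_mul,
        INDP.reg_comb hTRD hRGT hTf hT Θ hb hc V ρ M m H ψ n hχ, ← Finset.prod_pow]
      refine Finset.prod_congr rfl fun i _ => ?_
      rw [← zpow_natCast, ← zpow_mul, ← zpow_natCast (_ : ℂ) (k i), ← zpow_mul]
      congr 1
      rw [hk i]
      push_cast
      ring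
    have hlead : meromorphicTrailingCoeffAt (fun z => ∏ i, f i z ^ (n i * q i)) 0 =
        ∏ i, meromorphicTrailingCoeffAt (f i) 0 ^ (n i * (q i : ℤ)) :=
      INDT.lead_comb (fun i => n i * (q i : ℤ)) f fun i => (hf i).1 0
    have hlead' : meromorphicTrailingCoeffAt (fun z => ∏ i, f' i z ^ (n i * q i)) 0 =
        ∏ i, meromorphicTrailingCoeffAt (f' i) 0 ^ (n i * (q i : ℤ)) :=
      INDT.lead_comb (fun i => n i * (q i : ℤ)) f' fun i => (hf' i).1 0
    rw [hlead, hlead', hreg V ρ ψ hχ, hreg V' ρ' (fun i => twist σ (ψ i)) hχ',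
      ← Finset.prod_div_distrib, ← Finset.prod_div_distrib, map_prod]
    refine Finset.prod_congr rfl fun i _ => ?_
    rw [← div_zpow, ← div_zpow, map_zpow₀, hE i]
    rfl

end StarkC
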