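import Pool.Agent.StarkT.StmtsI
import Pool.Agent.StarkT.LEUL

/-!
# Module LEULZ: the leading term of a twisted Euler factor at `0`
-/

open Filter Topology

namespace StarkC

namespace LEULZ

lemma analytic (n : ℕ) (hn : 1 < n) (z a : ℂ) :
    AnalyticAt ℂ (fun s : ℂ => 1 - z * (n : ℂ) ^ (-s)) a := by
  have hn0 : (n : ℂ) ≠ 0 := by exact_mod_cast (by omega : n ≠ 0)
  have h : (fun s : ℂ => 1 - z * (n : ℂ) ^ (-s)) =
      fun s : ℂ => 1 - z * Complex.exp (Complex.log n * (-s)) := by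
    funext s
    rw [Complex.cpow_def_of_ne_zero hn0]
  rw [h]
  fun_prop

end LEULZ

/-- MODULE LEULZ. -/
theorem LEULZ_thm : Stmt_LEULZ := by
  intro n hn z
  refine ⟨fun a => (LEULZ.analytic n hn z a).meromorphicAt, ?_⟩
  by_cases hz : z = 1
  · rw [if_pos hz]
    have h := (LEUL_thm n hn).2
    subst hz
    simpa only [one_mul] using h
  · rw [if_neg hz]
    have h0 : (fun s : ℂ => 1 - z * (n : ℂ) ^ (-s)) 0 = 1 - z := by simp
    rw [(LEULZ.analytic n hn z 0).meromorphicTrailingCoeffAt_of_ne_zero]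
    · exact h0
    · show (fun s : ℂ => 1 - z * (n : ℂ) ^ (-s)) 0 ≠ 0
      rw [h0]
      exact sub_ne_zero.mpr (Ne.symm hz)

end StarkC
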