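import Pool.Agent.StarkT.StmtsI

/-!
# Module SI_SIND: Stark's assertion for a linear character does not depend on `S` and `φ`
-/

open NumberField IsDedekindDomain
open scoped TensorProduct Classical

namespace StarkC

namespace SIND

theorem chr {G : Type} [Group G] (ψ : G →* ℂˣ) :
    (linRep ψ).character = fun g => ((ψ g : ℂˣ) : ℂ) := by
  funext g
  change LinearMap.trace ℂ ℂ (LinearMap.lsmul ℂ ℂ (ψ g : ℂ)) = _
  have h : (LinearMap.lsmul ℂ ℂ (ψ g : ℂ)) = (ψ g : ℂ) • (LinearMap.id : ℂ →ₗ[ℂ] ℂ) := by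
    ext; simp
  rw [h, map_smul, LinearMap.trace_id]
  simp

theorem chr_twist {G : Type} [Group G] (σ : ℂ ≃+* ℂ) (ψ : G →* ℂˣ) :
    (linRep (twist σ ψ)).character = fun g => σ ((ψ g : ℂˣ) : ℂ) := by
  rw [chr]
  rfl

section

variable {K L : Type} [Field K] [NumberField K] [Field L] [NumberField L] [Algebra K L]
  [IsGalois K L]

omit [IsGalois K L] in
theorem trivD_twist (v : HeightOneSpectrum (𝓞 K)) (ψ : (L ≃ₐ[K] L) →* ℂˣ) (σ : ℂ ≃+* ℂ) :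
    TrivD v (twist σ ψ) ↔ TrivD v ψ := by
  have h : ∀ g, twist σ ψ g = 1 ↔ ψ g = 1 := by
    intro g
    have e : ((twist σ ψ g : ℂˣ) : ℂ) = σ ((ψ g : ℂˣ) : ℂ) := rfl
    rw [← Units.val_eq_one, ← Units.val_eq_one, e]
    constructor
    · intro h1
      exact σ.injective (by rw [h1, map_one])
    · intro h1
      rw [h1, map_one]
  unfold TrivD
  simp only [h]

/-- Stark's assertion for all `φ`. -/
def PS (K L : Type) [Field K] [NumberField K] [Field L] [NumberField L] [Algebra K L]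
    (ψ : (L ≃ₐ[K] L) →* ℂˣ) (σ : ℂ ≃+* ℂ) (M : ℕ) (S : Finset (HeightOneSpectrum (𝓞 K))) : Prop :=
  ∀ (φ : XQ L (aboveSet K L S) ≃ₗ[ℚ] QU L (aboveSet K L S))
    (Θ : XC L (aboveSet K L S) →ₗ[ℂ] XC L (aboveSet K L S)),
    IsPhiTheta K (aboveSet K L S) φ Θ →
    StarkMulAt M (S : Set (HeightOneSpectrum (𝓞 K))) (aboveSet K L S) Θ
      (linRep ψ) (linRep (twist σ ψ)) σ

/-- One `φ` is enough. -/
theorem all_of_one (hPHIR : Stmt_PHIR) (ψ : (L ≃ₐ[K] L) →* ℂˣ) (σ : ℂ ≃+* ℂ) (M : ℕ)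
    (S : Finset (HeightOneSpectrum (𝓞 K)))
    (φ : XQ L (aboveSet K L S) ≃ₗ[ℚ] QU L (aboveSet K L S))
    (Θ : XC L (aboveSet K L S) →ₗ[ℂ] XC L (aboveSet K L S))
    (h : IsPhiTheta K (aboveSet K L S) φ Θ)
    (hS : StarkMulAt M (S : Set (HeightOneSpectrum (𝓞 K))) (aboveSet K L S) Θ
      (linRep ψ) (linRep (twist σ ψ)) σ) : PS K L ψ σ M S := by
  intro φ₂ Θ₂ h₂
  obtain ⟨f, f', hf, hf', he⟩ := hS
  obtain ⟨x, hx, h1, h2⟩ := hPHIR K L S φ φ₂ Θ Θ₂ ℂ ℂ (linRep ψ) (linRep (twist σ ψ)) σ h h₂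
    (fun g => by rw [chr_twist, chr])
  refine ⟨f, f', hf, hf', ?_⟩
  rw [h1, h2, mul_pow, mul_pow, mul_div_assoc, mul_div_assoc, map_mul, map_pow, he]

/-- multiplication by the `M`-th power of an Euler factor -/
theorem mulL (hLEULZ : Stmt_LEULZ) (M n : ℕ) (hn : 1 < n) (z : ℂ) (f : ℂ → ℂ)
    (hf : ∀ a, MeromorphicAt f a) :
    (∀ a, MeromorphicAt (fun s : ℂ => f s * (1 - z * (n : ℂ) ^ (-s)) ^ M) a) ∧
      meromorphicTrailingCoeffAt (fun s : ℂ => f s * (1 - z * (n : ℂ) ^ (-s)) ^ M) 0 =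
        meromorphicTrailingCoeffAt f 0 *
          (if z = 1 then ((Real.log n : ℝ) : ℂ) else 1 - z) ^ M := by
  obtain ⟨h1, h2⟩ := hLEULZ n hn z
  have m : ∀ a, MeromorphicAt (fun s : ℂ => (1 - z * (n : ℂ) ^ (-s)) ^ M) a :=
    fun a => (h1 a).pow M
  refine ⟨fun a => (hf a).mul (m a), ?_⟩
  rw [MeromorphicAt.meromorphicTrailingCoeffAt_fun_mul (hf 0) (m 0), ← h2]
  congr 1
  exact MeromorphicAt.meromorphicTrailingCoeffAt_fun_pow (h1 0)

/-- division by the `M`-th power of an Euler factor -/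
theorem divL (hLEULZ : Stmt_LEULZ) (M n : ℕ) (hn : 1 < n) (z : ℂ) (f : ℂ → ℂ)
    (hf : ∀ a, MeromorphicAt f a) :
    (∀ a, MeromorphicAt (fun s : ℂ => f s * ((1 - z * (n : ℂ) ^ (-s)) ^ M)⁻¹) a) ∧
      meromorphicTrailingCoeffAt (fun s : ℂ => f s * ((1 - z * (n : ℂ) ^ (-s)) ^ M)⁻¹) 0 =
        meromorphicTrailingCoeffAt f 0 *
          ((if z = 1 then ((Real.log n : ℝ) : ℂ) else 1 - z) ^ M)⁻¹ := by
  obtain ⟨h1, h2⟩ := hLEULZ n hn z
  have m : ∀ a, MeromorphicAt (fun s : ℂ => ((1 - z * (n : ℂ) ^ (-s)) ^ M)⁻¹) a :=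
    fun a => ((h1 a).pow M).inv
  refine ⟨fun a => (hf a).mul (m a), ?_⟩
  have e1 : meromorphicTrailingCoeffAt (fun s : ℂ => ((1 - z * (n : ℂ) ^ (-s)) ^ M)⁻¹) 0 =
      (meromorphicTrailingCoeffAt (fun s : ℂ => (1 - z * (n : ℂ) ^ (-s)) ^ M) 0)⁻¹ :=
    meromorphicTrailingCoeffAt_fun_inv
  have e2 : meromorphicTrailingCoeffAt (fun s : ℂ => (1 - z * (n : ℂ) ^ (-s)) ^ M) 0 =
      (meromorphicTrailingCoeffAt (fun s : ℂ => 1 - z * (n : ℂ) ^ (-s)) 0) ^ M :=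
    MeromorphicAt.meromorphicTrailingCoeffAt_fun_pow (h1 0)
  rw [MeromorphicAt.meromorphicTrailingCoeffAt_fun_mul (hf 0) (m 0), e1, e2, h2]

theorem euler_ne_zero {z : ℂ} (hz : z = 0 ∨ ∃ k : ℕ, 0 < k ∧ z ^ k = 1) {n : ℕ} (hn : 1 < n)
    {s : ℂ} (hs : 1 < s.re) : 1 - z * (n : ℂ) ^ (-s) ≠ 0 := by
  intro h
  have hz1 : ‖z‖ ≤ 1 := by
    rcases hz with rfl | ⟨k, hk, hzk⟩
    · simp
    · have h2 : ‖z‖ ^ k = 1 := by rw [← norm_pow, hzk, norm_one]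
      exact ((pow_eq_one_iff_of_nonneg (norm_nonneg z) hk.ne').1 h2).le
  have hn0 : 0 < n := by omega
  have h3 : ‖(n : ℂ) ^ (-s)‖ < 1 := by
    rw [Complex.norm_natCast_cpow_of_pos hn0]
    refine Real.rpow_lt_one_of_one_lt_of_neg (by exact_mod_cast hn) ?_
    rw [Complex.neg_re]
    linarith
  have h4 : z * (n : ℂ) ^ (-s) = 1 := (sub_eq_zero.1 h).symm
  have h5 : ‖z‖ * ‖(n : ℂ) ^ (-s)‖ = 1 := by rw [← norm_mul, h4, norm_one]
  nlinarith [norm_nonneg z, norm_nonneg ((n : ℂ) ^ (-s))]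

theorem conj_root {z : ℂ} (hz : z = 0 ∨ ∃ k : ℕ, 0 < k ∧ z ^ k = 1) (σ : ℂ ≃+* ℂ) :
    σ z = 0 ∨ ∃ k : ℕ, 0 < k ∧ (σ z) ^ k = 1 := by
  rcases hz with rfl | ⟨k, hk, hzk⟩
  · exact Or.inl (map_zero σ)
  · exact Or.inr ⟨k, hk, by rw [← map_pow, hzk, map_one]⟩

/-- the value for `insert v S` in terms of the value for `S` -/
theorem value (M n : ℕ) (hn : 1 < n) (q : ℚ) (hq : 0 < q) (z R R' l l' : ℂ) (σ : ℂ ≃+* ℂ)
    (P : Prop) (hz : z = 1 ↔ P) :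
    (σ (R ^ M / l) = R' ^ M / l' ↔
      σ ((R * (if P then (q : ℂ) * ((Real.log n : ℝ) : ℂ) else 1)) ^ M /
          (l * (if z = 1 then ((Real.log n : ℝ) : ℂ) else 1 - z) ^ M)) =
        (R' * (if P then (q : ℂ) * ((Real.log n : ℝ) : ℂ) else 1)) ^ M /
          (l' * (if σ z = 1 then ((Real.log n : ℝ) : ℂ) else 1 - σ z) ^ M)) := by
  have hσz : σ z = 1 ↔ z = 1 := by
    constructor
    · intro h; exact σ.injective (by rw [h, map_one])
    · intro h; rw [h, map_one]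
  have hlog : ((Real.log n : ℝ) : ℂ) ≠ 0 := by
    have : 0 < Real.log n := Real.log_pos (by exact_mod_cast hn)
    exact_mod_cast this.ne'
  have hq' : (q : ℂ) ≠ 0 := by exact_mod_cast hq.ne'
  by_cases h : z = 1
  · have hP : P := hz.1 h
    rw [if_pos hP, if_pos h, if_pos (hσz.2 h)]
    have e1 : (R * ((q : ℂ) * ((Real.log n : ℝ) : ℂ))) ^ M / (l * ((Real.log n : ℝ) : ℂ) ^ M) =
        (R ^ M / l) * (q : ℂ) ^ M := by
      rw [mul_pow, mul_pow, div_mul_eq_mul_div, ← mul_assoc,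
        mul_div_mul_right _ _ (pow_ne_zero M hlog)]
    have e2 : (R' * ((q : ℂ) * ((Real.log n : ℝ) : ℂ))) ^ M / (l' * ((Real.log n : ℝ) : ℂ) ^ M) =
        (R' ^ M / l') * (q : ℂ) ^ M := by
      rw [mul_pow, mul_pow, div_mul_eq_mul_div, ← mul_assoc,
        mul_div_mul_right _ _ (pow_ne_zero M hlog)]
    have e3 : σ ((q : ℂ) ^ M) = (q : ℂ) ^ M := by rw [map_pow, map_ratCast]
    rw [e1, e2, map_mul, e3]
    exact (mul_left_inj' (pow_ne_zero M hq')).symm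
  · have hP : ¬ P := fun hP => h (hz.2 hP)
    have hσ : ¬ σ z = 1 := fun h' => h (hσz.1 h')
    rw [if_neg hP, if_neg h, if_neg hσ, mul_one, mul_one]
    have h1 : (1 - z) ≠ 0 := sub_ne_zero.2 (Ne.symm h)
    have h2 : (1 - σ z) ≠ 0 := sub_ne_zero.2 (Ne.symm hσ)
    have e3 : σ ((1 - z) ^ M) = (1 - σ z) ^ M := by rw [map_pow, map_sub, map_one]
    rw [← div_div, ← div_div, map_div₀ σ (R ^ M / l), e3]
    exact (div_left_inj' (pow_ne_zero M h2)).symm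

theorem step (hPHIR : Stmt_PHIR) (hSREG : Stmt_SREG) (hSLF : Stmt_SLF) (hLEULZ : Stmt_LEULZ)
    (hEXPH : Stmt_EXPH) (ψ : (L ≃ₐ[K] L) →* ℂˣ) (σ : ℂ ≃+* ℂ) (M : ℕ)
    (S : Finset (HeightOneSpectrum (𝓞 K))) (v : HeightOneSpectrum (𝓞 K)) (hv : v ∉ S) :
    PS K L ψ σ M S ↔ PS K L ψ σ M (insert v S) := by
  obtain ⟨φ, Θ, hφ⟩ := hEXPH K L S
  obtain ⟨φ₂, Θ₂, q, hq, hφ₂, hReg⟩ := hSREG K L S v hv φ Θ hφ
  obtain ⟨z, hz, hzT, hL⟩ := hSLF K L v ψ σ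
  have hn : 1 < Ideal.absNorm v.asIdeal := NumberField.HeightOneSpectrum.one_lt_absNorm v
  have hR1 := hReg ψ
  have hR2 := hReg (twist σ ψ)
  simp only [trivD_twist] at hR2
  have hval := fun l l' => value M (Ideal.absNorm v.asIdeal) hn q hq z
    (Reg (aboveSet K L S) (linRep ψ) Θ) (Reg (aboveSet K L S) (linRep (twist σ ψ)) Θ) l l' σ
    (TrivD v ψ) hzT
  constructor
  · intro h
    obtain ⟨f, f', hf, hf', he⟩ := h φ Θ hφ
    refine all_of_one hPHIR ψ σ M (insert v S) φ₂ Θ₂ hφ₂ ?_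
    obtain ⟨m1, t1⟩ := mulL hLEULZ M _ hn z f hf.1
    obtain ⟨m2, t2⟩ := mulL hLEULZ M _ hn (σ z) f' hf'.1
    refine ⟨_, _, ⟨m1, ?_⟩, ⟨m2, ?_⟩, ?_⟩
    · intro s hs
      have := (hL S hv s hs).1
      beta_reduce
      rw [hf.2 s hs, chr, Complex.exp_nat_mul, Complex.exp_nat_mul, this, mul_pow]
    · intro s hs
      have := (hL S hv s hs).2
      beta_reduce
      rw [hf'.2 s hs, chr_twist, Complex.exp_nat_mul, Complex.exp_nat_mul, this, mul_pow]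
    · rw [t1, t2, hR1, hR2]
      exact (hval _ _).1 he
  · intro h
    obtain ⟨f, f', hf, hf', he⟩ := h φ₂ Θ₂ hφ₂
    refine all_of_one hPHIR ψ σ M S φ Θ hφ ?_
    obtain ⟨m1, t1⟩ := divL hLEULZ M _ hn z f hf.1
    obtain ⟨m2, t2⟩ := divL hLEULZ M _ hn (σ z) f' hf'.1
    refine ⟨_, _, ⟨m1, ?_⟩, ⟨m2, ?_⟩, ?_⟩
    · intro s hs
      have := (hL S hv s hs).1
      have hne := pow_ne_zero M (euler_ne_zero hz hn hs)
      beta_reduce
      rw [hf.2 s hs, chr, Complex.exp_nat_mul, Complex.exp_nat_mul, this, mul_pow,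
        mul_inv_cancel_right₀ hne]
    · intro s hs
      have := (hL S hv s hs).2
      have hne := pow_ne_zero M (euler_ne_zero (conj_root hz σ) hn hs)
      beta_reduce
      rw [hf'.2 s hs, chr_twist, Complex.exp_nat_mul, Complex.exp_nat_mul, this, mul_pow,
        mul_inv_cancel_right₀ hne]
    · rw [t1, t2]
      refine (hval _ _).2 ?_
      rw [← hR1, ← hR2]
      have hc : ∀ (x y : ℂ), y ≠ 0 → x * y⁻¹ * y = x := by
        intro x y hy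
        field_simp
      have hc1 : (if z = 1 then ((Real.log (Ideal.absNorm v.asIdeal) : ℝ) : ℂ) else 1 - z) ^ M ≠ 0 := by
        refine pow_ne_zero M ?_
        split_ifs with h1
        · have : 0 < Real.log (Ideal.absNorm v.asIdeal) := Real.log_pos (by exact_mod_cast hn)
          exact_mod_cast this.ne'
        · exact sub_ne_zero.2 (Ne.symm h1)
      have hc2 : (if σ z = 1 then ((Real.log (Ideal.absNorm v.asIdeal) : ℝ) : ℂ) else 1 - σ z) ^ M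
          ≠ 0 := by
        refine pow_ne_zero M ?_
        split_ifs with h1
        · have : 0 < Real.log (Ideal.absNorm v.asIdeal) := Real.log_pos (by exact_mod_cast hn)
          exact_mod_cast this.ne'
        · exact sub_ne_zero.2 (Ne.symm h1)
      rw [hc _ _ hc1, hc _ _ hc2]
      exact he

end

end SIND

/-- MODULE SI_SIND. -/
theorem SINDP_thm (hPHIR : Stmt_PHIR) (hSREG : Stmt_SREG) (hSLF : Stmt_SLF) (hLEULZ : Stmt_LEULZ)
    (hEXPH : Stmt_EXPH) : Stmt_SINDP := by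
  intro K L _ _ _ _ _ _ ψ σ M S S₂ φ Θ φ₂ Θ₂ h h₂ hS
  have key : ∀ S : Finset (HeightOneSpectrum (𝓞 K)),
      SIND.PS K L ψ σ M S ↔ SIND.PS K L ψ σ M ∅ := by
    intro S
    induction S using Finset.induction_on with
    | empty => exact Iff.rfl
    | insert v S hv ih =>
      rw [← SIND.step hPHIR hSREG hSLF hLEULZ hEXPH ψ σ M S v hv]
      exact ih
  have h1 : SIND.PS K L ψ σ M S := SIND.all_of_one hPHIR ψ σ M S φ Θ h hS
  exact ((key S₂).2 ((key S).1 h1)) φ₂ Θ₂ h₂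

end StarkC
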