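import Pool.Agent.StarkT.ALLZ
import Pool.Agent.StarkT.INDP
import Pool.Agent.StarkT.INDREP
import Pool.Agent.StarkT.DOWNL
import Pool.Agent.StarkT.SIND
import Pool.Agent.StarkT.SREG
import Pool.Agent.StarkT.SLF
import Pool.Agent.StarkT.PHIR
import Pool.Agent.StarkT.LEULZ
import Pool.Agent.StarkT.BASEQ

/-!
# Independence of `S` and `φ`, and descent to `ℚ`: the closed theorems
-/

namespace StarkC

namespace ALLT

theorem indp_all : Stmt_INDP :=
  INDP_thm LA_thm lb lind TRD_thm rgt STB_thm thc thb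

theorem downl_all : Stmt_DOWNL := DOWNL_thm lb lc TRD_thm rgt STB_thm thc thb

theorem sindp_all : Stmt_SINDP := SINDP_thm PHIR_thm SREG_thm SLF_thm LEULZ_thm exph

theorem baseq_all : Stmt_BASEQ :=
  BASEQ_thm bra indp_all GALQ_thm infl exph INDREP_thm downl_all sindp_all LINF_thm

end ALLT

end StarkC
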