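import Pool.Agent.Stark.Defs

/-!
# Stark's conjecture up to 2-power roots of unity: definitions
-/

open NumberField IsDedekindDomain
open scoped TensorProduct Classical

namespace StarkC

section

variable {K L : Type} [Field K] [NumberField K] [Field L] [NumberField L] [Algebra K L]

/-- `f` is the meromorphic continuation to `ℂ` of the `M`-th power of the Artin `L`-series of `χ`
without the Euler factors in `S` (this is the Artin `L`-series of `M χ`). -/
def IsArtinLMul (M : ℕ) (χ : (L ≃ₐ[K] L) → ℂ) (S : Set (HeightOneSpectrum (𝓞 K)))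
    (f : ℂ → ℂ) : Prop :=
  (∀ z, MeromorphicAt f z) ∧ ∀ s : ℂ, 1 < s.re → f s = Complex.exp ((M : ℂ) * logL χ S s)

/-- Stark's assertion `(A(χ)^M)^σ = A(χ^σ)^M`, `A = R/L^*`, for given `S`, `Θ` and given
representations `ρ`, `ρ'` with characters `χ`, `χ^σ`; this is Stark's assertion for the character
`M χ`.  Here `T` is the set of primes above `S`. -/
def StarkMulAt (M : ℕ) (S : Set (HeightOneSpectrum (𝓞 K))) (T : Set (HeightOneSpectrum (𝓞 L)))
    (Θ : XC L T →ₗ[ℂ] XC L T)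
    {V V' : Type} [AddCommGroup V] [Module ℂ V] [AddCommGroup V'] [Module ℂ V']
    (ρ : Representation ℂ (L ≃ₐ[K] L) V) (ρ' : Representation ℂ (L ≃ₐ[K] L) V')
    (σ : ℂ ≃+* ℂ) : Prop :=
  ∃ f f' : ℂ → ℂ, IsArtinLMul M ρ.character S f ∧ IsArtinLMul M ρ'.character S f' ∧
    σ (Reg T ρ Θ ^ M / meromorphicTrailingCoeffAt f 0) =
      Reg T ρ' Θ ^ M / meromorphicTrailingCoeffAt f' 0

/-- `A(χ)^M = (R/L^*)(χ)^M` is an algebraic number. -/
def AlgMulAt (M : ℕ) (S : Set (HeightOneSpectrum (𝓞 K))) (T : Set (HeightOneSpectrum (𝓞 L)))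
    (Θ : XC L T →ₗ[ℂ] XC L T) {V : Type} [AddCommGroup V] [Module ℂ V]
    (ρ : Representation ℂ (L ≃ₐ[K] L) V) : Prop :=
  ∃ f : ℂ → ℂ, IsArtinLMul M ρ.character S f ∧
    IsAlgebraic ℚ (Reg T ρ Θ ^ M / meromorphicTrailingCoeffAt f 0)

end

/-- **Stark's conjecture up to 2-power roots of unity**: for all finite Galois extensions of number
fields, all `S`, `φ`, all characters `χ` and all automorphisms `σ` of `ℂ` Stark's assertion holds
for `2^m χ` with some `m`. -/
def StarkUpToTwo : Prop :=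
  ∀ (K L : Type) [Field K] [NumberField K] [Field L] [NumberField L] [Algebra K L] [IsGalois K L]
    (S : Finset (HeightOneSpectrum (𝓞 K)))
    (φ : XQ L (aboveSet K L S) ≃ₗ[ℚ] QU L (aboveSet K L S))
    (Θ : XC L (aboveSet K L S) →ₗ[ℂ] XC L (aboveSet K L S))
    (V V' : Type) [AddCommGroup V] [Module ℂ V] [Module.Finite ℂ V]
    [AddCommGroup V'] [Module ℂ V'] [Module.Finite ℂ V']
    (ρ : Representation ℂ (L ≃ₐ[K] L) V) (ρ' : Representation ℂ (L ≃ₐ[K] L) V') (σ : ℂ ≃+* ℂ),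
    IsPhiTheta K (aboveSet K L S) φ Θ → (∀ g, ρ'.character g = σ (ρ.character g)) →
    ∃ m : ℕ, StarkMulAt (2 ^ m) (S : Set (HeightOneSpectrum (𝓞 K))) (aboveSet K L S) Θ ρ ρ' σ

/-- Stark's conjecture up to 2-power roots of unity for linear characters over totally complex
base fields. -/
def StarkUpToTwoTotallyComplex : Prop :=
  ∀ (K L : Type) [Field K] [NumberField K] [Field L] [NumberField L] [Algebra K L] [IsGalois K L]
    (ψ : (L ≃ₐ[K] L) →* ℂˣ), IsTotallyComplex K →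
    ∀ (S : Finset (HeightOneSpectrum (𝓞 K)))
      (φ : XQ L (aboveSet K L S) ≃ₗ[ℚ] QU L (aboveSet K L S))
      (Θ : XC L (aboveSet K L S) →ₗ[ℂ] XC L (aboveSet K L S)) (σ : ℂ ≃+* ℂ),
      IsPhiTheta K (aboveSet K L S) φ Θ →
      ∃ m : ℕ, StarkMulAt (2 ^ m) (S : Set (HeightOneSpectrum (𝓞 K))) (aboveSet K L S) Θ
        (linRep ψ) (linRep (twist σ ψ)) σ

/-- **The algebraicity part of Stark's conjecture**: `A(χ)^(2^m)` (with some `m`) is an algebraic
number, for all finite Galois extensions of number fields, all `S`, `φ` and all characters. -/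
def StarkAlgebraic : Prop :=
  ∀ (K L : Type) [Field K] [NumberField K] [Field L] [NumberField L] [Algebra K L] [IsGalois K L]
    (S : Finset (HeightOneSpectrum (𝓞 K)))
    (φ : XQ L (aboveSet K L S) ≃ₗ[ℚ] QU L (aboveSet K L S))
    (Θ : XC L (aboveSet K L S) →ₗ[ℂ] XC L (aboveSet K L S))
    (V : Type) [AddCommGroup V] [Module ℂ V] [Module.Finite ℂ V]
    (ρ : Representation ℂ (L ≃ₐ[K] L) V),
    IsPhiTheta K (aboveSet K L S) φ Θ →
    ∃ m : ℕ, AlgMulAt (2 ^ m) (S : Set (HeightOneSpectrum (𝓞 K))) (aboveSet K L S) Θ ρ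

/-- The algebraicity part of Stark's conjecture for linear characters over totally complex base
fields. -/
def StarkAlgebraicTotallyComplex : Prop :=
  ∀ (K L : Type) [Field K] [NumberField K] [Field L] [NumberField L] [Algebra K L] [IsGalois K L]
    (ψ : (L ≃ₐ[K] L) →* ℂˣ), IsTotallyComplex K →
    ∀ (S : Finset (HeightOneSpectrum (𝓞 K)))
      (φ : XQ L (aboveSet K L S) ≃ₗ[ℚ] QU L (aboveSet K L S))
      (Θ : XC L (aboveSet K L S) →ₗ[ℂ] XC L (aboveSet K L S)),
      IsPhiTheta K (aboveSet K L S) φ Θ →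
      ∃ m : ℕ, AlgMulAt (2 ^ m) (S : Set (HeightOneSpectrum (𝓞 K))) (aboveSet K L S) Θ (linRep ψ)

end StarkC
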