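import Pool.Agent.Stark.Stmts
import Pool.Agent.StarkT.Defs

/-!
# Stark's conjecture up to 2-power roots of unity: statements of the modules
-/

open NumberField IsDedekindDomain
open scoped TensorProduct Classical

namespace StarkC

/-! ### Relations -/

/-- A set of pairs of complex numbers closed under products and inverses, containing the pairs
`(q, q)`, `q` rational. -/
structure IsRel (R : Set (ℂ × ℂ)) : Prop where
  mul : ∀ x ∈ R, ∀ y ∈ R, x * y ∈ R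
  inv : ∀ x ∈ R, x⁻¹ ∈ R
  rat : ∀ q : ℚ, ((q : ℂ), (q : ℂ)) ∈ R

section

variable {K L : Type} [Field K] [NumberField K] [Field L] [NumberField L] [Algebra K L]

/-- `(A(χ)^M, A(χ')^M) ∈ R`. -/
def RelAt (R : Set (ℂ × ℂ)) (M : ℕ) (S : Set (HeightOneSpectrum (𝓞 K)))
    (T : Set (HeightOneSpectrum (𝓞 L))) (Θ : XC L T →ₗ[ℂ] XC L T)
    {V V' : Type} [AddCommGroup V] [Module ℂ V] [AddCommGroup V'] [Module ℂ V']
    (ρ : Representation ℂ (L ≃ₐ[K] L) V) (ρ' : Representation ℂ (L ≃ₐ[K] L) V') : Prop :=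
  ∃ f f' : ℂ → ℂ, IsArtinLMul M ρ.character S f ∧ IsArtinLMul M ρ'.character S f' ∧
    (Reg T ρ Θ ^ M / meromorphicTrailingCoeffAt f 0,
      Reg T ρ' Θ ^ M / meromorphicTrailingCoeffAt f' 0) ∈ R

end

/-- The relation for a linear character and its `σ`-conjugate, all `S`, `φ`, up to 2-powers. -/
def RelLinear (R : Set (ℂ × ℂ)) (σ : ℂ ≃+* ℂ) (K L : Type) [Field K] [NumberField K] [Field L]
    [NumberField L] [Algebra K L] (ψ : (L ≃ₐ[K] L) →* ℂˣ) : Prop :=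
  ∀ (S : Finset (HeightOneSpectrum (𝓞 K)))
    (φ : XQ L (aboveSet K L S) ≃ₗ[ℚ] QU L (aboveSet K L S))
    (Θ : XC L (aboveSet K L S) →ₗ[ℂ] XC L (aboveSet K L S)),
    IsPhiTheta K (aboveSet K L S) φ Θ →
    ∃ m : ℕ, RelAt R (2 ^ m) (S : Set (HeightOneSpectrum (𝓞 K))) (aboveSet K L S) Θ
      (linRep ψ) (linRep (twist σ ψ))

/-- The relation for linear characters over totally complex base fields. -/
def RelTC (R : Set (ℂ × ℂ)) (σ : ℂ ≃+* ℂ) : Prop :=
  ∀ (K L : Type) [Field K] [NumberField K] [Field L] [NumberField L] [Algebra K L] [IsGalois K L]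
    (ψ : (L ≃ₐ[K] L) →* ℂˣ), IsTotallyComplex K → RelLinear R σ K L ψ

/-! ### Group theory -/

/-- `p`-quasi-elementary group. -/
def IsQuasiElemP (p : ℕ) (G : Type) [Group G] : Prop :=
  ∃ C : Subgroup G, C.Normal ∧ IsCyclic C ∧ ¬ p ∣ Nat.card C ∧ ∃ n : ℕ, C.index = p ^ n

/-- Solomon's induction theorem for odd primes. -/
def Stmt_SOLT : Prop :=
  ∀ (G : Type) [Group G] [Fintype G], ∃ (M m : ℕ) (H : Fin m → Subgroup G) (n : Fin m → ℤ),
    (∀ i, ∃ p : ℕ, p.Prime ∧ Odd p ∧ IsQuasiElemP p (H i)) ∧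
    ∀ g, (2 ^ M : ℂ) = ∑ i, (n i : ℂ) * indFun (H i) (fun _ => 1) g

def Stmt_QET : Prop :=
  ∀ (p : ℕ) (G : Type) [Group G] [Finite G] (c : G), p.Prime → Odd p → IsQuasiElemP p G →
    c * c = 1 → ∀ u : G, u * c = c * u

/-- Permutation representations. -/
def Stmt_PERM : Prop :=
  ∀ (G : Type) [Group G] [Fintype G] (H : Subgroup G),
    ∃ (V : Type) (_ : AddCommGroup V) (_ : Module ℂ V) (_ : Module.Finite ℂ V)
      (ρ : Representation ℂ G V), ∀ g, ρ.character g = indFun H (fun _ => 1) g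

/-! ### Arithmetic -/

/-- The centraliser of a complex conjugation. -/
def Stmt_ART : Prop :=
  ∀ (K L : Type) [Field K] [NumberField K] [Field L] [NumberField L] [Algebra K L] [IsGalois K L],
    ∃ B : Finset L, ∀ (N : Type) [Field N] [NumberField N] [Algebra K N] [Algebra L N]
      [IsScalarTower K L N] [IsGalois K N],
      (∀ b ∈ B, ∃ y : N, y ^ 2 = algebraMap L N b) →
      ∀ (Φ : N →+* ℂ) (c u : N ≃ₐ[K] N), ComplexEmbedding.IsConj Φ c → u * c = c * u →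
        AlgEquiv.restrictNormalHom L u = (1 : L ≃ₐ[K] L) ∨
          AlgEquiv.restrictNormalHom L u = (AlgEquiv.restrictNormalHom L c : L ≃ₐ[K] L)

/-- `2^M χ` is a combination of characters induced from totally complex fields and of trivial
characters. -/
def Stmt_CMBT : Prop :=
  ∀ (K L : Type) [Field K] [NumberField K] [Field L] [NumberField L] [Algebra K L] [IsGalois K L]
    (V : Type) [AddCommGroup V] [Module ℂ V] [Module.Finite ℂ V]
    (ρ : Representation ℂ (L ≃ₐ[K] L) V),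
    ∃ (N : Type) (_ : Field N) (_ : NumberField N) (_ : Algebra K N)
      (_ : Algebra L N) (_ : IsScalarTower K L N) (_ : IsGalois K N)
      (M m : ℕ) (H : Fin m → Subgroup (N ≃ₐ[K] N)) (ψ : ∀ i, H i →* ℂˣ) (n : Fin m → ℤ),
      (∀ i, (∀ c ∈ H i, ¬ IsCC c) ∨ ψ i = 1) ∧
      ∀ g : N ≃ₐ[K] N, (2 ^ M : ℂ) * ρ.character (AlgEquiv.restrictNormalHom L g) =
        ∑ i, (n i : ℂ) * indFun (H i) (extZ (ψ i)) g

/-- If `χ` takes the value `r` at all complex conjugations then `2^M (χ - r)` is a combination of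
characters induced from totally complex fields. -/
def Stmt_CMBQ : Prop :=
  ∀ (K L : Type) [Field K] [NumberField K] [Field L] [NumberField L] [Algebra K L] [IsGalois K L]
    (V : Type) [AddCommGroup V] [Module ℂ V] [Module.Finite ℂ V]
    (ρ : Representation ℂ (L ≃ₐ[K] L) V) (r : ℤ),
    (∀ c : L ≃ₐ[K] L, IsCC c → ρ.character c = (r : ℂ)) →
    ∃ (N : Type) (_ : Field N) (_ : NumberField N) (_ : Algebra K N)
      (_ : Algebra L N) (_ : IsScalarTower K L N) (_ : IsGalois K N)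
      (M m : ℕ) (H : Fin m → Subgroup (N ≃ₐ[K] N)) (ψ : ∀ i, H i →* ℂˣ) (n : Fin m → ℤ),
      (∀ i, ∀ c ∈ H i, ¬ IsCC c) ∧
      ∀ g : N ≃ₐ[K] N, (2 ^ M : ℂ) * ρ.character (AlgEquiv.restrictNormalHom L g) =
        ∑ i, (n i : ℂ) * indFun (H i) (extZ (ψ i)) g + (2 ^ M : ℂ) * (r : ℂ)

/-- Existence of a finite extension of `K` which is Galois over `ℚ`. -/
def Stmt_GALQ : Prop :=
  ∀ (K : Type) [Field K] [NumberField K],
    ∃ (L : Type) (_ : Field L) (_ : NumberField L) (_ : Algebra K L), IsGalois ℚ L ∧ IsGalois K L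

/-- The subgroup `Gal(N/K)` of `Gal(N/E)`. -/
def fixK (E K N : Type) [Field E] [Field K] [Field N] [Algebra E N] [Algebra K N] :
    Subgroup (N ≃ₐ[E] N) where
  carrier := {g | ∀ x : K, g (algebraMap K N x) = algebraMap K N x}
  mul_mem' := by
    intro a b ha hb x
    show a (b (algebraMap K N x)) = _
    rw [hb x, ha x]
  one_mem' := fun _ => rfl
  inv_mem' := by
    intro a ha x
    show a.symm (algebraMap K N x) = _
    rw [AlgEquiv.symm_apply_eq, ha x]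

def Stmt_RES : Prop :=
  ∀ (E K L N : Type) [Field E] [NumberField E] [Field K] [NumberField K] [Field L] [NumberField L]
    [Field N] [NumberField N] [Algebra E K] [Algebra E L] [Algebra K L] [Algebra E N] [Algebra K N]
    [Algebra L N] [IsScalarTower E K L] [IsScalarTower E K N] [IsScalarTower E L N]
    [IsScalarTower K L N] [IsGalois E L] [IsGalois E N] (g : N ≃ₐ[E] N),
    indFun (fixK E K L) (fun _ => 1) (AlgEquiv.restrictNormalHom L g) =
      indFun (fixK E K N) (fun _ => 1) g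

/-- The value of the permutation character on all complex conjugations of `L/ℚ` is the same. -/
def Stmt_CCQ : Prop :=
  ∀ (L : Type) [Field L] [NumberField L] [IsGalois ℚ L] (H : Subgroup (L ≃ₐ[ℚ] L)),
    ∃ r : ℤ, ∀ c : L ≃ₐ[ℚ] L, IsCC c → indFun H (fun _ => 1) c = (r : ℂ)

/-! ### Induction -/

def Stmt_INDT : Prop :=
  ∀ (R : Set (ℂ × ℂ)), IsRel R → ∀ (σ : ℂ ≃+* ℂ)
    (K N : Type) [Field K] [NumberField K] [Field N] [NumberField N] [Algebra K N] [IsGalois K N]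
    (S : Finset (HeightOneSpectrum (𝓞 K)))
    (φ : XQ N (aboveSet K N S) ≃ₗ[ℚ] QU N (aboveSet K N S))
    (Θ : XC N (aboveSet K N S) →ₗ[ℂ] XC N (aboveSet K N S))
    (V V' : Type) [AddCommGroup V] [Module ℂ V] [Module.Finite ℂ V]
    [AddCommGroup V'] [Module ℂ V'] [Module.Finite ℂ V']
    (ρ : Representation ℂ (N ≃ₐ[K] N) V) (ρ' : Representation ℂ (N ≃ₐ[K] N) V')
    (M m : ℕ) (H : Fin m → Subgroup (N ≃ₐ[K] N)) (ψ : ∀ i, H i →* ℂˣ) (n : Fin m → ℤ),
    IsPhiTheta K (aboveSet K N S) φ Θ → (∀ g, ρ'.character g = σ (ρ.character g)) →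
    (∀ g, (2 ^ M : ℂ) * ρ.character g = ∑ i, (n i : ℂ) * indFun (H i) (extZ (ψ i)) g) →
    (∀ i, RelLinear R σ (IntermediateField.fixedField (H i)) N (liftChar (H i) (ψ i))) →
    ∃ k : ℕ, RelAt R (2 ^ k) (S : Set (HeightOneSpectrum (𝓞 K))) (aboveSet K N S) Θ ρ ρ'

/-- From the permutation character over `E` to the trivial character over `K`. -/
def Stmt_DOWN : Prop :=
  ∀ (R : Set (ℂ × ℂ)) (E K N : Type) [Field E] [NumberField E] [Field K] [NumberField K]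
    [Field N] [NumberField N] [Algebra E K] [Algebra E N] [Algebra K N] [IsScalarTower E K N]
    [IsGalois E N] [IsGalois K N]
    (S₀ : Finset (HeightOneSpectrum (𝓞 E))) (S : Finset (HeightOneSpectrum (𝓞 K))),
    aboveSet K N (S : Set (HeightOneSpectrum (𝓞 K))) = aboveSet E N S₀ →
    ∀ (φ : XQ N (aboveSet E N S₀) ≃ₗ[ℚ] QU N (aboveSet E N S₀))
      (Θ : XC N (aboveSet E N S₀) →ₗ[ℂ] XC N (aboveSet E N S₀)),
      IsPhiTheta E (aboveSet E N S₀) φ Θ →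
      ∀ (V : Type) [AddCommGroup V] [Module ℂ V] [Module.Finite ℂ V]
        (ρ : Representation ℂ (N ≃ₐ[E] N) V),
        (∀ g, ρ.character g = indFun (fixK E K N) (fun _ => 1) g) →
        ∀ M : ℕ, RelAt R M (S₀ : Set (HeightOneSpectrum (𝓞 E))) (aboveSet E N S₀) Θ ρ ρ →
          RelAt R M (S : Set (HeightOneSpectrum (𝓞 K))) (aboveSet E N S₀) Θ
            (linRep (1 : (N ≃ₐ[K] N) →* ℂˣ)) (linRep (1 : (N ≃ₐ[K] N) →* ℂˣ))

/-! ### The trivial character -/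

/-- The regulator of the trivial character descends to the base field. -/
def Stmt_DESC : Prop :=
  ∀ (K L : Type) [Field K] [NumberField K] [Field L] [NumberField L] [Algebra K L] [IsGalois K L]
    (S : Finset (HeightOneSpectrum (𝓞 K)))
    (φ : XQ L (aboveSet K L S) ≃ₗ[ℚ] QU L (aboveSet K L S))
    (Θ : XC L (aboveSet K L S) →ₗ[ℂ] XC L (aboveSet K L S)),
    IsPhiTheta K (aboveSet K L S) φ Θ →
    ∃ (φ' : XQ K (S : Set (HeightOneSpectrum (𝓞 K))) ≃ₗ[ℚ] QU K S) (Θ' : XC K S →ₗ[ℂ] XC K S),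
      IsPhiTheta K (S : Set (HeightOneSpectrum (𝓞 K))) φ' Θ' ∧
      Reg (K := K) (S : Set (HeightOneSpectrum (𝓞 K))) (linRep (1 : (K ≃ₐ[K] K) →* ℂˣ)) Θ' =
        Reg (K := K) (aboveSet K L S) (linRep (1 : (L ≃ₐ[K] L) →* ℂˣ)) Θ

def Stmt_REG1 : Prop :=
  ∀ (K : Type) [Field K] [NumberField K] (T : Set (HeightOneSpectrum (𝓞 K)))
    (Θ : XC K T →ₗ[ℂ] XC K T), T.Finite →
    Reg (K := K) T (linRep (1 : (K ≃ₐ[K] K) →* ℂˣ)) Θ = LinearMap.det Θ

/-- Enlarging `S` multiplies the regulator by a rational number and the `log N(v)`. -/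
def Stmt_REGS : Prop :=
  ∀ (K : Type) [Field K] [NumberField K] (S S₂ : Finset (HeightOneSpectrum (𝓞 K))), S ⊆ S₂ →
    ∀ (φ : XQ K (S : Set (HeightOneSpectrum (𝓞 K))) ≃ₗ[ℚ] QU K S) (Θ : XC K S →ₗ[ℂ] XC K S)
      (φ₂ : XQ K (S₂ : Set (HeightOneSpectrum (𝓞 K))) ≃ₗ[ℚ] QU K S₂)
      (Θ₂ : XC K S₂ →ₗ[ℂ] XC K S₂),
      IsPhiTheta K (S : Set (HeightOneSpectrum (𝓞 K))) φ Θ →
      IsPhiTheta K (S₂ : Set (HeightOneSpectrum (𝓞 K))) φ₂ Θ₂ →
      ∃ q : ℚ, q ≠ 0 ∧ LinearMap.det Θ₂ =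
        (q : ℂ) * (∏ v ∈ S₂ \ S, ((Real.log (Ideal.absNorm v.asIdeal) : ℝ) : ℂ)) *
          LinearMap.det Θ

def Stmt_EUL : Prop :=
  ∀ (K : Type) [Field K] [NumberField K] (S S₂ : Finset (HeightOneSpectrum (𝓞 K))), S ⊆ S₂ →
    ∀ s : ℂ, 1 < s.re →
      Complex.exp (logL (K := K) (L := K) (fun _ => 1) (S₂ : Set (HeightOneSpectrum (𝓞 K))) s) =
        Complex.exp (logL (K := K) (L := K) (fun _ => 1)
          (S : Set (HeightOneSpectrum (𝓞 K))) s) *
        ∏ v ∈ S₂ \ S, (1 - (Ideal.absNorm v.asIdeal : ℂ) ^ (-s))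

def Stmt_ZETA : Prop :=
  ∀ (K : Type) [Field K] [NumberField K], Module.finrank ℚ K = 1 → ∀ s : ℂ, 1 < s.re →
    Complex.exp (logL (K := K) (L := K) (fun _ => 1) (∅ : Set (HeightOneSpectrum (𝓞 K))) s) =
      riemannZeta s

def Stmt_MZ : Prop :=
  (∀ z, MeromorphicAt riemannZeta z) ∧ meromorphicTrailingCoeffAt riemannZeta 0 = -1 / 2

def Stmt_LEUL : Prop :=
  ∀ n : ℕ, 1 < n → (∀ z, MeromorphicAt (fun s : ℂ => 1 - (n : ℂ) ^ (-s)) z) ∧
    meromorphicTrailingCoeffAt (fun s : ℂ => 1 - (n : ℂ) ^ (-s)) 0 = ((Real.log n : ℝ) : ℂ)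

/-- Existence of `φ`. -/
def Stmt_EXPH : Prop :=
  ∀ (K L : Type) [Field K] [NumberField K] [Field L] [NumberField L] [Algebra K L] [IsGalois K L]
    (S : Finset (HeightOneSpectrum (𝓞 K))),
    ∃ (φ : XQ L (aboveSet K L S) ≃ₗ[ℚ] QU L (aboveSet K L S))
      (Θ : XC L (aboveSet K L S) →ₗ[ℂ] XC L (aboveSet K L S)),
      IsPhiTheta K (aboveSet K L S) φ Θ

/-- Changing `S` and `φ` for the trivial character over the base field. -/
def Stmt_STEP : Prop :=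
  ∀ (R : Set (ℂ × ℂ)), IsRel R →
  ∀ (K : Type) [Field K] [NumberField K] (S S₂ : Finset (HeightOneSpectrum (𝓞 K))), S ⊆ S₂ →
    ∀ (φ : XQ K (S : Set (HeightOneSpectrum (𝓞 K))) ≃ₗ[ℚ] QU K S) (Θ : XC K S →ₗ[ℂ] XC K S)
      (φ₂ : XQ K (S₂ : Set (HeightOneSpectrum (𝓞 K))) ≃ₗ[ℚ] QU K S₂)
      (Θ₂ : XC K S₂ →ₗ[ℂ] XC K S₂),
      IsPhiTheta K (S : Set (HeightOneSpectrum (𝓞 K))) φ Θ →
      IsPhiTheta K (S₂ : Set (HeightOneSpectrum (𝓞 K))) φ₂ Θ₂ →
      ∀ M : ℕ, RelAt (K := K) R M (S₂ : Set (HeightOneSpectrum (𝓞 K)))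
          (S₂ : Set (HeightOneSpectrum (𝓞 K))) Θ₂
          (linRep (1 : (K ≃ₐ[K] K) →* ℂˣ)) (linRep (1 : (K ≃ₐ[K] K) →* ℂˣ)) →
        RelAt (K := K) R M (S : Set (HeightOneSpectrum (𝓞 K)))
          (S : Set (HeightOneSpectrum (𝓞 K))) Θ
          (linRep (1 : (K ≃ₐ[K] K) →* ℂˣ)) (linRep (1 : (K ≃ₐ[K] K) →* ℂˣ))

/-- The trivial character over a field of degree 1. -/
def Stmt_QC : Prop :=
  ∀ (R : Set (ℂ × ℂ)), IsRel R → ∀ (σ : ℂ ≃+* ℂ)
    (K L : Type) [Field K] [NumberField K] [Field L] [NumberField L] [Algebra K L] [IsGalois K L],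
    Module.finrank ℚ K = 1 → RelLinear R σ K L 1

/-- The trivial character over all number fields. -/
def Stmt_TRIVT : Prop :=
  ∀ (R : Set (ℂ × ℂ)), IsRel R → ∀ (σ : ℂ ≃+* ℂ), RelTC R σ →
  ∀ (K L : Type) [Field K] [NumberField K] [Field L] [NumberField L] [Algebra K L] [IsGalois K L],
    RelLinear R σ K L 1

/-- The reduction, for a general relation. -/
def Stmt_RMAIN : Prop :=
  ∀ (R : Set (ℂ × ℂ)), IsRel R → ∀ (σ : ℂ ≃+* ℂ), RelTC R σ →
  ∀ (K L : Type) [Field K] [NumberField K] [Field L] [NumberField L] [Algebra K L] [IsGalois K L]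
    (S : Finset (HeightOneSpectrum (𝓞 K)))
    (φ : XQ L (aboveSet K L S) ≃ₗ[ℚ] QU L (aboveSet K L S))
    (Θ : XC L (aboveSet K L S) →ₗ[ℂ] XC L (aboveSet K L S))
    (V V' : Type) [AddCommGroup V] [Module ℂ V] [Module.Finite ℂ V]
    [AddCommGroup V'] [Module ℂ V'] [Module.Finite ℂ V']
    (ρ : Representation ℂ (L ≃ₐ[K] L) V) (ρ' : Representation ℂ (L ≃ₐ[K] L) V'),
    IsPhiTheta K (aboveSet K L S) φ Θ → (∀ g, ρ'.character g = σ (ρ.character g)) →
    ∃ m : ℕ, RelAt R (2 ^ m) (S : Set (HeightOneSpectrum (𝓞 K))) (aboveSet K L S) Θ ρ ρ'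

/-- The final theorem. -/
def Stmt_TMAIN : Prop :=
  (StarkUpToTwo ↔ StarkUpToTwoTotallyComplex) ∧ (StarkTotallyComplex → StarkUpToTwo) ∧
    (StarkAlgebraic ↔ StarkAlgebraicTotallyComplex)

end StarkC
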