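import Pool.Agent.StarkT.Stmts
import Pool.Agent.Stark.AR1

/-!
# The centraliser of a complex conjugation (module ART)
-/

open NumberField
open scoped Classical

namespace StarkC.ART

/-- An element of the subgroup generated by an involution is trivial or the involution. -/
theorem mem_zpowers_of_sq {G : Type} [Group G] {c x : G} (hc : c * c = 1)
    (hx : x ∈ Subgroup.zpowers c) : x = 1 ∨ x = c := by
  obtain ⟨n, rfl⟩ := Subgroup.mem_zpowers_iff.mp hx
  have h2 : c ^ (2 : ℤ) = 1 := by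
    rw [zpow_ofNat, sq, hc]
  rcases Int.even_or_odd' n with ⟨k, hk | hk⟩
  · left
    rw [hk, zpow_mul, h2, one_zpow]
  · right
    rw [hk, zpow_add, zpow_mul, h2, one_zpow, one_mul, zpow_one]

end StarkC.ART

namespace StarkC

open StarkC.AR1 StarkC.ART

theorem ART_thm : StarkC.Stmt_ART := by
  intro K L _ _ _ _ _ _
  choose θ hθ using fun c0 : L ≃ₐ[K] L => exists_theta K L (Subgroup.zpowers c0)
  refine ⟨(Finset.univ : Finset ((L ≃ₐ[K] L) × ((L →+* ℂ) × (L →+* ℂ)))).image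
    (fun p => θ p.1 - ((qb (p.2.1 (θ p.1)).re (p.2.2 (θ p.1)).re : ℚ) : L)), ?_⟩
  intro N _ _ _ _ _ _ hB Φ c u hconj huc
  have hcc : c * c = 1 := by
    ext x
    apply Φ.injective
    have h1 : Φ (c (c x)) = star (Φ (c x)) := hconj.eq (c x)
    have h2 : Φ (c x) = star (Φ x) := hconj.eq x
    rw [h2, star_star] at h1
    exact h1
  set c0 : L ≃ₐ[K] L := AlgEquiv.restrictNormalHom L c with hc0
  have hc0c0 : c0 * c0 = 1 := by
    rw [hc0, ← map_mul, hcc, map_one]
  have hcθ : c0 (θ c0) = θ c0 := (hθ c0 c0).mpr (Subgroup.mem_zpowers c0)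
  apply mem_zpowers_of_sq hc0c0
  by_contra hne
  have huθ : (AlgEquiv.restrictNormalHom L u) (θ c0) ≠ θ c0 := fun h => hne ((hθ c0 _).mp h)
  have hres : ∀ (g : N ≃ₐ[K] N) (x : L),
      algebraMap L N ((AlgEquiv.restrictNormalHom L g) x) = g (algebraMap L N x) :=
    fun g x => AlgEquiv.restrictNormal_commutes g L x
  have hcu' : ∀ x : N, c (u x) = u (c x) := fun x => by
    have := DFunLike.congr_fun huc x
    exact this.symm
  set t : N := algebraMap L N (θ c0) with ht
  have hct : c t = t := by rw [ht, ← hres, ← hc0, hcθ]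
  have hreal : ∀ x : N, c x = x → ((Φ x).re : ℂ) = Φ x := by
    intro x hx
    have h1 : Φ (c x) = (starRingEnd ℂ) (Φ x) := hconj.eq x
    rw [hx] at h1
    exact Complex.conj_eq_iff_re.mp h1.symm
  have hne2 : (Φ t).re ≠ (Φ (u t)).re := by
    intro h
    have h1 : Φ t = Φ (u t) := by
      rw [← hreal t hct, ← hreal (u t) (by rw [hcu', hct]), h]
    have h2 := Φ.injective h1
    rw [ht, ← hres] at h2
    exact huθ ((algebraMap L N).injective h2).symm
  have key : ∀ τ₁ τ₂ : L →+* ℂ, ∃ b : N,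
      b ^ 2 = t - ((qb (τ₁ (θ c0)).re (τ₂ (θ c0)).re : ℚ) : N) := by
    intro τ₁ τ₂
    obtain ⟨y, hy⟩ := hB (θ c0 - ((qb (τ₁ (θ c0)).re (τ₂ (θ c0)).re : ℚ) : L))
      (Finset.mem_image.mpr ⟨(c0, (τ₁, τ₂)), Finset.mem_univ _, rfl⟩)
    refine ⟨y, ?_⟩
    rw [hy, map_sub, map_ratCast]
  rcases lt_or_gt_of_ne hne2 with hlt | hlt
  · obtain ⟨b, hb⟩ := key (Φ.comp (algebraMap L N))
      ((Φ.comp (u : N →+* N)).comp (algebraMap L N))
    have hs := qb_spec hlt
    exact core Φ c u hconj huc t hct _ b hb (Or.inl hs)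
  · obtain ⟨b, hb⟩ := key ((Φ.comp (u : N →+* N)).comp (algebraMap L N))
      (Φ.comp (algebraMap L N))
    have hs := qb_spec hlt
    exact core Φ c u hconj huc t hct _ b hb (Or.inr hs)

end StarkC
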