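import Pool.Agent.StarkT.Stmts
import Pool.Agent.StarkT.EUL

/-!
# Module ZETA: the zeta function of a field of degree 1
-/

open NumberField IsDedekindDomain
open scoped TensorProduct Classical

namespace StarkC

namespace ZETA

section

variable {K : Type} [Field K] [NumberField K]

theorem absNorm_span (h : Module.finrank ℚ K = 1) (p : ℕ) :
    Ideal.absNorm (Ideal.span {((p : ℕ) : 𝓞 K)}) = p := by
  rw [Ideal.absNorm_span_natCast, RingOfIntegers.rank, h, pow_one]

theorem span_isPrime (h : Module.finrank ℚ K = 1) {p : ℕ} (hp : p.Prime) :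
    (Ideal.span {((p : ℕ) : 𝓞 K)}).IsPrime := by
  apply Ideal.isPrime_of_irreducible_absNorm
  rw [absNorm_span h]
  exact hp

/-- The prime of `K` above a prime number. -/
noncomputable def pr (h : Module.finrank ℚ K = 1) (p : Nat.Primes) : HeightOneSpectrum (𝓞 K) where
  asIdeal := Ideal.span {((p : ℕ) : 𝓞 K)}
  isPrime := span_isPrime h p.2
  ne_bot := by
    intro h0
    have h1 := absNorm_span h (p : ℕ)
    rw [h0, Ideal.absNorm_bot] at h1
    exact p.2.ne_zero h1.symm

theorem absNorm_pr (h : Module.finrank ℚ K = 1) (p : Nat.Primes) :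
    Ideal.absNorm (pr h p).asIdeal = (p : ℕ) := absNorm_span h p

theorem pr_bijective (h : Module.finrank ℚ K = 1) :
    Function.Bijective (pr (K := K) h) := by
  constructor
  · intro p q hpq
    apply Subtype.ext
    have h1 := absNorm_pr h p
    rw [hpq, absNorm_pr] at h1
    exact h1.symm
  · intro v
    have hv := v.isPrime
    have hmax : v.asIdeal.IsMaximal := hv.isMaximal v.ne_bot
    have h0 : ((Ideal.absNorm v.asIdeal : ℕ) : 𝓞 K) ∈ v.asIdeal := Ideal.absNorm_mem _
    obtain ⟨f, hf1, -, hf⟩ := LA.absNorm_eq v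
    have hp := LA.rp_prime v
    have hmem : ((LA.rp v : ℕ) : 𝓞 K) ∈ v.asIdeal := by
      rw [hf, Nat.cast_pow] at h0
      exact hv.mem_of_pow_mem _ h0
    refine ⟨⟨LA.rp v, hp⟩, ?_⟩
    apply HeightOneSpectrum.ext
    have h2 : Ideal.span {((LA.rp v : ℕ) : 𝓞 K)} ≤ v.asIdeal := by
      rw [Ideal.span_singleton_le_iff_mem]
      exact hmem
    have h3 : (pr h ⟨LA.rp v, hp⟩).asIdeal.IsMaximal :=
      (pr h ⟨LA.rp v, hp⟩).isPrime.isMaximal (pr h ⟨LA.rp v, hp⟩).ne_bot
    exact h3.eq_of_le hmax.ne_top h2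

end

end ZETA

theorem ZETA_thm : Stmt_ZETA := by
  intro K _ _ h s hs
  rw [← riemannZeta_eulerProduct_exp_log hs, EUL.logL_one]
  congr 1
  have h1 : ∀ p : HeightOneSpectrum (𝓞 K) × ℕ,
      EUL.ft (∅ : Set (HeightOneSpectrum (𝓞 K))) s p = EUL.tm s p :=
    fun p => EUL.ft_neg (fun h => h)
  rw [tsum_congr h1, (EUL.summable_tm (K := K) s hs).tsum_prod,
    ← (Equiv.ofBijective _ (ZETA.pr_bijective h)).tsum_eq]
  refine tsum_congr fun p => ?_
  rw [Equiv.ofBijective_apply, EUL.tsum_local s hs, ZETA.absNorm_pr]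

end StarkC
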