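import Pool.Agent.StarkT.ALLZ
import Pool.Agent.StarkT.ZETA

/-!
# Theorem B: the closed theorems
-/

namespace StarkC

namespace ALLT

theorem rmain_all : Stmt_RMAIN := rmain ZETA_thm

theorem tmain_all : Stmt_TMAIN := TMAIN_thm rmain_all

end ALLT

end StarkC
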