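import Pool.Agent.Stark.PBridge
import Pool.Agent.StarkT.MULR
import Pool.Agent.StarkT.ALL

/-!
# Bridge between the two forms of the definitions: 2-power multiples
-/

open NumberField IsDedekindDomain
open scoped TensorProduct Classical

namespace StarkB

section

variable {K L : Type} [Field K] [NumberField K] [Field L] [NumberField L] [Algebra K L]
  [IsGalois K L]

theorem starkAt_mul_of (S : Finset (HeightOneSpectrum (𝓞 K)))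
    {V V' : Type} [AddCommGroup V] [Module ℂ V] [Module.Finite ℂ V] [AddCommGroup V']
    [Module ℂ V'] [Module.Finite ℂ V']
    (ρ : Representation ℂ (L ≃ₐ[K] L) V) (ρ' : Representation ℂ (L ≃ₐ[K] L) V')
    (σ : ℂ ≃+* ℂ) (M : ℕ)
    (φ : StarkC.XQ L (StarkC.aboveSet K L S) ≃ₗ[ℚ] StarkC.QU L (StarkC.aboveSet K L S))
    (Θ : StarkC.XC L (StarkC.aboveSet K L S) →ₗ[ℂ] StarkC.XC L (StarkC.aboveSet K L S))
    (hφ : StarkC.IsPhiTheta K (StarkC.aboveSet K L S) φ Θ)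
    (Θ' : ((L → ℝ) →₀ ℂ) →ₗ[ℂ] ((L → ℝ) →₀ ℂ))
    (h1 : ∀ x : StarkC.XC L (StarkC.aboveSet K L S), Θ' x.val = (Θ x).val) :
    StarkP.StarkAt (S : Set (HeightOneSpectrum (𝓞 K))) (StarkC.aboveSet K L S) Θ'
      (StarkP.mulRep M ρ) (StarkP.mulRep M ρ') σ ↔
    StarkC.StarkMulAt M (S : Set (HeightOneSpectrum (𝓞 K))) (StarkC.aboveSet K L S) Θ ρ ρ' σ := by
  rw [← StarkC.MULR.starkAt_mulRep S φ Θ V V' ρ ρ' σ M hφ]
  unfold StarkP.StarkAt StarkC.StarkAt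
  rw [Reg_eq (StarkP.mulRep M ρ) Θ Θ' h1, Reg_eq (StarkP.mulRep M ρ') Θ Θ' h1]
  exact Iff.rfl

/-- The two forms of the assertion for multiples with a multiplier in `P`. -/
theorem starkMul_iff (P : ℕ → Prop) (S : Finset (HeightOneSpectrum (𝓞 K)))
    {V V' : Type} [AddCommGroup V] [Module ℂ V] [Module.Finite ℂ V] [AddCommGroup V']
    [Module ℂ V'] [Module.Finite ℂ V']
    (ρ : Representation ℂ (L ≃ₐ[K] L) V) (ρ' : Representation ℂ (L ≃ₐ[K] L) V')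
    (σ : ℂ ≃+* ℂ) :
    (∀ Θ' : ((L → ℝ) →₀ ℂ) →ₗ[ℂ] ((L → ℝ) →₀ ℂ),
      StarkP.IsTheta K (StarkC.aboveSet K L S) Θ' →
      ∃ M : ℕ, P M ∧ StarkP.StarkAt (S : Set (HeightOneSpectrum (𝓞 K))) (StarkC.aboveSet K L S) Θ'
        (StarkP.mulRep M ρ) (StarkP.mulRep M ρ') σ) ↔
    ∀ (φ : StarkC.XQ L (StarkC.aboveSet K L S) ≃ₗ[ℚ] StarkC.QU L (StarkC.aboveSet K L S))
      (Θ : StarkC.XC L (StarkC.aboveSet K L S) →ₗ[ℂ] StarkC.XC L (StarkC.aboveSet K L S)),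
      StarkC.IsPhiTheta K (StarkC.aboveSet K L S) φ Θ →
      ∃ M : ℕ, P M ∧ StarkC.StarkMulAt M (S : Set (HeightOneSpectrum (𝓞 K)))
        (StarkC.aboveSet K L S) Θ ρ ρ' σ := by
  have hT := StarkC.STB_thm K L (S : Set (HeightOneSpectrum (𝓞 K)))
  have hfin : (StarkC.aboveSet K L (S : Set (HeightOneSpectrum (𝓞 K)))).Finite :=
    StarkC.IND.aboveSet_finite _ S.finite_toSet
  constructor
  · intro h φ Θ hφ
    obtain ⟨Θ', hΘ'⟩ := LinearMap.exists_extend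
      (p := StarkC.XCsub L (StarkC.aboveSet K L (S : Set (HeightOneSpectrum (𝓞 K)))))
      (StarkC.XC.val ∘ₗ Θ :
        StarkC.XCsub L (StarkC.aboveSet K L (S : Set (HeightOneSpectrum (𝓞 K)))) →ₗ[ℂ]
          ((L → ℝ) →₀ ℂ))
    have h1 : ∀ x : StarkC.XC L (StarkC.aboveSet K L (S : Set (HeightOneSpectrum (𝓞 K)))),
      Θ' x.val = (Θ x).val := fun x => LinearMap.congr_fun hΘ' x
    obtain ⟨M, hM, h2⟩ := h Θ' (isTheta_of hT hfin φ Θ hφ Θ' h1)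
    exact ⟨M, hM, (starkAt_mul_of S ρ ρ' σ M φ Θ hφ Θ' h1).1 h2⟩
  · intro h Θ' hΘ'
    obtain ⟨φ, Θ, hφ, h1⟩ := exists_phiTheta hT hfin (actU_mem' _) Θ' hΘ'
    obtain ⟨M, hM, h2⟩ := h φ Θ hφ
    exact ⟨M, hM, (starkAt_mul_of S ρ ρ' σ M φ Θ hφ Θ' h1).2 h2⟩

theorem starkRepTwo_iff
    {V V' : Type} [AddCommGroup V] [Module ℂ V] [Module.Finite ℂ V] [AddCommGroup V']
    [Module ℂ V'] [Module.Finite ℂ V']
    (ρ : Representation ℂ (L ≃ₐ[K] L) V) (ρ' : Representation ℂ (L ≃ₐ[K] L) V')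
    (σ : ℂ ≃+* ℂ) :
    StarkP.StarkRepTwo ρ ρ' σ ↔
    ∀ (S : Finset (HeightOneSpectrum (𝓞 K)))
      (φ : StarkC.XQ L (StarkC.aboveSet K L S) ≃ₗ[ℚ] StarkC.QU L (StarkC.aboveSet K L S))
      (Θ : StarkC.XC L (StarkC.aboveSet K L S) →ₗ[ℂ] StarkC.XC L (StarkC.aboveSet K L S)),
      StarkC.IsPhiTheta K (StarkC.aboveSet K L S) φ Θ →
      ∃ m : ℕ, StarkC.StarkMulAt (2 ^ m) (S : Set (HeightOneSpectrum (𝓞 K)))
        (StarkC.aboveSet K L S) Θ ρ ρ' σ := by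
  unfold StarkP.StarkRepTwo
  refine forall_congr' fun S => ?_
  have h := starkMul_iff (fun M => ∃ m : ℕ, M = 2 ^ m) S ρ ρ' σ
  rw [aboveSet_eq]
  constructor
  · intro h1 φ Θ hφ
    obtain ⟨M, ⟨m, rfl⟩, h3⟩ := h.1 (fun Θ' hΘ' => by
      obtain ⟨m, hm⟩ := h1 Θ' hΘ'
      exact ⟨2 ^ m, ⟨m, rfl⟩, hm⟩) φ Θ hφ
    exact ⟨m, h3⟩
  · intro h1 Θ' hΘ'
    obtain ⟨M, ⟨m, rfl⟩, h3⟩ := h.2 (fun φ Θ hφ => by
      obtain ⟨m, hm⟩ := h1 φ Θ hφ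
      exact ⟨2 ^ m, ⟨m, rfl⟩, hm⟩) Θ' hΘ'
    exact ⟨m, h3⟩

end

theorem starkConjectureTwo_iff : StarkP.StarkConjectureTwo ↔ StarkC.StarkUpToTwo := by
  constructor
  · intro h K L _ _ _ _ _ _ S φ Θ V V' _ _ _ _ _ _ ρ ρ' σ hφ hχ
    exact (starkRepTwo_iff ρ ρ' σ).1 (h K L V V' ρ ρ' σ hχ) S φ Θ hφ
  · intro h K L V V' _ _ _ _ _ _ _ _ _ _ _ _ ρ ρ' σ hχ
    exact (starkRepTwo_iff ρ ρ' σ).2 fun S φ Θ hφ => h K L S φ Θ V V' ρ ρ' σ hφ hχ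

theorem starkTotallyComplexTwo_iff :
    StarkP.StarkTotallyComplexTwo ↔ StarkC.StarkUpToTwoTotallyComplex := by
  constructor
  · intro h K L _ _ _ _ _ _ ψ hK S φ Θ σ hφ
    exact (starkRepTwo_iff (StarkP.linRep ψ) (StarkP.linRep (StarkP.twist σ ψ)) σ).1
      (h K L hK ψ σ) S φ Θ hφ
  · intro h K L _ _ _ _ _ _ hK ψ σ
    exact (starkRepTwo_iff (StarkP.linRep ψ) (StarkP.linRep (StarkP.twist σ ψ)) σ).2
      fun S φ Θ hφ => h K L ψ hK S φ Θ σ hφ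

end StarkB
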