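import Pool.Agent.StarkT.StmtsX
import Pool.Agent.StarkT.TRIVT
import Pool.Agent.StarkT.INDT

/-!
# Multipliers: the trivial character over all number fields
-/

open NumberField IsDedekindDomain
open scoped TensorProduct Classical

namespace StarkC

namespace TRIVX

theorem relLinP_cast {F N : Type} [Field F] [NumberField F] [Field N] [NumberField N]
    [Algebra F N] (R : Set (ℂ × ℂ)) (P : ℕ → Prop) (k : ℕ) (σ : ℂ ≃+* ℂ) (ψ : (N ≃ₐ[F] N) →* ℂˣ)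
    (h : RelLinP R P k σ F N ψ)
    (S : Finset (HeightOneSpectrum (𝓞 F))) (T : Set (HeightOneSpectrum (𝓞 N)))
    (hT : aboveSet F N S = T) (φ : XQ N T ≃ₗ[ℚ] QU N T) (Θ : XC N T →ₗ[ℂ] XC N T)
    (hφ : IsPhiTheta F T φ Θ) :
    ∃ M : ℕ, P M ∧ RelAt R (k * M) (S : Set (HeightOneSpectrum (𝓞 F))) T Θ (linRep ψ)
      (linRep (twist σ ψ)) := by
  subst hT
  exact h S φ Θ hφ

theorem relLin_cast {F N : Type} [Field F] [NumberField F] [Field N] [NumberField N]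
    [Algebra F N] (R : Set (ℂ × ℂ)) (k : ℕ) (σ : ℂ ≃+* ℂ) (ψ : (N ≃ₐ[F] N) →* ℂˣ)
    (h : RelLin R k σ F N ψ)
    (S : Finset (HeightOneSpectrum (𝓞 F))) (T : Set (HeightOneSpectrum (𝓞 N)))
    (hT : aboveSet F N S = T) (φ : XQ N T ≃ₗ[ℚ] QU N T) (Θ : XC N T →ₗ[ℂ] XC N T)
    (hφ : IsPhiTheta F T φ Θ) :
    RelAt R k (S : Set (HeightOneSpectrum (𝓞 F))) T Θ (linRep ψ)
      (linRep (twist σ ψ)) := by
  subst hT
  exact h S φ Θ hφ

theorem prod_mem {m : ℕ} (P : ℕ → Prop) (h1 : P 1) (hm : ∀ a b, P a → P b → P (a * b))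
    (k : Fin m → ℕ) (hk : ∀ i, P (k i)) (s : Finset (Fin m)) : P (∏ i ∈ s, k i) := by
  induction s using Finset.induction_on with
  | empty => rwa [Finset.prod_empty]
  | insert i s hi ih =>
    rw [Finset.prod_insert hi]
    exact hm _ _ (hk i) ih

theorem core (hEXPH : Stmt_EXPH) (hINDX : Stmt_INDX) (hQC : Stmt_QCS) (hDOWN : Stmt_DOWN)
    (hDESC : Stmt_DESC) (hLINF : Stmt_LINF)
    (R : Set (ℂ × ℂ)) (hR : IsRel R) (σ : ℂ ≃+* ℂ) (P : ℕ → Prop) (hP1 : P 1)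
    (hPm : ∀ a b, P a → P b → P (a * b)) (hTC : RelTCP R P σ)
    (E K N : Type) [Field E] [NumberField E] [Field K] [NumberField K]
    [Field N] [NumberField N] [Algebra E K] [Algebra E N] [Algebra K N] [IsScalarTower E K N]
    [IsGalois E N] [IsGalois K N] (hE : Module.finrank ℚ E = 1)
    (V : Type) [AddCommGroup V] [Module ℂ V] [Module.Finite ℂ V]
    (ρ : Representation ℂ (N ≃ₐ[E] N) V)
    (hρ : ∀ g, ρ.character g = indFun (fixK E K N) (fun _ => 1) g)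
    (m : ℕ) (H : Fin m → Subgroup (N ≃ₐ[E] N)) (ψ : ∀ i, H i →* ℂˣ) (n : Fin m → ℤ) (r : ℤ)
    (hH : ∀ i, ∀ c ∈ H i, ¬ IsCC c)
    (hχ : ∀ g : N ≃ₐ[E] N, (2 : ℂ) * ρ.character g =
      ∑ i, (n i : ℂ) * indFun (H i) (extZ (ψ i)) g + 2 * (r : ℂ))
    (S : Finset (HeightOneSpectrum (𝓞 K))) :
    ∃ (S₂ : Finset (HeightOneSpectrum (𝓞 K)))
      (φ' : XQ K (S₂ : Set (HeightOneSpectrum (𝓞 K))) ≃ₗ[ℚ] QU K S₂)
      (Θ' : XC K S₂ →ₗ[ℂ] XC K S₂) (k : ℕ), S ⊆ S₂ ∧ P k ∧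
      IsPhiTheta K (S₂ : Set (HeightOneSpectrum (𝓞 K))) φ' Θ' ∧
      RelAt (K := K) R (2 * k) (S₂ : Set (HeightOneSpectrum (𝓞 K)))
          (S₂ : Set (HeightOneSpectrum (𝓞 K))) Θ'
          (linRep (1 : (K ≃ₐ[K] K) →* ℂˣ)) (linRep (1 : (K ≃ₐ[K] K) →* ℂˣ)) := by
  set S₀ : Finset (HeightOneSpectrum (𝓞 E)) := S.image fun v => v.under (𝓞 E) with hS₀
  have hfin : (aboveSet E K (S₀ : Set (HeightOneSpectrum (𝓞 E)))).Finite :=
    IND.aboveSet_finite _ S₀.finite_toSet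
  set S₂ : Finset (HeightOneSpectrum (𝓞 K)) := hfin.toFinset with hS₂
  have hab : aboveSet K N (S₂ : Set (HeightOneSpectrum (𝓞 K))) =
      aboveSet E N (S₀ : Set (HeightOneSpectrum (𝓞 E))) := by
    ext w
    simp only [aboveSet, Set.mem_ofPred_eq, hS₂, Set.Finite.coe_toFinset]
    rw [TRIVT.under_under E K N w]
  have hsub : S ⊆ S₂ := by
    intro v hv
    rw [hS₂, Set.Finite.mem_toFinset]
    show v.under (𝓞 E) ∈ (S₀ : Set (HeightOneSpectrum (𝓞 E)))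
    rw [hS₀, Finset.mem_coe]
    exact Finset.mem_image_of_mem _ hv
  obtain ⟨φ₀, Θ₀, hφ₀⟩ := hEXPH E N S₀
  -- the instances for the characters over totally complex fields
  have hinst : ∀ i, ∃ (Mi : ℕ)
      (S' : Finset (HeightOneSpectrum (𝓞 (IntermediateField.fixedField (H i))))),
      P Mi ∧ aboveSet (IntermediateField.fixedField (H i)) N S' = aboveSet E N S₀ ∧
      RelAt R Mi (S' : Set (HeightOneSpectrum (𝓞 (IntermediateField.fixedField (H i)))))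
        (aboveSet E N S₀) Θ₀ (linRep (liftChar (H i) (ψ i)))
        (linRep (twist σ (liftChar (H i) (ψ i)))) := by
    intro i
    obtain ⟨S', hS'⟩ := IND.exists_S' (IntermediateField.fixedField (H i))
      (S₀ : Set (HeightOneSpectrum (𝓞 E))) S₀.finite_toSet
    obtain ⟨Mi, hMi, hrel⟩ := relLinP_cast R P 1 σ (liftChar (H i) (ψ i))
      (hTC (IntermediateField.fixedField (H i)) N (liftChar (H i) (ψ i))
        (GOOD.totallyComplex (H i) (hH i))) S' _ hS' φ₀ Θ₀ (IND.isPhiTheta_sub _ hφ₀)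
    rw [one_mul] at hrel
    exact ⟨Mi, S', hMi, hS', hrel⟩
  choose Mi Si hMi hSi hrel using hinst
  set Q : ℕ := ∏ i, Mi i with hQ
  set q : Fin m → ℕ := fun i => ∏ j ∈ Finset.univ.erase i, Mi j with hq
  have hk : ∀ i, Q = q i * Mi i := fun i => by
    rw [hQ, hq, mul_comm]
    exact (Finset.mul_prod_erase _ _ (Finset.mem_univ i)).symm
  have hPQ : P Q := prod_mem P hP1 hPm Mi hMi _
  -- the combination including the trivial character
  set H' : Fin (m + 1) → Subgroup (N ≃ₐ[E] N) := Fin.cons ⊤ H with hH'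
  set ψ' : ∀ i : Fin (m + 1), H' i →* ℂˣ :=
    Fin.cons (α := fun i : Fin (m + 1) => H' i →* ℂˣ) (1 : (⊤ : Subgroup (N ≃ₐ[E] N)) →* ℂˣ) ψ
    with hψ'
  set n' : Fin (m + 1) → ℤ := Fin.cons r (fun i => n i * (q i : ℤ)) with hn'
  set k' : Fin (m + 1) → ℕ := Fin.cons (2 * Q) Mi with hk'
  have hind : RelAt R (2 * Q) (S₀ : Set (HeightOneSpectrum (𝓞 E)))
      (aboveSet E N S₀) Θ₀ ρ ρ := by
    refine hINDX R hR σ E N S₀ φ₀ Θ₀ V V ρ ρ (2 * Q) (m + 1) H' ψ' n' k' hφ₀ ?_ ?_ ?_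
    · intro g
      rw [hρ g]
      exact TRIVT.indFun_one_fix σ _ g
    · intro g
      rw [Fin.sum_univ_succ]
      have h0 : ((n' 0 : ℤ) : ℂ) * (((k' 0 : ℕ) : ℂ) * indFun (H' 0) (extZ (ψ' 0)) g) =
          (r : ℂ) * (2 * (Q : ℂ)) := by
        have h1 : indFun (H' 0) (extZ (ψ' 0)) g = 1 := TRIVT.indFun_top g
        rw [h1, hn', hk', Fin.cons_zero, Fin.cons_zero]
        push_cast
        ring
      have h2 : ∀ i : Fin m, ((n' i.succ : ℤ) : ℂ) * (((k' i.succ : ℕ) : ℂ) *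
          indFun (H' i.succ) (extZ (ψ' i.succ)) g) =
          (Q : ℂ) * ((n i : ℂ) * indFun (H i) (extZ (ψ i)) g) := by
        intro i
        have h3 : indFun (H' i.succ) (extZ (ψ' i.succ)) g = indFun (H i) (extZ (ψ i)) g := rfl
        rw [h3, hn', hk', Fin.cons_succ, Fin.cons_succ, hk i]
        push_cast
        ring
      rw [h0, Finset.sum_congr rfl fun i _ => h2 i, ← Finset.mul_sum]
      have h4 := hχ g
      have h5 : (((2 * Q : ℕ) : ℂ)) * ρ.character g = (Q : ℂ) * ((2 : ℂ) * ρ.character g) := by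
        push_cast
        ring
      rw [h5, h4]
      ring
    · intro i
      refine Fin.cases ?_ ?_ i
      · have h1 : Module.finrank ℚ (IntermediateField.fixedField
            (⊤ : Subgroup (N ≃ₐ[E] N))) = 1 := by
          rw [← Module.finrank_mul_finrank ℚ E (IntermediateField.fixedField
            (⊤ : Subgroup (N ≃ₐ[E] N))), hE, one_mul, IsGalois.fixedField_top,
            IntermediateField.finrank_bot]
        obtain ⟨S', hS'⟩ := IND.exists_S' (IntermediateField.fixedField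
          (⊤ : Subgroup (N ≃ₐ[E] N))) (S₀ : Set (HeightOneSpectrum (𝓞 E))) S₀.finite_toSet
        exact ⟨S', hS', relLin_cast R (2 * Q) σ _
          (hQC R hR σ (2 * Q) (IntermediateField.fixedField (⊤ : Subgroup (N ≃ₐ[E] N))) N h1)
          S' _ hS' φ₀ Θ₀ (IND.isPhiTheta_sub _ hφ₀)⟩
      · intro i
        exact ⟨Si i, hSi i, hrel i⟩
  have hdown := hDOWN R E K N S₀ S₂ hab φ₀ Θ₀ hφ₀ V ρ hρ (2 * Q) hind
  have hφK : IsPhiTheta K (aboveSet E N (S₀ : Set (HeightOneSpectrum (𝓞 E)))) φ₀ Θ₀ := by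
    refine ⟨fun g x y hxy => ?_, hφ₀.2⟩
    exact hφ₀.1 (g.restrictScalars E) x y hxy
  obtain ⟨φ', Θ', h1, h2⟩ := TRIVT.desc_cast hDESC hLINF S₂ _ hab φ₀ Θ₀ hφK R (2 * Q) hdown
  exact ⟨S₂, φ', Θ', Q, hsub, hPQ, h1, h2⟩

end TRIVX

theorem TRIVX_thm (hGALQ : Stmt_GALQ) (hPERM : Stmt_PERM) (hCCQ : Stmt_CCQ) (hCMBQ : Stmt_CMBSQ)
    (hRES : Stmt_RES) (hEXPH : Stmt_EXPH) (hINDX : Stmt_INDX) (hQC : Stmt_QCS)
    (hDOWN : Stmt_DOWN) (hDESC : Stmt_DESC) (hSTEP : Stmt_STEP) (hLINF : Stmt_LINF) :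
    Stmt_TRIVX := by
  intro R hR σ P hP1 hPm hTC K L _ _ _ _ _ _ S φ Θ hφ
  obtain ⟨Q, _, _, _, hQ1, hQ2⟩ := hGALQ K
  obtain ⟨V, _, _, _, ρ, hρ⟩ := hPERM (Q ≃ₐ[ℚ] Q) (fixK ℚ K Q)
  obtain ⟨r, hr⟩ := hCCQ Q (fixK ℚ K Q)
  obtain ⟨N, _, _, iA, _, _, _, m, H, ψ, n, hH, hχ⟩ := hCMBQ ℚ Q V ρ r
    (fun c hc => by rw [hρ, hr c hc])
  let _ : Algebra K N := ((algebraMap Q N).comp (algebraMap K Q)).toAlgebra
  have : IsScalarTower K Q N := IsScalarTower.of_algebraMap_eq (fun _ => rfl)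
  have : IsScalarTower ℚ K N := IsScalarTower.of_algebraMap_eq' (Subsingleton.elim _ _)
  have : IsGalois K N := IsGalois.tower_top_of_isGalois ℚ K N
  obtain ⟨S₂, φ', Θ', k, hS, hk, hφ', hrel⟩ := TRIVX.core hEXPH hINDX hQC hDOWN hDESC hLINF
    R hR σ P hP1 hPm hTC ℚ K N (Module.finrank_self ℚ) V (ρ.comp (AlgEquiv.restrictNormalHom Q))
    (fun g => by
      have h1 : Representation.character (k := ℂ) (G := N ≃ₐ[ℚ] N) (V := V)
        (ρ.comp (AlgEquiv.restrictNormalHom Q)) g =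
          ρ.character (AlgEquiv.restrictNormalHom Q g) := rfl
      rw [h1, hρ, hRES ℚ K Q N g]) m H ψ n r hH hχ S
  obtain ⟨φ'', Θ'', h1, h2⟩ := hDESC K L S φ Θ hφ
  have h3 := hSTEP R hR K S S₂ hS φ'' Θ'' φ' Θ' h1 hφ' (2 * k) hrel
  refine ⟨k, hk, ?_⟩
  have ht : twist σ (1 : (L ≃ₐ[K] L) →* ℂˣ) = 1 := by
    ext g
    simp [twist]
  rw [ht]
  obtain ⟨f, f', hf, hf', hE⟩ := h3
  refine ⟨f, f', ⟨hf.1, fun s hs => ?_⟩, ⟨hf'.1, fun s hs => ?_⟩, ?_⟩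
  · rw [hf.2 s hs, TRIVT.logL_infl_one hLINF K L]
  · rw [hf'.2 s hs, TRIVT.logL_infl_one hLINF K L]
  · rw [h2] at hE
    exact hE

end StarkC
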