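import Pool.Agent.StarkT.Stmts

/-!
# Independence of `S` and `φ`, descent to `ℚ`: statements of the modules
-/

open NumberField IsDedekindDomain
open scoped TensorProduct Classical

namespace StarkC

/-! ### Multipliers -/

/-- Stark's conjecture up to multipliers in `P`: for all data Stark's assertion holds for `M χ`
with some `M` in `P`. -/
def StarkP (P : ℕ → Prop) : Prop :=
  ∀ (K L : Type) [Field K] [NumberField K] [Field L] [NumberField L] [Algebra K L] [IsGalois K L]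
    (S : Finset (HeightOneSpectrum (𝓞 K)))
    (φ : XQ L (aboveSet K L S) ≃ₗ[ℚ] QU L (aboveSet K L S))
    (Θ : XC L (aboveSet K L S) →ₗ[ℂ] XC L (aboveSet K L S))
    (V V' : Type) [AddCommGroup V] [Module ℂ V] [Module.Finite ℂ V]
    [AddCommGroup V'] [Module ℂ V'] [Module.Finite ℂ V']
    (ρ : Representation ℂ (L ≃ₐ[K] L) V) (ρ' : Representation ℂ (L ≃ₐ[K] L) V') (σ : ℂ ≃+* ℂ),
    IsPhiTheta K (aboveSet K L S) φ Θ → (∀ g, ρ'.character g = σ (ρ.character g)) →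
    ∃ M : ℕ, P M ∧
      StarkMulAt M (S : Set (HeightOneSpectrum (𝓞 K))) (aboveSet K L S) Θ ρ ρ' σ

/-- The same for `K = ℚ`. -/
def StarkPQ (P : ℕ → Prop) : Prop :=
  ∀ (L : Type) [Field L] [NumberField L] [IsGalois ℚ L]
    (S : Finset (HeightOneSpectrum (𝓞 ℚ)))
    (φ : XQ L (aboveSet ℚ L S) ≃ₗ[ℚ] QU L (aboveSet ℚ L S))
    (Θ : XC L (aboveSet ℚ L S) →ₗ[ℂ] XC L (aboveSet ℚ L S))
    (V V' : Type) [AddCommGroup V] [Module ℂ V] [Module.Finite ℂ V]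
    [AddCommGroup V'] [Module ℂ V'] [Module.Finite ℂ V']
    (ρ : Representation ℂ (L ≃ₐ[ℚ] L) V) (ρ' : Representation ℂ (L ≃ₐ[ℚ] L) V') (σ : ℂ ≃+* ℂ),
    IsPhiTheta ℚ (aboveSet ℚ L S) φ Θ → (∀ g, ρ'.character g = σ (ρ.character g)) →
    ∃ M : ℕ, P M ∧
      StarkMulAt M (S : Set (HeightOneSpectrum (𝓞 ℚ))) (aboveSet ℚ L S) Θ ρ ρ' σ

/-- `IND` with multipliers. -/
def Stmt_INDP : Prop :=
  ∀ (P : ℕ → Prop), P 1 → (∀ a b, P a → P b → P (a * b)) →
  ∀ (K N : Type) [Field K] [NumberField K] [Field N] [NumberField N] [Algebra K N] [IsGalois K N]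
    (S : Finset (HeightOneSpectrum (𝓞 K)))
    (φ : XQ N (aboveSet K N S) ≃ₗ[ℚ] QU N (aboveSet K N S))
    (Θ : XC N (aboveSet K N S) →ₗ[ℂ] XC N (aboveSet K N S))
    (V V' : Type) [AddCommGroup V] [Module ℂ V] [Module.Finite ℂ V]
    [AddCommGroup V'] [Module ℂ V'] [Module.Finite ℂ V']
    (ρ : Representation ℂ (N ≃ₐ[K] N) V) (ρ' : Representation ℂ (N ≃ₐ[K] N) V') (σ : ℂ ≃+* ℂ)
    (M m : ℕ) (H : Fin m → Subgroup (N ≃ₐ[K] N)) (ψ : ∀ i, H i →* ℂˣ) (n : Fin m → ℤ),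
    P M → IsPhiTheta K (aboveSet K N S) φ Θ → (∀ g, ρ'.character g = σ (ρ.character g)) →
    (∀ g, (M : ℂ) * ρ.character g = ∑ i, (n i : ℂ) * indFun (H i) (extZ (ψ i)) g) →
    (∀ i, ∃ (Mi : ℕ) (S' : Finset (HeightOneSpectrum (𝓞 (IntermediateField.fixedField (H i))))),
      P Mi ∧ aboveSet (IntermediateField.fixedField (H i)) N S' = aboveSet K N S ∧
      StarkMulAt Mi
        (S' : Set (HeightOneSpectrum (𝓞 (IntermediateField.fixedField (H i)))))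
        (aboveSet K N S) Θ (linRep (liftChar (H i) (ψ i)))
        (linRep (twist σ (liftChar (H i) (ψ i)))) σ) →
    ∃ M' : ℕ, P M' ∧
      StarkMulAt M' (S : Set (HeightOneSpectrum (𝓞 K))) (aboveSet K N S) Θ ρ ρ' σ

/-! ### Independence of `φ` -/

/-- Changing `φ` multiplies the regulators of `χ` and `χ^σ` by conjugate numbers. -/
def Stmt_PHIR : Prop :=
  ∀ (K L : Type) [Field K] [NumberField K] [Field L] [NumberField L] [Algebra K L] [IsGalois K L]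
    (S : Finset (HeightOneSpectrum (𝓞 K)))
    (φ φ₂ : XQ L (aboveSet K L S) ≃ₗ[ℚ] QU L (aboveSet K L S))
    (Θ Θ₂ : XC L (aboveSet K L S) →ₗ[ℂ] XC L (aboveSet K L S))
    (V V' : Type) [AddCommGroup V] [Module ℂ V] [Module.Finite ℂ V]
    [AddCommGroup V'] [Module ℂ V'] [Module.Finite ℂ V']
    (ρ : Representation ℂ (L ≃ₐ[K] L) V) (ρ' : Representation ℂ (L ≃ₐ[K] L) V') (σ : ℂ ≃+* ℂ),
    IsPhiTheta K (aboveSet K L S) φ Θ → IsPhiTheta K (aboveSet K L S) φ₂ Θ₂ →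
    (∀ g, ρ'.character g = σ (ρ.character g)) →
    ∃ x : ℂ, x ≠ 0 ∧ Reg (aboveSet K L S) ρ Θ₂ = x * Reg (aboveSet K L S) ρ Θ ∧
      Reg (aboveSet K L S) ρ' Θ₂ = σ x * Reg (aboveSet K L S) ρ' Θ

/-! ### Independence of `S` -/

/-- `ψ` is trivial on the decomposition groups above `v`. -/
def TrivD {K L : Type} [Field K] [NumberField K] [Field L] [NumberField L] [Algebra K L]
    (v : HeightOneSpectrum (𝓞 K)) (ψ : (L ≃ₐ[K] L) →* ℂˣ) : Prop :=
  ∀ w ∈ above K L v, ∀ (m : ℕ) (g : L ≃ₐ[K] L),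
    FrobPow L w (Ideal.absNorm v.asIdeal ^ m) g → ψ g = 1

/-- The regulators of linear characters when `v` is added to `S`. -/
def Stmt_SREG : Prop :=
  ∀ (K L : Type) [Field K] [NumberField K] [Field L] [NumberField L] [Algebra K L] [IsGalois K L]
    (S : Finset (HeightOneSpectrum (𝓞 K))) (v : HeightOneSpectrum (𝓞 K)), v ∉ S →
    ∀ (φ : XQ L (aboveSet K L S) ≃ₗ[ℚ] QU L (aboveSet K L S))
      (Θ : XC L (aboveSet K L S) →ₗ[ℂ] XC L (aboveSet K L S)),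
      IsPhiTheta K (aboveSet K L S) φ Θ →
      ∃ (φ₂ : XQ L (aboveSet K L (insert v S : Finset (HeightOneSpectrum (𝓞 K)))) ≃ₗ[ℚ]
          QU L (aboveSet K L (insert v S : Finset (HeightOneSpectrum (𝓞 K)))))
        (Θ₂ : XC L (aboveSet K L (insert v S : Finset (HeightOneSpectrum (𝓞 K)))) →ₗ[ℂ]
          XC L (aboveSet K L (insert v S : Finset (HeightOneSpectrum (𝓞 K))))) (q : ℚ),
        0 < q ∧
        IsPhiTheta K (aboveSet K L (insert v S : Finset (HeightOneSpectrum (𝓞 K)))) φ₂ Θ₂ ∧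
        ∀ ψ : (L ≃ₐ[K] L) →* ℂˣ,
          Reg (aboveSet K L (insert v S : Finset (HeightOneSpectrum (𝓞 K)))) (linRep ψ) Θ₂ =
            Reg (aboveSet K L S) (linRep ψ) Θ *
              (if TrivD v ψ then (q : ℂ) * ((Real.log (Ideal.absNorm v.asIdeal) : ℝ) : ℂ) else 1)

/-- The Euler factor at `v` of a linear character and of its conjugate. -/
def Stmt_SLF : Prop :=
  ∀ (K L : Type) [Field K] [NumberField K] [Field L] [NumberField L] [Algebra K L] [IsGalois K L]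
    (v : HeightOneSpectrum (𝓞 K)) (ψ : (L ≃ₐ[K] L) →* ℂˣ) (σ : ℂ ≃+* ℂ),
    ∃ z : ℂ, (z = 0 ∨ ∃ k : ℕ, 0 < k ∧ z ^ k = 1) ∧ (z = 1 ↔ TrivD v ψ) ∧
      ∀ S : Finset (HeightOneSpectrum (𝓞 K)), v ∉ S → ∀ s : ℂ, 1 < s.re →
        Complex.exp (logL (fun g : L ≃ₐ[K] L => ((ψ g : ℂˣ) : ℂ))
            ((insert v S : Finset (HeightOneSpectrum (𝓞 K))) :
              Set (HeightOneSpectrum (𝓞 K))) s) =
          Complex.exp (logL (fun g : L ≃ₐ[K] L => ((ψ g : ℂˣ) : ℂ))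
            (S : Set (HeightOneSpectrum (𝓞 K))) s) *
            (1 - z * (Ideal.absNorm v.asIdeal : ℂ) ^ (-s)) ∧
        Complex.exp (logL (fun g : L ≃ₐ[K] L => σ ((ψ g : ℂˣ) : ℂ))
            ((insert v S : Finset (HeightOneSpectrum (𝓞 K))) :
              Set (HeightOneSpectrum (𝓞 K))) s) =
          Complex.exp (logL (fun g : L ≃ₐ[K] L => σ ((ψ g : ℂˣ) : ℂ))
            (S : Set (HeightOneSpectrum (𝓞 K))) s) *
            (1 - σ z * (Ideal.absNorm v.asIdeal : ℂ) ^ (-s))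

def Stmt_LEULZ : Prop :=
  ∀ n : ℕ, 1 < n → ∀ z : ℂ, (∀ a, MeromorphicAt (fun s : ℂ => 1 - z * (n : ℂ) ^ (-s)) a) ∧
    meromorphicTrailingCoeffAt (fun s : ℂ => 1 - z * (n : ℂ) ^ (-s)) 0 =
      if z = 1 then ((Real.log n : ℝ) : ℂ) else 1 - z

/-- Stark's assertion for a linear character does not depend on `S` and `φ`. -/
def Stmt_SINDP : Prop :=
  ∀ (K L : Type) [Field K] [NumberField K] [Field L] [NumberField L] [Algebra K L] [IsGalois K L]
    (ψ : (L ≃ₐ[K] L) →* ℂˣ) (σ : ℂ ≃+* ℂ) (M : ℕ)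
    (S S₂ : Finset (HeightOneSpectrum (𝓞 K)))
    (φ : XQ L (aboveSet K L S) ≃ₗ[ℚ] QU L (aboveSet K L S))
    (Θ : XC L (aboveSet K L S) →ₗ[ℂ] XC L (aboveSet K L S))
    (φ₂ : XQ L (aboveSet K L S₂) ≃ₗ[ℚ] QU L (aboveSet K L S₂))
    (Θ₂ : XC L (aboveSet K L S₂) →ₗ[ℂ] XC L (aboveSet K L S₂)),
    IsPhiTheta K (aboveSet K L S) φ Θ → IsPhiTheta K (aboveSet K L S₂) φ₂ Θ₂ →
    StarkMulAt M (S : Set (HeightOneSpectrum (𝓞 K))) (aboveSet K L S) Θ
      (linRep ψ) (linRep (twist σ ψ)) σ →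
    StarkMulAt M (S₂ : Set (HeightOneSpectrum (𝓞 K))) (aboveSet K L S₂) Θ₂
      (linRep ψ) (linRep (twist σ ψ)) σ

/-! ### Induced characters -/

/-- Monomial representations. -/
def Stmt_INDREP : Prop :=
  ∀ (G : Type) [Group G] [Fintype G] (H : Subgroup G) (ψ : H →* ℂˣ),
    ∃ (V : Type) (_ : AddCommGroup V) (_ : Module ℂ V) (_ : Module.Finite ℂ V)
      (ρ : Representation ℂ G V), ∀ g, ρ.character g = indFun H (extZ ψ) g

/-- An element of `Gal(N/E)` fixing `K`, as an element of `Gal(N/K)`. -/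
def toK {E K N : Type} [Field E] [Field K] [Field N] [Algebra E N] [Algebra K N]
    (g : N ≃ₐ[E] N) (hg : g ∈ fixK E K N) : N ≃ₐ[K] N :=
  AlgEquiv.ofRingEquiv (f := (g : N ≃+* N)) (fun x => hg x)

/-- A linear character of `Gal(N/K)`, extended by zero to `Gal(N/E)`. -/
noncomputable def extK (E : Type) {K N : Type} [Field E] [Field K] [Field N] [Algebra E N]
    [Algebra K N] (ψ : (N ≃ₐ[K] N) →* ℂˣ) : (N ≃ₐ[E] N) → ℂ :=
  fun g => if h : g ∈ fixK E K N then ((ψ (toK g h) : ℂˣ) : ℂ) else 0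

/-- From the induced character over `E` to the linear character over `K`. -/
def Stmt_DOWNL : Prop :=
  ∀ (E K N : Type) [Field E] [NumberField E] [Field K] [NumberField K]
    [Field N] [NumberField N] [Algebra E K] [Algebra E N] [Algebra K N] [IsScalarTower E K N]
    [IsGalois E N] [IsGalois K N]
    (S₀ : Finset (HeightOneSpectrum (𝓞 E))) (S : Finset (HeightOneSpectrum (𝓞 K))),
    aboveSet K N (S : Set (HeightOneSpectrum (𝓞 K))) = aboveSet E N S₀ →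
    ∀ (φ : XQ N (aboveSet E N S₀) ≃ₗ[ℚ] QU N (aboveSet E N S₀))
      (Θ : XC N (aboveSet E N S₀) →ₗ[ℂ] XC N (aboveSet E N S₀)),
      IsPhiTheta E (aboveSet E N S₀) φ Θ →
      ∀ (V V' : Type) [AddCommGroup V] [Module ℂ V] [Module.Finite ℂ V]
        [AddCommGroup V'] [Module ℂ V'] [Module.Finite ℂ V']
        (ρ : Representation ℂ (N ≃ₐ[E] N) V) (ρ' : Representation ℂ (N ≃ₐ[E] N) V')
        (ψ : (N ≃ₐ[K] N) →* ℂˣ) (σ : ℂ ≃+* ℂ),
        (∀ g, ρ.character g = indFun (fixK E K N) (extK E ψ) g) →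
        (∀ g, ρ'.character g = σ (ρ.character g)) →
        ∀ M : ℕ,
          StarkMulAt M (S₀ : Set (HeightOneSpectrum (𝓞 E))) (aboveSet E N S₀) Θ ρ ρ' σ →
          StarkMulAt M (S : Set (HeightOneSpectrum (𝓞 K))) (aboveSet E N S₀) Θ
            (linRep ψ) (linRep (twist σ ψ)) σ

/-- **Stark's conjecture over `ℚ` implies Stark's conjecture over all number fields.** -/
def Stmt_BASEQ : Prop :=
  ∀ (P : ℕ → Prop), P 1 → (∀ a b, P a → P b → P (a * b)) → StarkPQ P → StarkP P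

end StarkC
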