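import Pool.Agent.StarkS.Stmts

/-!
# Multipliers: exact versions
-/

open NumberField IsDedekindDomain
open scoped TensorProduct Classical

namespace StarkC

/-- The relation for a linear character and its `σ`-conjugate, all `S`, `φ`, with the exponent
`k * M` for some `M` in `P`. -/
def RelLinP (R : Set (ℂ × ℂ)) (P : ℕ → Prop) (k : ℕ) (σ : ℂ ≃+* ℂ) (K L : Type) [Field K]
    [NumberField K] [Field L] [NumberField L] [Algebra K L] (ψ : (L ≃ₐ[K] L) →* ℂˣ) : Prop :=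
  ∀ (S : Finset (HeightOneSpectrum (𝓞 K)))
    (φ : XQ L (aboveSet K L S) ≃ₗ[ℚ] QU L (aboveSet K L S))
    (Θ : XC L (aboveSet K L S) →ₗ[ℂ] XC L (aboveSet K L S)),
    IsPhiTheta K (aboveSet K L S) φ Θ →
    ∃ M : ℕ, P M ∧ RelAt R (k * M) (S : Set (HeightOneSpectrum (𝓞 K))) (aboveSet K L S) Θ
      (linRep ψ) (linRep (twist σ ψ))

/-- The relation for linear characters over totally complex base fields. -/
def RelTCP (R : Set (ℂ × ℂ)) (P : ℕ → Prop) (σ : ℂ ≃+* ℂ) : Prop :=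
  ∀ (K L : Type) [Field K] [NumberField K] [Field L] [NumberField L] [Algebra K L] [IsGalois K L]
    (ψ : (L ≃ₐ[K] L) →* ℂˣ), IsTotallyComplex K → RelLinP R P 1 σ K L ψ

/-- Induction from subfields, with exponents. -/
def Stmt_INDX : Prop :=
  ∀ (R : Set (ℂ × ℂ)), IsRel R → ∀ (σ : ℂ ≃+* ℂ)
    (K N : Type) [Field K] [NumberField K] [Field N] [NumberField N] [Algebra K N] [IsGalois K N]
    (S : Finset (HeightOneSpectrum (𝓞 K)))
    (φ : XQ N (aboveSet K N S) ≃ₗ[ℚ] QU N (aboveSet K N S))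
    (Θ : XC N (aboveSet K N S) →ₗ[ℂ] XC N (aboveSet K N S))
    (V V' : Type) [AddCommGroup V] [Module ℂ V] [Module.Finite ℂ V]
    [AddCommGroup V'] [Module ℂ V'] [Module.Finite ℂ V']
    (ρ : Representation ℂ (N ≃ₐ[K] N) V) (ρ' : Representation ℂ (N ≃ₐ[K] N) V')
    (M m : ℕ) (H : Fin m → Subgroup (N ≃ₐ[K] N)) (ψ : ∀ i, H i →* ℂˣ) (n : Fin m → ℤ)
    (k : Fin m → ℕ),
    IsPhiTheta K (aboveSet K N S) φ Θ → (∀ g, ρ'.character g = σ (ρ.character g)) →
    (∀ g, (M : ℂ) * ρ.character g =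
      ∑ i, (n i : ℂ) * ((k i : ℂ) * indFun (H i) (extZ (ψ i)) g)) →
    (∀ i, ∃ S' : Finset (HeightOneSpectrum (𝓞 (IntermediateField.fixedField (H i)))),
      aboveSet (IntermediateField.fixedField (H i)) N S' = aboveSet K N S ∧
      RelAt R (k i) (S' : Set (HeightOneSpectrum (𝓞 (IntermediateField.fixedField (H i)))))
        (aboveSet K N S) Θ (linRep (liftChar (H i) (ψ i)))
        (linRep (twist σ (liftChar (H i) (ψ i))))) →
    RelAt R M (S : Set (HeightOneSpectrum (𝓞 K))) (aboveSet K N S) Θ ρ ρ'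

/-- The trivial character over all number fields. -/
def Stmt_TRIVX : Prop :=
  ∀ (R : Set (ℂ × ℂ)), IsRel R → ∀ (σ : ℂ ≃+* ℂ) (P : ℕ → Prop), P 1 →
    (∀ a b, P a → P b → P (a * b)) → RelTCP R P σ →
  ∀ (K L : Type) [Field K] [NumberField K] [Field L] [NumberField L] [Algebra K L] [IsGalois K L],
    RelLinP R P 2 σ K L 1

/-- The reduction, for a general relation. -/
def Stmt_RMAINX : Prop :=
  ∀ (R : Set (ℂ × ℂ)), IsRel R → ∀ (σ : ℂ ≃+* ℂ) (P : ℕ → Prop), P 1 →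
    (∀ a b, P a → P b → P (a * b)) → RelTCP R P σ →
  ∀ (K L : Type) [Field K] [NumberField K] [Field L] [NumberField L] [Algebra K L] [IsGalois K L]
    (S : Finset (HeightOneSpectrum (𝓞 K)))
    (φ : XQ L (aboveSet K L S) ≃ₗ[ℚ] QU L (aboveSet K L S))
    (Θ : XC L (aboveSet K L S) →ₗ[ℂ] XC L (aboveSet K L S))
    (V V' : Type) [AddCommGroup V] [Module ℂ V] [Module.Finite ℂ V]
    [AddCommGroup V'] [Module ℂ V'] [Module.Finite ℂ V']
    (ρ : Representation ℂ (L ≃ₐ[K] L) V) (ρ' : Representation ℂ (L ≃ₐ[K] L) V'),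
    IsPhiTheta K (aboveSet K L S) φ Θ → (∀ g, ρ'.character g = σ (ρ.character g)) →
    ∃ M : ℕ, P M ∧ RelAt R (2 * M) (S : Set (HeightOneSpectrum (𝓞 K))) (aboveSet K L S) Θ ρ ρ'

end StarkC
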