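import Pool.Agent.StarkT.StmtsX
import Pool.Agent.StarkT.TRIVX
import Pool.Agent.StarkT.RMAIN

/-!
# Multipliers: the reduction
-/

open NumberField IsDedekindDomain
open scoped TensorProduct Classical

namespace StarkC

theorem RMAINX_thm (hC : Stmt_CMBS) (hT : Stmt_TRIVX) (hD : Stmt_INDX) (hI : Stmt_INFL)
    (hL : Stmt_LINF) : Stmt_RMAINX := by
  intro R hR σ P hP1 hPm hTC K L _ _ _ _ _ _ S φ Θ V V' _ _ _ _ _ _ ρ ρ' hφ hσ
  obtain ⟨N, _, _, _, _, _, _, m, H, ψ, n, k, hgood, hchar⟩ := hC K L V ρ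
  obtain ⟨φ', Θ', hφ', hReg⟩ := hI K L N S φ Θ hφ
  have hlin : ∀ i, RelLinP R P (k i) σ (IntermediateField.fixedField (H i)) N
      (liftChar (H i) (ψ i)) := by
    intro i
    rcases hgood i with ⟨h, hk⟩ | ⟨h, hk⟩
    · rw [hk]
      exact hTC (IntermediateField.fixedField (H i)) N (liftChar (H i) (ψ i))
        (GOOD.totallyComplex (H i) h)
    · rw [hk, h, RMAIN.liftChar_one]
      exact hT R hR σ P hP1 hPm hTC (IntermediateField.fixedField (H i)) N
  have hinst : ∀ i, ∃ (Mi : ℕ)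
      (S' : Finset (HeightOneSpectrum (𝓞 (IntermediateField.fixedField (H i))))),
      P Mi ∧ aboveSet (IntermediateField.fixedField (H i)) N S' = aboveSet K N S ∧
      RelAt R (k i * Mi) (S' : Set (HeightOneSpectrum (𝓞 (IntermediateField.fixedField (H i)))))
        (aboveSet K N S) Θ' (linRep (liftChar (H i) (ψ i)))
        (linRep (twist σ (liftChar (H i) (ψ i)))) := by
    intro i
    obtain ⟨S', hS'⟩ := IND.exists_S' (IntermediateField.fixedField (H i))
      (S : Set (HeightOneSpectrum (𝓞 K))) S.finite_toSet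
    obtain ⟨Mi, hMi, hrel⟩ := TRIVX.relLinP_cast R P (k i) σ (liftChar (H i) (ψ i))
      (hlin i) S' _ hS' φ' Θ' (IND.isPhiTheta_sub _ hφ')
    exact ⟨Mi, S', hMi, hS', hrel⟩
  choose Mi Si hMi hSi hrel using hinst
  set Q : ℕ := ∏ i, Mi i with hQ
  set q : Fin m → ℕ := fun i => ∏ j ∈ Finset.univ.erase i, Mi j with hq
  have hk : ∀ i, Q = q i * Mi i := fun i => by
    rw [hQ, hq, mul_comm]
    exact (Finset.mul_prod_erase _ _ (Finset.mem_univ i)).symm
  have hPQ : P Q := TRIVX.prod_mem P hP1 hPm Mi hMi _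
  obtain ⟨f, f', hf, hf', hE⟩ := hD R hR σ K N S φ' Θ' V V'
    (ρ.comp (AlgEquiv.restrictNormalHom L)) (ρ'.comp (AlgEquiv.restrictNormalHom L)) (2 * Q) m H ψ
    (fun i => n i * (q i : ℤ)) (fun i => k i * Mi i)
    hφ' (fun g => hσ _) (fun g => by
      have h1 : Representation.character (k := ℂ) (G := N ≃ₐ[K] N) (V := V)
        (ρ.comp (AlgEquiv.restrictNormalHom L)) g =
          ρ.character (AlgEquiv.restrictNormalHom L g) := rfl
      have h2 : ((2 * Q : ℕ) : ℂ) * ρ.character (AlgEquiv.restrictNormalHom L g) =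
          (Q : ℂ) * ((2 : ℂ) * ρ.character (AlgEquiv.restrictNormalHom L g)) := by
        push_cast
        ring
      rw [h1, h2, hchar g, Finset.mul_sum]
      refine Finset.sum_congr rfl fun i _ => ?_
      rw [hk i]
      push_cast
      ring) (fun i => ⟨Si i, hSi i, hrel i⟩)
  refine ⟨Q, hPQ, f, f', ⟨hf.1, fun s hs => ?_⟩, ⟨hf'.1, fun s hs => ?_⟩, ?_⟩
  · rw [hf.2 s hs, MAIN.logL_infl hL]
  · rw [hf'.2 s hs, MAIN.logL_infl hL]
  · rw [hReg V ρ, hReg V' ρ'] at hE
    exact hE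

end StarkC
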