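import Pool.Agent.StarkT.PDefsX
import Pool.Agent.StarkT.PBridgeT
import Pool.Agent.StarkT.RMAINX

/-!
# Bridge between the two forms of the definitions: multiples
-/

open NumberField IsDedekindDomain
open scoped TensorProduct Classical

namespace StarkB

section

variable {K L : Type} [Field K] [NumberField K] [Field L] [NumberField L] [Algebra K L]
  [IsGalois K L]

theorem starkRepMul_iff (P : Submonoid ℕ) (k : ℕ)
    {V V' : Type} [AddCommGroup V] [Module ℂ V] [Module.Finite ℂ V] [AddCommGroup V']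
    [Module ℂ V'] [Module.Finite ℂ V']
    (ρ : Representation ℂ (L ≃ₐ[K] L) V) (ρ' : Representation ℂ (L ≃ₐ[K] L) V')
    (σ : ℂ ≃+* ℂ) :
    StarkP.StarkRepMul P k ρ ρ' σ ↔
    ∀ (S : Finset (HeightOneSpectrum (𝓞 K)))
      (φ : StarkC.XQ L (StarkC.aboveSet K L S) ≃ₗ[ℚ] StarkC.QU L (StarkC.aboveSet K L S))
      (Θ : StarkC.XC L (StarkC.aboveSet K L S) →ₗ[ℂ] StarkC.XC L (StarkC.aboveSet K L S)),
      StarkC.IsPhiTheta K (StarkC.aboveSet K L S) φ Θ →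
      ∃ M : ℕ, M ∈ P ∧ StarkC.StarkMulAt (k * M) (S : Set (HeightOneSpectrum (𝓞 K)))
        (StarkC.aboveSet K L S) Θ ρ ρ' σ := by
  unfold StarkP.StarkRepMul
  refine forall_congr' fun S => ?_
  have h := starkMul_iff (fun M' => ∃ M : ℕ, M ∈ P ∧ M' = k * M) S ρ ρ' σ
  rw [aboveSet_eq]
  constructor
  · intro h1 φ Θ hφ
    obtain ⟨M', ⟨M, hM, rfl⟩, h3⟩ := h.1 (fun Θ' hΘ' => by
      obtain ⟨M, hM, h4⟩ := h1 Θ' hΘ'
      exact ⟨k * M, ⟨M, hM, rfl⟩, h4⟩) φ Θ hφ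
    exact ⟨M, hM, h3⟩
  · intro h1 Θ' hΘ'
    obtain ⟨M', ⟨M, hM, rfl⟩, h3⟩ := h.2 (fun φ Θ hφ => by
      obtain ⟨M, hM, h4⟩ := h1 φ Θ hφ
      exact ⟨k * M, ⟨M, hM, rfl⟩, h4⟩) Θ' hΘ'
    exact ⟨M, hM, h3⟩

end

/-- The reduction, printable form, from `RMAINX`. -/
theorem starkMul_main (hR : StarkC.Stmt_RMAINX) (P : Submonoid ℕ)
    (h : StarkP.StarkTotallyComplexMul P) : StarkP.StarkConjectureMul P 2 := by
  intro K L V V' _ _ _ _ _ _ _ _ _ _ _ _ ρ ρ' σ hχ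
  refine (starkRepMul_iff P 2 ρ ρ' σ).2 fun S φ Θ hφ => ?_
  have hTC : StarkC.RelTCP (StarkC.TMAIN.relS σ) (fun M => M ∈ P) σ := by
    intro K L _ _ _ _ _ _ ψ hK S φ Θ hφ
    exact (starkRepMul_iff P 1 (StarkP.linRep ψ) (StarkP.linRep (StarkP.twist σ ψ)) σ).1
      (h K L hK ψ σ) S φ Θ hφ
  exact hR (StarkC.TMAIN.relS σ) (StarkC.TMAIN.isRel_relS σ) σ (fun M => M ∈ P) P.one_mem
    (fun a b ha hb => P.mul_mem ha hb) hTC K L S φ Θ V V' ρ ρ' hφ hχ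

end StarkB
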