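import Pool.Agent.StarkT.ALL
import Pool.Agent.StarkT.INDX
import Pool.Agent.StarkT.TRIVX
import Pool.Agent.StarkT.RMAINX
import Pool.Agent.StarkT.PBridgeX
import Pool.Agent.StarkS.CMBS
import Pool.Agent.StarkS.QCS
import Pool.Agent.StarkS.SADD
import Pool.Agent.StarkS.SAP
import Pool.Agent.StarkS.SCLF
import Pool.Agent.StarkS.SFD
import Pool.Agent.StarkS.SFLG
import Pool.Agent.StarkS.SFLP
import Pool.Agent.StarkS.SHS
import Pool.Agent.StarkS.SIDL
import Pool.Agent.StarkS.SIND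
import Pool.Agent.StarkS.SLIN
import Pool.Agent.StarkS.SLN1
import Pool.Agent.StarkS.SMNX
import Pool.Agent.StarkS.SNEG
import Pool.Agent.StarkS.SPOS
import Pool.Agent.StarkS.SREP
import Pool.Agent.StarkS.SSUM
import Pool.Agent.StarkS.STWQ
import Pool.Agent.StarkS.SU

/-!
# Stark up to sign: assembly of all modules
-/

open NumberField IsDedekindDomain
open scoped TensorProduct Classical

namespace StarkC

namespace ALLX

theorem sidl : Stmt_SIDL := SIDL_thm ALLT.bra
theorem sneg : Stmt_SNEG := SNEG_thm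
theorem spos : Stmt_SPOS := SPOS_thm sneg sidl
theorem sind : Stmt_SIND := SIND_thm
theorem sflp : Stmt_SFLP := SFLP_thm sneg spos sidl sind SFLG_thm
theorem sln1 : Stmt_SLN1 := SLN1_thm sneg spos sidl sind
theorem slin : Stmt_SLIN := SLIN_thm sln1 sflp sidl sind
theorem sadd : Stmt_SADD := SADD_thm sneg spos sidl sind
theorem smnx : Stmt_SMNX := SMNX_thm slin sadd sln1 sneg spos sidl sind SREP_thm
theorem ssum : Stmt_SSUM := SSUM_thm sadd spos sneg sidl
theorem sclf : Stmt_SCLF := SCLF_thm ALLT.bra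
theorem stwq : Stmt_STWQ := STWQ_thm sclf smnx sidl ALLT.bra
theorem su : Stmt_SU := SU_thm stwq ssum sidl sln1
theorem sfd : Stmt_SFD := SFD_thm SAP_thm ART_thm AR3_thm
theorem cmbs : Stmt_CMBS := CMBS_thm SOL_thm QET_thm ALLT.bra sfd SHS_thm su sind
theorem cmbsq : Stmt_CMBSQ := CMBSQ_thm SOL_thm QET_thm ALLT.bra sfd SHS_thm su sind

theorem qcs : Stmt_QCS :=
  QCS_thm ALLT.desc REG1_thm REGS_thm EUL_thm ZETA_thm MZ_thm LEUL_thm LINF_thm ALLT.exph

theorem indx : Stmt_INDX :=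
  INDX_thm LA_thm ALLT.lb ALLT.lind TRD_thm ALLT.rgt STB_thm ALLT.thc ALLT.thb

theorem trivx : Stmt_TRIVX :=
  TRIVX_thm GALQ_thm PERM_thm CCQ_thm cmbsq RES_thm ALLT.exph indx qcs ALLT.down ALLT.desc
    ALLT.step LINF_thm

theorem rmainx : Stmt_RMAINX := RMAINX_thm cmbs trivx indx ALLT.infl LINF_thm

end ALLX

end StarkC
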