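import Pool.Agent.Stark.PDefs

/-!
# Stark's conjecture up to roots of unity of 2-power order: definitions
-/

open NumberField IsDedekindDomain
open scoped Classical

namespace StarkP

/-- The direct sum of `M` copies of the representation `ρ`; its character is `M χ` if `χ` is the
character of `ρ`. -/
noncomputable def mulRep {G V : Type} [Group G] [AddCommGroup V] [Module ℂ V] (M : ℕ)
    (ρ : Representation ℂ G V) : Representation ℂ G (Fin M → V) where
  toFun g := (ρ g).compLeft (Fin M)
  map_one' := by ext; simp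
  map_mul' a b := by ext; simp

/-- For all `S` and `φ` there is an `m` such that Stark's assertion
`A_S(2^m χ, φ)^σ = A_S((2^m χ)^σ, φ)` holds, where `χ`, `χ^σ` are the characters of `ρ`, `ρ'`. -/
def StarkRepTwo {K L : Type} [Field K] [NumberField K] [Field L] [NumberField L] [Algebra K L]
    {V V' : Type} [AddCommGroup V] [Module ℂ V] [AddCommGroup V'] [Module ℂ V']
    (ρ : Representation ℂ (L ≃ₐ[K] L) V) (ρ' : Representation ℂ (L ≃ₐ[K] L) V')
    (σ : ℂ ≃+* ℂ) : Prop :=
  ∀ (S : Finset (HeightOneSpectrum (𝓞 K))) (Θ : ((L → ℝ) →₀ ℂ) →ₗ[ℂ] ((L → ℝ) →₀ ℂ)),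
    IsTheta K (aboveSet K L S) Θ →
    ∃ m : ℕ, StarkAt S (aboveSet K L S) Θ (mulRep (2 ^ m) ρ) (mulRep (2 ^ m) ρ') σ

/-- The assertion `StarkRepTwo` for `Gal(L/K)`, all `σ` and all characters `χ`, `χ^σ` of
representations on the spaces `V`, `V'`. -/
def StarkSpacesTwo (K L V V' : Type) [Field K] [NumberField K] [Field L] [NumberField L]
    [Algebra K L] [AddCommGroup V] [Module ℂ V] [AddCommGroup V'] [Module ℂ V'] : Prop :=
  ∀ (ρ : Representation ℂ (L ≃ₐ[K] L) V) (ρ' : Representation ℂ (L ≃ₐ[K] L) V') (σ : ℂ ≃+* ℂ),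
    (∀ g, ρ'.character g = σ (ρ.character g)) → StarkRepTwo ρ ρ' σ

/-- **Stark's conjecture up to roots of unity of 2-power order**: for all finite Galois extensions
of number fields, all `S`, `φ`, all automorphisms of `ℂ` and all characters `χ` Stark's assertion
holds for `2^m χ` with some `m`. -/
def StarkConjectureTwo : Prop :=
  ∀ (K L V V' : Type) [Field K] [NumberField K] [Field L] [NumberField L] [Algebra K L]
    [IsGalois K L] [AddCommGroup V] [Module ℂ V] [Module.Finite ℂ V]
    [AddCommGroup V'] [Module ℂ V'] [Module.Finite ℂ V'], StarkSpacesTwo K L V V'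

/-- The assertion `StarkRepTwo` for all linear characters of `Gal(L/K)` and all `σ`, if `K` is
totally complex. -/
def StarkLinearTwoTC (K L : Type) [Field K] [NumberField K] [Field L] [NumberField L]
    [Algebra K L] : Prop :=
  IsTotallyComplex K → ∀ (ψ : (L ≃ₐ[K] L) →* ℂˣ) (σ : ℂ ≃+* ℂ),
    StarkRepTwo (linRep ψ) (linRep (twist σ ψ)) σ

/-- Stark's conjecture up to roots of unity of 2-power order for the linear characters over
totally complex base fields. -/
def StarkTotallyComplexTwo : Prop :=
  ∀ (K L : Type) [Field K] [NumberField K] [Field L] [NumberField L] [Algebra K L] [IsGalois K L],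
    StarkLinearTwoTC K L

end StarkP
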