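import Pool.Agent.Stark.PDefs

/-!
# Stark's conjecture for multiples of characters: definitions
-/

open NumberField IsDedekindDomain
open scoped Classical

namespace StarkP

/-- The direct sum of `M` copies of the representation `ρ`; its character is `M χ` if `χ` is the
character of `ρ`. -/
noncomputable def copies {G V : Type} [Group G] [AddCommGroup V] [Module ℂ V] (M : ℕ)
    (ρ : Representation ℂ G V) : Representation ℂ G (Fin M → V) where
  toFun g := (ρ g).compLeft (Fin M)
  map_one' := by ext; simp
  map_mul' a b := by ext; simp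

/-- For all `S` and `φ` there is an `M` in `P` such that Stark's assertion
`A_S(k M χ, φ)^σ = A_S((k M χ)^σ, φ)` holds, where `χ`, `χ^σ` are the characters of `ρ`, `ρ'`. -/
def StarkRepMul {K L : Type} [Field K] [NumberField K] [Field L] [NumberField L] [Algebra K L]
    {V V' : Type} [AddCommGroup V] [Module ℂ V] [AddCommGroup V'] [Module ℂ V']
    (P : Submonoid ℕ) (k : ℕ) (ρ : Representation ℂ (L ≃ₐ[K] L) V)
    (ρ' : Representation ℂ (L ≃ₐ[K] L) V') (σ : ℂ ≃+* ℂ) : Prop :=
  ∀ (S : Finset (HeightOneSpectrum (𝓞 K))) (Θ : ((L → ℝ) →₀ ℂ) →ₗ[ℂ] ((L → ℝ) →₀ ℂ)),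
    IsTheta K (aboveSet K L S) Θ →
    ∃ M ∈ P, StarkAt S (aboveSet K L S) Θ (copies (k * M) ρ) (copies (k * M) ρ') σ

/-- The assertion `StarkRepMul` for `Gal(L/K)`, all `σ` and all characters `χ`, `χ^σ` of
representations on the spaces `V`, `V'`. -/
def StarkSpacesMul (P : Submonoid ℕ) (k : ℕ) (K L V V' : Type) [Field K] [NumberField K] [Field L]
    [NumberField L] [Algebra K L] [AddCommGroup V] [Module ℂ V] [AddCommGroup V'] [Module ℂ V'] :
    Prop :=
  ∀ (ρ : Representation ℂ (L ≃ₐ[K] L) V) (ρ' : Representation ℂ (L ≃ₐ[K] L) V') (σ : ℂ ≃+* ℂ),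
    (∀ g, ρ'.character g = σ (ρ.character g)) → StarkRepMul P k ρ ρ' σ

/-- Stark's conjecture for multiples: for all finite Galois extensions of number fields, all `S`,
`φ`, all automorphisms of `ℂ` and all characters `χ` Stark's assertion holds for `k M χ` with some
`M` in `P`. -/
def StarkConjectureMul (P : Submonoid ℕ) (k : ℕ) : Prop :=
  ∀ (K L V V' : Type) [Field K] [NumberField K] [Field L] [NumberField L] [Algebra K L]
    [IsGalois K L] [AddCommGroup V] [Module ℂ V] [Module.Finite ℂ V]
    [AddCommGroup V'] [Module ℂ V'] [Module.Finite ℂ V'], StarkSpacesMul P k K L V V'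

/-- The assertion `StarkRepMul` for all linear characters of `Gal(L/K)` and all `σ`, if `K` is
totally complex. -/
def StarkLinearMulTC (P : Submonoid ℕ) (K L : Type) [Field K] [NumberField K] [Field L]
    [NumberField L] [Algebra K L] : Prop :=
  IsTotallyComplex K → ∀ (ψ : (L ≃ₐ[K] L) →* ℂˣ) (σ : ℂ ≃+* ℂ),
    StarkRepMul P 1 (linRep ψ) (linRep (twist σ ψ)) σ

/-- Stark's conjecture for multiples of linear characters over totally complex base fields: for all
`S`, `φ`, `σ` Stark's assertion holds for `M ψ` with some `M` in `P`. -/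
def StarkTotallyComplexMul (P : Submonoid ℕ) : Prop :=
  ∀ (K L : Type) [Field K] [NumberField K] [Field L] [NumberField L] [Algebra K L] [IsGalois K L],
    StarkLinearMulTC P K L

end StarkP
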