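import Pool.Agent.StarkT.Stmts
import Pool.Agent.Stark.CMB

/-!
# Permutation characters and restriction (module RES)
-/

open NumberField IsDedekindDomain
open scoped TensorProduct Classical

namespace StarkC

theorem RES_thm : Stmt_RES := by
  intro E K L N _ _ _ _ _ _ _ _ _ _ _ _ _ _ _ _ _ _ _ _ g
  rw [CMB.indFun_infl (AlgEquiv.restrictNormalHom L)
    (AlgEquiv.restrictNormalHom_surjective N) (fixK E K L) (fun _ => 1) g]
  congr 1
  ext a
  rw [Subgroup.mem_comap]
  have hc : ∀ x : L, algebraMap L N (AlgEquiv.restrictNormalHom L a x) = a (algebraMap L N x) :=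
    fun x => AlgEquiv.restrictNormal_commutes a L x
  constructor
  · intro h x
    have hx : AlgEquiv.restrictNormalHom L a (algebraMap K L x) = algebraMap K L x := h x
    rw [IsScalarTower.algebraMap_apply K L N, ← hc, hx]
  · intro h x
    show AlgEquiv.restrictNormalHom L a (algebraMap K L x) = algebraMap K L x
    apply (algebraMap L N).injective
    rw [hc, ← IsScalarTower.algebraMap_apply K L N]
    exact h x

end StarkC
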